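import Mathlib
import Pool.Agent.Work.MP_e0d07f_co.Defs

-- merged part: Pool.Agent.Work.MP_e0d07f_co.Motion
section
namespace Pool.Agent.Work.MP_e0d07f_co

open Finset Polynomial Module

/-- Polynomials of degree `< d`. -/
noncomputable abbrev Pd (d : ℕ) := Polynomial.degreeLT ℚ d

/-- Evaluation. -/
noncomputable def ev (d : ℕ) (x : ℚ) : Pd d →ₗ[ℚ] ℚ :=
  (Polynomial.leval x).comp (Polynomial.degreeLT ℚ d).subtype

lemma ev_apply (d : ℕ) (x : ℚ) (P : Pd d) : ev d x P = (P : ℚ[X]).eval x := rfl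

lemma finrank_Pd (d : ℕ) : finrank ℚ (Pd d) = d := by
  rw [(Polynomial.degreeLTEquiv ℚ d).finrank_eq]; simp

instance finite_Pd (d : ℕ) : Module.Finite ℚ (Pd d) :=
  Module.Finite.equiv (Polynomial.degreeLTEquiv ℚ d).symm

variable {V : Type} {d : ℕ} {t : V → ℚ}

lemma Pd_eq_zero (ht : Function.Injective t) (C : Finset V) (hC : d ≤ C.card) (P : Pd d)
    (h : ∀ c ∈ C, ev d (t c) P = 0) : P = 0 := by
  apply Subtype.ext
  refine Polynomial.eq_zero_of_degree_lt_of_eval_index_eq_zero C (ht.injOn) ?_ h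
  exact lt_of_lt_of_le (Polynomial.mem_degreeLT.mp P.2) (by exact_mod_cast hC)

lemma Pd_interp [DecidableEq V] (ht : Function.Injective t) (C : Finset V) (hC : d ≤ C.card)
    (P : Pd d) (x : ℚ) :
    ev d x P = ∑ c ∈ C, ev d (t c) P * (Lagrange.basis C t c).eval x := by
  have h := Lagrange.eq_interpolate (s := C) (v := t) (f := (P : ℚ[X])) ht.injOn
    (lt_of_lt_of_le (Polynomial.mem_degreeLT.mp P.2) (by exact_mod_cast hC))
  rw [ev_apply]
  conv_lhs => rw [h]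
  rw [Lagrange.interpolate_apply, Polynomial.eval_finsetSum]
  simp [ev_apply]

/-- The `K_{d+2}` rule preserves the motion constraints. -/
lemma clique_rule (ht : Function.Injective t) (C : Finset V) (hC : d ≤ C.card)
    (m : V → Pd d) (a b : V)
    (hCC : ∀ c ∈ C, ∀ c' ∈ C, ev d (t c') (m c) = ev d (t c) (m c'))
    (ha : ∀ c ∈ C, ev d (t c) (m a) = ev d (t a) (m c))
    (hb : ∀ c ∈ C, ev d (t c) (m b) = ev d (t b) (m c)) :
    ev d (t b) (m a) = ev d (t a) (m b) := by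
  classical
  rw [Pd_interp ht C hC (m a) (t b), Pd_interp ht C hC (m b) (t a)]
  have e1 : ∀ c ∈ C, ev d (t c) (m a) * (Lagrange.basis C t c).eval (t b)
      = ∑ c' ∈ C, ev d (t c') (m c) * (Lagrange.basis C t c').eval (t a)
        * (Lagrange.basis C t c).eval (t b) := by
    intro c hc
    rw [ha c hc, Pd_interp ht C hC (m c) (t a), Finset.sum_mul]
  have e2 : ∀ c ∈ C, ev d (t c) (m b) * (Lagrange.basis C t c).eval (t a)
      = ∑ c' ∈ C, ev d (t c') (m c) * (Lagrange.basis C t c').eval (t b)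
        * (Lagrange.basis C t c).eval (t a) := by
    intro c hc
    rw [hb c hc, Pd_interp ht C hC (m c) (t b), Finset.sum_mul]
  rw [Finset.sum_congr rfl e1, Finset.sum_congr rfl e2, Finset.sum_comm]
  refine Finset.sum_congr rfl fun c hc => Finset.sum_congr rfl fun c' hc' => ?_
  rw [hCC c' hc' c hc]; ring

variable (d t) in
/-- Motions of a graph. -/
def Mot (H : SimpleGraph V) : Submodule ℚ (V → Pd d) where
  carrier := {m | ∀ u v, H.Adj u v → ev d (t v) (m u) = ev d (t u) (m v)}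
  add_mem' := by
    intro a b ha hb u v huv
    simp only [Pi.add_apply, map_add, ha u v huv, hb u v huv]
  zero_mem' := by intro u v _; simp
  smul_mem' := by
    intro c a ha u v huv
    simp only [Pi.smul_apply, map_smul, ha u v huv]

variable (d) in
/-- Assignments vanishing on `U`. -/
def Van (U : Set V) : Submodule ℚ (V → Pd d) where
  carrier := {m | ∀ u ∈ U, m u = 0}
  add_mem' := by intro a b ha hb u hu; simp [ha u hu, hb u hu]
  zero_mem' := by intro u _; simp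
  smul_mem' := by intro c a ha u hu; simp [ha u hu]

lemma mem_Mot {H : SimpleGraph V} {m : V → Pd d} :
    m ∈ Mot d t H ↔ ∀ u v, H.Adj u v → ev d (t v) (m u) = ev d (t u) (m v) := Iff.rfl

lemma mem_Van {U : Set V} {m : V → Pd d} : m ∈ Van d U ↔ ∀ u ∈ U, m u = 0 := Iff.rfl

lemma Mot_anti {H H' : SimpleGraph V} (h : H ≤ H') : Mot d t H' ≤ Mot d t H :=
  fun _ hm u v huv => hm u v (h huv)

lemma finrank_Mot_ge [Fintype V] (G : SimpleGraph V) :
    d * Fintype.card V ≤ finrank ℚ (Mot d t G) + G.edgeSet.ncard := by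
  classical
  let f : (V → Pd d) →ₗ[ℚ] (G.edgeSet → ℚ) := LinearMap.pi fun e =>
    (ev d (t e.1.out.2)).comp (LinearMap.proj e.1.out.1) -
      (ev d (t e.1.out.1)).comp (LinearMap.proj e.1.out.2)
  have hker : LinearMap.ker f ≤ Mot d t G := by
    intro m hm u v huv
    have h := congrFun (LinearMap.mem_ker.mp hm) ⟨s(u, v), huv⟩
    simp only [f, LinearMap.pi_apply, LinearMap.sub_apply, LinearMap.comp_apply,
      LinearMap.proj_apply, Pi.zero_apply, sub_eq_zero] at h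
    have hout : s((s(u, v) : Sym2 V).out.1, (s(u, v) : Sym2 V).out.2) = s(u, v) := Quot.out_eq _
    rcases Sym2.eq_iff.mp hout with ⟨h1, h2⟩ | ⟨h1, h2⟩
    · rw [h1, h2] at h; exact h
    · rw [h1, h2] at h; exact h.symm
  have h1 := LinearMap.finrank_range_add_finrank_ker f
  have h2 : finrank ℚ (LinearMap.range f) ≤ G.edgeSet.ncard := by
    refine (Submodule.finrank_le _).trans ?_
    rw [Module.finrank_fintype_fun_eq_card, ← Set.toFinset_card, Set.ncard_eq_toFinset_card']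
  have h3 : finrank ℚ (V → Pd d) = d * Fintype.card V := by
    rw [Module.finrank_pi_fintype]; simp [finrank_Pd, mul_comm]
  have h4 := Submodule.finrank_mono hker
  (clear * - h1 h2 h3 h4; omega)

lemma finrank_ker_ev (ht : Function.Injective t) (N : Finset V) (hN : N.card ≤ d) :
    ∃ Z : Submodule ℚ (Pd d), finrank ℚ Z + N.card = d ∧
      ∀ P, (∀ c ∈ N, ev d (t c) P = 0) → P ∈ Z := by
  classical
  let f : Pd d →ₗ[ℚ] (N → ℚ) := LinearMap.pi fun c => ev d (t c)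
  have hsurj : Function.Surjective f := by
    intro r
    let r' : V → ℚ := fun v => if h : v ∈ N then r ⟨v, h⟩ else 0
    refine ⟨⟨Lagrange.interpolate N t r', ?_⟩, ?_⟩
    · rw [Polynomial.mem_degreeLT]
      exact lt_of_lt_of_le (Lagrange.degree_interpolate_lt _ ht.injOn) (by exact_mod_cast hN)
    · funext c
      simp only [f, LinearMap.pi_apply, ev_apply]
      rw [Lagrange.eval_interpolate_at_node _ ht.injOn c.2]
      simp [r']
  refine ⟨LinearMap.ker f, ?_, fun P hP => ?_⟩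
  · have h1 := LinearMap.finrank_range_add_finrank_ker f
    rw [LinearMap.range_eq_top.mpr hsurj, finrank_top, Module.finrank_fintype_fun_eq_card,
      finrank_Pd] at h1
    simp only [Fintype.card_coe] at h1
    omega
  · rw [LinearMap.mem_ker]
    funext c
    exact hP c c.2

lemma vanish_of_nbrs (ht : Function.Injective t) {H : SimpleGraph V} {m : V → Pd d}
    (hm : m ∈ Mot d t H) (v : V) (N : Finset V) (hN : d ≤ N.card)
    (h : ∀ g ∈ N, H.Adj v g ∧ m g = 0) : m v = 0 := by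
  refine Pd_eq_zero ht N hN _ fun c hc => ?_
  rw [hm v c (h c hc).1, (h c hc).2, map_zero]

/-- Pinning one vertex. -/
lemma finrank_pin [Fintype V] (ht : Function.Injective t) {H : SimpleGraph V}
    (M : Submodule ℚ (V → Pd d)) (hM : M ≤ Mot d t H) (v : V) (N : Finset V)
    (h : ∀ g ∈ N, H.Adj v g ∧ ∀ m ∈ M, m g = 0) :
    finrank ℚ M ≤ finrank ℚ (M ⊓ Van d {v} : Submodule ℚ _) + (d - N.card) := by
  classical
  obtain ⟨N', hN'N, hN'⟩ := Finset.exists_subset_card_eq (s := N) (n := min d N.card)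
    (min_le_right _ _)
  obtain ⟨Z, hZ, hZ'⟩ := finrank_ker_ev ht N' (d := d) (by omega)
  let f : M →ₗ[ℚ] Pd d := (LinearMap.proj v).comp M.subtype
  have h1 := LinearMap.finrank_range_add_finrank_ker (K := ℚ) (V := M) (V₂ := Pd d) f
  have h2 : LinearMap.range f ≤ Z := by
    rintro P ⟨m, rfl⟩
    refine hZ' _ fun c hc => ?_
    have hc' := h c (hN'N hc)
    show ev d (t c) (m.1 v) = 0
    rw [hM m.2 v c hc'.1, hc'.2 m.1 m.2, map_zero]
  have h3 : finrank ℚ (LinearMap.ker f) = finrank ℚ (M ⊓ Van d {v} : Submodule ℚ _) := by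
    rw [← Submodule.finrank_map_subtype_eq]
    refine congrArg (fun X : Submodule ℚ (V → Pd d) => finrank ℚ X) ?_
    ext m
    simp only [Submodule.mem_map, LinearMap.mem_ker, Submodule.coe_subtype, Submodule.mem_inf,
      mem_Van, Set.mem_singleton_iff, forall_eq]
    constructor
    · rintro ⟨x, hx, rfl⟩
      exact ⟨x.2, hx⟩
    · rintro ⟨h1, h2⟩
      exact ⟨⟨m, h1⟩, h2, rfl⟩
  have h4 := Submodule.finrank_mono h2
  (clear * - hN' hZ h1 h3 h4; omega)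

/-- Pinning a clique, with extra neighbours. -/
lemma finrank_pin_clique [Fintype V] [DecidableEq V] (ht : Function.Injective t)
    {H : SimpleGraph V} (M : Submodule ℚ (V → Pd d)) (hM : M ≤ Mot d t H) (ν : ℕ) (lam : V → ℕ)
    (P : Finset V) (hP : H.IsClique (P : Set V))
    (h : ∀ u ∈ P, ∃ N : Finset V, ν + lam u ≤ N.card ∧ Disjoint N P ∧
      ∀ g ∈ N, H.Adj u g ∧ ∀ m ∈ M, m g = 0)
    (hl : ∀ u ∈ P, lam u = 0 ∨ ν + lam u + P.card ≤ d) :
    finrank ℚ M + ∑ u ∈ P, lam u ≤ finrank ℚ (M ⊓ Van d (P : Set V) : Submodule ℚ _)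
      + ∑ i ∈ range P.card, (d - (ν + i)) := by
  induction P using Finset.induction_on with
  | empty =>
    have : (M ⊓ Van d ((∅ : Finset V) : Set V) : Submodule ℚ _) = M := by
      ext m; simp [mem_Van]
    rw [this]; simp
  | insert u P hu ih =>
    have ih' := ih (hP.subset (by simp)) (fun w hw => by
      obtain ⟨N, h1, h2, h3⟩ := h w (by simp [hw])
      exact ⟨N, h1, h2.mono_right (subset_insert _ _), h3⟩) (fun w hw => by
      have := hl w (by simp [hw])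
      rw [card_insert_of_notMem hu] at this
      omega)
    obtain ⟨N, h1, h2, h3⟩ := h u (by simp)
    have hpin := finrank_pin ht (M ⊓ Van d (P : Set V)) (inf_le_left.trans hM) u (N ∪ P) (by
      intro g hg
      rcases mem_union.mp hg with hg | hg
      · exact ⟨(h3 g hg).1, fun m hm => (h3 g hg).2 m hm.1⟩
      · refine ⟨hP (by simp) (by simp [hg]) (fun h => hu (h ▸ hg)), fun m hm => hm.2 g hg⟩)
    have he : (M ⊓ Van d (P : Set V) ⊓ Van d {u} : Submodule ℚ _)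
        = M ⊓ Van d ((insert u P : Finset V) : Set V) := by
      ext m
      simp only [Submodule.mem_inf, mem_Van, Set.mem_singleton_iff, forall_eq, coe_insert,
        Set.mem_insert_iff, mem_coe, forall_eq_or_imp]
      (clear * - ih; tauto)
    rw [he, card_union_of_disjoint (h2.mono_right (subset_insert _ _))] at hpin
    have hl' := hl u (by simp)
    rw [card_insert_of_notMem hu] at hl' ⊢
    rw [sum_insert hu, sum_range_succ]
    (clear * - ih' h1 hpin hl'; omega)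

/-- `T d ν = (d - ν + 1 choose 2)`. -/
def Tri (d ν : ℕ) : ℕ := (d - ν + 1).choose 2

lemma Tri_succ (d ν : ℕ) : Tri d ν = Tri d (ν + 1) + (d - ν) := by
  unfold Tri
  rcases Nat.lt_or_ge ν d with h | h
  · obtain ⟨k, hk⟩ : ∃ k, d - ν = k + 1 := ⟨d - ν - 1, by omega⟩
    have : d - (ν + 1) = k := by omega
    rw [hk, this, Nat.choose_succ_succ' (k + 1) 1]
    simp [add_comm]
  · have h1 : d - ν = 0 := by omega
    have h2 : d - (ν + 1) = 0 := by omega
    simp [h1, h2]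

lemma sum_le_Tri (d ν r : ℕ) : ∑ i ∈ range r, (d - (ν + i)) + Tri d (ν + r) = Tri d ν := by
  induction r with
  | zero => simp
  | succ r ih =>
    rw [sum_range_succ, ← ih, Tri_succ d (ν + r)]
    simp only [add_assoc]
    omega

lemma two_mul_Tri (d ν : ℕ) (h : ν ≤ d) : (2 * Tri d ν : ℝ) = (d - ν) * (d - ν + 1) := by
  unfold Tri
  rw [Nat.cast_choose_two]
  push_cast [Nat.cast_sub h]
  ring

end Pool.Agent.Work.MP_e0d07f_co
end

-- merged part: Pool.Agent.Work.MP_e0d07f_co.Charge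
section
namespace Pool.Agent.Work.MP_e0d07f_co

open Finset Module

/-- Numerical data of the atoms. -/
structure Num (K : Type) where
  d : ℕ
  k : K → ℕ
  kap : K → ℕ
  N : K → ℕ
  eps : ℝ
  Lam : ℝ
  b0 : ℝ
  m : ℕ
  one_le_eps : 1 ≤ eps
  Lam_nonneg : 0 ≤ Lam
  b0_nonneg : 0 ≤ b0
  kap_inj : ∀ z z', kap z = kap z' → z = z'
  kap_gap : ∀ z z', kap z < kap z' → kap z < k z'
  size_gap : ∀ z z', kap z < kap z' → d + 2 * (N z' + kap z') ≤ 2 * (N z + kap z)
  size_lo : ∀ z, d * d + 3 * d ≤ 3 * N z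
  size_hi : ∀ z, 3 * N z ≤ 2 * (d * d)
  base_lo : ∀ z, (Tri d (kap z) : ℝ) ≤ eps * N z + b0
  big : ∀ z, 4 * (b0 + Lam * (2 * kap z + 5)) ≤ d
  Lam_small : 6 * Lam ≤ d
  kap_small : ∀ z, 2 * (kap z : ℝ) + 4 * eps ≤ d
  m_big : d * d + 2 * d ≤ m
  d_big : 12 ≤ d

/-- A clique that occurs in some application of a rule. -/
structure Entry (V K : Type) where
  set : Finset V
  kind : K
  anch : Finset V

/-- The abstract saturation process. -/
structure Proc (V : Type) {K : Type} (P : Num K) where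
  t : V → ℚ
  ht : Function.Injective t
  J : ℕ
  H : ℕ → SimpleGraph V
  Y : ℕ → Finset V
  M : ℕ → Submodule ℚ (V → Pd P.d)
  reg : ℕ → Set (Entry V K)
  fire : ℕ → Option K
  H_mono : Monotone H
  Y_clique : ∀ j, (H j).IsClique (Y j : Set V)
  M_le : ∀ j, M j ≤ Mot P.d t (H j)
  M_succ : ∀ j, M (j + 1) = M j ⊓ Van P.d (Y j : Set V)
  M_end : M J = ⊥
  reg_clique : ∀ j, ∀ y ∈ reg j, (H j).IsClique (y.set : Set V)
  reg_card : ∀ j, ∀ y ∈ reg j, y.set.card = P.N y.kind + P.kap y.kind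
  anch_sub : ∀ j, ∀ y ∈ reg j, y.anch ⊆ y.set
  anch_card : ∀ j, ∀ y ∈ reg j, y.anch.card = P.k y.kind
  anch_S : ∀ j, ∀ y ∈ reg j, ∀ g ∈ y.anch, ∀ m ∈ M j, m g = 0
  none_case : ∀ j, fire j = none → Y j = ∅ ∨ P.m ≤ (Y j).card
  fire_case : ∀ j z, fire j = some z → (∃ y ∈ reg j, y.set = Y j ∧ y.kind = z) ∧
    ∃ A ⊆ Y j, A.card = P.kap z ∧ ∀ g ∈ A, ∀ m ∈ M j, m g = 0

lemma arith_lam {d L a z c : ℝ} (hd0 : 0 < d) (hL0 : 0 ≤ L) (hL : 6 * L ≤ d) (hz : 0 ≤ z)
    (h : a * (d * d) ≤ c * (d * d) + 3 * (z * d)) : L * a ≤ L * c + z / 2 := by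
  have h1 : (a - c) * d ≤ 3 * z := by
    have : ((a - c) * d) * d ≤ (3 * z) * d := by nlinarith only [h]
    exact le_of_mul_le_mul_right this hd0
  have h2 : (L * (a - c)) * d ≤ (z / 2) * d := by nlinarith only [hL0, h1, hL, hz]
  have := le_of_mul_le_mul_right h2 hd0
  linarith only [this]

lemma arith_fire {d L e b κ ν N z a T1 T2 V : ℝ} (hL0 : 0 ≤ L) (he : 1 ≤ e) (hb0 : 0 ≤ b)
    (hκ0 : 0 ≤ κ) (hz : 0 ≤ z) (h1 : L * a ≤ L * (2 * ν + 3) + z / 2)
    (hT1 : 2 * T1 = (d - ν) * (d - ν + 1)) (hT2 : 2 * T2 = (d - κ) * (d - κ + 1))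
    (hb : T2 ≤ e * N + b) (hbig : 4 * (b + L * (2 * κ + 5)) ≤ d) (hks : 2 * κ + 4 * e ≤ d)
    (hνd : ν + 1 ≤ d) (hV : e * (N + κ - ν + z) - T1 ≤ V)
    (hc : κ + 1 ≤ ν ∨ (ν = κ ∧ d ≤ 2 * z)) : L * a ≤ V := by
  have hez : z ≤ e * z := by nlinarith only [he, hz]
  rcases hc with hc | ⟨rfl, hc⟩
  · obtain ⟨δ, rfl⟩ : ∃ δ, ν = κ + δ := ⟨ν - κ, by ring⟩
    have hδ : 1 ≤ δ := by linarith
    have e1 : T2 - T1 = δ * ((2 * d - κ - (κ + δ) + 1) / 2) := by linarith only [hT1, hT2]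
    have e2 : δ * (d / 4) ≤ δ * ((2 * d - κ - (κ + δ) + 1) / 2 - e) :=
      mul_le_mul_of_nonneg_left (by linarith only [hks, hνd]) (by linarith only [hc])
    have e3 : δ * (b + L * (2 * κ + 5)) ≤ δ * (d / 4) :=
      mul_le_mul_of_nonneg_left (by linarith only [hbig]) (by linarith only [hc])
    have e4 := mul_nonneg hL0 (mul_nonneg (sub_nonneg.mpr hδ) (by linarith only [hκ0] : 0 ≤ 2 * κ + 3))
    have e5 := mul_nonneg (sub_nonneg.mpr hδ) hb0
    linarith only [hz, hT2, hb, hez, h1, hT1, hV, e2, e3, e4, e5]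
  · have : T1 = T2 := by linarith only [hT1, hT2]
    have e4 : L * (2 * ν + 3) ≤ L * (2 * ν + 5) := mul_le_mul_of_nonneg_left (by linarith) hL0
    linarith only [hL0, h1, hT1, hb, hez, hc, hT2, hbig, hV]

namespace Proc

open Classical

variable {V K : Type} [Fintype V] {P : Num K} (X : Proc V P)

noncomputable def S (j : ℕ) : Finset V := univ.filter fun v => ∀ m ∈ X.M j, m v = 0
noncomputable def New (j : ℕ) : Finset V := X.S (j + 1) \ X.S j
noncomputable def A (j : ℕ) : Finset V := X.Y j \ X.S j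
noncomputable def Z (j : ℕ) : Finset V := X.New j \ X.Y j
noncomputable def Nb (j : ℕ) (u : V) : Finset V := (X.S j).filter fun g => (X.H j).Adj u g
def Coll (j : ℕ) (y : Finset V) : Prop := ¬ y ⊆ X.S j ∧ y ⊆ X.S (j + 1)
noncomputable def Att (j : ℕ) : Finset V := (X.S j).filter fun g =>
  ∃ j0 ≤ j, ∃ y ∈ X.reg j0, g ∈ y.set ∧ g ∉ X.S j0 ∧ X.Coll j y.set
noncomputable def Val (j : ℕ) : ℝ :=
  P.eps * (X.New j).card - ((finrank ℚ (X.M j) : ℝ) - finrank ℚ (X.M (j + 1)))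
def Clean (j : ℕ) (z : K) : Prop :=
  X.fire j = some z ∧ ¬ X.Y j ⊆ X.S j ∧
    ((X.A j).filter fun u => P.kap z < (X.Nb j u).card).card < P.d ∧ 2 * (X.Z j).card < P.d

lemma mem_S {j : ℕ} {v : V} : v ∈ X.S j ↔ ∀ m ∈ X.M j, m v = 0 := by simp [S]

omit [Fintype V] in
lemma M_anti : Antitone X.M :=
  antitone_nat_of_succ_le fun j => by rw [X.M_succ]; exact inf_le_left

lemma S_mono : Monotone X.S := fun _ _ h _ hv =>
  X.mem_S.mpr fun m hm => X.mem_S.mp hv m (X.M_anti h hm)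

lemma Y_sub (j : ℕ) : X.Y j ⊆ X.S (j + 1) := fun v hv =>
  X.mem_S.mpr fun m hm => by rw [X.M_succ] at hm; exact hm.2 v hv

lemma S_end : X.S X.J = univ := by
  refine eq_univ_of_forall fun v => X.mem_S.mpr fun m hm => ?_
  rw [X.M_end, Submodule.mem_bot] at hm
  simp [hm]

lemma Nb_lt {j : ℕ} {v : V} (hv : v ∉ X.S j) : (X.Nb j v).card < P.d := by
  by_contra h
  refine hv (X.mem_S.mpr fun m hm => vanish_of_nbrs X.ht (X.M_le j hm) v (X.Nb j v)
    (not_lt.mp h) fun g hg => ?_)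
  rw [Nb, mem_filter] at hg
  exact ⟨hg.2, X.mem_S.mp hg.1 m hm⟩

lemma inter_sub_Nb {j : ℕ} {y : Finset V} (hy : (X.H j).IsClique (y : Set V)) {u : V}
    (hu : u ∈ y) (huS : u ∉ X.S j) : y ∩ X.S j ⊆ X.Nb j u := by
  intro g hg
  rw [mem_inter] at hg
  rw [Nb, mem_filter]
  exact ⟨hg.2, hy hu hg.1 fun h => huS (h ▸ hg.2)⟩

lemma inter_lt {j : ℕ} {y : Finset V} (hy : (X.H j).IsClique (y : Set V)) (h : ¬ y ⊆ X.S j) :
    (y ∩ X.S j).card < P.d := by
  obtain ⟨u, hu, huS⟩ := not_subset.mp h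
  exact lt_of_le_of_lt (card_le_card (X.inter_sub_Nb hy hu huS)) (X.Nb_lt huS)

omit [Fintype V] in
lemma reg_clique' {j0 j : ℕ} (h : j0 ≤ j) {y : Entry V K} (hy : y ∈ X.reg j0) :
    (X.H j).IsClique (y.set : Set V) := (X.reg_clique j0 y hy).mono (X.H_mono h)

lemma exists_coll {j1 : ℕ} {y : Finset V} (h : ¬ y ⊆ X.S j1) :
    ∃ j, j1 ≤ j ∧ j < X.J ∧ X.Coll j y := by
  have hex : ∃ j, y ⊆ X.S j := ⟨X.J, by rw [X.S_end]; exact subset_univ _⟩
  have h1 := Nat.find_spec hex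
  have h2 : j1 < Nat.find hex := by
    by_contra h2
    exact h (h1.trans (X.S_mono (not_lt.mp h2)))
  have h3 : Nat.find hex ≤ X.J := Nat.find_min' hex (by rw [X.S_end]; exact subset_univ _)
  obtain ⟨j, hj⟩ : ∃ j, Nat.find hex = j + 1 := ⟨Nat.find hex - 1, by omega⟩
  refine ⟨j, by omega, by omega, Nat.find_min hex (by omega), hj ▸ h1⟩

lemma coll_unique {j j' : ℕ} {y : Finset V} (h : X.Coll j y) (h' : X.Coll j' y) : j = j' := by
  by_contra hne
  rcases lt_or_gt_of_ne hne with hlt | hlt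
  · exact h'.1 (h.2.trans (X.S_mono hlt))
  · exact h.1 (h'.2.trans (X.S_mono hlt))

lemma new_unique {j j' : ℕ} {g : V} (h : g ∈ X.New j) (h' : g ∈ X.New j') : j = j' := by
  refine X.coll_unique (y := {g}) ?_ ?_
  · simpa [Coll, New, and_comm] using h
  · simpa [Coll, New, and_comm] using h'

lemma A_sub_New (j : ℕ) : X.A j ⊆ X.New j := sdiff_subset_sdiff (X.Y_sub j) subset_rfl

lemma card_New (j : ℕ) : (X.New j).card = (X.A j).card + (X.Z j).card := by
  have : X.A j = X.New j ∩ X.Y j := by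
    ext v
    simp only [A, New, mem_sdiff, mem_inter]
    exact ⟨fun h => ⟨⟨X.Y_sub j h.1, h.2⟩, h.1⟩, fun h => ⟨h.2, h.1.2⟩⟩
  rw [this, Z, card_inter_add_card_sdiff]

lemma card_A (j : ℕ) : (X.A j).card + (X.Y j ∩ X.S j).card = (X.Y j).card := by
  rw [A, card_sdiff_add_card_inter]

lemma double_count (j : ℕ) :
    (X.Att j).card * (P.d * P.d) ≤ 3 * ∑ u ∈ X.New j, (X.Nb j u).card := by
  have h1 : ∑ g ∈ X.Att j, ((X.New j).filter fun u => (X.H j).Adj u g).card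
      = ∑ u ∈ X.New j, ((X.Att j).filter fun g => (X.H j).Adj u g).card := by
    simp only [card_filter]
    exact sum_comm
  have h2 : ∑ u ∈ X.New j, ((X.Att j).filter fun g => (X.H j).Adj u g).card
      ≤ ∑ u ∈ X.New j, (X.Nb j u).card :=
    sum_le_sum fun u _ => card_le_card (filter_subset_filter _ (filter_subset _ _))
  have h3 : ∀ g ∈ X.Att j, P.d * P.d ≤ 3 * ((X.New j).filter fun u => (X.H j).Adj u g).card := by
    intro g hg
    rw [Att, mem_filter] at hg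
    obtain ⟨hgS, j0, hj0, y, hy, hgy, -, hc⟩ := hg
    have hcl := X.reg_clique' hj0 hy
    have hsub : y.set \ X.S j ⊆ (X.New j).filter fun u => (X.H j).Adj u g := by
      intro u hu
      rw [mem_sdiff] at hu
      rw [mem_filter, New, mem_sdiff]
      exact ⟨⟨hc.2 hu.1, hu.2⟩, hcl hu.1 hgy fun h => hu.2 (h ▸ hgS)⟩
    have h4 := card_le_card hsub
    have h5 := card_sdiff_add_card_inter y.set (X.S j)
    have h6 := X.inter_lt hcl hc.1
    have h7 := X.reg_card j0 y hy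
    have h8 := P.size_lo y.kind
    (clear * - h4 h5 h6 h7 h8; omega)
  calc (X.Att j).card * (P.d * P.d) = ∑ _g ∈ X.Att j, P.d * P.d := by simp
    _ ≤ ∑ g ∈ X.Att j, 3 * ((X.New j).filter fun u => (X.H j).Adj u g).card := sum_le_sum h3
    _ = 3 * ∑ u ∈ X.New j, ((X.Att j).filter fun g => (X.H j).Adj u g).card := by
      rw [← mul_sum, h1]
    _ ≤ _ := by omega

lemma gain_le (j ν : ℕ) (lam : V → ℕ) (P1 P2 : Finset V) (h1 : P1 ⊆ X.A j) (h2 : P2 ⊆ X.A j)
    (hd : Disjoint P1 P2) (hc : P.d ≤ P2.card)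
    (hn1 : ∀ u ∈ P1, ν + lam u ≤ (X.Nb j u).card) (hn2 : ∀ u ∈ P2, ν ≤ (X.Nb j u).card)
    (hl : ∀ u ∈ P1, lam u = 0 ∨ ν + lam u + P1.card ≤ P.d) :
    finrank ℚ (X.M j) + ∑ u ∈ P1, lam u ≤ finrank ℚ (X.M (j + 1)) + Tri P.d ν := by
  have hA : X.A j ⊆ X.Y j := sdiff_subset
  have hdis : ∀ u, ∀ Q ⊆ X.A j, Disjoint (X.Nb j u) Q := by
    intro u Q hQ
    rw [disjoint_left]
    intro g hg hgQ
    exact (mem_sdiff.mp (hQ hgQ)).2 (mem_filter.mp hg).1
  have s1 := finrank_pin_clique X.ht (X.M j) (X.M_le j) ν lam P1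
    ((X.Y_clique j).subset (by exact_mod_cast h1.trans hA))
    (fun u hu => ⟨X.Nb j u, hn1 u hu, hdis u P1 h1, fun g hg =>
      ⟨(mem_filter.mp hg).2, X.mem_S.mp (mem_filter.mp hg).1⟩⟩) hl
  have s2 := finrank_pin_clique X.ht (X.M j ⊓ Van P.d (P1 : Set V)) (inf_le_left.trans (X.M_le j))
    (ν + P1.card) (fun _ => 0) P2
    ((X.Y_clique j).subset (by exact_mod_cast h2.trans hA))
    (fun u hu => ⟨X.Nb j u ∪ P1, by
      rw [card_union_of_disjoint (hdis u P1 h1)]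
      have := hn2 u hu
      omega, disjoint_union_left.mpr ⟨hdis u P2 h2, hd⟩, fun g hg => by
      rcases mem_union.mp hg with hg | hg
      · exact ⟨(mem_filter.mp hg).2, fun m hm => X.mem_S.mp (mem_filter.mp hg).1 m hm.1⟩
      · exact ⟨X.Y_clique j (hA (h2 hu)) (hA (h1 hg))
          (fun h => disjoint_left.mp hd hg (h ▸ hu)), fun m hm => hm.2 g hg⟩⟩)
    (fun _ _ => Or.inl rfl)
  have s3 : (X.M j ⊓ Van P.d (P1 : Set V) ⊓ Van P.d (P2 : Set V) : Submodule ℚ _)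
      ≤ X.M (j + 1) := by
    rw [X.M_succ]
    intro m hm
    refine ⟨hm.1.1, fun y hy => ?_⟩
    by_cases hy2 : y ∈ P2
    · exact hm.2 y hy2
    · exact vanish_of_nbrs X.ht (X.M_le j hm.1.1) y P2 hc fun g hg =>
        ⟨X.Y_clique j hy (hA (h2 hg)) (fun h => hy2 (h ▸ hg)), hm.2 g hg⟩
  have s4 := Submodule.finrank_mono s3
  have t1 := sum_le_Tri P.d ν P1.card
  have t2 := sum_le_Tri P.d (ν + P1.card) P2.card
  simp only [sum_const_zero, add_zero] at s2
  omega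

lemma sum_Nb_le (j : ℕ) (Q : Finset V) (hQ : Q ⊆ X.New j) :
    ∑ u ∈ Q, (X.Nb j u).card ≤ Q.card * P.d := by
  rw [← smul_eq_mul]
  exact sum_le_card_nsmul _ _ _ fun u hu => (X.Nb_lt (mem_sdiff.mp (hQ hu)).2).le

lemma fire_card {j : ℕ} {z : K} (hz : X.fire j = some z) :
    (X.Y j).card = P.N z + P.kap z ∧ P.kap z ≤ (X.Y j ∩ X.S j).card := by
  obtain ⟨⟨y, hy, hyY, hyz⟩, A, hA, hAc, hAS⟩ := X.fire_case j z hz
  refine ⟨by rw [← hyY, X.reg_card j y hy, hyz], ?_⟩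
  rw [← hAc]
  exact card_le_card fun g hg => mem_inter.mpr ⟨hA hg, X.mem_S.mpr (hAS g hg)⟩

/-- Events which are not clean pay for their attachments. -/
lemma unclean_pays (j : ℕ) (hj : ∀ z, ¬ X.Clean j z) : P.Lam * (X.Att j).card ≤ X.Val j := by
  have hd12 := P.d_big
  have hd0 : (0 : ℝ) < P.d := by exact_mod_cast (by omega : 0 < P.d)
  have hL0 := P.Lam_nonneg
  have he := P.one_le_eps
  by_cases hYS : X.Y j ⊆ X.S j
  · have hM : X.M (j + 1) = X.M j := by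
      rw [X.M_succ, inf_eq_left]
      exact fun m hm v hv => X.mem_S.mp (hYS hv) m hm
    have hS : X.S (j + 1) = X.S j := by simp only [S, hM]
    have hA : X.Att j = ∅ := by
      rw [Att, filter_eq_empty_iff]
      rintro g - ⟨j0, -, y, -, -, -, hc⟩
      exact hc.1 (hS ▸ hc.2)
    rw [Val, hA, New, hS, hM]; simp
  have hI := X.inter_lt (X.Y_clique j) hYS
  have hcA := X.card_A j
  have hcN := X.card_New j
  have hdc := X.double_count j
  have hLam : ∀ (a z c : ℝ), 0 ≤ z → a * (P.d * P.d) ≤ c * (P.d * P.d) + 3 * (z * P.d) →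
      P.Lam * a ≤ P.Lam * c + z / 2 := fun a z c hz h => arith_lam hd0 hL0 P.Lam_small hz h
  rcases hf : X.fire j with _ | z
  · rcases X.none_case j hf with h | h
    · exact absurd (by simp [h]) hYS
    have hm := P.m_big
    have hdd : P.d ≤ P.d * P.d := Nat.le_mul_self _
    obtain ⟨P2, hP2, hP2c⟩ := exists_subset_card_eq (s := X.A j) (n := P.d) (by omega)
    have hg := X.gain_le j 0 (fun _ => 0) ∅ P2 (empty_subset _) hP2 (by simp) hP2c.ge
      (by simp) (by simp) (by simp)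
    have hs := X.sum_Nb_le j _ subset_rfl
    have hT := two_mul_Tri P.d 0 (by omega)
    have h1 := hLam (X.Att j).card (X.New j).card 0 (by (clear * - ; positivity)) (by
      have : (X.Att j).card * (P.d * P.d) ≤ 3 * ((X.New j).card * P.d) := by (clear * - hdc hs; omega)
      rw [zero_mul, zero_add]
      exact_mod_cast this)
    have h2 : (P.d : ℝ) * P.d + P.d ≤ (X.New j).card := by
      have : P.d * P.d + P.d ≤ (X.New j).card := by omega
      exact_mod_cast this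
    have h3 : (finrank ℚ (X.M j) : ℝ) ≤ finrank ℚ (X.M (j + 1)) + Tri P.d 0 := by
      simp only [sum_empty, add_zero] at hg
      exact_mod_cast hg
    have h4 : (0 : ℝ) ≤ (X.New j).card := by (clear * - ; positivity)
    simp only [Nat.cast_zero, sub_zero] at hT
    have h5 : ((X.New j).card : ℝ) ≤ P.eps * (X.New j).card := le_mul_of_one_le_left h4 he
    unfold Val
    linarith only [h1, h2, h3, hT, h5]
  obtain ⟨hY, hκ⟩ := X.fire_card hf
  have hlo := P.size_lo z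
  have hhi := P.size_hi z
  have hIN : ∀ u ∈ X.A j, (X.Y j ∩ X.S j).card ≤ (X.Nb j u).card := fun u hu =>
    card_le_card (X.inter_sub_Nb (X.Y_clique j) (mem_sdiff.mp hu).1 (mem_sdiff.mp hu).2)
  let p : ℕ → Prop := fun ν => P.d ≤ ((X.A j).filter fun u => ν ≤ (X.Nb j u).card).card
  have hpi : p (X.Y j ∩ X.S j).card := by
    simp only [p]
    rw [filter_true_of_mem hIN]
    (clear * - hI hcA hcN hY hlo hhi; omega)
  set ν := Nat.findGreatest p P.d with hν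
  have hiν : (X.Y j ∩ X.S j).card ≤ ν := Nat.le_findGreatest hI.le hpi
  have hpν : p ν := Nat.findGreatest_spec hI.le hpi
  have hνd : ν < P.d := by
    obtain ⟨u, hu⟩ : ((X.A j).filter fun u => ν ≤ (X.Nb j u).card).Nonempty :=
      card_pos.mp (lt_of_lt_of_le (by omega) hpν)
    rw [mem_filter] at hu
    exact lt_of_le_of_lt hu.2 (X.Nb_lt (mem_sdiff.mp hu.1).2)
  have hpν1 : ¬ p (ν + 1) := Nat.findGreatest_is_greatest (Nat.lt_succ_self _) hνd
  have hg := X.gain_le j ν (fun _ => 0) ∅ _ (empty_subset _) (filter_subset _ _) (by simp) hpν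
    (by simp) (fun u hu => (mem_filter.mp hu).2) (by simp)
  have hsA : ∑ u ∈ X.A j, (X.Nb j u).card ≤ (X.A j).card * ν + P.d * P.d := by
    rw [← sum_filter_add_sum_filter_not (X.A j) (fun u => ν + 1 ≤ (X.Nb j u).card)]
    have a1 := X.sum_Nb_le j _ ((filter_subset (fun u => ν + 1 ≤ (X.Nb j u).card) _).trans
      (X.A_sub_New j))
    have a2 : ∑ u ∈ (X.A j).filter (fun u => ¬ ν + 1 ≤ (X.Nb j u).card), (X.Nb j u).card
        ≤ ((X.A j).filter (fun u => ¬ ν + 1 ≤ (X.Nb j u).card)).card * ν := by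
      rw [← smul_eq_mul]
      exact sum_le_card_nsmul _ _ _ fun u hu => by have := (mem_filter.mp hu).2; omega
    have a3 := card_filter_le (X.A j) (fun u => ¬ ν + 1 ≤ (X.Nb j u).card)
    have a4 := Nat.mul_le_mul_right ν a3
    have a5 : ((X.A j).filter fun u => ν + 1 ≤ (X.Nb j u).card).card ≤ P.d := (not_le.mp hpν1).le
    have a6 := Nat.mul_le_mul_right P.d a5
    (clear * - a1 a2 a4 a6; omega)
  have hsZ := X.sum_Nb_le j (X.Z j) sdiff_subset
  have hsN : ∑ u ∈ X.New j, (X.Nb j u).card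
      = ∑ u ∈ X.A j, (X.Nb j u).card + ∑ u ∈ X.Z j, (X.Nb j u).card := by
    rw [← sum_union]
    · congr 1
      ext v
      simp only [A, Z, New, mem_sdiff, mem_union]
      have := fun h => X.Y_sub j (x := v) h
      (clear * - this; tauto)
    · rw [disjoint_left]
      intro v hv hv'
      exact (mem_sdiff.mp hv').2 (mem_sdiff.mp hv).1
  have h1 := hLam (X.Att j).card (X.Z j).card (2 * ν + 3) (by (clear * - ; positivity)) (by
    have a1 : 3 * (X.A j).card ≤ 2 * (P.d * P.d) := by omega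
    have a2 := Nat.mul_le_mul_right ν a1
    have : (X.Att j).card * (P.d * P.d) ≤ (2 * ν + 3) * (P.d * P.d) + 3 * ((X.Z j).card * P.d) := by
      have e1 : (2 * ν + 3) * (P.d * P.d) = 2 * (P.d * P.d) * ν + 3 * (P.d * P.d) := by ring
      have e2 : 3 * (X.A j).card * ν = 3 * ((X.A j).card * ν) := by ring
      (clear * - hdc hsA hsZ hsN a2 e1 e2; omega)
    exact_mod_cast this)
  have h3 : (finrank ℚ (X.M j) : ℝ) ≤ finrank ℚ (X.M (j + 1)) + Tri P.d ν := by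
    simp only [sum_empty, add_zero] at hg
    exact_mod_cast hg
  have hT1 := two_mul_Tri P.d ν hνd.le
  have hT2 := two_mul_Tri P.d (P.kap z) (by omega)
  have hb := P.base_lo z
  have hbig := P.big z
  have hks := P.kap_small z
  have hb0 := P.b0_nonneg
  have hZ0 : (0 : ℝ) ≤ (X.Z j).card := by (clear * - ; positivity)
  have hNew : (P.N z : ℝ) + P.kap z - ν + (X.Z j).card ≤ (X.New j).card := by
    have : P.N z + P.kap z + (X.Z j).card ≤ (X.New j).card + ν := by omega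
    have : (P.N z : ℝ) + P.kap z + (X.Z j).card ≤ (X.New j).card + ν := by exact_mod_cast this
    linarith only [this]
  have hνd' : (ν : ℝ) + 1 ≤ P.d := by exact_mod_cast hνd
  have hV : P.eps * (P.N z + P.kap z - ν + (X.Z j).card) - Tri P.d ν ≤ X.Val j := by
    have := mul_le_mul_of_nonneg_left hNew (by linarith only [he] : 0 ≤ P.eps)
    unfold Val
    linarith only [h3, this]
  refine arith_fire hL0 he hb0 (by positivity) hZ0 h1 hT1 hT2 hb hbig hks hνd' hV ?_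
  rcases Nat.lt_or_ge (P.kap z) ν with hlt | hge
  · left; exact_mod_cast hlt
  · have hνκ : ν = P.kap z := by omega
    have hZ : P.d ≤ 2 * (X.Z j).card := by
      by_contra h
      refine hj z ⟨hf, hYS, ?_, not_le.mp h⟩
      rw [← hνκ]
      exact not_le.mp hpν1
    right
    exact ⟨by rw [hνκ], by exact_mod_cast hZ⟩

end Proc

end Pool.Agent.Work.MP_e0d07f_co
end

-- merged part: Pool.Agent.Work.MP_e0d07f_co.Clean
section
namespace Pool.Agent.Work.MP_e0d07f_co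

open Finset Module

namespace Proc

open Classical

variable {V K : Type} [Fintype V] {P : Num K} (X : Proc V P)

lemma five_le_N (P : Num K) (z : K) : 5 * P.d ≤ P.N z := by
  have h1 := P.size_lo z
  have h2 := Nat.mul_le_mul_right P.d P.d_big
  omega

lemma exists_low {j : ℕ} {z : K} (hc : X.Clean j z) (Q : Finset V) (hQ : Q ⊆ X.A j)
    (hd : P.d ≤ Q.card) : ∃ u ∈ Q, (X.Nb j u).card ≤ P.kap z := by
  by_contra h
  push Not at h
  have : Q ⊆ (X.A j).filter fun u => P.kap z < (X.Nb j u).card :=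
    fun u hu => mem_filter.mpr ⟨hQ hu, h u hu⟩
  have := card_le_card this
  have := hc.2.2.1
  omega

lemma clean_card {j : ℕ} {z : K} (hc : X.Clean j z) :
    (X.Y j ∩ X.S j).card = P.kap z ∧ (X.A j).card = P.N z := by
  obtain ⟨hY, hκ⟩ := X.fire_card hc.1
  have hI := X.inter_lt (X.Y_clique j) hc.2.1
  have hA := X.card_A j
  have h5 := five_le_N P z
  obtain ⟨u, hu, hu'⟩ := X.exists_low hc (X.A j) subset_rfl (by omega)
  have := card_le_card (X.inter_sub_Nb (X.Y_clique j) (mem_sdiff.mp hu).1 (mem_sdiff.mp hu).2)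
  omega

lemma coll_card {j : ℕ} {y : Finset V} (h : X.Coll j y) :
    y.card ≤ (y ∩ X.S j).card + (y ∩ X.A j).card + (X.Z j).card := by
  have : y ⊆ (y ∩ X.S j) ∪ (y ∩ X.A j) ∪ X.Z j := by
    intro v hv
    have := h.2 hv
    simp only [A, Z, New, mem_union, mem_inter, mem_sdiff]
    tauto
  refine (card_le_card this).trans ((card_union_le _ _).trans ?_)
  have := card_union_le (y ∩ X.S j) (y ∩ X.A j)
  omega

lemma clean_coll {j j0 : ℕ} {z : K} (hc : X.Clean j z) (hj : j0 ≤ j) {y : Entry V K}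
    (hy : y ∈ X.reg j0) (h : X.Coll j y.set) :
    y.set ∩ X.S j ⊆ X.Y j ∧ y.kind = z ∧ P.N z ≤ (y.set ∩ X.A j).card + (X.Z j).card := by
  obtain ⟨hI, hA⟩ := X.clean_card hc
  have hcl := X.reg_clique' hj hy
  have h1 := X.inter_lt hcl h.1
  have h2 := X.coll_card h
  have h3 := X.reg_card j0 y hy
  have h4 := five_le_N P y.kind
  have hZ := hc.2.2.2
  obtain ⟨u, hu, hu'⟩ := X.exists_low hc (y.set ∩ X.A j) inter_subset_right (by omega)
  rw [mem_inter] at hu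
  have huA := mem_sdiff.mp hu.2
  have h5 : X.Y j ∩ X.S j = X.Nb j u :=
    eq_of_subset_of_card_le (X.inter_sub_Nb (X.Y_clique j) huA.1 huA.2) (by omega)
  have h6 : y.set ∩ X.S j ⊆ X.Y j ∩ X.S j := h5 ▸ X.inter_sub_Nb hcl hu.1 huA.2
  have h7 := card_le_card h6
  have h8 : P.k y.kind ≤ (y.set ∩ X.S j).card := by
    rw [← X.anch_card j0 y hy]
    exact card_le_card fun g hg => mem_inter.mpr ⟨X.anch_sub j0 y hy hg,
      X.S_mono hj (X.mem_S.mpr (X.anch_S j0 y hy g hg))⟩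
  have h9 := card_le_card (inter_subset_right (s₁ := y.set) (s₂ := X.A j))
  have hk : y.kind = z := by
    apply P.kap_inj
    rcases lt_trichotomy (P.kap y.kind) (P.kap z) with hlt | heq | hgt
    · have := P.size_gap _ _ hlt
      (clear * - hI hA h2 h3 hZ h7 h9 this; omega)
    · exact heq
    · have := P.kap_gap _ _ hgt
      omega
  refine ⟨h6.trans inter_subset_left, hk, ?_⟩
  rw [hk] at h3
  omega

lemma clean_two {j j0 j1 : ℕ} {z : K} (hc : X.Clean j z) (hj0 : j0 ≤ j) (hj1 : j1 ≤ j)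
    {y y' : Entry V K} (hy : y ∈ X.reg j0) (hy' : y' ∈ X.reg j1) (h : X.Coll j y.set)
    (h' : X.Coll j y'.set) : 2 ≤ (y.set ∩ y'.set).card := by
  have h1 := (X.clean_coll hc hj0 hy h).2.2
  have h2 := (X.clean_coll hc hj1 hy' h').2.2
  have h3 := (X.clean_card hc).2
  have h4 := card_union_add_card_inter (y.set ∩ X.A j) (y'.set ∩ X.A j)
  have h5 : ((y.set ∩ X.A j) ∪ (y'.set ∩ X.A j)).card ≤ (X.A j).card :=
    card_le_card (union_subset inter_subset_right inter_subset_right)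
  have h6 : ((y.set ∩ X.A j) ∩ (y'.set ∩ X.A j)).card ≤ (y.set ∩ y'.set).card :=
    card_le_card (inter_subset_inter inter_subset_left inter_subset_left)
  have h7 := five_le_N P z
  have hZ := hc.2.2.2
  have := P.d_big
  (clear * - h1 h2 h3 h4 h5 h6 h7 hZ this; omega)

lemma mem_Att {j j0 : ℕ} {y : Entry V K} {g : V} (hy : y ∈ X.reg j0) (hg : g ∈ y.set)
    (hgS : g ∈ X.S j) (hgS0 : g ∉ X.S j0) (h : X.Coll j y.set) : g ∈ X.Att j := by
  rw [Att, mem_filter]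
  refine ⟨hgS, j0, ?_, y, hy, hg, hgS0, h⟩
  by_contra hlt
  exact hgS0 (X.S_mono (not_le.mp hlt).le hgS)

lemma clean_Att_sub {j : ℕ} {z : K} (hc : X.Clean j z) : X.Att j ⊆ X.Y j ∩ X.S j := by
  intro g hg
  rw [Att, mem_filter] at hg
  obtain ⟨hgS, j0, hj0, y, hy, hgy, -, h⟩ := hg
  exact mem_inter.mpr ⟨(X.clean_coll hc hj0 hy h).1 (mem_inter.mpr ⟨hgy, hgS⟩), hgS⟩

lemma clean_Att_card {j : ℕ} {z : K} (hc : X.Clean j z) :
    (X.Att j).card + P.k z ≤ P.kap z := by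
  have hI := (X.clean_card hc).1
  have hex : ∃ j0, j0 ≤ j ∧ ∃ y ∈ X.reg j0, X.Coll j y.set := by
    obtain ⟨⟨y, hy, hyY, -⟩, -⟩ := X.fire_case j z hc.1
    exact ⟨j, le_rfl, y, hy, hyY ▸ hc.2.1, hyY ▸ X.Y_sub j⟩
  obtain ⟨hj0, y, hy, h⟩ := Nat.find_spec hex
  obtain ⟨h1, h2, -⟩ := X.clean_coll hc hj0 hy h
  have hS : y.anch ⊆ X.S (Nat.find hex) := fun g hg => X.mem_S.mpr (X.anch_S _ y hy g hg)
  have hdis : Disjoint (X.Att j) y.anch := by
    rw [disjoint_left]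
    intro g hg hga
    rw [Att, mem_filter] at hg
    obtain ⟨-, j1, hj1, y', hy', -, hgS, h'⟩ := hg
    exact hgS (X.S_mono (Nat.find_min' hex ⟨hj1, y', hy', h'⟩) (hS hga))
  have hsub : X.Att j ∪ y.anch ⊆ X.Y j ∩ X.S j := by
    refine union_subset (X.clean_Att_sub hc) fun g hg => ?_
    have hgS := X.S_mono hj0 (hS hg)
    exact mem_inter.mpr ⟨h1 (mem_inter.mpr ⟨X.anch_sub _ y hy hg, hgS⟩), hgS⟩
  have := card_le_card hsub
  rw [card_union_of_disjoint hdis, X.anch_card _ y hy, h2, hI] at this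
  exact this

lemma clean_Val {j : ℕ} {z : K} (hc : X.Clean j z) (lam : V → ℕ) (P1 : Finset V)
    (h1 : P1 ⊆ X.A j) (hn : ∀ u ∈ P1, P.kap z + lam u ≤ (X.Nb j u).card)
    (hl : ∀ u ∈ P1, P.kap z + lam u + P1.card ≤ P.d) (hP1 : P1.card ≤ P.d) :
    P.eps * P.N z - Tri P.d (P.kap z) + (∑ u ∈ P1, lam u : ℕ) + (X.Z j).card ≤ X.Val j := by
  obtain ⟨hI, hA⟩ := X.clean_card hc
  have h5 := five_le_N P z
  obtain ⟨P2, hP2, hP2c⟩ := exists_subset_card_eq (s := X.A j \ P1) (n := P.d) (by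
    rw [card_sdiff_of_subset h1]; omega)
  have hg := X.gain_le j (P.kap z) lam P1 P2 h1 (hP2.trans sdiff_subset)
    (disjoint_sdiff.mono_right hP2) hP2c.ge hn (fun u hu => by
      have hu' := mem_sdiff.mp (mem_sdiff.mp (hP2 hu)).1
      rw [← hI]
      exact card_le_card (X.inter_sub_Nb (X.Y_clique j) hu'.1 hu'.2)) (fun u hu => Or.inr (hl u hu))
  have hg' : (finrank ℚ (X.M j) : ℝ) + (∑ u ∈ P1, lam u : ℕ)
      ≤ finrank ℚ (X.M (j + 1)) + Tri P.d (P.kap z) := by exact_mod_cast hg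
  have hN : ((X.New j).card : ℝ) = P.N z + (X.Z j).card := by
    rw [X.card_New, hA]; push_cast; ring
  have hZ : ((X.Z j).card : ℝ) ≤ P.eps * (X.Z j).card :=
    le_mul_of_one_le_left (by (clear * - ; positivity)) P.one_le_eps
  unfold Val
  rw [hN]
  linarith only [hg', hZ]

lemma sum_Val_le : ∑ j ∈ range X.J, X.Val j ≤ P.eps * Fintype.card V - finrank ℚ (X.M 0) := by
  have h1 : ∀ n, ∑ j ∈ range n, X.Val j = P.eps * ((X.S n).card - (X.S 0).card)
      - ((finrank ℚ (X.M 0) : ℝ) - finrank ℚ (X.M n)) := by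
    intro n
    induction n with
    | zero => simp
    | succ n ih =>
      rw [sum_range_succ, ih, Val, New, card_sdiff_of_subset (X.S_mono (Nat.le_succ n)),
        Nat.cast_sub (card_le_card (X.S_mono (Nat.le_succ n)))]
      ring
  rw [h1, X.S_end, X.M_end, finrank_bot, card_univ]
  have : 0 ≤ P.eps * (X.S 0).card := mul_nonneg (by linarith [P.one_le_eps]) (by positivity)
  simp only [Nat.cast_zero]
  linarith

end Proc

end Pool.Agent.Work.MP_e0d07f_co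
end

-- merged part: Pool.Agent.Work.MP_e0d07f_co.Struct
section
namespace Pool.Agent.Work.MP_e0d07f_co

open Finset Module

noncomputable def Num.base {K : Type} (P : Num K) (z : K) : ℝ :=
  P.eps * P.N z - Tri P.d (P.kap z)

/-- Class increments: `1` to the east, `2` to the north. -/
def stp (ρ : Bool) : ZMod 5 := if ρ then 2 else 1

/-- The tile system. -/
structure TSys {T : Type} (P : Num (T ⊕ Fin 3)) where
  cls : T → ZMod 5
  Hor : T → T → Prop
  Ver : T → T → Prop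
  hor_cls : ∀ a b, Hor a b → cls b = cls a + 1
  ver_cls : ∀ a b, Ver a b → cls b = cls a + 2
  np : T → ℕ
  pk : T → ℕ → Fin 3
  xi : T → ℝ
  kmax : ℕ
  kap_main : ∀ t, P.kap (.inl t) = P.k (.inl t) + 2
  kap_pend : ∀ i, P.kap (.inr i) = P.k (.inr i) + 1
  k_le : ∀ z, P.k z ≤ kmax
  room : ∀ t, P.kap (.inl t) + (kmax + 1) + (2 + np t) ≤ P.d
  pend_nonneg : ∀ i, 0 ≤ P.base (.inr i)
  pend_le : ∀ i, P.base (.inr i) ≤ 1
  cell : ∀ t, P.base (.inl t) + (2 * P.k (.inl t) + 1) +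
    ∑ i ∈ range (np t), (P.base (.inr (pk t i)) + P.k (.inr (pk t i))) = P.eps * xi t
  eps_le : P.eps ≤ 2
  Lam_ge : 2 * (kmax : ℝ) + 2 + 2 * 42 * 27 ≤ P.Lam
  tiling : ∀ {X : Type} [Fintype X] [DecidableEq X] (σ τ : Equiv.Perm X) (B : Finset X)
    (t : X → T), (∀ x ∉ B, Hor (t x) (t (σ x)) ∧ Ver (t x) (t (τ x)) ∧ τ (σ x) = σ (τ x)) →
    -(42 * (B.card : ℝ)) ≤ ∑ x, xi (t x)

open Classical

/-- The data seen when a main rule is applied. -/
structure Wit0 {V T : Type} {P : Num (T ⊕ Fin 3)} (Ts : TSys P)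
    (reg : Set (Entry V (T ⊕ Fin 3))) (Y S : Finset V) (t : T) where
  y : Bool → Entry V (T ⊕ Fin 3)
  ys : Bool → Entry V (T ⊕ Fin 3)
  yd : Entry V (T ⊕ Fin 3)
  yp : ℕ → Entry V (T ⊕ Fin 3)
  v : Bool → V
  gs : Bool → V
  gd : Bool → V
  vp : ℕ → V
  anc : Finset V
  tt : Bool → T
  ts : Bool → T
  td : T
  y_reg : ∀ ρ, y ρ ∈ reg
  ys_reg : ∀ ρ, ys ρ ∈ reg
  yd_reg : yd ∈ reg
  yp_reg : ∀ i < Ts.np t, yp i ∈ reg
  y_kind : ∀ ρ, (y ρ).kind = .inl (tt ρ)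
  ys_kind : ∀ ρ, (ys ρ).kind = .inl (ts ρ)
  yd_kind : yd.kind = .inl td
  yp_kind : ∀ i < Ts.np t, (yp i).kind = .inr (Ts.pk t i)
  hor : Ts.Hor t (tt false)
  ver : Ts.Ver t (tt true)
  ts_cls : ∀ ρ, Ts.cls (ts ρ) + stp (!ρ) = Ts.cls t + stp ρ
  td_cls : Ts.cls td = Ts.cls t + 3
  anc_sub : anc ⊆ Y ∩ S
  anc_card : anc.card = P.kap (.inl t)
  v_mem : ∀ ρ, Y ∩ (y ρ).set = {v ρ}
  vp_mem : ∀ i < Ts.np t, Y ∩ (yp i).set = {vp i}
  v_anc : ∀ ρ, v ρ ∉ anc
  vp_anc : ∀ i < Ts.np t, vp i ∉ anc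
  v_ne : v false ≠ v true
  v_vp : ∀ ρ, ∀ i < Ts.np t, v ρ ≠ vp i
  vp_inj : ∀ i < Ts.np t, ∀ i' < Ts.np t, vp i = vp i' → i = i'
  gs_mem : ∀ ρ, (y ρ).set ∩ (ys ρ).set = {gs ρ}
  gd_mem : ∀ ρ, (y ρ).set ∩ yd.set = {gd ρ}
  gs_anch : ∀ ρ, gs ρ ∉ (y ρ).anch
  gd_anch : ∀ ρ, gd ρ ∉ (y ρ).anch
  gs_v : ∀ ρ, gs ρ ≠ v ρ
  gd_v : ∀ ρ, gd ρ ≠ v ρ
  gd_gs : ∀ ρ, gd ρ ≠ gs ρ

abbrev Wit {V T : Type} [Fintype V] {P : Num (T ⊕ Fin 3)} (Ts : TSys P) (X : Proc V P)
    (j : ℕ) (t : T) := Wit0 Ts (X.reg j) (X.Y j) (X.S j) t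

/-- A process in which each application of a main rule comes with its witness. -/
structure Full (V : Type) {T : Type} [Fintype V] {P : Num (T ⊕ Fin 3)} (Ts : TSys P) where
  X : Proc V P
  hW : ∀ j t, X.fire j = some (.inl t) → Nonempty (Wit Ts X j t)

namespace Proc

variable {V K : Type} [Fintype V] {P : Num K} (X : Proc V P)

lemma not_coll_of_inter {j j0 j1 : ℕ} {z : K} (hc : X.Clean j z) (hj0 : j0 ≤ j) (hj1 : j1 ≤ j)
    {y y' : Entry V K} (hy : y ∈ X.reg j0) (hy' : y' ∈ X.reg j1) {g : V}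
    (hg : y.set ∩ y'.set = {g}) (h : X.Coll j y.set) : ¬ X.Coll j y'.set := by
  intro h'
  have := X.clean_two hc hj0 hj1 hy hy' h h'
  rw [hg] at this
  simp at this

lemma clean_unique {j : ℕ} {z z' : K} (h : X.Clean j z) (h' : X.Clean j z') : z = z' := by
  have := h.1.symm.trans h'.1
  simpa using this

/-- Ports of a clean centre. -/
lemma port_facts {j : ℕ} {z : K} (hc : X.Clean j z) {anc : Finset V}
    (hsub : anc ⊆ X.Y j ∩ X.S j) (hcard : anc.card = P.kap z) {y : Entry V K}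
    (hy : y ∈ X.reg j) {v : V} (hv : X.Y j ∩ y.set = {v}) (hva : v ∉ anc) :
    v ∈ X.A j ∧ P.kap z + (y.set ∩ X.S j).card ≤ (X.Nb j v).card ∧
      P.k y.kind ≤ (y.set ∩ X.S j).card ∧
      ∃ j', j < j' ∧ j' < X.J ∧ X.Coll j' y.set ∧ v ∈ X.Att j' := by
  have hI := (X.clean_card hc).1
  have hvm : v ∈ X.Y j ∩ y.set := by rw [hv]; simp
  rw [mem_inter] at hvm
  have heq : anc = X.Y j ∩ X.S j := eq_of_subset_of_card_le hsub (by omega)
  have hvS : v ∉ X.S j := fun h => hva (heq ▸ mem_inter.mpr ⟨hvm.1, h⟩)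
  refine ⟨mem_sdiff.mpr ⟨hvm.1, hvS⟩, ?_, ?_, ?_⟩
  · rw [← hI, ← card_union_of_disjoint]
    · exact card_le_card (union_subset (X.inter_sub_Nb (X.Y_clique j) hvm.1 hvS)
        (X.inter_sub_Nb (X.reg_clique j y hy) hvm.2 hvS))
    · rw [disjoint_left]
      intro g hg hg'
      have : g ∈ X.Y j ∩ y.set := mem_inter.mpr ⟨(mem_inter.mp hg).1, (mem_inter.mp hg').1⟩
      rw [hv, mem_singleton] at this
      exact hvS (this ▸ (mem_inter.mp hg).2)
  · rw [← X.anch_card j y hy]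
    exact card_le_card fun g hg => mem_inter.mpr ⟨X.anch_sub j y hy hg,
      X.mem_S.mpr (X.anch_S j y hy g hg)⟩
  · obtain ⟨⟨c, hcr, hcY, -⟩, -⟩ := X.fire_case j z hc.1
    have h1 : ¬ y.set ⊆ X.S (j + 1) := fun h =>
      X.not_coll_of_inter hc le_rfl le_rfl hcr hy (hcY ▸ hv) ⟨hcY ▸ hc.2.1, hcY ▸ X.Y_sub j⟩
        ⟨fun h' => hvS (h' hvm.2), h⟩
    obtain ⟨j', h2, h3, h4⟩ := X.exists_coll h1
    exact ⟨j', h2, h3, h4, X.mem_Att hy hvm.2 (X.S_mono h2 (X.Y_sub j hvm.1)) hvS h4⟩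

/-- The total number of attachments to events that are not clean. -/
noncomputable def Unc : Finset ℕ := (range X.J).filter fun j => ∀ z, ¬ X.Clean j z
noncomputable def D : ℕ := ∑ j ∈ X.Unc, (X.Att j).card

lemma count_unclean {ι : Type} (s : Finset ι) (tg : ι → ℕ) (ow : ι → V)
    (h1 : ∀ i ∈ s, tg i ∈ X.Unc) (h2 : ∀ i ∈ s, ow i ∈ X.Att (tg i))
    (h3 : Set.InjOn ow s) : s.card ≤ X.D := by
  refine le_trans ?_ (card_biUnion_le (s := X.Unc) (t := X.Att))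
  exact card_le_card_of_injOn ow (fun i hi => mem_coe.mpr (mem_biUnion.mpr ⟨_, h1 i hi, h2 i hi⟩)) h3

lemma clean_Val' {ι : Type} [Nonempty ι] {j : ℕ} {z : K} (hc : X.Clean j z) (R : Finset ι)
    (port : ι → V) (val : ι → ℕ) (hinj : Set.InjOn port R) (h1 : ∀ r ∈ R, port r ∈ X.A j)
    (hn : ∀ r ∈ R, P.kap z + val r ≤ (X.Nb j (port r)).card)
    (hl : ∀ r ∈ R, P.kap z + val r + R.card ≤ P.d) (hR : R.card ≤ P.d) :
    P.base z + (∑ r ∈ R, val r : ℕ) + (X.Z j).card ≤ X.Val j := by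
  have hinv : ∀ r ∈ R, Function.invFunOn port R (port r) = r := fun r hr =>
    hinj.leftInvOn_invFunOn hr
  have := X.clean_Val hc (fun u => val (Function.invFunOn port R u)) (R.image port)
    (fun u hu => by obtain ⟨r, hr, rfl⟩ := mem_image.mp hu; exact h1 r hr)
    (fun u hu => by obtain ⟨r, hr, rfl⟩ := mem_image.mp hu; rw [hinv r hr]; exact hn r hr)
    (fun u hu => by
      obtain ⟨r, hr, rfl⟩ := mem_image.mp hu
      rw [hinv r hr, card_image_of_injOn hinj]; exact hl r hr)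
    (by rw [card_image_of_injOn hinj]; exact hR)
  rw [sum_image hinj, sum_congr rfl fun r hr => by rw [hinv r hr]] at this
  exact this

end Proc

namespace Full

variable {V T : Type} [Fintype V] {P : Num (T ⊕ Fin 3)} {Ts : TSys P} (F : Full V Ts)

noncomputable def CM : Finset ℕ := (range F.X.J).filter fun j => ∃ t, F.X.Clean j (.inl t)

noncomputable def tile (x : F.CM) : T := (mem_filter.mp x.2).2.choose

lemma tile_clean (x : F.CM) : F.X.Clean x (.inl (F.tile x)) := (mem_filter.mp x.2).2.choose_spec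

noncomputable def W (x : F.CM) : Wit Ts F.X x (F.tile x) :=
  (F.hW x _ (F.tile_clean x).1).some

lemma v_facts (x : F.CM) (ρ : Bool) :
    (F.W x).v ρ ∈ F.X.A x ∧
      P.kap (.inl (F.tile x)) + (((F.W x).y ρ).set ∩ F.X.S x).card
        ≤ (F.X.Nb x ((F.W x).v ρ)).card ∧
      P.k ((F.W x).y ρ).kind ≤ (((F.W x).y ρ).set ∩ F.X.S x).card ∧
      ∃ j', x.1 < j' ∧ j' < F.X.J ∧ F.X.Coll j' ((F.W x).y ρ).set ∧ (F.W x).v ρ ∈ F.X.Att j' :=
  F.X.port_facts (F.tile_clean x) (F.W x).anc_sub (F.W x).anc_card ((F.W x).y_reg ρ)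
    ((F.W x).v_mem ρ) ((F.W x).v_anc ρ)

noncomputable def tgt (x : F.CM) (ρ : Bool) : ℕ := (F.v_facts x ρ).2.2.2.choose

lemma tgt_spec (x : F.CM) (ρ : Bool) : x.1 < F.tgt x ρ ∧ F.tgt x ρ < F.X.J ∧
    F.X.Coll (F.tgt x ρ) ((F.W x).y ρ).set ∧ (F.W x).v ρ ∈ F.X.Att (F.tgt x ρ) :=
  (F.v_facts x ρ).2.2.2.choose_spec

lemma v_new (x : F.CM) (ρ : Bool) : (F.W x).v ρ ∈ F.X.New x := F.X.A_sub_New _ (F.v_facts x ρ).1

lemma v_inj : Function.Injective fun p : F.CM × Bool => (F.W p.1).v p.2 := by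
  rintro ⟨x, ρ⟩ ⟨x', ρ'⟩ h
  simp only at h
  have hx : x = x' := Subtype.ext (F.X.new_unique (F.v_new x ρ) (h ▸ F.v_new x' ρ'))
  subst hx
  have := (F.W x).v_ne
  cases ρ <;> cases ρ' <;> simp_all

lemma tt_cls (x : F.CM) (ρ : Bool) : Ts.cls ((F.W x).tt ρ) = Ts.cls (F.tile x) + stp ρ := by
  cases ρ
  · exact Ts.hor_cls _ _ (F.W x).hor
  · exact Ts.ver_cls _ _ (F.W x).ver

lemma kind_of_coll (x : F.CM) {j0 : ℕ} (hj : j0 ≤ x.1) {y : Entry V (T ⊕ Fin 3)}
    (hy : y ∈ F.X.reg j0) (h : F.X.Coll x y.set) {t : T} (ht : y.kind = .inl t) :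
    F.tile x = t := by
  have := (F.X.clean_coll (F.tile_clean x) hj hy h).2.1
  rw [ht] at this
  exact (Sum.inl_injective this).symm

lemma tile_tgt {x x' : F.CM} {ρ : Bool} (h : F.tgt x ρ = x') : F.tile x' = (F.W x).tt ρ :=
  F.kind_of_coll x' (h ▸ (F.tgt_spec x ρ).1.le) ((F.W x).y_reg ρ) (h ▸ (F.tgt_spec x ρ).2.2.1)
    ((F.W x).y_kind ρ)

lemma mem_CM_of_coll {j j0 : ℕ} (hJ : j < F.X.J) (hj : j0 ≤ j) {y : Entry V (T ⊕ Fin 3)}
    (hy : y ∈ F.X.reg j0) (h : F.X.Coll j y.set) {t : T} (ht : y.kind = .inl t)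
    (hu : j ∉ F.X.Unc) : j ∈ F.CM := by
  simp only [Proc.Unc, mem_filter, mem_range, hJ, true_and, not_forall, not_not] at hu
  obtain ⟨z, hz⟩ := hu
  have := (F.X.clean_coll hz hj hy h).2.1
  exact mem_filter.mpr ⟨mem_range.mpr hJ, t, by rw [← ht, this]; exact hz⟩

lemma Att_le_two (x : F.CM) : (F.X.Att x).card ≤ 2 := by
  have := F.X.clean_Att_card (F.tile_clean x)
  rw [Ts.kap_main] at this
  omega

noncomputable def Fib (x' : F.CM) : Finset (F.CM × Bool) :=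
  univ.filter fun p => F.tgt p.1 p.2 = x'

lemma Fib_image (x' : F.CM) :
    (F.Fib x').image (fun p => (F.W p.1).v p.2) ⊆ F.X.Att x' := by
  intro g hg
  obtain ⟨p, hp, rfl⟩ := mem_image.mp hg
  rw [← (mem_filter.mp hp).2]
  exact (F.tgt_spec p.1 p.2).2.2.2

lemma Fib_le (x' : F.CM) : (F.Fib x').card ≤ 2 := by
  rw [← card_image_of_injective _ F.v_inj]
  exact (card_le_card (F.Fib_image x')).trans (F.Att_le_two x')

noncomputable def Unsat : Finset F.CM := univ.filter fun x => (F.Fib x).card ≠ 2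

lemma Unsat_le : F.Unsat.card ≤ F.X.D := by
  have h1 := F.X.count_unclean (univ.filter fun p : F.CM × Bool => F.tgt p.1 p.2 ∈ F.X.Unc)
    (fun p => F.tgt p.1 p.2) (fun p => (F.W p.1).v p.2) (fun p hp => (mem_filter.mp hp).2)
    (fun p _ => (F.tgt_spec p.1 p.2).2.2.2) F.v_inj.injOn
  have h2 : (univ : Finset (F.CM × Bool)) ⊆
      (univ.filter fun p : F.CM × Bool => F.tgt p.1 p.2 ∈ F.X.Unc) ∪ univ.biUnion F.Fib := by
    intro p _
    by_cases hp : F.tgt p.1 p.2 ∈ F.X.Unc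
    · simp [hp]
    · have hs := F.tgt_spec p.1 p.2
      have := F.mem_CM_of_coll hs.2.1 hs.1.le ((F.W p.1).y_reg p.2) hs.2.2.1
        ((F.W p.1).y_kind p.2) hp
      exact mem_union_right _ (mem_biUnion.mpr ⟨⟨_, this⟩, mem_univ _, by simp [Fib]⟩)
  have h3 := (card_le_card h2).trans (card_union_le _ _)
  have h4 := card_biUnion_le (s := (univ : Finset F.CM)) (t := F.Fib)
  have h5 : ∑ x, (F.Fib x).card + F.Unsat.card ≤ ∑ _x : F.CM, 2 := by
    rw [Unsat, card_filter, ← sum_add_distrib]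
    refine sum_le_sum fun x _ => ?_
    have := F.Fib_le x
    split_ifs <;> omega
  simp only [sum_const, card_univ, smul_eq_mul, Fintype.card_prod, Fintype.card_bool] at h3 h5
  omega

noncomputable def BadAtt : Finset V :=
  F.X.Unc.biUnion F.X.Att ∪ F.Unsat.biUnion fun x => F.X.Att x

def Good1 (x : F.CM) : Prop := Disjoint (F.X.New x) F.BadAtt

lemma bad1_le : (univ.filter fun x => ¬ F.Good1 x).card ≤ 3 * F.X.D := by
  have h1 : F.BadAtt.card ≤ 3 * F.X.D := by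
    refine (card_union_le _ _).trans ?_
    have a1 : (F.X.Unc.biUnion F.X.Att).card ≤ F.X.D := card_biUnion_le
    have a2 : (F.Unsat.biUnion fun x => F.X.Att x).card ≤ F.Unsat.card * 2 :=
      card_biUnion_le_card_mul _ _ _ fun x _ => F.Att_le_two x
    have a3 := F.Unsat_le
    omega
  refine le_trans ?_ h1
  have h2 : ∀ x : F.CM, ∃ g, ¬ F.Good1 x → g ∈ F.X.New x ∧ g ∈ F.BadAtt := by
    intro x
    by_cases hx : F.Good1 x
    · exact ⟨(F.W x).v true, fun h => absurd hx h⟩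
    · obtain ⟨g, hg⟩ := not_disjoint_iff.mp hx
      exact ⟨g, fun _ => hg⟩
  choose g hg using h2
  refine card_le_card_of_injOn g (fun x hx => (hg x (mem_filter.mp hx).2).2) ?_
  intro x hx x' hx' h
  exact Subtype.ext (F.X.new_unique (hg x (mem_filter.mp hx).2).1
    (h ▸ (hg x' (mem_filter.mp hx').2).1))

lemma attach {x : F.CM} (hx : F.Good1 x) {j0 : ℕ} (hj : j0 ≤ x.1) {z : Entry V (T ⊕ Fin 3)}
    (hz : z ∈ F.X.reg j0) {tz : T} (ht : z.kind = .inl tz) {g : V} (hg : g ∈ z.set)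
    (hgN : g ∈ F.X.New x) (hS : ¬ z.set ⊆ F.X.S (x.1 + 1)) :
    ∃ (ρ : Bool) (x' : F.CM), F.tgt x ρ = x' ∧ g = (F.W x).v ρ ∧ F.X.Coll x' z.set ∧
      Ts.cls tz = Ts.cls (F.tile x) + stp ρ := by
  obtain ⟨j', h1, h2, h3⟩ := F.X.exists_coll hS
  have hgA : g ∈ F.X.Att j' := F.X.mem_Att hz hg (F.X.S_mono h1 (mem_sdiff.mp hgN).1)
    (fun h => (mem_sdiff.mp hgN).2 (F.X.S_mono hj h)) h3
  have hgB : g ∉ F.BadAtt := disjoint_left.mp hx hgN
  have hu : j' ∉ F.X.Unc := fun h => hgB (mem_union_left _ (mem_biUnion.mpr ⟨_, h, hgA⟩))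
  have hm := F.mem_CM_of_coll h2 (by omega) hz h3 ht hu
  have hsat : (F.Fib ⟨j', hm⟩).card = 2 := by
    by_contra h
    exact hgB (mem_union_right _ (mem_biUnion.mpr ⟨⟨j', hm⟩, by simp [Unsat, h], hgA⟩))
  have heq : (F.Fib ⟨j', hm⟩).image (fun p => (F.W p.1).v p.2) = F.X.Att j' :=
    eq_of_subset_of_card_le (F.Fib_image ⟨j', hm⟩) (by
      rw [card_image_of_injective _ F.v_inj, hsat]; exact F.Att_le_two ⟨j', hm⟩)
  rw [← heq] at hgA
  obtain ⟨⟨x2, ρ⟩, hp, hpg⟩ := mem_image.mp hgA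
  have hx2 : x2 = x := Subtype.ext (F.X.new_unique (F.v_new x2 ρ) (hpg ▸ hgN))
  subst hx2
  have htg : F.tgt x2 ρ = (⟨j', hm⟩ : F.CM) := (mem_filter.mp hp).2
  refine ⟨ρ, ⟨j', hm⟩, htg, hpg.symm, h3, ?_⟩
  rw [← F.kind_of_coll ⟨j', hm⟩ (by show j0 ≤ j'; omega) hz h3 ht, F.tile_tgt htg, F.tt_cls]

lemma I_cases {x y : F.CM} {ρ : Bool} (h : F.tgt x ρ = y) (hy : F.Good1 y) :
    ∀ g ∈ F.X.Y y ∩ F.X.S y,
      g ∈ ((F.W x).y ρ).anch ∨ g = (F.W x).v ρ ∨ g = (F.W x).gs ρ := by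
  have hs := F.tgt_spec x ρ
  rw [h] at hs
  have hc := F.tile_clean y
  have hyr := (F.W x).y_reg ρ
  have hcoll := F.X.clean_coll hc hs.1.le hyr hs.2.2.1
  have hgs : (F.W x).gs ρ ∈ ((F.W x).y ρ).set ∩ ((F.W x).ys ρ).set := by
    rw [(F.W x).gs_mem]; simp
  rw [mem_inter] at hgs
  have hgsS : (F.W x).gs ρ ∈ F.X.S y := by
    by_contra hn
    have hnew : (F.W x).gs ρ ∈ F.X.New y := mem_sdiff.mpr ⟨hs.2.2.1.2 hgs.1, hn⟩
    have hnc := F.X.not_coll_of_inter hc hs.1.le hs.1.le hyr ((F.W x).ys_reg ρ)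
      ((F.W x).gs_mem ρ) hs.2.2.1
    obtain ⟨ρ', x', -, -, -, hcl⟩ := F.attach hy hs.1.le ((F.W x).ys_reg ρ) ((F.W x).ys_kind ρ)
      hgs.2 hnew (fun h' => hnc ⟨fun h'' => hn (h'' hgs.2), h'⟩)
    have h1 := (F.W x).ts_cls ρ
    rw [hcl, F.tile_tgt h, F.tt_cls, add_assoc, add_assoc, add_right_inj] at h1
    revert h1
    cases ρ <;> cases ρ' <;> decide
  have hvS : (F.W x).v ρ ∉ F.X.S x := (mem_sdiff.mp (F.v_new x ρ)).2
  have hanS : ((F.W x).y ρ).anch ⊆ F.X.S x := fun g hg =>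
    F.X.mem_S.mpr (F.X.anch_S _ _ hyr g hg)
  have hsub : insert ((F.W x).gs ρ) (insert ((F.W x).v ρ) ((F.W x).y ρ).anch)
      ⊆ F.X.Y y ∩ F.X.S y := by
    refine insert_subset (mem_inter.mpr ⟨hcoll.1 (mem_inter.mpr ⟨hgs.1, hgsS⟩), hgsS⟩)
      (insert_subset (F.X.clean_Att_sub hc hs.2.2.2) fun g hg => ?_)
    have := F.X.S_mono hs.1.le (hanS hg)
    exact mem_inter.mpr ⟨hcoll.1 (mem_inter.mpr ⟨F.X.anch_sub _ _ hyr hg, this⟩), this⟩
  have heq := eq_of_subset_of_card_le hsub (by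
    rw [card_insert_of_notMem (by simp [(F.W x).gs_v ρ, (F.W x).gs_anch ρ]),
      card_insert_of_notMem (fun h => hvS (hanS h)), F.X.anch_card _ _ hyr, hcoll.2.1,
      (F.X.clean_card hc).1, Ts.kap_main])
  intro g hg
  rw [← heq] at hg
  simp only [mem_insert] at hg
  (clear * - hs hcoll hgs hg; tauto)

lemma tgt_inj_lt {x1 x2 y : F.CM} {ρ : Bool} (h1 : F.tgt x1 ρ = y) (h2 : F.tgt x2 ρ = y)
    (hx2 : F.Good1 x2) (hy : F.Good1 y) : ¬ x1.1 < x2.1 := by
  intro hlt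
  have hs1 := F.tgt_spec x1 ρ
  have hs2 := F.tgt_spec x2 ρ
  rw [h1] at hs1
  rw [h2] at hs2
  have hc := F.tile_clean y
  have hnew := F.v_new x2 ρ
  have hvS : (F.W x2).v ρ ∉ F.X.S (x1.1 + 1) := fun h => (mem_sdiff.mp hnew).2 (F.X.S_mono hlt h)
  have hg : (F.W x2).v ρ = (F.W x1).gs ρ := by
    rcases F.I_cases h1 hy _ (F.X.clean_Att_sub hc hs2.2.2.2) with h | h | h
    · exact absurd (F.X.S_mono (Nat.le_succ _)
        (F.X.mem_S.mpr (F.X.anch_S _ _ ((F.W x1).y_reg ρ) _ h))) hvS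
    · exact absurd (h ▸ (mem_sdiff.mp (F.v_new x1 ρ)).1) hvS
    · exact h
  have hgs : (F.W x1).gs ρ ∈ ((F.W x1).y ρ).set ∩ ((F.W x1).ys ρ).set := by
    rw [(F.W x1).gs_mem]; simp
  rw [mem_inter, ← hg] at hgs
  have hcls := (F.W x1).ts_cls ρ
  rw [← F.tt_cls, ← F.tile_tgt h1, F.tile_tgt h2, F.tt_cls] at hcls
  by_cases hS : ((F.W x1).ys ρ).set ⊆ F.X.S (x2.1 + 1)
  · have := F.kind_of_coll x2 hlt.le ((F.W x1).ys_reg ρ)
      ⟨fun h => (mem_sdiff.mp hnew).2 (h hgs.2), hS⟩ ((F.W x1).ys_kind ρ)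
    rw [this, add_right_inj] at hcls
    revert hcls
    cases ρ <;> decide
  · obtain ⟨ρ', x', h3, h4, h5, -⟩ := F.attach hx2 hlt.le ((F.W x1).ys_reg ρ)
      ((F.W x1).ys_kind ρ) hgs.2 hnew hS
    have : (x2, ρ) = (x2, ρ') := F.v_inj h4
    obtain rfl : ρ = ρ' := congrArg Prod.snd this
    rw [← h3, h2] at h5
    exact F.X.not_coll_of_inter hc hs1.1.le hs1.1.le ((F.W x1).y_reg ρ) ((F.W x1).ys_reg ρ)
      ((F.W x1).gs_mem ρ) hs1.2.2.1 h5

lemma tgt_comm {x y : F.CM} {ρ : Bool} (h : F.tgt x ρ = y) (hy : F.Good1 y) :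
    F.X.Coll (F.tgt y (!ρ)) (F.W x).yd.set := by
  have hs := F.tgt_spec x ρ
  rw [h] at hs
  have hc := F.tile_clean y
  have hyr := (F.W x).y_reg ρ
  have hcoll := F.X.clean_coll hc hs.1.le hyr hs.2.2.1
  have hgd : (F.W x).gd ρ ∈ ((F.W x).y ρ).set ∩ (F.W x).yd.set := by
    rw [(F.W x).gd_mem]; simp
  rw [mem_inter] at hgd
  have hn : (F.W x).gd ρ ∉ F.X.S y := by
    intro hS
    rcases F.I_cases h hy _ (mem_inter.mpr ⟨hcoll.1 (mem_inter.mpr ⟨hgd.1, hS⟩), hS⟩)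
      with h | h | h
    · exact (F.W x).gd_anch ρ h
    · exact (F.W x).gd_v ρ h
    · exact (F.W x).gd_gs ρ h
  have hnew : (F.W x).gd ρ ∈ F.X.New y := mem_sdiff.mpr ⟨hs.2.2.1.2 hgd.1, hn⟩
  have hnc := F.X.not_coll_of_inter hc hs.1.le hs.1.le hyr (F.W x).yd_reg
    ((F.W x).gd_mem ρ) hs.2.2.1
  obtain ⟨ρ', x', h1, -, h2, hcl⟩ := F.attach hy hs.1.le (F.W x).yd_reg (F.W x).yd_kind
    hgd.2 hnew (fun h' => hnc ⟨fun h'' => hn (h'' hgd.2), h'⟩)
  rw [(F.W x).td_cls, F.tile_tgt h, F.tt_cls, add_assoc, add_right_inj] at hcl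
  have : ρ' = !ρ := by
    revert hcl
    cases ρ <;> cases ρ' <;> decide
  rw [← this, h1]
  exact h2

end Full

end Pool.Agent.Work.MP_e0d07f_co
end

-- merged part: Pool.Agent.Work.MP_e0d07f_co.Total
section
namespace Pool.Agent.Work.MP_e0d07f_co

open Finset Module Classical

lemma exists_perm_extend {X : Type} [Finite X] (G : Finset X) (f : X → X)
    (hf : Set.InjOn f G) : ∃ σ : Equiv.Perm X, ∀ x ∈ G, σ x = f x := by
  obtain ⟨σ, hσ⟩ := Equiv.Perm.exists_extending_pair (f := (Subtype.val : G → X))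
    (g := fun x : G => f x) Subtype.val_injective
    (fun x y h => Subtype.ext (hf x.2 y.2 h))
  exact ⟨σ, fun x hx => hσ ⟨x, hx⟩⟩

namespace Full

variable {V T : Type} [Fintype V] {P : Num (T ⊕ Fin 3)} {Ts : TSys P} (F : Full V Ts)

noncomputable def nxt (x : F.CM) (ρ : Bool) : F.CM :=
  if h : F.tgt x ρ ∈ F.CM then ⟨_, h⟩ else x

lemma nxt_spec {x : F.CM} (hx : F.Good1 x) (ρ : Bool) : F.tgt x ρ = F.nxt x ρ := by
  have hs := F.tgt_spec x ρ
  have hgB : (F.W x).v ρ ∉ F.BadAtt := disjoint_left.mp hx (F.v_new x ρ)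
  have hu : F.tgt x ρ ∉ F.X.Unc := fun h =>
    hgB (mem_union_left _ (mem_biUnion.mpr ⟨_, h, hs.2.2.2⟩))
  have hm := F.mem_CM_of_coll hs.2.1 hs.1.le ((F.W x).y_reg ρ) hs.2.2.1 ((F.W x).y_kind ρ) hu
  simp [nxt, hm]

lemma pull_le (B : Finset F.CM) :
    (univ.filter fun x => F.Good1 x ∧ ∃ ρ, F.nxt x ρ ∈ B).card ≤ 2 * B.card := by
  have h1 : (univ.filter fun x => F.Good1 x ∧ ∃ ρ, F.nxt x ρ ∈ B)
      ⊆ (B.biUnion F.Fib).image Prod.fst := by
    intro x hx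
    obtain ⟨hx, ρ, hρ⟩ := (mem_filter.mp hx).2
    refine mem_image.mpr ⟨(x, ρ), mem_biUnion.mpr ⟨_, hρ, ?_⟩, rfl⟩
    simp [Fib, F.nxt_spec hx ρ]
  refine (card_le_card h1).trans (card_image_le.trans ?_)
  rw [mul_comm]
  exact card_biUnion_le_card_mul _ _ _ fun x _ => F.Fib_le x

def Good2 (x : F.CM) : Prop := F.Good1 x ∧ ∀ ρ, F.Good1 (F.nxt x ρ)

lemma bad2_le : (univ.filter fun x => ¬ F.Good2 x).card ≤ 9 * F.X.D := by
  have h1 := F.bad1_le
  have h2 := F.pull_le (univ.filter fun x => ¬ F.Good1 x)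
  have h3 : (univ.filter fun x => ¬ F.Good2 x) ⊆ (univ.filter fun x => ¬ F.Good1 x) ∪
      (univ.filter fun x => F.Good1 x ∧ ∃ ρ, F.nxt x ρ ∈ univ.filter fun x => ¬ F.Good1 x) := by
    intro x hx
    simp only [Good2, mem_filter, mem_univ, true_and, mem_union, not_and, not_forall] at hx ⊢
    (clear * - hx; tauto)
  have := (card_le_card h3).trans (card_union_le _ _)
  omega

lemma nxt_inj (ρ : Bool) : Set.InjOn (fun x => F.nxt x ρ) (univ.filter F.Good2 : Finset F.CM) := by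
  intro x1 h1 x2 h2 h
  simp only [coe_filter, mem_univ, true_and, Set.mem_ofPred_eq] at h1 h2 h
  have e1 := F.nxt_spec h1.1 ρ
  have e2 := F.nxt_spec h2.1 ρ
  rw [← h] at e2
  have a1 := F.tgt_inj_lt e1 e2 h2.1 (h1.2 ρ)
  have a2 := F.tgt_inj_lt e2 e1 h1.1 (h1.2 ρ)
  exact Subtype.ext (by omega)

lemma xi_sum : -(42 * (27 * (F.X.D : ℝ))) ≤ ∑ x, Ts.xi (F.tile x) := by
  obtain ⟨σ, hσ⟩ := exists_perm_extend _ _ (F.nxt_inj false)
  obtain ⟨τ, hτ⟩ := exists_perm_extend _ _ (F.nxt_inj true)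
  simp only [mem_filter, mem_univ, true_and] at hσ hτ
  set B2 := univ.filter fun x => ¬ F.Good2 x with hB2
  set B := B2 ∪ univ.filter fun x => F.Good1 x ∧ ∃ ρ, F.nxt x ρ ∈ B2 with hB
  have hcard : B.card ≤ 27 * F.X.D := by
    have h1 := F.bad2_le
    have h2 := F.pull_le B2
    have := card_union_le B2 (univ.filter fun x => F.Good1 x ∧ ∃ ρ, F.nxt x ρ ∈ B2)
    rw [← hB2] at h1
    rw [← hB] at this
    omega
  have key := Ts.tiling σ τ B F.tile (by
    intro x hx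
    simp only [hB, hB2, mem_union, mem_filter, mem_univ, true_and, not_or, not_not, not_and,
      not_exists] at hx
    obtain ⟨g2, g3⟩ := hx
    have g4 := g3 g2.1
    rw [hσ x g2, hτ x g2, hτ _ (g4 false), hσ _ (g4 true)]
    refine ⟨?_, ?_, ?_⟩
    · rw [F.tile_tgt (F.nxt_spec g2.1 false)]; exact (F.W x).hor
    · rw [F.tile_tgt (F.nxt_spec g2.1 true)]; exact (F.W x).ver
    · have c1 := F.tgt_comm (F.nxt_spec g2.1 false) (g2.2 false)
      have c2 := F.tgt_comm (F.nxt_spec g2.1 true) (g2.2 true)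
      have := F.X.coll_unique c1 c2
      simp only [Bool.not_false, Bool.not_true] at this
      rw [F.nxt_spec (g4 false).1, F.nxt_spec (g4 true).1] at this
      exact Subtype.ext this)
  have : (B.card : ℝ) ≤ 27 * F.X.D := by exact_mod_cast hcard
  linarith

noncomputable def lam (p : F.CM × Bool) : ℕ :=
  P.k ((F.W p.1).y p.2).kind +
    if P.k ((F.W p.1).y p.2).kind + 1 ≤ (((F.W p.1).y p.2).set ∩ F.X.S p.1).card then 1 else 0

lemma sat_lt {x' : F.CM} {p1 p2 : F.CM × Bool} (h1 : p1 ∈ F.Fib x') (h2 : p2 ∈ F.Fib x')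
    (hlt : p1.1.1 < p2.1.1) :
    2 * P.k (.inl (F.tile x')) + 1 ≤ F.lam p1 + F.lam p2 + (F.X.Z x').card := by
  obtain ⟨x1, ρ1⟩ := p1
  obtain ⟨x2, ρ2⟩ := p2
  have e1 : F.tgt x1 ρ1 = x' := (mem_filter.mp h1).2
  have e2 : F.tgt x2 ρ2 = x' := (mem_filter.mp h2).2
  have hs1 := F.tgt_spec x1 ρ1
  have hs2 := F.tgt_spec x2 ρ2
  rw [e1] at hs1
  rw [e2] at hs2
  have hc := F.tile_clean x'
  have c1 := F.X.clean_coll hc hs1.1.le ((F.W x1).y_reg ρ1) hs1.2.2.1
  have c2 := F.X.clean_coll hc hs2.1.le ((F.W x2).y_reg ρ2) hs2.2.2.1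
  simp only [lam, c1.2.1, c2.2.1]
  rcases Nat.eq_zero_or_pos (F.X.Z x').card with hZ | hZ
  swap
  · omega
  have hZ' : F.X.Z x' = ∅ := card_eq_zero.mp hZ
  have hsub : ((F.W x2).y ρ2).set ⊆ F.X.Y x' := by
    intro g hg
    by_cases hgS : g ∈ F.X.S x'
    · exact c2.1 (mem_inter.mpr ⟨hg, hgS⟩)
    · by_contra hgY
      have : g ∈ F.X.Z x' := mem_sdiff.mpr ⟨mem_sdiff.mpr ⟨hs2.2.2.1.2 hg, hgS⟩, hgY⟩
      simp [hZ'] at this
  have heq : ((F.W x2).y ρ2).set = F.X.Y x' := eq_of_subset_of_card_le hsub (by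
    rw [F.X.reg_card _ _ ((F.W x2).y_reg ρ2), c2.2.1, (F.X.fire_card hc.1).1])
  have hv := mem_sdiff.mp (F.v_new x1 ρ1)
  have hanS : ((F.W x1).y ρ1).anch ⊆ F.X.S x1 := fun g hg =>
    F.X.mem_S.mpr (F.X.anch_S _ _ ((F.W x1).y_reg ρ1) g hg)
  have hsub2 : insert ((F.W x1).v ρ1) ((F.W x1).y ρ1).anch
      ⊆ ((F.W x2).y ρ2).set ∩ F.X.S x2 := by
    rw [heq]
    refine insert_subset (mem_inter.mpr ⟨(mem_inter.mp (F.X.clean_Att_sub hc hs1.2.2.2)).1,
      F.X.S_mono hlt hv.1⟩) fun g hg => ?_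
    exact mem_inter.mpr ⟨c1.1 (mem_inter.mpr ⟨F.X.anch_sub _ _ ((F.W x1).y_reg ρ1) hg,
      F.X.S_mono hs1.1.le (hanS hg)⟩), F.X.S_mono hlt.le (hanS hg)⟩
  have := card_le_card hsub2
  rw [card_insert_of_notMem (fun h => hv.2 (hanS h)), F.X.anch_card _ _ ((F.W x1).y_reg ρ1),
    c1.2.1] at this
  rw [if_pos this]
  omega

lemma sat_credit {x' : F.CM} (h : x' ∉ F.Unsat) :
    2 * P.k (.inl (F.tile x')) + 1 ≤ ∑ p ∈ F.Fib x', F.lam p + (F.X.Z x').card := by
  have h2 : (F.Fib x').card = 2 := by simpa [Unsat] using h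
  obtain ⟨p1, p2, hne, hp⟩ := card_eq_two.mp h2
  have h1 : p1 ∈ F.Fib x' := by simp [hp]
  have h2 : p2 ∈ F.Fib x' := by simp [hp]
  rw [hp, sum_pair hne]
  rcases lt_trichotomy p1.1.1 p2.1.1 with hlt | heq | hgt
  · exact F.sat_lt h1 h2 hlt
  · exfalso
    obtain ⟨x1, ρ1⟩ := p1
    obtain ⟨x2, ρ2⟩ := p2
    obtain rfl : x1 = x2 := Subtype.ext heq
    have e1 := F.tile_tgt (mem_filter.mp h1).2
    have e2 := F.tile_tgt (mem_filter.mp h2).2
    have a1 := F.tt_cls x1 ρ1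
    have a2 := F.tt_cls x1 ρ2
    simp only at e1 e2
    rw [← e1] at a1
    rw [← e2, a1, add_right_inj] at a2
    revert a2 hne
    cases ρ1 <;> cases ρ2 <;> simp <;> decide
  · have := F.sat_lt h2 h1 hgt
    omega

lemma credit_sum : ∑ x, (2 * P.k (.inl (F.tile x)) + 1) ≤
    ∑ p, F.lam p + ∑ x : F.CM, (F.X.Z x).card + (2 * Ts.kmax + 1) * F.X.D := by
  have h1 : ∑ x, ∑ p ∈ F.Fib x, F.lam p ≤ ∑ p, F.lam p := by
    rw [← sum_biUnion]
    · exact sum_le_sum_of_subset (subset_univ _)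
    · intro x _ x' _ hne
      rw [Function.onFun, disjoint_left]
      intro p hp hp'
      exact hne (Subtype.ext ((mem_filter.mp hp).2.symm.trans (mem_filter.mp hp').2))
  have h2 : ∑ x, (2 * P.k (.inl (F.tile x)) + 1) ≤ ∑ x : F.CM,
      (∑ p ∈ F.Fib x, F.lam p + (F.X.Z x).card + if x ∈ F.Unsat then 2 * Ts.kmax + 1 else 0) := by
    refine sum_le_sum fun x _ => ?_
    split_ifs with hx
    · have := Ts.k_le (.inl (F.tile x))
      omega
    · simpa using F.sat_credit hx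
  rw [sum_add_distrib (g := fun x => if x ∈ F.Unsat then 2 * Ts.kmax + 1 else 0),
    sum_add_distrib (g := fun x : F.CM => (F.X.Z x).card), sum_ite_mem, univ_inter, sum_const,
    smul_eq_mul] at h2
  have h3 := Nat.mul_le_mul_right (2 * Ts.kmax + 1) F.Unsat_le
  rw [mul_comm F.X.D] at h3
  omega

lemma vp_facts (x : F.CM) {i : ℕ} (hi : i < Ts.np (F.tile x)) :
    (F.W x).vp i ∈ F.X.A x ∧
      P.kap (.inl (F.tile x)) + (((F.W x).yp i).set ∩ F.X.S x).card
        ≤ (F.X.Nb x ((F.W x).vp i)).card ∧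
      P.k ((F.W x).yp i).kind ≤ (((F.W x).yp i).set ∩ F.X.S x).card ∧
      ∃ j', x.1 < j' ∧ j' < F.X.J ∧ F.X.Coll j' ((F.W x).yp i).set ∧ (F.W x).vp i ∈ F.X.Att j' :=
  F.X.port_facts (F.tile_clean x) (F.W x).anc_sub (F.W x).anc_card ((F.W x).yp_reg i hi)
    ((F.W x).vp_mem i hi) ((F.W x).vp_anc i hi)

lemma main_Val (x : F.CM) :
    P.base (.inl (F.tile x)) + ((F.lam (x, false) + F.lam (x, true) : ℕ) +
      ∑ i ∈ range (Ts.np (F.tile x)), (P.k (.inr (Ts.pk (F.tile x) i)) : ℝ))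
      + (F.X.Z x).card ≤ F.X.Val x := by
  have hroom := Ts.room (F.tile x)
  have hR : ((univ : Finset Bool).disjSum (range (Ts.np (F.tile x)))).card
      = 2 + Ts.np (F.tile x) := by simp
  have := F.X.clean_Val' (F.tile_clean x) ((univ : Finset Bool).disjSum (range (Ts.np (F.tile x))))
    (Sum.elim (F.W x).v (F.W x).vp)
    (Sum.elim (fun ρ => F.lam (x, ρ)) fun i => P.k (.inr (Ts.pk (F.tile x) i)))
    (by
      rintro (ρ | i) h1 (ρ' | i') h2 h
      · have : (x, ρ) = (x, ρ') := F.v_inj h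
        rw [show ρ = ρ' from congrArg Prod.snd this]
      · exact absurd h ((F.W x).v_vp ρ i' (by simpa using h2))
      · exact absurd h.symm ((F.W x).v_vp ρ' i (by simpa using h1))
      · rw [(F.W x).vp_inj i (by simpa using h1) i' (by simpa using h2) h])
    (by
      rintro (ρ | i) h
      · exact (F.v_facts x ρ).1
      · exact (F.vp_facts x (by simpa using h)).1)
    (by
      rintro (ρ | i) h
      · have := F.v_facts x ρ
        simp only [Sum.elim_inl, lam]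
        split_ifs <;> omega
      · have hi : i < Ts.np (F.tile x) := by simpa using h
        have := F.vp_facts x hi
        rw [(F.W x).yp_kind i hi] at this
        simp only [Sum.elim_inr]
        omega)
    (by
      rintro (ρ | i) h
      · have := Ts.k_le ((F.W x).y ρ).kind
        simp only [Sum.elim_inl, lam, hR]
        split_ifs <;> omega
      · have := Ts.k_le (.inr (Ts.pk (F.tile x) i))
        simp only [Sum.elim_inr, hR]
        omega)
    (by omega)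
  rw [sum_disjSum] at this
  simp only [Sum.elim_inl, Sum.elim_inr, Fintype.univ_bool, mem_singleton, Bool.true_eq_false,
    not_false_eq_true, sum_insert, sum_singleton] at this
  push_cast at this ⊢
  linarith only [this]

noncomputable def CP : Finset ℕ := (range F.X.J).filter fun j => ∃ i, F.X.Clean j (.inr i)

lemma pend_Val {j : ℕ} {i : Fin 3} (h : F.X.Clean j (.inr i)) : P.base (.inr i) ≤ F.X.Val j := by
  have := F.X.clean_Val h (fun _ => 0) ∅ (by simp) (by simp) (by simp) (by simp)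
  simp only [sum_empty, Nat.cast_zero, add_zero] at this
  have h0 : (0 : ℝ) ≤ (F.X.Z j).card := by positivity
  unfold Num.base
  linarith

lemma pend_sum : ∑ x : F.CM, ∑ i ∈ range (Ts.np (F.tile x)), P.base (.inr (Ts.pk (F.tile x) i))
    ≤ ∑ j ∈ F.CP, F.X.Val j + F.X.D := by
  set PI : Finset (Σ _ : F.CM, ℕ) := univ.sigma fun x => range (Ts.np (F.tile x)) with hPI
  have hmem : ∀ q ∈ PI, q.2 < Ts.np (F.tile q.1) := fun q hq => by simpa [hPI] using hq
  have hex : ∀ q : (Σ _ : F.CM, ℕ), ∃ j', q ∈ PI → q.1.1 < j' ∧ j' < F.X.J ∧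
      F.X.Coll j' ((F.W q.1).yp q.2).set ∧ (F.W q.1).vp q.2 ∈ F.X.Att j' := by
    intro q
    by_cases hq : q ∈ PI
    · obtain ⟨j', hj'⟩ := (F.vp_facts q.1 (hmem q hq)).2.2.2
      exact ⟨j', fun _ => hj'⟩
    · exact ⟨0, fun h => absurd h hq⟩
  choose pt hpt using hex
  have hinj : Set.InjOn (fun q : (Σ _ : F.CM, ℕ) => (F.W q.1).vp q.2) PI := by
    rintro ⟨x, i⟩ h1 ⟨x', i'⟩ h2 h
    simp only at h
    have a1 := F.X.A_sub_New _ (F.vp_facts x (hmem _ h1)).1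
    have a2 := F.X.A_sub_New _ (F.vp_facts x' (hmem _ h2)).1
    obtain rfl : x = x' := Subtype.ext (F.X.new_unique a1 (h ▸ a2))
    rw [(F.W x).vp_inj i (hmem _ h1) i' (hmem _ h2) h]
  have hclean : ∀ q ∈ PI, pt q ∉ F.X.Unc → F.X.Clean (pt q) (.inr (Ts.pk (F.tile q.1) q.2)) := by
    intro q hq hu
    have hs := hpt q hq
    simp only [Proc.Unc, mem_filter, mem_range, hs.2.1, true_and, not_forall, not_not] at hu
    obtain ⟨z, hz⟩ := hu
    have := (F.X.clean_coll hz hs.1.le ((F.W q.1).yp_reg q.2 (hmem q hq)) hs.2.2.1).2.1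
    rw [← (F.W q.1).yp_kind q.2 (hmem q hq), this]
    exact hz
  rw [sum_sigma', ← hPI, ← sum_filter_add_sum_filter_not PI (fun q => pt q ∈ F.X.Unc), add_comm]
  refine add_le_add ?_ ?_
  · have hinj2 : Set.InjOn pt (PI.filter fun q => pt q ∉ F.X.Unc : Finset _) := by
      intro q hq q' hq' h
      rw [mem_coe, mem_filter] at hq hq'
      have hc := hclean q hq.1 hq.2
      have := F.X.clean_Att_card hc
      rw [Ts.kap_pend] at this
      exact hinj hq.1 hq'.1 (card_le_one.mp (by omega : (F.X.Att (pt q)).card ≤ 1) _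
        (hpt q hq.1).2.2.2 _ (h ▸ (hpt q' hq'.1).2.2.2))
    calc _ ≤ ∑ q ∈ PI.filter (fun q => pt q ∉ F.X.Unc), F.X.Val (pt q) :=
          sum_le_sum fun q hq => F.pend_Val (hclean q (mem_filter.mp hq).1 (mem_filter.mp hq).2)
      _ = ∑ j ∈ (PI.filter fun q => pt q ∉ F.X.Unc).image pt, F.X.Val j := (sum_image hinj2).symm
      _ ≤ _ := by
        refine sum_le_sum_of_subset_of_nonneg ?_ ?_
        · intro j hj
          obtain ⟨q, hq, rfl⟩ := mem_image.mp hj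
          rw [mem_filter] at hq
          exact mem_filter.mpr ⟨mem_range.mpr (hpt q hq.1).2.1, _, hclean q hq.1 hq.2⟩
        · intro j hj _
          obtain ⟨i, hi⟩ := (mem_filter.mp hj).2
          exact (Ts.pend_nonneg i).trans (F.pend_Val hi)
  · have := F.X.count_unclean (PI.filter fun q => pt q ∈ F.X.Unc) pt
      (fun q => (F.W q.1).vp q.2) (fun q hq => (mem_filter.mp hq).2)
      (fun q hq => (hpt q (mem_filter.mp hq).1).2.2.2) (hinj.mono (coe_subset.mpr (filter_subset _ _)))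
    calc _ ≤ ∑ _q ∈ PI.filter (fun q => pt q ∈ F.X.Unc), (1 : ℝ) :=
          sum_le_sum fun q _ => Ts.pend_le _
      _ ≤ _ := by simpa using this

theorem total_nonneg : 0 ≤ ∑ j ∈ range F.X.J, F.X.Val j := by
  have hsplit : ∑ j ∈ range F.X.J, F.X.Val j =
      ∑ j ∈ F.CM, F.X.Val j + ∑ j ∈ F.CP, F.X.Val j + ∑ j ∈ F.X.Unc, F.X.Val j := by
    rw [← sum_union, ← sum_union]
    · congr 1
      ext j
      simp only [CM, CP, Proc.Unc, mem_union, mem_filter, ← not_exists, Sum.exists]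
      tauto
    · rw [disjoint_left]
      intro j hj hj'
      simp only [CM, CP, Proc.Unc, mem_union, mem_filter] at hj hj'
      rcases hj with ⟨-, t, ht⟩ | ⟨-, t, ht⟩ <;> exact hj'.2 _ ht
    · rw [disjoint_left]
      intro j hj hj'
      obtain ⟨t, ht⟩ := (mem_filter.mp hj).2
      obtain ⟨i, hi⟩ := (mem_filter.mp hj').2
      exact absurd (F.X.clean_unique ht hi) (by simp)
  have hU : P.Lam * F.X.D ≤ ∑ j ∈ F.X.Unc, F.X.Val j := by
    rw [Proc.D, Nat.cast_sum, mul_sum]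
    exact sum_le_sum fun j hj => F.X.unclean_pays j (mem_filter.mp hj).2
  have hM := sum_le_sum fun x (_ : x ∈ (univ : Finset F.CM)) => F.main_Val x
  rw [sum_coe_sort F.CM F.X.Val] at hM
  have hP := F.pend_sum
  have hC : ∑ x, (2 * (P.k (.inl (F.tile x)) : ℝ) + 1) ≤
      ∑ x, ((F.lam (x, false) + F.lam (x, true) : ℕ) : ℝ) + ∑ x : F.CM, ((F.X.Z x).card : ℝ)
        + (2 * Ts.kmax + 1) * F.X.D := by
    have := F.credit_sum
    rw [Fintype.sum_prod_type] at this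
    simp only [Fintype.univ_bool, mem_singleton, Bool.true_eq_false, not_false_eq_true,
      sum_insert, sum_singleton] at this
    simp only [add_comm (F.lam (_, false))]
    exact_mod_cast this
  have hcell := sum_congr (rfl : (univ : Finset F.CM) = univ) fun x _ => Ts.cell (F.tile x)
  have hxi := F.xi_sum
  simp only [sum_add_distrib, ← mul_sum] at hM hcell hC
  have hD : (0 : ℝ) ≤ F.X.D := by positivity
  have he1 := P.one_le_eps
  have he2 := Ts.eps_le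
  have h1 : P.eps * -(42 * (27 * (F.X.D : ℝ))) ≤ P.eps * ∑ x, Ts.xi (F.tile x) :=
    mul_le_mul_of_nonneg_left hxi (by linarith)
  have h2 : P.eps * F.X.D ≤ 2 * F.X.D := mul_le_mul_of_nonneg_right he2 hD
  have h3 := mul_le_mul_of_nonneg_right Ts.Lam_ge hD
  linarith only [hsplit, hU, hP, hM, hcell, hC, h1, h2, h3]

end Full

end Pool.Agent.Work.MP_e0d07f_co
end

-- merged part: Pool.Agent.Work.MP_e0d07f_co.Basic
section
namespace Pool.Agent.Work.MP_e0d07f_co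

open Finset

variable {W W' V : Type}

/-- Adding `e` to `H` creates a copy of `F` through `e`. -/
def Step (F : SimpleGraph W) (H : SimpleGraph V) (e : Sym2 V) : Prop :=
  ∃ φ : W → V, Function.Injective φ ∧
    (∀ a b, F.Adj a b → s(φ a, φ b) = e ∨ H.Adj (φ a) (φ b)) ∧
    ∃ a b, F.Adj a b ∧ s(φ a, φ b) = e

lemma Step.of_iso {F : SimpleGraph W} {F' : SimpleGraph W'} (i : F ≃g F') {H : SimpleGraph V}
    {e : Sym2 V} (h : Step F H e) : Step F' H e := by
  obtain ⟨φ, hφ, h1, a, b, hab, he⟩ := h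
  refine ⟨φ ∘ i.symm, hφ.comp i.symm.injective, fun a b hab => ?_, i a, i b, ?_, ?_⟩
  · exact h1 _ _ (i.symm.map_adj_iff.mpr hab)
  · exact i.map_adj_iff.mpr hab
  · simpa using he

/-- A weakly saturated graph gives a chain of graphs up to the complete graph. -/
lemma WeaklySaturated.chain {F : SimpleGraph W} {G : SimpleGraph V} (h : WeaklySaturated F G) :
    ∃ (L : ℕ) (H : ℕ → SimpleGraph V), H 0 = G ∧ H L = ⊤ ∧ Monotone H ∧
      ∀ i < L, ∃ e, Step F (H i) e ∧ ∀ u v, (H (i + 1)).Adj u v → s(u, v) = e ∨ (H i).Adj u v := by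
  obtain ⟨l, -, hl, hs⟩ := h
  refine ⟨l.length, fun i => G ⊔ SimpleGraph.fromEdgeSet {e | e ∈ l.take i}, by simp, ?_, ?_, ?_⟩
  · ext u v
    simp only [List.take_length, SimpleGraph.sup_adj, SimpleGraph.fromEdgeSet_adj,
      Set.mem_ofPred_eq, SimpleGraph.top_adj, hl, SimpleGraph.mem_edgeSet,
      SimpleGraph.compl_adj]
    constructor
    · rintro (h | h)
      · exact h.ne
      · exact h.2
    · intro h
      by_cases hG : G.Adj u v
      · exact Or.inl hG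
      · exact Or.inr ⟨⟨h, hG⟩, h⟩
  · intro i j hij
    refine sup_le_sup_left (SimpleGraph.fromEdgeSet_mono fun e he => ?_) _
    exact (List.take_prefix_take_left hij).subset he
  · intro i hi
    have key : ∀ u v, (G ⊔ SimpleGraph.fromEdgeSet {e | e ∈ l.take (i + 1)}).Adj u v →
        s(u, v) = l.get ⟨i, hi⟩ ∨ (G ⊔ SimpleGraph.fromEdgeSet {e | e ∈ l.take i}).Adj u v := by
      intro u v huv
      simp only [SimpleGraph.sup_adj, SimpleGraph.fromEdgeSet_adj, Set.mem_ofPred_eq] at huv ⊢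
      rcases huv with h | ⟨h, hne⟩
      · exact Or.inr (Or.inl h)
      · rw [List.take_add_one, List.mem_append] at h
        rcases h with h | h
        · exact Or.inr (Or.inr ⟨h, hne⟩)
        · left
          simp only [List.getElem?_eq_getElem hi, Option.toList_some, List.mem_singleton] at h
          simpa using h
    obtain ⟨f, e, he, hfe⟩ := hs ⟨i, hi⟩
    refine ⟨l.get ⟨i, hi⟩, ⟨f, f.injective, fun a b hab => key _ _ (f.toHom.map_adj hab), ?_⟩, key⟩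
    induction e using Sym2.ind with
    | h a b => exact ⟨a, b, he, by simpa using hfe⟩

lemma weaklySaturated_top (F : SimpleGraph W) : WeaklySaturated F (⊤ : SimpleGraph V) :=
  ⟨[], by simp, by simp, fun i => i.elim0⟩

lemma WeaklySaturated.of_step {F : SimpleGraph W} {G : SimpleGraph V} {u v : V} (huv : u ≠ v)
    (hn : ¬ G.Adj u v) (hs : Step F G s(u, v))
    (h : WeaklySaturated F (G ⊔ SimpleGraph.fromEdgeSet {s(u, v)})) : WeaklySaturated F G := by
  obtain ⟨l, hnd, hl, hc⟩ := h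
  have hmem : ∀ e, e ∈ l ↔ e ∈ Gᶜ.edgeSet ∧ e ≠ s(u, v) := by
    intro e
    rw [hl]
    induction e using Sym2.ind with
    | h a b =>
      simp only [SimpleGraph.mem_edgeSet, SimpleGraph.compl_adj, SimpleGraph.sup_adj,
        SimpleGraph.fromEdgeSet_adj, Set.mem_singleton_iff]
      tauto
  refine ⟨s(u, v) :: l, List.nodup_cons.mpr ⟨fun h => ((hmem _).mp h).2 rfl, hnd⟩, ?_, ?_⟩
  · intro e
    rw [List.mem_cons, hmem]
    constructor
    · rintro (rfl | h)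
      · exact ⟨huv, hn⟩
      · exact h.1
    · intro h
      by_cases he : e = s(u, v)
      · exact Or.inl he
      · exact Or.inr ⟨h, he⟩
  · rintro ⟨i, hi⟩
    rcases i with _ | i
    · obtain ⟨φ, hφ, h1, a, b, hab, he⟩ := hs
      refine ⟨⟨⟨φ, fun {a b} hab => ?_⟩, hφ⟩, s(a, b), hab, he⟩
      rcases h1 a b hab with h | h
      · right
        simp only [SimpleGraph.fromEdgeSet_adj, Set.mem_ofPred_eq]
        exact ⟨by simp [h], fun h' => hab.ne (hφ h')⟩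
      · exact Or.inl h
    · obtain ⟨f, e, he, hfe⟩ := hc ⟨i, by simpa using hi⟩
      have hle : (G ⊔ SimpleGraph.fromEdgeSet {s(u, v)}) ⊔
          SimpleGraph.fromEdgeSet {e | e ∈ l.take (i + 1)} ≤
          G ⊔ SimpleGraph.fromEdgeSet {e | e ∈ (s(u, v) :: l).take (i + 1 + 1)} := by
        intro a b hab
        simp only [SimpleGraph.sup_adj, SimpleGraph.fromEdgeSet_adj, Set.mem_singleton_iff,
          Set.mem_ofPred_eq, List.take_succ_cons, List.mem_cons] at hab ⊢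
        (clear * - hab; tauto)
      exact ⟨(SimpleGraph.Copy.ofLE _ _ hle).comp f, e, he, hfe⟩

/-- If every `F`-closed supergraph of `G` is complete, `G` is weakly saturated. -/
lemma weaklySaturated_of_closed [Finite V] {F : SimpleGraph W} {G : SimpleGraph V}
    (h : ∀ H : SimpleGraph V, G ≤ H → (∀ u v, u ≠ v → Step F H s(u, v) → H.Adj u v) → H = ⊤) :
    WeaklySaturated F G := by
  have key : ∀ H : SimpleGraph V, G ≤ H → WeaklySaturated F H := by
    intro H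
    induction H using WellFoundedGT.induction with
    | ind H ih =>
      intro hGH
      by_cases hc : ∀ u v, u ≠ v → Step F H s(u, v) → H.Adj u v
      · rw [h H hGH hc]; exact weaklySaturated_top F
      · push Not at hc
        obtain ⟨u, v, huv, hs, hn⟩ := hc
        refine WeaklySaturated.of_step huv hn hs (ih _ ?_ (hGH.trans le_sup_left))
        refine lt_of_le_of_ne le_sup_left fun heq => hn ?_
        rw [heq]
        right
        simp [huv]
  exact key G le_rfl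

lemma wsat_le {F : SimpleGraph W} {n : ℕ} {G : SimpleGraph (Fin n)} (h : WeaklySaturated F G) :
    wsat F n ≤ G.edgeSet.ncard :=
  Nat.sInf_le ⟨G, h, rfl⟩

lemma exists_wsat (F : SimpleGraph W) (n : ℕ) :
    ∃ G : SimpleGraph (Fin n), WeaklySaturated F G ∧ G.edgeSet.ncard = wsat F n :=
  Nat.sInf_mem (s := {m | ∃ G : SimpleGraph (Fin n), WeaklySaturated F G ∧ G.edgeSet.ncard = m})
    ⟨_, ⊤, weaklySaturated_top F, rfl⟩

end Pool.Agent.Work.MP_e0d07f_co
end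

-- merged part: Pool.Agent.Work.MP_e0d07f_co.Lower
section
namespace Pool.Agent.Work.MP_e0d07f_co

open Finset Module Classical

/-- A rule: a vertex set, its clique part, its small cliques and its bridge. -/
structure Rule (L : Type) where
  verts : Finset L
  KK : Finset L
  cl : Set (Finset L)
  br : L → L → Prop

variable {L R V : Type}

abbrev Vx (ρ : R → Rule L) : Type := {p : R × L // p.2 ∈ (ρ p.1).verts}

def isK (ρ : R → Rule L) (x : Vx ρ) : Prop := x.1.2 ∈ (ρ x.1.1).KK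

def rel (ρ : R → Rule L) (x y : Vx ρ) : Prop :=
  (isK ρ x ∧ isK ρ y) ∨ (x.1.1 = y.1.1 ∧
    ((∃ c ∈ (ρ x.1.1).cl, x.1.2 ∈ c ∧ y.1.2 ∈ c) ∨ (ρ x.1.1).br x.1.2 y.1.2))

/-- The graph glued from a family of rules. -/
def graph (ρ : R → Rule L) : SimpleGraph (Vx ρ) := SimpleGraph.fromRel (rel ρ)

lemma graph_adj {ρ : R → Rule L} {x y : Vx ρ} :
    (graph ρ).Adj x y ↔ x ≠ y ∧ (rel ρ x y ∨ rel ρ y x) := SimpleGraph.fromRel_adj _ _ _

instance finite_Vx [Finite R] (ρ : R → Rule L) : Finite (Vx ρ) :=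
  Finite.of_injective (fun x : Vx ρ => (⟨x.1.1, ⟨x.1.2, x.2⟩⟩ : Σ r, (ρ r).verts)) (by
    rintro ⟨⟨r, x⟩, hx⟩ ⟨⟨r', x'⟩, hx'⟩ h
    simp only [Sigma.mk.injEq] at h
    obtain ⟨rfl, h⟩ := h
    simp only [heq_eq_eq, Subtype.mk.injEq] at h
    subst h
    rfl)

noncomputable def Entry.map {K : Type} (φ : L → V) (y : Entry L K) : Entry V K :=
  ⟨y.set.image φ, y.kind, y.anch.image φ⟩

section Img

variable {φ : L → V} {U : Finset L} (hφ : Set.InjOn φ U)
include hφ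

lemma inter_img {A B : Finset L} {x : L} (hA : A ⊆ U) (hB : B ⊆ U) (h : A ∩ B = {x}) :
    A.image φ ∩ B.image φ = {φ x} := by
  rw [← image_inter_of_injOn A B (hφ.mono (by
    rw [← coe_union]; exact coe_subset.mpr (union_subset hA hB))), h, image_singleton]

lemma nmem_img {A : Finset L} {x : L} (hA : A ⊆ U) (hx : x ∈ U) (h : x ∉ A) :
    φ x ∉ A.image φ := by
  intro h'
  obtain ⟨y, hy, he⟩ := mem_image.mp h'
  exact h (hφ (hA hy) hx he ▸ hy)

lemma card_img {A : Finset L} (hA : A ⊆ U) : (A.image φ).card = A.card :=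
  card_image_of_injOn (hφ.mono (coe_subset.mpr hA))

end Img

variable {T : Type} {P : Num (T ⊕ Fin 3)} {Ts : TSys P}

lemma mem_of_inter {A B : Finset L} {x : L} (h : A ∩ B = {x}) : x ∈ A ∧ x ∈ B := by
  rw [← mem_inter, h]; simp

noncomputable def Wit0.map {reg : Set (Entry L (T ⊕ Fin 3))} {Y S U : Finset L} {S' : Finset V}
    {t : T} {φ : L → V} (hφ : Set.InjOn φ U) (hreg : ∀ y ∈ reg, y.set ⊆ U ∧ y.anch ⊆ y.set)
    (hY : Y ⊆ U) (hS : ∀ x ∈ S, x ∈ U → φ x ∈ S') (w : Wit0 Ts reg Y S t) :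
    Wit0 Ts (Entry.map φ '' reg) (Y.image φ) S' t :=
  have hanc : w.anc ⊆ U := fun _ hx => hY (mem_inter.mp (w.anc_sub hx)).1
  have hv : ∀ ρ, w.v ρ ∈ U := fun ρ => hY (mem_of_inter (w.v_mem ρ)).1
  have hvp : ∀ i < Ts.np t, w.vp i ∈ U := fun i hi => hY (mem_of_inter (w.vp_mem i hi)).1
  have hy : ∀ ρ, (w.y ρ).set ⊆ U := fun ρ => (hreg _ (w.y_reg ρ)).1
  have hya : ∀ ρ, (w.y ρ).anch ⊆ U := fun ρ => (hreg _ (w.y_reg ρ)).2.trans (hy ρ)
  have hgs : ∀ ρ, w.gs ρ ∈ U := fun ρ => hy ρ (mem_of_inter (w.gs_mem ρ)).1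
  have hgd : ∀ ρ, w.gd ρ ∈ U := fun ρ => hy ρ (mem_of_inter (w.gd_mem ρ)).1
  { y := fun ρ => (w.y ρ).map φ
    ys := fun ρ => (w.ys ρ).map φ
    yd := w.yd.map φ
    yp := fun i => (w.yp i).map φ
    v := fun ρ => φ (w.v ρ)
    gs := fun ρ => φ (w.gs ρ)
    gd := fun ρ => φ (w.gd ρ)
    vp := fun i => φ (w.vp i)
    anc := w.anc.image φ
    tt := w.tt
    ts := w.ts
    td := w.td
    y_reg := fun ρ => ⟨_, w.y_reg ρ, rfl⟩
    ys_reg := fun ρ => ⟨_, w.ys_reg ρ, rfl⟩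
    yd_reg := ⟨_, w.yd_reg, rfl⟩
    yp_reg := fun i hi => ⟨_, w.yp_reg i hi, rfl⟩
    y_kind := w.y_kind
    ys_kind := w.ys_kind
    yd_kind := w.yd_kind
    yp_kind := w.yp_kind
    hor := w.hor
    ver := w.ver
    ts_cls := w.ts_cls
    td_cls := w.td_cls
    anc_sub := by
      intro g hg
      obtain ⟨x, hx, rfl⟩ := mem_image.mp hg
      have := mem_inter.mp (w.anc_sub hx)
      exact mem_inter.mpr ⟨mem_image_of_mem _ this.1, hS x this.2 (hanc hx)⟩
    anc_card := (card_img hφ hanc).trans w.anc_card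
    v_mem := fun ρ => inter_img hφ hY (hy ρ) (w.v_mem ρ)
    vp_mem := fun i hi => inter_img hφ hY (hreg _ (w.yp_reg i hi)).1 (w.vp_mem i hi)
    v_anc := fun ρ => nmem_img hφ hanc (hv ρ) (w.v_anc ρ)
    vp_anc := fun i hi => nmem_img hφ hanc (hvp i hi) (w.vp_anc i hi)
    v_ne := fun h => w.v_ne (hφ (hv _) (hv _) h)
    v_vp := fun ρ i hi h => w.v_vp ρ i hi (hφ (hv _) (hvp i hi) h)
    vp_inj := fun i hi i' hi' h => w.vp_inj i hi i' hi' (hφ (hvp i hi) (hvp i' hi') h)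
    gs_mem := fun ρ => inter_img hφ (hy ρ) (hreg _ (w.ys_reg ρ)).1 (w.gs_mem ρ)
    gd_mem := fun ρ => inter_img hφ (hy ρ) (hreg _ w.yd_reg).1 (w.gd_mem ρ)
    gs_anch := fun ρ => nmem_img hφ (hya ρ) (hgs ρ) (w.gs_anch ρ)
    gd_anch := fun ρ => nmem_img hφ (hya ρ) (hgd ρ) (w.gd_anch ρ)
    gs_v := fun ρ h => w.gs_v ρ (hφ (hgs _) (hv _) h)
    gd_v := fun ρ h => w.gd_v ρ (hφ (hgd _) (hv _) h)
    gd_gs := fun ρ h => w.gd_gs ρ (hφ (hgd _) (hgs _) h) }

noncomputable def Wit0.mono {reg : Set (Entry V (T ⊕ Fin 3))} {Y S S' : Finset V} {t : T}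
    (h : S ⊆ S') (w : Wit0 Ts reg Y S t) : Wit0 Ts reg Y S' t :=
  { w with anc_sub := w.anc_sub.trans (inter_subset_inter_left h) }

/-- What the lower bound needs from a family of rules. -/
structure LowOK (Ts : TSys P) (ρ : R → Rule L) : Prop where
  cl_sub : ∀ r, ∀ c ∈ (ρ r).cl, c ⊆ (ρ r).verts
  cl_card : ∀ r, ∀ c ∈ (ρ r).cl, P.d + 2 ≤ c.card
  pad : ∃ r, (ρ r).KK ⊆ (ρ r).verts ∧ P.m ≤ (ρ r).KK.card
  bridge : ∀ r x s, (ρ r).br x s → x ∉ (ρ r).KK ∧ s ∈ (ρ r).KK ∧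
    ∃ reg : Set (Entry L (T ⊕ Fin 3)),
      (∀ y ∈ reg, y.set ∈ (ρ r).cl ∧ s ∉ y.set ∧ y.set.card = P.N y.kind + P.kap y.kind ∧
        y.anch ⊆ y.set ∧ y.anch ⊆ (ρ r).KK ∧ y.anch.card = P.k y.kind) ∧
      ∃ c ∈ reg, x ∈ c.set ∧ (∃ A ⊆ c.set, A ⊆ (ρ r).KK ∧ A.card = P.kap c.kind) ∧
        ∀ t, c.kind = .inl t → Nonempty (Wit0 Ts reg c.set (ρ r).KK t)

lemma mot_step {d : ℕ} {t : V → ℚ} (ht : Function.Injective t) {H H' : SimpleGraph V}
    (D : Finset V) (hD : d + 2 ≤ D.card) {u v : V} (hu : u ∈ D) (hv : v ∈ D)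
    (h : ∀ x ∈ D, ∀ y ∈ D, x ≠ y → s(x, y) = s(u, v) ∨ H.Adj x y)
    (hH : ∀ x y, H'.Adj x y → s(x, y) = s(u, v) ∨ H.Adj x y) : Mot d t H ≤ Mot d t H' := by
  intro m hm
  have key : ev d (t v) (m u) = ev d (t u) (m v) := by
    have hc : d ≤ (D \ {u, v}).card := by
      have h1 := le_card_sdiff ({u, v} : Finset V) D
      have h2 : ({u, v} : Finset V).card ≤ 2 := card_le_two
      omega
    have hmem : ∀ c ∈ D \ {u, v}, c ∈ D ∧ c ≠ u ∧ c ≠ v := by
      intro c hc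
      simpa [not_or] using hc
    have hadj : ∀ x ∈ D, ∀ c ∈ D \ {u, v}, ev d (t c) (m x) = ev d (t x) (m c) := by
      intro x hx c hc
      obtain ⟨h1, h2, h3⟩ := hmem c hc
      by_cases hxc : x = c
      · rw [hxc]
      · rcases h x hx c h1 hxc with h4 | h4
        · rw [Sym2.eq_iff] at h4; tauto
        · exact hm x c h4
    exact clique_rule ht _ hc m u v (fun c hc c' hc' => hadj c (hmem c hc).1 c' hc')
      (hadj u hu) (hadj v hv)
  intro x y hxy
  rcases hH x y hxy with h1 | h1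
  · rw [Sym2.eq_iff] at h1
    rcases h1 with ⟨rfl, rfl⟩ | ⟨rfl, rfl⟩
    · exact key
    · exact key.symm
  · exact hm x y h1

structure EvD (V K : Type) where
  Y0 : Finset V
  Y1 : Finset V
  reg : Set (Entry V K)
  fire : Option K

structure EvP (Ts : TSys P) (t : V → ℚ) (H H' : SimpleGraph V) (D : EvD V (T ⊕ Fin 3)) : Prop where
  Y0_clique : H.IsClique (D.Y0 : Set V)
  Y1_clique : H.IsClique (D.Y1 : Set V)
  Y0_card : D.Y0 = ∅ ∨ P.m ≤ D.Y0.card
  step : Mot P.d t H ⊓ Van P.d (D.Y0 : Set V) ⊓ Van P.d (D.Y1 : Set V) ≤ Mot P.d t H'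
  reg_ok : ∀ y ∈ D.reg, H.IsClique (y.set : Set V) ∧ y.set.card = P.N y.kind + P.kap y.kind ∧
    y.anch ⊆ y.set ∧ y.anch.card = P.k y.kind ∧ y.anch ⊆ D.Y0
  none_case : D.fire = none → D.Y1 = ∅
  fire_case : ∀ z, D.fire = some z → (∃ y ∈ D.reg, y.set = D.Y1 ∧ y.kind = z) ∧
    ∃ A ⊆ D.Y1, A.card = P.kap z ∧ A ⊆ D.Y0
  wit : ∀ t, D.fire = some (.inl t) → Nonempty (Wit0 Ts D.reg D.Y1 D.Y0 t)

lemma evP_quiet {t : V → ℚ} {H H' : SimpleGraph V} (Y : Finset V) (hY : H.IsClique (Y : Set V))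
    (hc : Y = ∅ ∨ P.m ≤ Y.card) (h : Mot P.d t H ≤ Mot P.d t H') :
    EvP Ts t H H' ⟨Y, ∅, ∅, none⟩ where
  Y0_clique := hY
  Y1_clique := by simp
  Y0_card := hc
  step := inf_le_left.trans (inf_le_left.trans h)
  reg_ok := by simp
  none_case := fun _ => rfl
  fire_case := by simp
  wit := by simp

lemma exists_ev [Finite R] {ρ : R → Rule L} (hρ : LowOK Ts ρ) {t : V → ℚ}
    (ht : Function.Injective t) {H H' : SimpleGraph V} {e : Sym2 V} (hs : Step (graph ρ) H e)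
    (hH : ∀ x y, H'.Adj x y → s(x, y) = e ∨ H.Adj x y) : ∃ D, EvP Ts t H H' D := by
  obtain ⟨φ, hφ, h1, a, b, hab, he⟩ := hs
  have := Fintype.ofFinite (Vx ρ)
  obtain ⟨hne, hrel⟩ := graph_adj.mp hab
  wlog hr : rel ρ a b generalizing a b
  · exact this b a hab.symm (by rw [Sym2.eq_swap]; exact he) hne.symm hrel.symm
      (hrel.resolve_left hr)
  subst he
  let ψ : R → L → V := fun r x => if h : x ∈ (ρ r).verts then φ ⟨(r, x), h⟩ else φ a
  have hψ : ∀ r x (h : x ∈ (ρ r).verts), ψ r x = φ ⟨(r, x), h⟩ := fun r x h => dif_pos h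
  have hinj : ∀ r, Set.InjOn (ψ r) (ρ r).verts := by
    intro r x hx y hy h
    rw [hψ r x hx, hψ r y hy] at h
    simpa using hφ h
  let Y0 : Finset V := (univ.filter (isK ρ)).image φ
  have hY0 : ∀ r, ∀ x ∈ (ρ r).KK, x ∈ (ρ r).verts → ψ r x ∈ Y0 := by
    intro r x hx hx'
    rw [hψ r x hx']
    exact mem_image_of_mem _ (mem_filter.mpr ⟨mem_univ _, hx⟩)
  have hY0c : P.m ≤ Y0.card := by
    obtain ⟨r, h2, h3⟩ := hρ.pad
    rw [← card_img (hinj r) h2] at h3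
    refine h3.trans (card_le_card fun g hg => ?_)
    obtain ⟨x, hx, rfl⟩ := mem_image.mp hg
    exact hY0 r x hx (h2 hx)
  have hKK : ∀ x ∈ Y0, ∀ y ∈ Y0, x ≠ y → ∃ x' y', isK ρ x' ∧ isK ρ y' ∧ x = φ x' ∧ y = φ y' ∧
      (graph ρ).Adj x' y' := by
    intro x hx y hy hxy
    obtain ⟨x', hx', rfl⟩ := mem_image.mp hx
    obtain ⟨y', hy', rfl⟩ := mem_image.mp hy
    have h2 := (mem_filter.mp hx').2
    have h3 := (mem_filter.mp hy').2
    exact ⟨x', y', h2, h3, rfl, rfl,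
      graph_adj.mpr ⟨fun h => hxy (h ▸ rfl), Or.inl (Or.inl ⟨h2, h3⟩)⟩⟩
  have hcl : ∀ r, ∀ c ∈ (ρ r).cl, ∀ x ∈ c.image (ψ r), ∀ y ∈ c.image (ψ r), x ≠ y →
      ∃ x' y' : Vx ρ, x'.1.2 ∈ c ∧ y'.1.2 ∈ c ∧ x = φ x' ∧ y = φ y' ∧ (graph ρ).Adj x' y' := by
    intro r c hc x hx y hy hxy
    obtain ⟨x', hx', rfl⟩ := mem_image.mp hx
    obtain ⟨y', hy', rfl⟩ := mem_image.mp hy
    have h2 := hρ.cl_sub r c hc hx'
    have h3 := hρ.cl_sub r c hc hy'
    refine ⟨⟨(r, x'), h2⟩, ⟨(r, y'), h3⟩, hx', hy', hψ r _ h2, hψ r _ h3, graph_adj.mpr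
      ⟨fun h => hxy ?_, Or.inl (Or.inr ⟨rfl, Or.inl ⟨c, hc, hx', hy'⟩⟩)⟩⟩
    rw [hψ r _ h2, hψ r _ h3, h]
  rcases hr with ⟨ha, hb⟩ | ⟨hr, ⟨c, hc, ha, hb⟩ | hbr⟩
  · refine ⟨_, evP_quiet ∅ (by simp) (Or.inl rfl) (mot_step ht Y0 ?_
      (mem_image_of_mem _ (mem_filter.mpr ⟨mem_univ _, ha⟩))
      (mem_image_of_mem _ (mem_filter.mpr ⟨mem_univ _, hb⟩)) ?_ hH)⟩
    · have := P.m_big
      have := P.d_big
      nlinarith
    · intro x hx y hy hxy
      obtain ⟨x', y', -, -, rfl, rfl, h⟩ := hKK x hx y hy hxy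
      exact h1 _ _ h
  · refine ⟨_, evP_quiet ∅ (by simp) (Or.inl rfl) (mot_step ht (c.image (ψ a.1.1)) ?_
      (mem_image.mpr ⟨_, ha, hψ _ _ a.2⟩) (mem_image.mpr ⟨_, hb, ?_⟩) ?_ hH)⟩
    · rw [card_img (hinj _) (hρ.cl_sub _ c hc)]
      exact hρ.cl_card _ c hc
    · rw [hr]; exact hψ _ _ b.2
    · intro x hx y hy hxy
      obtain ⟨x', y', -, -, rfl, rfl, h⟩ := hcl _ c hc x hx y hy hxy
      exact h1 _ _ h
  · obtain ⟨hx, hs, reg, hreg, c, hc, hxc, ⟨A, hA1, hA2, hA3⟩, hw⟩ := hρ.bridge _ _ _ hbr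
    have hsub : ∀ y ∈ reg, y.set ⊆ (ρ a.1.1).verts := fun y hy => hρ.cl_sub _ _ (hreg y hy).1
    have hclq : ∀ y ∈ reg, H.IsClique (y.set.image (ψ a.1.1) : Set V) := by
      intro y hy u hu v hv huv
      obtain ⟨x', y', h2, h3, rfl, rfl, h⟩ := hcl _ _ (hreg y hy).1 u (mem_coe.mp hu) v
        (mem_coe.mp hv) huv
      refine (h1 _ _ h).resolve_left fun h4 => (hreg y hy).2.1 ?_
      rw [Sym2.eq_iff] at h4
      rcases h4 with ⟨-, h4⟩ | ⟨h4, -⟩
      · exact hφ h4 ▸ h3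
      · exact hφ h4 ▸ h2
    refine ⟨⟨Y0, c.set.image (ψ a.1.1), Entry.map (ψ a.1.1) '' reg, some c.kind⟩,
      ?_, hclq c hc, Or.inr hY0c, ?_, ?_, by simp, ?_, ?_⟩
    · intro u hu v hv huv
      obtain ⟨x', y', h2, h3, rfl, rfl, h⟩ := hKK u (mem_coe.mp hu) v (mem_coe.mp hv) huv
      refine (h1 _ _ h).resolve_left fun h4 => hx ?_
      rw [Sym2.eq_iff] at h4
      rcases h4 with ⟨h4, -⟩ | ⟨-, h4⟩
      · exact (hφ h4 ▸ h2 : isK ρ a)
      · exact (hφ h4 ▸ h3 : isK ρ a)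
    · rintro m ⟨⟨hm, hm0⟩, hm1⟩ x y hxy
      have za : m (φ a) = 0 := hm1 _ (mem_coe.mpr (mem_image.mpr ⟨_, hxc, hψ _ _ a.2⟩))
      have zb : m (φ b) = 0 := hm0 _ (mem_coe.mpr (mem_image_of_mem _
        (mem_filter.mpr ⟨mem_univ _, show b.1.2 ∈ (ρ b.1.1).KK from hr ▸ hs⟩)))
      rcases hH x y hxy with h2 | h2
      · rw [Sym2.eq_iff] at h2
        rcases h2 with ⟨rfl, rfl⟩ | ⟨rfl, rfl⟩ <;> simp [za, zb]
      · exact hm x y h2
    · rintro _ ⟨y, hy, rfl⟩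
      obtain ⟨h2, h3, h4, h5, h6, h7⟩ := hreg y hy
      refine ⟨hclq y hy, (card_img (hinj _) (hsub y hy)).trans h4, image_subset_image h5,
        (card_img (hinj _) (h5.trans (hsub y hy))).trans h7, fun g hg => ?_⟩
      obtain ⟨x, hx, rfl⟩ := mem_image.mp hg
      exact hY0 _ x (h6 hx) (hsub y hy (h5 hx))
    · intro z hz
      obtain rfl : c.kind = z := by simpa using hz
      refine ⟨⟨_, ⟨c, hc, rfl⟩, rfl, rfl⟩, A.image (ψ a.1.1), image_subset_image hA1,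
        (card_img (hinj _) (hA1.trans (hsub c hc))).trans hA3, fun g hg => ?_⟩
      obtain ⟨x, hx, rfl⟩ := mem_image.mp hg
      exact hY0 _ x (hA2 hx) (hsub c hc (hA1 hx))
    · intro t ht
      obtain ⟨w⟩ := hw t (by simpa using ht)
      exact ⟨w.map (hinj _) (fun y hy => ⟨hsub y hy, (hreg y hy).2.2.2.1⟩) (hsub c hc) (hY0 _)⟩

/-- The lower bound. -/
theorem lower_bound [Finite R] [Fintype V] {ρ : R → Rule L} (hρ : LowOK Ts ρ)
    {G : SimpleGraph V} (hG : WeaklySaturated (graph ρ) G) (hV : P.m ≤ Fintype.card V) :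
    (P.d - P.eps) * Fintype.card V ≤ G.edgeSet.ncard := by
  obtain ⟨n, H, h0, hn, hmono, hstep⟩ := hG.chain
  obtain ⟨t, ht⟩ : ∃ t : V → ℚ, Function.Injective t :=
    ⟨fun v => ((Fintype.equivFin V v).val : ℚ), fun u v h =>
      (Fintype.equivFin V).injective (Fin.ext (Nat.cast_injective (R := ℚ) h))⟩
  have hE : ∀ i, ∃ D, EvP Ts t (H i) (H (i + 1)) D ∧ (i = n → D.Y0 = univ) := by
    intro i
    rcases Nat.lt_or_ge i n with hi | hi
    · obtain ⟨e, h1, h2⟩ := hstep i hi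
      obtain ⟨D, hD⟩ := exists_ev hρ ht h1 h2
      exact ⟨D, hD, fun h => by omega⟩
    · have h1 : H i = ⊤ := top_le_iff.mp (hn ▸ hmono hi)
      refine ⟨_, evP_quiet univ ?_ (Or.inr (by simpa using hV)) (Mot_anti ?_), fun _ => rfl⟩
      · rw [h1]; intro u _ v _ h; exact h
      · rw [h1]; exact le_top
  choose E hE hEn using hE
  let Y : ℕ → Finset V := fun j => if j % 2 = 0 then (E (j / 2)).Y0 else (E (j / 2)).Y1
  obtain ⟨M, hM0, hM⟩ : ∃ M : ℕ → Submodule ℚ (V → Pd P.d), M 0 = Mot P.d t G ∧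
      ∀ j, M (j + 1) = M j ⊓ Van P.d (Y j : Set V) :=
    ⟨fun j => Nat.rec (Mot P.d t G) (fun j M => M ⊓ Van P.d (Y j : Set V)) j, rfl, fun _ => rfl⟩
  let reg : ℕ → Set (Entry V (T ⊕ Fin 3)) := fun j => if j % 2 = 0 then ∅ else (E (j / 2)).reg
  let fire : ℕ → Option (T ⊕ Fin 3) := fun j => if j % 2 = 0 then none else (E (j / 2)).fire
  have d0 : ∀ i, 2 * i / 2 = i := fun i => by omega
  have d1 : ∀ i, (2 * i + 1) / 2 = i := fun i => by omega
  have Y0 : ∀ i, Y (2 * i) = (E i).Y0 := fun i => by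
    simp only [Y]; rw [if_pos (by omega), d0]
  have Y1 : ∀ i, Y (2 * i + 1) = (E i).Y1 := fun i => by
    simp only [Y]; rw [if_neg (by omega), d1]
  have r0 : ∀ i, reg (2 * i) = ∅ := fun i => by
    simp only [reg]; rw [if_pos (by omega)]
  have r1 : ∀ i, reg (2 * i + 1) = (E i).reg := fun i => by
    simp only [reg]; rw [if_neg (by omega), d1]
  have f0 : ∀ i, fire (2 * i) = none := fun i => by
    simp only [fire]; rw [if_pos (by omega)]
  have f1 : ∀ i, fire (2 * i + 1) = (E i).fire := fun i => by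
    simp only [fire]; rw [if_neg (by omega), d1]
  have hMe : ∀ i, M (2 * i) ≤ Mot P.d t (H i) := by
    intro i
    induction i with
    | zero => rw [h0]; exact hM0.le
    | succ i ih =>
      rw [show 2 * (i + 1) = 2 * i + 1 + 1 by ring, hM, hM, Y0, Y1]
      exact (inf_le_inf_right _ (inf_le_inf_right _ ih)).trans (hE i).step
  have hMo : ∀ i, ∀ g ∈ (E i).Y0, ∀ m ∈ M (2 * i + 1), m g = 0 := by
    intro i g hg m hm
    rw [hM, Y0] at hm
    exact hm.2 g hg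
  have hreg : ∀ j, ∀ y ∈ reg j, ∃ i, j = 2 * i + 1 ∧ y ∈ (E i).reg := by
    intro j y hy
    obtain ⟨i, rfl | rfl⟩ := Nat.even_or_odd' j
    · rw [r0] at hy; exact hy.elim
    · exact ⟨i, rfl, r1 i ▸ hy⟩
  let X : Proc V P :=
    { t := t
      ht := ht
      J := 2 * n + 1
      H := fun j => H (j / 2)
      Y := Y
      M := M
      reg := reg
      fire := fire
      H_mono := fun _ _ h => hmono (Nat.div_le_div_right h)
      Y_clique := by
        intro j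
        obtain ⟨i, rfl | rfl⟩ := Nat.even_or_odd' j
        · rw [Y0, d0]; exact (hE i).Y0_clique
        · rw [Y1, d1]; exact (hE i).Y1_clique
      M_le := by
        intro j
        obtain ⟨i, rfl | rfl⟩ := Nat.even_or_odd' j
        · rw [d0]; exact hMe i
        · rw [d1, hM]; exact inf_le_left.trans (hMe i)
      M_succ := hM
      M_end := by
        refine eq_bot_iff.mpr fun m hm => ?_
        rw [Submodule.mem_bot]
        exact funext fun g => hMo n g (by rw [hEn n rfl]; exact mem_univ _) m hm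
      reg_clique := by
        intro j y hy
        obtain ⟨i, rfl, h⟩ := hreg j y hy
        rw [d1]; exact ((hE i).reg_ok y h).1
      reg_card := by
        intro j y hy
        obtain ⟨i, rfl, h⟩ := hreg j y hy
        exact ((hE i).reg_ok y h).2.1
      anch_sub := by
        intro j y hy
        obtain ⟨i, rfl, h⟩ := hreg j y hy
        exact ((hE i).reg_ok y h).2.2.1
      anch_card := by
        intro j y hy
        obtain ⟨i, rfl, h⟩ := hreg j y hy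
        exact ((hE i).reg_ok y h).2.2.2.1
      anch_S := by
        intro j y hy g hg
        obtain ⟨i, rfl, h⟩ := hreg j y hy
        exact hMo i g (((hE i).reg_ok y h).2.2.2.2 hg)
      none_case := by
        intro j hj
        obtain ⟨i, rfl | rfl⟩ := Nat.even_or_odd' j
        · rw [Y0]; exact (hE i).Y0_card
        · rw [Y1]; exact Or.inl ((hE i).none_case (f1 i ▸ hj))
      fire_case := by
        intro j z hj
        obtain ⟨i, rfl | rfl⟩ := Nat.even_or_odd' j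
        · rw [f0] at hj; simp at hj
        · rw [f1] at hj
          obtain ⟨h1, A, h2, h3, h4⟩ := (hE i).fire_case z hj
          rw [Y1, r1]
          exact ⟨h1, A, h2, h3, fun g hg => hMo i g (h4 hg)⟩ }
  let Fu : Full V Ts :=
    { X := X
      hW := by
        intro j t hj
        obtain ⟨i, rfl | rfl⟩ := Nat.even_or_odd' j
        · have : fire (2 * i) = some (.inl t) := hj
          rw [f0] at this; simp at this
        · have : fire (2 * i + 1) = some (.inl t) := hj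
          rw [f1] at this
          obtain ⟨w⟩ := (hE i).wit t this
          have h1 : X.reg (2 * i + 1) = (E i).reg := r1 i
          have h2 : X.Y (2 * i + 1) = (E i).Y1 := Y1 i
          unfold Wit
          rw [h1, h2]
          exact ⟨w.mono fun g hg => X.mem_S.mpr (hMo i g hg)⟩ }
  have h1 := Fu.total_nonneg
  have h2 := X.sum_Val_le
  have h3 : (P.d : ℝ) * Fintype.card V ≤ finrank ℚ (Mot P.d t G) + G.edgeSet.ncard := by
    exact_mod_cast finrank_Mot_ge (d := P.d) (t := t) G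
  have h4 : X.M 0 = Mot P.d t G := hM0
  rw [h4] at h2
  have h5 : Fu.X = X := rfl
  rw [h5] at h1
  linarith only [h1, h2, h3]

end Pool.Agent.Work.MP_e0d07f_co
end

-- merged part: Pool.Agent.Work.MP_e0d07f_co.Closure
section
namespace Pool.Agent.Work.MP_e0d07f_co

open Finset Classical

variable {L R W W' V : Type}

lemma WeaklySaturated.of_iso {F : SimpleGraph W} {F' : SimpleGraph W'} (i : F ≃g F')
    {G : SimpleGraph V} (h : WeaklySaturated F G) : WeaklySaturated F' G := by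
  obtain ⟨l, h1, h2, h3⟩ := h
  refine ⟨l, h1, h2, fun j => ?_⟩
  obtain ⟨f, e, he, hf⟩ := h3 j
  refine ⟨f.comp i.symm.toCopy, Sym2.map i e, ?_, ?_⟩
  · induction e using Sym2.ind with
    | h a b => exact i.map_adj_iff.mpr he
  · rw [← hf]
    induction e using Sym2.ind with
    | h a b => simp [SimpleGraph.Iso.toCopy]

lemma wsat_iso {F : SimpleGraph W} {F' : SimpleGraph W'} (i : F ≃g F') (n : ℕ) :
    wsat F n = wsat F' n := by
  unfold wsat
  congr 1
  ext m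
  exact ⟨fun ⟨G, h, hm⟩ => ⟨G, h.of_iso i, hm⟩, fun ⟨G, h, hm⟩ => ⟨G, h.of_iso i.symm, hm⟩⟩

/-- `H` is closed under adding edges that complete a copy of `F` inside `VS`. -/
def Closed (F : SimpleGraph W) (VS : Finset L) (H : SimpleGraph L) : Prop :=
  ∀ φ : W → L, Function.Injective φ → (∀ x, φ x ∈ VS) → ∀ a b, F.Adj a b →
    (∀ x y, F.Adj x y → s(φ x, φ y) = s(φ a, φ b) ∨ H.Adj (φ x) (φ y)) → H.Adj (φ a) (φ b)

lemma wsat_le_of_loc (F : SimpleGraph W) (VS : Finset L) (E : Finset (Sym2 L))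
    (h : ∀ H : SimpleGraph L, (∀ u ∈ VS, ∀ v ∈ VS, u ≠ v → s(u, v) ∈ E → H.Adj u v) →
      Closed F VS H → ∀ u ∈ VS, ∀ v ∈ VS, u ≠ v → H.Adj u v) : wsat F VS.card ≤ E.card := by
  let e : Fin VS.card ≃ VS := VS.equivFin.symm
  let f : Fin VS.card ↪ L := e.toEmbedding.trans (Function.Embedding.subtype _)
  have hf : ∀ u, f u ∈ VS := fun u => (e u).2
  have hsurj : ∀ u ∈ VS, ∃ u', f u' = u := fun u hu =>
    ⟨e.symm ⟨u, hu⟩, by simp [f]⟩
  let G : SimpleGraph (Fin VS.card) := (SimpleGraph.fromEdgeSet (E : Set (Sym2 L))).comap f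
  have hG : WeaklySaturated F G := by
    refine weaklySaturated_of_closed fun H hGH hc => ?_
    have key := h (H.map f) ?_ ?_
    · refine top_le_iff.mp fun u v huv => ?_
      exact SimpleGraph.map_adj_apply.mp (key _ (hf u) _ (hf v) fun h => huv (f.injective h))
    · intro u hu v hv huv hE
      obtain ⟨u, rfl⟩ := hsurj u hu
      obtain ⟨v, rfl⟩ := hsurj v hv
      exact SimpleGraph.map_adj_apply.mpr (hGH ⟨hE, huv⟩)
    · intro φ hφ hVS a b hab h1
      choose φ' hφ' using fun x => hsurj _ (hVS x)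
      have hinj : Function.Injective φ' := fun x y h => hφ (by rw [← hφ', ← hφ', h])
      rw [← hφ', ← hφ']
      refine SimpleGraph.map_adj_apply.mpr (hc _ _ (fun h => hab.ne (hinj h))
        ⟨φ', hinj, fun x y hxy => ?_, a, b, hab, rfl⟩)
      rcases h1 x y hxy with h2 | h2
      · left
        apply Sym2.map.injective f.injective
        simpa [hφ'] using h2
      · right
        rw [← hφ', ← hφ'] at h2
        exact SimpleGraph.map_adj_apply.mp h2
  refine (wsat_le hG).trans ?_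
  rw [← Set.ncard_coe_finset E]
  refine Set.ncard_le_ncard_of_injOn (Sym2.map f) (fun x hx => ?_)
    (Sym2.map.injective f.injective).injOn
  induction x using Sym2.ind with
  | h a b => exact hx.1

/-- `v` is joined to all of `Q`. -/
def Abs (Q : Finset L) (H : SimpleGraph L) (v : L) : Prop := ∀ q ∈ Q, q ≠ v → H.Adj v q

structure Ctx (ρ : R → Rule L) (d : ℕ) (VS Q : Finset L) (H : SimpleGraph L) : Prop where
  closed : Closed (graph ρ) VS H
  Q_sub : Q ⊆ VS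
  Q_card : 2 * Nat.card (Vx ρ) ≤ Q.card
  Q_abs : ∀ q ∈ Q, Abs Q H q
  crule : ∃ r z, (ρ r).cl = {(ρ r).verts} ∧ (ρ r).KK = {z} ∧ z ∈ (ρ r).verts ∧
    (ρ r).verts.card = d + 2 ∧ ∀ x y, ¬ (ρ r).br x y

lemma card_verts_le [Finite R] (ρ : R → Rule L) (r : R) : (ρ r).verts.card ≤ Nat.card (Vx ρ) := by
  rw [← Nat.card_eq_finsetCard]
  exact Nat.card_le_card_of_injective (fun x : (ρ r).verts => (⟨(r, x.1), x.2⟩ : Vx ρ))
    fun x y h => Subtype.ext (by simpa using h)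

namespace Ctx

variable [Finite R] {ρ : R → Rule L} {d : ℕ} {VS Q : Finset L} {H : SimpleGraph L}
  (c : Ctx ρ d VS Q H)
include c

lemma ext (r : R) (ψ : L → L) (hinj : Set.InjOn ψ (ρ r).verts)
    (hVS : ∀ x ∈ (ρ r).verts, ψ x ∈ VS) {x y : L} (hx : x ∈ (ρ r).verts) (hy : y ∈ (ρ r).verts)
    (hxy : x ≠ y) (hrel : (∃ c ∈ (ρ r).cl, x ∈ c ∧ y ∈ c) ∨ (ρ r).br x y)
    (hK : ∀ z ∈ (ρ r).verts, z ∈ (ρ r).KK → Abs Q H (ψ z))
    (hKK : ∀ z ∈ (ρ r).verts, ∀ z' ∈ (ρ r).verts, z ∈ (ρ r).KK → z' ∈ (ρ r).KK → z ≠ z' →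
      H.Adj (ψ z) (ψ z'))
    (hcl : ∀ c ∈ (ρ r).cl, ∀ z ∈ c, ∀ z' ∈ c, z ≠ z' →
      s(ψ z, ψ z') = s(ψ x, ψ y) ∨ H.Adj (ψ z) (ψ z'))
    (hbr : ∀ z z', (ρ r).br z z' → s(ψ z, ψ z') = s(ψ x, ψ y)) : H.Adj (ψ x) (ψ y) := by
  have := Fintype.ofFinite (Vx ρ)
  have hcard : Fintype.card (Vx ρ) ≤ Fintype.card (Q \ (ρ r).verts.image ψ : Finset L) := by
    have h1 := le_card_sdiff ((ρ r).verts.image ψ) Q
    have h2 : ((ρ r).verts.image ψ).card ≤ (ρ r).verts.card := card_image_le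
    have h3 := card_verts_le ρ r
    have h4 := c.Q_card
    rw [Fintype.card_coe, ← Nat.card_eq_fintype_card]
    omega
  obtain ⟨g⟩ := Function.Embedding.nonempty_of_card_le hcard
  have hg : ∀ a, (g a : L) ∈ Q ∧ ∀ z ∈ (ρ r).verts, (g a : L) ≠ ψ z := by
    intro a
    have := mem_sdiff.mp (g a).2
    exact ⟨this.1, fun z hz h => this.2 (h ▸ mem_image_of_mem _ hz)⟩
  let φ : Vx ρ → L := fun a => if a.1.1 = r then ψ a.1.2 else g a
  have hv : ∀ a : Vx ρ, a.1.1 = r → a.1.2 ∈ (ρ r).verts := fun a h => h ▸ a.2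
  have p1 : ∀ a : Vx ρ, a.1.1 = r → φ a = ψ a.1.2 := fun a h => if_pos h
  have p2 : ∀ a : Vx ρ, a.1.1 ≠ r → φ a = g a := fun a h => if_neg h
  have hφ : Function.Injective φ := by
    intro a b h
    by_cases ha : a.1.1 = r <;> by_cases hb : b.1.1 = r
    · rw [p1 a ha, p1 b hb] at h
      exact Subtype.ext (Prod.ext (ha.trans hb.symm) (hinj (hv a ha) (hv b hb) h))
    · rw [p1 a ha, p2 b hb] at h
      exact ((hg b).2 _ (hv a ha) h.symm).elim
    · rw [p2 a ha, p1 b hb] at h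
      exact ((hg a).2 _ (hv b hb) h).elim
    · rw [p2 a ha, p2 b hb] at h
      exact g.injective (Subtype.ext h)
  have e1 : φ ⟨(r, x), hx⟩ = ψ x := p1 _ rfl
  have e2 : φ ⟨(r, y), hy⟩ = ψ y := p1 _ rfl
  rw [← e1, ← e2]
  refine c.closed φ hφ (fun a => ?_) _ _ (graph_adj.mpr ⟨fun h => hxy (by simpa using h),
    Or.inl (Or.inr ⟨rfl, hrel⟩)⟩) ?_
  · by_cases ha : a.1.1 = r
    · rw [p1 a ha]; exact hVS _ (hv a ha)
    · rw [p2 a ha]; exact c.Q_sub (hg a).1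
  · rw [e1, e2]
    suffices h : ∀ a b, a ≠ b → rel ρ a b → s(φ a, φ b) = s(ψ x, ψ y) ∨ H.Adj (φ a) (φ b) by
      intro a b hab
      obtain ⟨h1, h2 | h2⟩ := graph_adj.mp hab
      · exact h a b h1 h2
      · rw [Sym2.eq_swap, H.adj_comm]; exact h b a h1.symm h2
    intro a b hab hr
    have hne : φ a ≠ φ b := fun h => hab (hφ h)
    by_cases ha : a.1.1 = r <;> by_cases hb : b.1.1 = r
    · have hne' : a.1.2 ≠ b.1.2 := fun h => hab (Subtype.ext (Prod.ext (ha.trans hb.symm) h))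
      rw [p1 a ha, p1 b hb]
      rcases hr with ⟨h1, h2⟩ | ⟨-, ⟨C, hC, h1, h2⟩ | h1⟩
      · exact Or.inr (hKK _ (hv a ha) _ (hv b hb) (ha ▸ h1) (hb ▸ h2) hne')
      · exact hcl C (ha ▸ hC) _ h1 _ h2 hne'
      · exact Or.inl (hbr _ _ (ha ▸ h1))
    · rcases hr with ⟨h1, -⟩ | ⟨h1, -⟩
      · right
        rw [p1 a ha, p2 b hb] at hne ⊢
        exact hK _ (hv a ha) (ha ▸ h1) _ (hg b).1 hne.symm
      · exact (hb (h1 ▸ ha)).elim
    · rcases hr with ⟨-, h1⟩ | ⟨h1, -⟩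
      · right
        rw [p2 a ha, p1 b hb] at hne ⊢
        exact (hK _ (hv b hb) (hb ▸ h1) _ (hg a).1 hne).symm
      · exact (ha (h1 ▸ hb)).elim
    · right
      rw [p2 a ha, p2 b hb] at hne ⊢
      exact c.Q_abs _ (hg a).1 _ (hg b).1 hne.symm

lemma clique_step (D : Finset L) (hD : D ⊆ VS) (hc : D.card = d + 2) {z u v : L} (hz : z ∈ D)
    (hza : Abs Q H z) (hu : u ∈ D) (hv : v ∈ D) (huv : u ≠ v)
    (h : ∀ x ∈ D, ∀ y ∈ D, x ≠ y → s(x, y) = s(u, v) ∨ H.Adj x y) : H.Adj u v := by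
  obtain ⟨r, z0, h1, h2, h3, h4, h5⟩ := c.crule
  obtain ⟨g, hg⟩ := Finset.exists_equiv_extend_of_card_eq (α := (ρ r).verts) (t := D)
    (by rw [Fintype.card_coe, h4, hc]) (s := {⟨z0, h3⟩}) (f := fun _ => z) (by simpa using hz)
    (by simp)
  let ψ : L → L := fun x => if h : x ∈ (ρ r).verts then g ⟨x, h⟩ else z
  have hψ : ∀ x (h : x ∈ (ρ r).verts), ψ x = g ⟨x, h⟩ := fun x h => dif_pos h
  have hinj : Set.InjOn ψ (ρ r).verts := by
    intro x hx y hy hxy
    rw [hψ x hx, hψ y hy] at hxy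
    simpa using g.injective (Subtype.ext hxy)
  have hmem : ∀ x ∈ (ρ r).verts, ψ x ∈ D := fun x hx => by rw [hψ x hx]; exact (g _).2
  have eu : ψ (g.symm ⟨u, hu⟩) = u := by rw [hψ _ (g.symm ⟨u, hu⟩).2]; simp
  have ev : ψ (g.symm ⟨v, hv⟩) = v := by rw [hψ _ (g.symm ⟨v, hv⟩).2]; simp
  rw [← eu, ← ev]
  refine c.ext r ψ hinj (fun x hx => hD (hmem x hx)) (g.symm ⟨u, hu⟩).2 (g.symm ⟨v, hv⟩).2
    (fun h => huv (by rw [← eu, ← ev, h]))
    (Or.inl ⟨_, by rw [h1]; rfl, (g.symm ⟨u, hu⟩).2, (g.symm ⟨v, hv⟩).2⟩) ?_ ?_ ?_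
    fun x y hxy => (h5 x y hxy).elim
  · intro x hx hk
    rw [h2, mem_singleton] at hk
    subst hk
    rw [hψ x hx, hg _ (mem_singleton_self _)]
    exact hza
  · intro x _ y _ hx hy hxy
    rw [h2, mem_singleton] at hx hy
    exact (hxy (hx.trans hy.symm)).elim
  · intro C hC x hx y hy hxy
    rw [h1, Set.mem_singleton_iff] at hC
    subst hC
    rw [eu, ev]
    exact h _ (hmem x hx) _ (hmem y hy) fun h => hxy (hinj hx hy h)

/-- Two vertices with `d` common neighbours forming a clique. -/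
lemma common (C : Finset L) (hC : C ⊆ VS) (hc : C.card = d) (hCC : H.IsClique (C : Set L))
    {u v : L} (hu : u ∈ VS) (hv : v ∈ VS) (huv : u ≠ v) (hCu : ∀ g ∈ C, H.Adj u g)
    (hCv : ∀ g ∈ C, H.Adj v g) (hz : Abs Q H u ∨ ∃ z ∈ C, Abs Q H z) : H.Adj u v := by
  have h1 : u ∉ C := fun h => (hCu u h).ne rfl
  have h2 : v ∉ C := fun h => (hCv v h).ne rfl
  have hcard : (insert u (insert v C)).card = d + 2 := by
    rw [card_insert_of_notMem (by simp [huv, h1]), card_insert_of_notMem h2, hc]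
  obtain ⟨z, hz, hza⟩ : ∃ z ∈ insert u (insert v C), Abs Q H z := by
    rcases hz with hz | ⟨z, hz, hza⟩
    · exact ⟨u, by simp, hz⟩
    · exact ⟨z, by simp [hz], hza⟩
  refine c.clique_step _ (insert_subset hu (insert_subset hv hC)) hcard hz hza (by simp)
    (by simp) huv ?_
  intro x hx y hy hxy
  simp only [mem_insert] at hx hy
  rcases hx with rfl | rfl | hx <;> rcases hy with rfl | rfl | hy
  · exact (hxy rfl).elim
  · exact Or.inl rfl
  · exact Or.inr (hCu y hy)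
  · exact Or.inl Sym2.eq_swap
  · exact (hxy rfl).elim
  · exact Or.inr (hCv y hy)
  · exact Or.inr (hCu x hx).symm
  · exact Or.inr (hCv x hx).symm
  · exact Or.inr (hCC hx hy hxy)

lemma Q_big : d + 2 ≤ Q.card := by
  obtain ⟨r, z0, -, -, -, h4, -⟩ := c.crule
  have := card_verts_le ρ r
  have := c.Q_card
  omega

lemma abs_adj {u v : L} (hu : u ∈ VS) (hv : v ∈ VS) (huv : u ≠ v) (hua : Abs Q H u)
    (hva : Abs Q H v) : H.Adj u v := by
  obtain ⟨C, hC, hc⟩ := exists_subset_card_eq (s := Q \ {u, v}) (n := d) (by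
    have h1 := le_card_sdiff ({u, v} : Finset L) Q
    have h2 : ({u, v} : Finset L).card ≤ 2 := card_le_two
    have := c.Q_big
    omega)
  have hm : ∀ g ∈ C, g ∈ Q ∧ g ≠ u ∧ g ≠ v := fun g hg => by simpa [not_or] using hC hg
  exact c.common C (fun g hg => c.Q_sub (hm g hg).1) hc
    (fun x hx y hy hxy => c.Q_abs x (hm x hx).1 y (hm y hy).1 hxy.symm) hu hv huv
    (fun g hg => hua g (hm g hg).1 (hm g hg).2.1) (fun g hg => hva g (hm g hg).1 (hm g hg).2.2)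
    (Or.inl hua)

lemma abs_of_nbrs {v : L} (hv : v ∈ VS) (N : Finset L) (hN : N ⊆ VS) (hc : d ≤ N.card)
    (h : ∀ g ∈ N, Abs Q H g ∧ H.Adj v g) : Abs Q H v := by
  obtain ⟨C, hC, hc⟩ := exists_subset_card_eq hc
  intro q hq hqv
  by_cases hqC : q ∈ C
  · exact (h q (hC hqC)).2
  · refine (c.common C (hC.trans hN) hc (fun x hx y hy hxy => c.abs_adj (hN (hC hx)) (hN (hC hy))
      hxy (h x (hC hx)).1 (h y (hC hy)).1) (c.Q_sub hq) hv hqv (fun g hg => ?_)
      (fun g hg => (h g (hC hg)).2) (Or.inl (c.Q_abs q hq))).symm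
    exact ((h g (hC hg)).1 q hq fun h' => hqC (h' ▸ hg)).symm

end Ctx

/-- The edges that generate a clique on `A` once the anchors are absorbed. -/
lemma exists_gen [Finite R] (ρ : R → Rule L) (d : ℕ) (A An : Finset L) (hA : An ⊆ A)
    (h1 : 1 ≤ An.card) (h2 : An.card ≤ d) (h3 : d ≤ A.card) :
    ∃ E : Finset (Sym2 L), 2 * (E.card : ℝ) ≤
        d * (d - 1) - An.card * (An.card - 1) + 2 * d * (A.card - d) ∧
      ∀ (VS Q : Finset L) (H : SimpleGraph L), Ctx ρ d VS Q H → A ⊆ VS →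
        (∀ g ∈ An, Abs Q H g) → (∀ u ∈ A, ∀ v ∈ A, u ≠ v → s(u, v) ∈ E → H.Adj u v) →
        H.IsClique (A : Set L) := by
  obtain ⟨C, hC1, hC2, hC3⟩ := exists_subsuperset_card_eq hA h2 h3
  refine ⟨(C ×ˢ (A \ C)).image Sym2.mk.uncurry ∪ (An ×ˢ (C \ An)).image Sym2.mk.uncurry ∪
    (C \ An).offDiag.image Sym2.mk.uncurry, ?_, ?_⟩
  · have e1 : ((C ×ˢ (A \ C)).image Sym2.mk.uncurry).card ≤ d * (A.card - d) :=
      card_image_le.trans (by rw [card_product, card_sdiff_of_subset hC2, hC3])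
    have e2 : ((An ×ˢ (C \ An)).image Sym2.mk.uncurry).card ≤ An.card * (d - An.card) :=
      card_image_le.trans (by rw [card_product, card_sdiff_of_subset hC1, hC3])
    have e3 := Sym2.card_image_offDiag (C \ An)
    rw [card_sdiff_of_subset hC1, hC3] at e3
    have e4 := (card_union_le _ _).trans (add_le_add ((card_union_le _ _).trans
      (add_le_add e1 e2)) e3.le)
    have e5 := (Nat.cast_le (α := ℝ)).mpr e4
    push_cast [Nat.cast_choose_two, Nat.cast_sub h2, Nat.cast_sub h3] at e5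
    linarith only [e5]
  · intro VS Q H c hVS hAn hE
    have hCA : ∀ u ∈ C, ∀ v ∈ A, v ∉ C → H.Adj u v := fun u hu v hv hv' =>
      hE u (hC2 hu) v hv (fun h => hv' (h ▸ hu)) (mem_union_left _ (mem_union_left _
        (mem_image.mpr ⟨(u, v), mem_product.mpr ⟨hu, mem_sdiff.mpr ⟨hv, hv'⟩⟩, rfl⟩)))
    have hAC : ∀ u ∈ An, ∀ v ∈ C, v ∉ An → H.Adj u v := fun u hu v hv hv' =>
      hE u (hA hu) v (hC2 hv) (fun h => hv' (h ▸ hu)) (mem_union_left _ (mem_union_right _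
        (mem_image.mpr ⟨(u, v), mem_product.mpr ⟨hu, mem_sdiff.mpr ⟨hv, hv'⟩⟩, rfl⟩)))
    have hCC : H.IsClique (C : Set L) := by
      intro u hu v hv huv
      by_cases h4 : u ∈ An <;> by_cases h5 : v ∈ An
      · exact c.abs_adj (hVS (hA h4)) (hVS (hA h5)) huv (hAn u h4) (hAn v h5)
      · exact hAC u h4 v hv h5
      · exact (hAC v h5 u hu h4).symm
      · exact hE u (hC2 hu) v (hC2 hv) huv (mem_union_right _ (mem_image.mpr ⟨(u, v),
          mem_offDiag.mpr ⟨mem_sdiff.mpr ⟨hu, h4⟩, mem_sdiff.mpr ⟨hv, h5⟩, huv⟩, rfl⟩))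
    intro u hu v hv huv
    by_cases h4 : u ∈ C <;> by_cases h5 : v ∈ C
    · exact hCC h4 h5 huv
    · exact hCA u h4 v hv h5
    · exact (hCA v h5 u hu h4).symm
    · obtain ⟨z, hz⟩ := card_pos.mp h1
      exact c.common C (hC2.trans hVS) hC3 hCC (hVS hu) (hVS hv) huv
        (fun g hg => (hCA g hg u hu h4).symm) (fun g hg => (hCA g hg v hv h5).symm)
        (Or.inr ⟨z, hC1 hz, hAn z hz⟩)

end Pool.Agent.Work.MP_e0d07f_co
end

-- merged part: Pool.Agent.Work.MP_e0d07f_co.Hedge.Struct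
section
namespace Pool.Agent.Work.MP_e0d07f_co.Hedge

open Finset Module

/-- The tile system. -/
structure TSys {T : Type} (P : Num (T ⊕ Fin 3)) where
  cls : T → ZMod 5
  Hor : T → T → Prop
  Ver : T → T → Prop
  hor_cls : ∀ a b, Hor a b → cls b = cls a + 1
  ver_cls : ∀ a b, Ver a b → cls b = cls a + 2
  np : T → ℕ
  pk : T → ℕ → Fin 3
  xi : T → ℝ
  Cst : ℝ
  Cst_nonneg : 0 ≤ Cst
  kmax : ℕ
  kap_main : ∀ t, P.kap (.inl t) = P.k (.inl t) + 2
  kap_pend : ∀ i, P.kap (.inr i) = P.k (.inr i) + 1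
  k_le : ∀ z, P.k z ≤ kmax
  room : ∀ t, P.kap (.inl t) + (kmax + 1) + (2 + np t) ≤ P.d
  pend_nonneg : ∀ i, 0 ≤ P.base (.inr i)
  pend_le : ∀ i, P.base (.inr i) ≤ 1
  cell : ∀ t, P.base (.inl t) + (2 * P.k (.inl t) + 1) +
    ∑ i ∈ range (np t), (P.base (.inr (pk t i)) + P.k (.inr (pk t i))) = P.eps * xi t
  eps_le : P.eps ≤ 2
  Lam_ge : 2 * (kmax : ℝ) + 2 + 2 * Cst * 27 ≤ P.Lam
  tiling : ∀ {X : Type} [Fintype X] [DecidableEq X] (σ τ : Equiv.Perm X) (B : Finset X)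
    (t : X → T), (∀ x ∉ B, Hor (t x) (t (σ x)) ∧ Ver (t x) (t (τ x)) ∧ τ (σ x) = σ (τ x)) →
    -(Cst * (B.card : ℝ)) ≤ ∑ x, xi (t x)

open Classical

/-- The data seen when a main rule is applied. -/
structure Wit0 {V T : Type} {P : Num (T ⊕ Fin 3)} (Ts : TSys P)
    (reg : Set (Entry V (T ⊕ Fin 3))) (Y S : Finset V) (t : T) where
  y : Bool → Entry V (T ⊕ Fin 3)
  ys : Bool → Entry V (T ⊕ Fin 3)
  yd : Entry V (T ⊕ Fin 3)
  yp : ℕ → Entry V (T ⊕ Fin 3)
  v : Bool → V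
  gs : Bool → V
  gd : Bool → V
  vp : ℕ → V
  anc : Finset V
  tt : Bool → T
  ts : Bool → T
  td : T
  y_reg : ∀ ρ, y ρ ∈ reg
  ys_reg : ∀ ρ, ys ρ ∈ reg
  yd_reg : yd ∈ reg
  yp_reg : ∀ i < Ts.np t, yp i ∈ reg
  y_kind : ∀ ρ, (y ρ).kind = .inl (tt ρ)
  ys_kind : ∀ ρ, (ys ρ).kind = .inl (ts ρ)
  yd_kind : yd.kind = .inl td
  yp_kind : ∀ i < Ts.np t, (yp i).kind = .inr (Ts.pk t i)
  hor : Ts.Hor t (tt false)
  ver : Ts.Ver t (tt true)
  ts_cls : ∀ ρ, Ts.cls (ts ρ) + stp (!ρ) = Ts.cls t + stp ρ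
  td_cls : Ts.cls td = Ts.cls t + 3
  anc_sub : anc ⊆ Y ∩ S
  anc_card : anc.card = P.kap (.inl t)
  v_mem : ∀ ρ, Y ∩ (y ρ).set = {v ρ}
  vp_mem : ∀ i < Ts.np t, Y ∩ (yp i).set = {vp i}
  v_anc : ∀ ρ, v ρ ∉ anc
  vp_anc : ∀ i < Ts.np t, vp i ∉ anc
  v_ne : v false ≠ v true
  v_vp : ∀ ρ, ∀ i < Ts.np t, v ρ ≠ vp i
  vp_inj : ∀ i < Ts.np t, ∀ i' < Ts.np t, vp i = vp i' → i = i'
  gs_mem : ∀ ρ, (y ρ).set ∩ (ys ρ).set = {gs ρ}
  gd_mem : ∀ ρ, (y ρ).set ∩ yd.set = {gd ρ}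
  gs_anch : ∀ ρ, gs ρ ∉ (y ρ).anch
  gd_anch : ∀ ρ, gd ρ ∉ (y ρ).anch
  gs_v : ∀ ρ, gs ρ ≠ v ρ
  gd_v : ∀ ρ, gd ρ ≠ v ρ
  gd_gs : ∀ ρ, gd ρ ≠ gs ρ

abbrev Wit {V T : Type} [Fintype V] {P : Num (T ⊕ Fin 3)} (Ts : TSys P) (X : Proc V P)
    (j : ℕ) (t : T) := Wit0 Ts (X.reg j) (X.Y j) (X.S j) t

/-- A process in which each application of a main rule comes with its witness. -/
structure Full (V : Type) {T : Type} [Fintype V] {P : Num (T ⊕ Fin 3)} (Ts : TSys P) where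
  X : Proc V P
  hW : ∀ j t, X.fire j = some (.inl t) → Nonempty (Wit Ts X j t)
namespace Full

variable {V T : Type} [Fintype V] {P : Num (T ⊕ Fin 3)} {Ts : TSys P} (F : Full V Ts)

noncomputable def CM : Finset ℕ := (range F.X.J).filter fun j => ∃ t, F.X.Clean j (.inl t)

noncomputable def tile (x : F.CM) : T := (mem_filter.mp x.2).2.choose

lemma tile_clean (x : F.CM) : F.X.Clean x (.inl (F.tile x)) := (mem_filter.mp x.2).2.choose_spec

noncomputable def W (x : F.CM) : Wit Ts F.X x (F.tile x) :=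
  (F.hW x _ (F.tile_clean x).1).some

lemma v_facts (x : F.CM) (ρ : Bool) :
    (F.W x).v ρ ∈ F.X.A x ∧
      P.kap (.inl (F.tile x)) + (((F.W x).y ρ).set ∩ F.X.S x).card
        ≤ (F.X.Nb x ((F.W x).v ρ)).card ∧
      P.k ((F.W x).y ρ).kind ≤ (((F.W x).y ρ).set ∩ F.X.S x).card ∧
      ∃ j', x.1 < j' ∧ j' < F.X.J ∧ F.X.Coll j' ((F.W x).y ρ).set ∧ (F.W x).v ρ ∈ F.X.Att j' :=
  F.X.port_facts (F.tile_clean x) (F.W x).anc_sub (F.W x).anc_card ((F.W x).y_reg ρ)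
    ((F.W x).v_mem ρ) ((F.W x).v_anc ρ)

noncomputable def tgt (x : F.CM) (ρ : Bool) : ℕ := (F.v_facts x ρ).2.2.2.choose

lemma tgt_spec (x : F.CM) (ρ : Bool) : x.1 < F.tgt x ρ ∧ F.tgt x ρ < F.X.J ∧
    F.X.Coll (F.tgt x ρ) ((F.W x).y ρ).set ∧ (F.W x).v ρ ∈ F.X.Att (F.tgt x ρ) :=
  (F.v_facts x ρ).2.2.2.choose_spec

lemma v_new (x : F.CM) (ρ : Bool) : (F.W x).v ρ ∈ F.X.New x := F.X.A_sub_New _ (F.v_facts x ρ).1

lemma v_inj : Function.Injective fun p : F.CM × Bool => (F.W p.1).v p.2 := by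
  rintro ⟨x, ρ⟩ ⟨x', ρ'⟩ h
  simp only at h
  have hx : x = x' := Subtype.ext (F.X.new_unique (F.v_new x ρ) (h ▸ F.v_new x' ρ'))
  subst hx
  have := (F.W x).v_ne
  cases ρ <;> cases ρ' <;> simp_all

lemma tt_cls (x : F.CM) (ρ : Bool) : Ts.cls ((F.W x).tt ρ) = Ts.cls (F.tile x) + stp ρ := by
  cases ρ
  · exact Ts.hor_cls _ _ (F.W x).hor
  · exact Ts.ver_cls _ _ (F.W x).ver

lemma kind_of_coll (x : F.CM) {j0 : ℕ} (hj : j0 ≤ x.1) {y : Entry V (T ⊕ Fin 3)}
    (hy : y ∈ F.X.reg j0) (h : F.X.Coll x y.set) {t : T} (ht : y.kind = .inl t) :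
    F.tile x = t := by
  have := (F.X.clean_coll (F.tile_clean x) hj hy h).2.1
  rw [ht] at this
  exact (Sum.inl_injective this).symm

lemma tile_tgt {x x' : F.CM} {ρ : Bool} (h : F.tgt x ρ = x') : F.tile x' = (F.W x).tt ρ :=
  F.kind_of_coll x' (h ▸ (F.tgt_spec x ρ).1.le) ((F.W x).y_reg ρ) (h ▸ (F.tgt_spec x ρ).2.2.1)
    ((F.W x).y_kind ρ)

lemma mem_CM_of_coll {j j0 : ℕ} (hJ : j < F.X.J) (hj : j0 ≤ j) {y : Entry V (T ⊕ Fin 3)}
    (hy : y ∈ F.X.reg j0) (h : F.X.Coll j y.set) {t : T} (ht : y.kind = .inl t)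
    (hu : j ∉ F.X.Unc) : j ∈ F.CM := by
  simp only [Proc.Unc, mem_filter, mem_range, hJ, true_and, not_forall, not_not] at hu
  obtain ⟨z, hz⟩ := hu
  have := (F.X.clean_coll hz hj hy h).2.1
  exact mem_filter.mpr ⟨mem_range.mpr hJ, t, by rw [← ht, this]; exact hz⟩

lemma Att_le_two (x : F.CM) : (F.X.Att x).card ≤ 2 := by
  have := F.X.clean_Att_card (F.tile_clean x)
  rw [Ts.kap_main] at this
  omega

noncomputable def Fib (x' : F.CM) : Finset (F.CM × Bool) :=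
  univ.filter fun p => F.tgt p.1 p.2 = x'

lemma Fib_image (x' : F.CM) :
    (F.Fib x').image (fun p => (F.W p.1).v p.2) ⊆ F.X.Att x' := by
  intro g hg
  obtain ⟨p, hp, rfl⟩ := mem_image.mp hg
  rw [← (mem_filter.mp hp).2]
  exact (F.tgt_spec p.1 p.2).2.2.2

lemma Fib_le (x' : F.CM) : (F.Fib x').card ≤ 2 := by
  rw [← card_image_of_injective _ F.v_inj]
  exact (card_le_card (F.Fib_image x')).trans (F.Att_le_two x')

noncomputable def Unsat : Finset F.CM := univ.filter fun x => (F.Fib x).card ≠ 2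

lemma Unsat_le : F.Unsat.card ≤ F.X.D := by
  have h1 := F.X.count_unclean (univ.filter fun p : F.CM × Bool => F.tgt p.1 p.2 ∈ F.X.Unc)
    (fun p => F.tgt p.1 p.2) (fun p => (F.W p.1).v p.2) (fun p hp => (mem_filter.mp hp).2)
    (fun p _ => (F.tgt_spec p.1 p.2).2.2.2) F.v_inj.injOn
  have h2 : (univ : Finset (F.CM × Bool)) ⊆
      (univ.filter fun p : F.CM × Bool => F.tgt p.1 p.2 ∈ F.X.Unc) ∪ univ.biUnion F.Fib := by
    intro p _
    by_cases hp : F.tgt p.1 p.2 ∈ F.X.Unc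
    · simp [hp]
    · have hs := F.tgt_spec p.1 p.2
      have := F.mem_CM_of_coll hs.2.1 hs.1.le ((F.W p.1).y_reg p.2) hs.2.2.1
        ((F.W p.1).y_kind p.2) hp
      exact mem_union_right _ (mem_biUnion.mpr ⟨⟨_, this⟩, mem_univ _, by simp [Fib]⟩)
  have h3 := (card_le_card h2).trans (card_union_le _ _)
  have h4 := card_biUnion_le (s := (univ : Finset F.CM)) (t := F.Fib)
  have h5 : ∑ x, (F.Fib x).card + F.Unsat.card ≤ ∑ _x : F.CM, 2 := by
    rw [Unsat, card_filter, ← sum_add_distrib]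
    refine sum_le_sum fun x _ => ?_
    have := F.Fib_le x
    split_ifs <;> omega
  simp only [sum_const, card_univ, smul_eq_mul, Fintype.card_prod, Fintype.card_bool] at h3 h5
  omega

noncomputable def BadAtt : Finset V :=
  F.X.Unc.biUnion F.X.Att ∪ F.Unsat.biUnion fun x => F.X.Att x

def Good1 (x : F.CM) : Prop := Disjoint (F.X.New x) F.BadAtt

lemma bad1_le : (univ.filter fun x => ¬ F.Good1 x).card ≤ 3 * F.X.D := by
  have h1 : F.BadAtt.card ≤ 3 * F.X.D := by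
    refine (card_union_le _ _).trans ?_
    have a1 : (F.X.Unc.biUnion F.X.Att).card ≤ F.X.D := card_biUnion_le
    have a2 : (F.Unsat.biUnion fun x => F.X.Att x).card ≤ F.Unsat.card * 2 :=
      card_biUnion_le_card_mul _ _ _ fun x _ => F.Att_le_two x
    have a3 := F.Unsat_le
    omega
  refine le_trans ?_ h1
  have h2 : ∀ x : F.CM, ∃ g, ¬ F.Good1 x → g ∈ F.X.New x ∧ g ∈ F.BadAtt := by
    intro x
    by_cases hx : F.Good1 x
    · exact ⟨(F.W x).v true, fun h => absurd hx h⟩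
    · obtain ⟨g, hg⟩ := not_disjoint_iff.mp hx
      exact ⟨g, fun _ => hg⟩
  choose g hg using h2
  refine card_le_card_of_injOn g (fun x hx => (hg x (mem_filter.mp hx).2).2) ?_
  intro x hx x' hx' h
  exact Subtype.ext (F.X.new_unique (hg x (mem_filter.mp hx).2).1
    (h ▸ (hg x' (mem_filter.mp hx').2).1))

lemma attach {x : F.CM} (hx : F.Good1 x) {j0 : ℕ} (hj : j0 ≤ x.1) {z : Entry V (T ⊕ Fin 3)}
    (hz : z ∈ F.X.reg j0) {tz : T} (ht : z.kind = .inl tz) {g : V} (hg : g ∈ z.set)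
    (hgN : g ∈ F.X.New x) (hS : ¬ z.set ⊆ F.X.S (x.1 + 1)) :
    ∃ (ρ : Bool) (x' : F.CM), F.tgt x ρ = x' ∧ g = (F.W x).v ρ ∧ F.X.Coll x' z.set ∧
      Ts.cls tz = Ts.cls (F.tile x) + stp ρ := by
  obtain ⟨j', h1, h2, h3⟩ := F.X.exists_coll hS
  have hgA : g ∈ F.X.Att j' := F.X.mem_Att hz hg (F.X.S_mono h1 (mem_sdiff.mp hgN).1)
    (fun h => (mem_sdiff.mp hgN).2 (F.X.S_mono hj h)) h3
  have hgB : g ∉ F.BadAtt := disjoint_left.mp hx hgN
  have hu : j' ∉ F.X.Unc := fun h => hgB (mem_union_left _ (mem_biUnion.mpr ⟨_, h, hgA⟩))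
  have hm := F.mem_CM_of_coll h2 (by omega) hz h3 ht hu
  have hsat : (F.Fib ⟨j', hm⟩).card = 2 := by
    by_contra h
    exact hgB (mem_union_right _ (mem_biUnion.mpr ⟨⟨j', hm⟩, by simp [Unsat, h], hgA⟩))
  have heq : (F.Fib ⟨j', hm⟩).image (fun p => (F.W p.1).v p.2) = F.X.Att j' :=
    eq_of_subset_of_card_le (F.Fib_image ⟨j', hm⟩) (by
      rw [card_image_of_injective _ F.v_inj, hsat]; exact F.Att_le_two ⟨j', hm⟩)
  rw [← heq] at hgA
  obtain ⟨⟨x2, ρ⟩, hp, hpg⟩ := mem_image.mp hgA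
  have hx2 : x2 = x := Subtype.ext (F.X.new_unique (F.v_new x2 ρ) (hpg ▸ hgN))
  subst hx2
  have htg : F.tgt x2 ρ = (⟨j', hm⟩ : F.CM) := (mem_filter.mp hp).2
  refine ⟨ρ, ⟨j', hm⟩, htg, hpg.symm, h3, ?_⟩
  rw [← F.kind_of_coll ⟨j', hm⟩ (by show j0 ≤ j'; omega) hz h3 ht, F.tile_tgt htg, F.tt_cls]

lemma I_cases {x y : F.CM} {ρ : Bool} (h : F.tgt x ρ = y) (hy : F.Good1 y) :
    ∀ g ∈ F.X.Y y ∩ F.X.S y,
      g ∈ ((F.W x).y ρ).anch ∨ g = (F.W x).v ρ ∨ g = (F.W x).gs ρ := by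
  have hs := F.tgt_spec x ρ
  rw [h] at hs
  have hc := F.tile_clean y
  have hyr := (F.W x).y_reg ρ
  have hcoll := F.X.clean_coll hc hs.1.le hyr hs.2.2.1
  have hgs : (F.W x).gs ρ ∈ ((F.W x).y ρ).set ∩ ((F.W x).ys ρ).set := by
    rw [(F.W x).gs_mem]; simp
  rw [mem_inter] at hgs
  have hgsS : (F.W x).gs ρ ∈ F.X.S y := by
    by_contra hn
    have hnew : (F.W x).gs ρ ∈ F.X.New y := mem_sdiff.mpr ⟨hs.2.2.1.2 hgs.1, hn⟩
    have hnc := F.X.not_coll_of_inter hc hs.1.le hs.1.le hyr ((F.W x).ys_reg ρ)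
      ((F.W x).gs_mem ρ) hs.2.2.1
    obtain ⟨ρ', x', -, -, -, hcl⟩ := F.attach hy hs.1.le ((F.W x).ys_reg ρ) ((F.W x).ys_kind ρ)
      hgs.2 hnew (fun h' => hnc ⟨fun h'' => hn (h'' hgs.2), h'⟩)
    have h1 := (F.W x).ts_cls ρ
    rw [hcl, F.tile_tgt h, F.tt_cls, add_assoc, add_assoc, add_right_inj] at h1
    revert h1
    cases ρ <;> cases ρ' <;> decide
  have hvS : (F.W x).v ρ ∉ F.X.S x := (mem_sdiff.mp (F.v_new x ρ)).2
  have hanS : ((F.W x).y ρ).anch ⊆ F.X.S x := fun g hg =>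
    F.X.mem_S.mpr (F.X.anch_S _ _ hyr g hg)
  have hsub : insert ((F.W x).gs ρ) (insert ((F.W x).v ρ) ((F.W x).y ρ).anch)
      ⊆ F.X.Y y ∩ F.X.S y := by
    refine insert_subset (mem_inter.mpr ⟨hcoll.1 (mem_inter.mpr ⟨hgs.1, hgsS⟩), hgsS⟩)
      (insert_subset (F.X.clean_Att_sub hc hs.2.2.2) fun g hg => ?_)
    have := F.X.S_mono hs.1.le (hanS hg)
    exact mem_inter.mpr ⟨hcoll.1 (mem_inter.mpr ⟨F.X.anch_sub _ _ hyr hg, this⟩), this⟩
  have heq := eq_of_subset_of_card_le hsub (by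
    rw [card_insert_of_notMem (by simp [(F.W x).gs_v ρ, (F.W x).gs_anch ρ]),
      card_insert_of_notMem (fun h => hvS (hanS h)), F.X.anch_card _ _ hyr, hcoll.2.1,
      (F.X.clean_card hc).1, Ts.kap_main])
  intro g hg
  rw [← heq] at hg
  simp only [mem_insert] at hg
  (clear * - hs hcoll hgs hg; tauto)

lemma tgt_inj_lt {x1 x2 y : F.CM} {ρ : Bool} (h1 : F.tgt x1 ρ = y) (h2 : F.tgt x2 ρ = y)
    (hx2 : F.Good1 x2) (hy : F.Good1 y) : ¬ x1.1 < x2.1 := by
  intro hlt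
  have hs1 := F.tgt_spec x1 ρ
  have hs2 := F.tgt_spec x2 ρ
  rw [h1] at hs1
  rw [h2] at hs2
  have hc := F.tile_clean y
  have hnew := F.v_new x2 ρ
  have hvS : (F.W x2).v ρ ∉ F.X.S (x1.1 + 1) := fun h => (mem_sdiff.mp hnew).2 (F.X.S_mono hlt h)
  have hg : (F.W x2).v ρ = (F.W x1).gs ρ := by
    rcases F.I_cases h1 hy _ (F.X.clean_Att_sub hc hs2.2.2.2) with h | h | h
    · exact absurd (F.X.S_mono (Nat.le_succ _)
        (F.X.mem_S.mpr (F.X.anch_S _ _ ((F.W x1).y_reg ρ) _ h))) hvS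
    · exact absurd (h ▸ (mem_sdiff.mp (F.v_new x1 ρ)).1) hvS
    · exact h
  have hgs : (F.W x1).gs ρ ∈ ((F.W x1).y ρ).set ∩ ((F.W x1).ys ρ).set := by
    rw [(F.W x1).gs_mem]; simp
  rw [mem_inter, ← hg] at hgs
  have hcls := (F.W x1).ts_cls ρ
  rw [← F.tt_cls, ← F.tile_tgt h1, F.tile_tgt h2, F.tt_cls] at hcls
  by_cases hS : ((F.W x1).ys ρ).set ⊆ F.X.S (x2.1 + 1)
  · have := F.kind_of_coll x2 hlt.le ((F.W x1).ys_reg ρ)
      ⟨fun h => (mem_sdiff.mp hnew).2 (h hgs.2), hS⟩ ((F.W x1).ys_kind ρ)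
    rw [this, add_right_inj] at hcls
    revert hcls
    cases ρ <;> decide
  · obtain ⟨ρ', x', h3, h4, h5, -⟩ := F.attach hx2 hlt.le ((F.W x1).ys_reg ρ)
      ((F.W x1).ys_kind ρ) hgs.2 hnew hS
    have : (x2, ρ) = (x2, ρ') := F.v_inj h4
    obtain rfl : ρ = ρ' := congrArg Prod.snd this
    rw [← h3, h2] at h5
    exact F.X.not_coll_of_inter hc hs1.1.le hs1.1.le ((F.W x1).y_reg ρ) ((F.W x1).ys_reg ρ)
      ((F.W x1).gs_mem ρ) hs1.2.2.1 h5

lemma tgt_comm {x y : F.CM} {ρ : Bool} (h : F.tgt x ρ = y) (hy : F.Good1 y) :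
    F.X.Coll (F.tgt y (!ρ)) (F.W x).yd.set := by
  have hs := F.tgt_spec x ρ
  rw [h] at hs
  have hc := F.tile_clean y
  have hyr := (F.W x).y_reg ρ
  have hcoll := F.X.clean_coll hc hs.1.le hyr hs.2.2.1
  have hgd : (F.W x).gd ρ ∈ ((F.W x).y ρ).set ∩ (F.W x).yd.set := by
    rw [(F.W x).gd_mem]; simp
  rw [mem_inter] at hgd
  have hn : (F.W x).gd ρ ∉ F.X.S y := by
    intro hS
    rcases F.I_cases h hy _ (mem_inter.mpr ⟨hcoll.1 (mem_inter.mpr ⟨hgd.1, hS⟩), hS⟩)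
      with h | h | h
    · exact (F.W x).gd_anch ρ h
    · exact (F.W x).gd_v ρ h
    · exact (F.W x).gd_gs ρ h
  have hnew : (F.W x).gd ρ ∈ F.X.New y := mem_sdiff.mpr ⟨hs.2.2.1.2 hgd.1, hn⟩
  have hnc := F.X.not_coll_of_inter hc hs.1.le hs.1.le hyr (F.W x).yd_reg
    ((F.W x).gd_mem ρ) hs.2.2.1
  obtain ⟨ρ', x', h1, -, h2, hcl⟩ := F.attach hy hs.1.le (F.W x).yd_reg (F.W x).yd_kind
    hgd.2 hnew (fun h' => hnc ⟨fun h'' => hn (h'' hgd.2), h'⟩)
  rw [(F.W x).td_cls, F.tile_tgt h, F.tt_cls, add_assoc, add_right_inj] at hcl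
  have : ρ' = !ρ := by
    revert hcl
    cases ρ <;> cases ρ' <;> decide
  rw [← this, h1]
  exact h2

end Full

end Pool.Agent.Work.MP_e0d07f_co.Hedge
end

-- merged part: Pool.Agent.Work.MP_e0d07f_co.Hedge.Total
section
namespace Pool.Agent.Work.MP_e0d07f_co.Hedge

open Finset Module Classical

namespace Full

variable {V T : Type} [Fintype V] {P : Num (T ⊕ Fin 3)} {Ts : TSys P} (F : Full V Ts)

noncomputable def nxt (x : F.CM) (ρ : Bool) : F.CM :=
  if h : F.tgt x ρ ∈ F.CM then ⟨_, h⟩ else x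

lemma nxt_spec {x : F.CM} (hx : F.Good1 x) (ρ : Bool) : F.tgt x ρ = F.nxt x ρ := by
  have hs := F.tgt_spec x ρ
  have hgB : (F.W x).v ρ ∉ F.BadAtt := disjoint_left.mp hx (F.v_new x ρ)
  have hu : F.tgt x ρ ∉ F.X.Unc := fun h =>
    hgB (mem_union_left _ (mem_biUnion.mpr ⟨_, h, hs.2.2.2⟩))
  have hm := F.mem_CM_of_coll hs.2.1 hs.1.le ((F.W x).y_reg ρ) hs.2.2.1 ((F.W x).y_kind ρ) hu
  simp [nxt, hm]

lemma pull_le (B : Finset F.CM) :
    (univ.filter fun x => F.Good1 x ∧ ∃ ρ, F.nxt x ρ ∈ B).card ≤ 2 * B.card := by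
  have h1 : (univ.filter fun x => F.Good1 x ∧ ∃ ρ, F.nxt x ρ ∈ B)
      ⊆ (B.biUnion F.Fib).image Prod.fst := by
    intro x hx
    obtain ⟨hx, ρ, hρ⟩ := (mem_filter.mp hx).2
    refine mem_image.mpr ⟨(x, ρ), mem_biUnion.mpr ⟨_, hρ, ?_⟩, rfl⟩
    simp [Fib, F.nxt_spec hx ρ]
  refine (card_le_card h1).trans (card_image_le.trans ?_)
  rw [mul_comm]
  exact card_biUnion_le_card_mul _ _ _ fun x _ => F.Fib_le x

def Good2 (x : F.CM) : Prop := F.Good1 x ∧ ∀ ρ, F.Good1 (F.nxt x ρ)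

lemma bad2_le : (univ.filter fun x => ¬ F.Good2 x).card ≤ 9 * F.X.D := by
  have h1 := F.bad1_le
  have h2 := F.pull_le (univ.filter fun x => ¬ F.Good1 x)
  have h3 : (univ.filter fun x => ¬ F.Good2 x) ⊆ (univ.filter fun x => ¬ F.Good1 x) ∪
      (univ.filter fun x => F.Good1 x ∧ ∃ ρ, F.nxt x ρ ∈ univ.filter fun x => ¬ F.Good1 x) := by
    intro x hx
    simp only [Good2, mem_filter, mem_univ, true_and, mem_union, not_and, not_forall] at hx ⊢
    (clear * - hx; tauto)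
  have := (card_le_card h3).trans (card_union_le _ _)
  omega

lemma nxt_inj (ρ : Bool) : Set.InjOn (fun x => F.nxt x ρ) (univ.filter F.Good2 : Finset F.CM) := by
  intro x1 h1 x2 h2 h
  simp only [coe_filter, mem_univ, true_and, Set.mem_ofPred_eq] at h1 h2 h
  have e1 := F.nxt_spec h1.1 ρ
  have e2 := F.nxt_spec h2.1 ρ
  rw [← h] at e2
  have a1 := F.tgt_inj_lt e1 e2 h2.1 (h1.2 ρ)
  have a2 := F.tgt_inj_lt e2 e1 h1.1 (h1.2 ρ)
  exact Subtype.ext (by omega)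

lemma xi_sum : -(Ts.Cst * (27 * (F.X.D : ℝ))) ≤ ∑ x, Ts.xi (F.tile x) := by
  obtain ⟨σ, hσ⟩ := exists_perm_extend _ _ (F.nxt_inj false)
  obtain ⟨τ, hτ⟩ := exists_perm_extend _ _ (F.nxt_inj true)
  simp only [mem_filter, mem_univ, true_and] at hσ hτ
  set B2 := univ.filter fun x => ¬ F.Good2 x with hB2
  set B := B2 ∪ univ.filter fun x => F.Good1 x ∧ ∃ ρ, F.nxt x ρ ∈ B2 with hB
  have hcard : B.card ≤ 27 * F.X.D := by
    have h1 := F.bad2_le
    have h2 := F.pull_le B2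
    have := card_union_le B2 (univ.filter fun x => F.Good1 x ∧ ∃ ρ, F.nxt x ρ ∈ B2)
    rw [← hB2] at h1
    rw [← hB] at this
    omega
  have key := Ts.tiling σ τ B F.tile (by
    intro x hx
    simp only [hB, hB2, mem_union, mem_filter, mem_univ, true_and, not_or, not_not, not_and,
      not_exists] at hx
    obtain ⟨g2, g3⟩ := hx
    have g4 := g3 g2.1
    rw [hσ x g2, hτ x g2, hτ _ (g4 false), hσ _ (g4 true)]
    refine ⟨?_, ?_, ?_⟩
    · rw [F.tile_tgt (F.nxt_spec g2.1 false)]; exact (F.W x).hor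
    · rw [F.tile_tgt (F.nxt_spec g2.1 true)]; exact (F.W x).ver
    · have c1 := F.tgt_comm (F.nxt_spec g2.1 false) (g2.2 false)
      have c2 := F.tgt_comm (F.nxt_spec g2.1 true) (g2.2 true)
      have := F.X.coll_unique c1 c2
      simp only [Bool.not_false, Bool.not_true] at this
      rw [F.nxt_spec (g4 false).1, F.nxt_spec (g4 true).1] at this
      exact Subtype.ext this)
  have : (B.card : ℝ) ≤ 27 * F.X.D := by exact_mod_cast hcard
  have := mul_le_mul_of_nonneg_left this Ts.Cst_nonneg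
  linarith

noncomputable def lam (p : F.CM × Bool) : ℕ :=
  P.k ((F.W p.1).y p.2).kind +
    if P.k ((F.W p.1).y p.2).kind + 1 ≤ (((F.W p.1).y p.2).set ∩ F.X.S p.1).card then 1 else 0

lemma sat_lt {x' : F.CM} {p1 p2 : F.CM × Bool} (h1 : p1 ∈ F.Fib x') (h2 : p2 ∈ F.Fib x')
    (hlt : p1.1.1 < p2.1.1) :
    2 * P.k (.inl (F.tile x')) + 1 ≤ F.lam p1 + F.lam p2 + (F.X.Z x').card := by
  obtain ⟨x1, ρ1⟩ := p1
  obtain ⟨x2, ρ2⟩ := p2
  have e1 : F.tgt x1 ρ1 = x' := (mem_filter.mp h1).2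
  have e2 : F.tgt x2 ρ2 = x' := (mem_filter.mp h2).2
  have hs1 := F.tgt_spec x1 ρ1
  have hs2 := F.tgt_spec x2 ρ2
  rw [e1] at hs1
  rw [e2] at hs2
  have hc := F.tile_clean x'
  have c1 := F.X.clean_coll hc hs1.1.le ((F.W x1).y_reg ρ1) hs1.2.2.1
  have c2 := F.X.clean_coll hc hs2.1.le ((F.W x2).y_reg ρ2) hs2.2.2.1
  simp only [lam, c1.2.1, c2.2.1]
  rcases Nat.eq_zero_or_pos (F.X.Z x').card with hZ | hZ
  swap
  · omega
  have hZ' : F.X.Z x' = ∅ := card_eq_zero.mp hZ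
  have hsub : ((F.W x2).y ρ2).set ⊆ F.X.Y x' := by
    intro g hg
    by_cases hgS : g ∈ F.X.S x'
    · exact c2.1 (mem_inter.mpr ⟨hg, hgS⟩)
    · by_contra hgY
      have : g ∈ F.X.Z x' := mem_sdiff.mpr ⟨mem_sdiff.mpr ⟨hs2.2.2.1.2 hg, hgS⟩, hgY⟩
      simp [hZ'] at this
  have heq : ((F.W x2).y ρ2).set = F.X.Y x' := eq_of_subset_of_card_le hsub (by
    rw [F.X.reg_card _ _ ((F.W x2).y_reg ρ2), c2.2.1, (F.X.fire_card hc.1).1])
  have hv := mem_sdiff.mp (F.v_new x1 ρ1)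
  have hanS : ((F.W x1).y ρ1).anch ⊆ F.X.S x1 := fun g hg =>
    F.X.mem_S.mpr (F.X.anch_S _ _ ((F.W x1).y_reg ρ1) g hg)
  have hsub2 : insert ((F.W x1).v ρ1) ((F.W x1).y ρ1).anch
      ⊆ ((F.W x2).y ρ2).set ∩ F.X.S x2 := by
    rw [heq]
    refine insert_subset (mem_inter.mpr ⟨(mem_inter.mp (F.X.clean_Att_sub hc hs1.2.2.2)).1,
      F.X.S_mono hlt hv.1⟩) fun g hg => ?_
    exact mem_inter.mpr ⟨c1.1 (mem_inter.mpr ⟨F.X.anch_sub _ _ ((F.W x1).y_reg ρ1) hg,
      F.X.S_mono hs1.1.le (hanS hg)⟩), F.X.S_mono hlt.le (hanS hg)⟩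
  have := card_le_card hsub2
  rw [card_insert_of_notMem (fun h => hv.2 (hanS h)), F.X.anch_card _ _ ((F.W x1).y_reg ρ1),
    c1.2.1] at this
  rw [if_pos this]
  omega

lemma sat_credit {x' : F.CM} (h : x' ∉ F.Unsat) :
    2 * P.k (.inl (F.tile x')) + 1 ≤ ∑ p ∈ F.Fib x', F.lam p + (F.X.Z x').card := by
  have h2 : (F.Fib x').card = 2 := by simpa [Unsat] using h
  obtain ⟨p1, p2, hne, hp⟩ := card_eq_two.mp h2
  have h1 : p1 ∈ F.Fib x' := by simp [hp]
  have h2 : p2 ∈ F.Fib x' := by simp [hp]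
  rw [hp, sum_pair hne]
  rcases lt_trichotomy p1.1.1 p2.1.1 with hlt | heq | hgt
  · exact F.sat_lt h1 h2 hlt
  · exfalso
    obtain ⟨x1, ρ1⟩ := p1
    obtain ⟨x2, ρ2⟩ := p2
    obtain rfl : x1 = x2 := Subtype.ext heq
    have e1 := F.tile_tgt (mem_filter.mp h1).2
    have e2 := F.tile_tgt (mem_filter.mp h2).2
    have a1 := F.tt_cls x1 ρ1
    have a2 := F.tt_cls x1 ρ2
    simp only at e1 e2
    rw [← e1] at a1
    rw [← e2, a1, add_right_inj] at a2
    revert a2 hne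
    cases ρ1 <;> cases ρ2 <;> simp <;> decide
  · have := F.sat_lt h2 h1 hgt
    omega

lemma credit_sum : ∑ x, (2 * P.k (.inl (F.tile x)) + 1) ≤
    ∑ p, F.lam p + ∑ x : F.CM, (F.X.Z x).card + (2 * Ts.kmax + 1) * F.X.D := by
  have h1 : ∑ x, ∑ p ∈ F.Fib x, F.lam p ≤ ∑ p, F.lam p := by
    rw [← sum_biUnion]
    · exact sum_le_sum_of_subset (subset_univ _)
    · intro x _ x' _ hne
      rw [Function.onFun, disjoint_left]
      intro p hp hp'
      exact hne (Subtype.ext ((mem_filter.mp hp).2.symm.trans (mem_filter.mp hp').2))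
  have h2 : ∑ x, (2 * P.k (.inl (F.tile x)) + 1) ≤ ∑ x : F.CM,
      (∑ p ∈ F.Fib x, F.lam p + (F.X.Z x).card + if x ∈ F.Unsat then 2 * Ts.kmax + 1 else 0) := by
    refine sum_le_sum fun x _ => ?_
    split_ifs with hx
    · have := Ts.k_le (.inl (F.tile x))
      omega
    · simpa using F.sat_credit hx
  rw [sum_add_distrib (g := fun x => if x ∈ F.Unsat then 2 * Ts.kmax + 1 else 0),
    sum_add_distrib (g := fun x : F.CM => (F.X.Z x).card), sum_ite_mem, univ_inter, sum_const,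
    smul_eq_mul] at h2
  have h3 := Nat.mul_le_mul_right (2 * Ts.kmax + 1) F.Unsat_le
  rw [mul_comm F.X.D] at h3
  omega

lemma vp_facts (x : F.CM) {i : ℕ} (hi : i < Ts.np (F.tile x)) :
    (F.W x).vp i ∈ F.X.A x ∧
      P.kap (.inl (F.tile x)) + (((F.W x).yp i).set ∩ F.X.S x).card
        ≤ (F.X.Nb x ((F.W x).vp i)).card ∧
      P.k ((F.W x).yp i).kind ≤ (((F.W x).yp i).set ∩ F.X.S x).card ∧
      ∃ j', x.1 < j' ∧ j' < F.X.J ∧ F.X.Coll j' ((F.W x).yp i).set ∧ (F.W x).vp i ∈ F.X.Att j' :=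
  F.X.port_facts (F.tile_clean x) (F.W x).anc_sub (F.W x).anc_card ((F.W x).yp_reg i hi)
    ((F.W x).vp_mem i hi) ((F.W x).vp_anc i hi)

lemma main_Val (x : F.CM) :
    P.base (.inl (F.tile x)) + ((F.lam (x, false) + F.lam (x, true) : ℕ) +
      ∑ i ∈ range (Ts.np (F.tile x)), (P.k (.inr (Ts.pk (F.tile x) i)) : ℝ))
      + (F.X.Z x).card ≤ F.X.Val x := by
  have hroom := Ts.room (F.tile x)
  have hR : ((univ : Finset Bool).disjSum (range (Ts.np (F.tile x)))).card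
      = 2 + Ts.np (F.tile x) := by simp
  have := F.X.clean_Val' (F.tile_clean x) ((univ : Finset Bool).disjSum (range (Ts.np (F.tile x))))
    (Sum.elim (F.W x).v (F.W x).vp)
    (Sum.elim (fun ρ => F.lam (x, ρ)) fun i => P.k (.inr (Ts.pk (F.tile x) i)))
    (by
      rintro (ρ | i) h1 (ρ' | i') h2 h
      · have : (x, ρ) = (x, ρ') := F.v_inj h
        rw [show ρ = ρ' from congrArg Prod.snd this]
      · exact absurd h ((F.W x).v_vp ρ i' (by simpa using h2))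
      · exact absurd h.symm ((F.W x).v_vp ρ' i (by simpa using h1))
      · rw [(F.W x).vp_inj i (by simpa using h1) i' (by simpa using h2) h])
    (by
      rintro (ρ | i) h
      · exact (F.v_facts x ρ).1
      · exact (F.vp_facts x (by simpa using h)).1)
    (by
      rintro (ρ | i) h
      · have := F.v_facts x ρ
        simp only [Sum.elim_inl, lam]
        split_ifs <;> omega
      · have hi : i < Ts.np (F.tile x) := by simpa using h
        have := F.vp_facts x hi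
        rw [(F.W x).yp_kind i hi] at this
        simp only [Sum.elim_inr]
        omega)
    (by
      rintro (ρ | i) h
      · have := Ts.k_le ((F.W x).y ρ).kind
        simp only [Sum.elim_inl, lam, hR]
        split_ifs <;> omega
      · have := Ts.k_le (.inr (Ts.pk (F.tile x) i))
        simp only [Sum.elim_inr, hR]
        omega)
    (by omega)
  rw [sum_disjSum] at this
  simp only [Sum.elim_inl, Sum.elim_inr, Fintype.univ_bool, mem_singleton, Bool.true_eq_false,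
    not_false_eq_true, sum_insert, sum_singleton] at this
  push_cast at this ⊢
  linarith only [this]

noncomputable def CP : Finset ℕ := (range F.X.J).filter fun j => ∃ i, F.X.Clean j (.inr i)

lemma pend_Val {j : ℕ} {i : Fin 3} (h : F.X.Clean j (.inr i)) : P.base (.inr i) ≤ F.X.Val j := by
  have := F.X.clean_Val h (fun _ => 0) ∅ (by simp) (by simp) (by simp) (by simp)
  simp only [sum_empty, Nat.cast_zero, add_zero] at this
  have h0 : (0 : ℝ) ≤ (F.X.Z j).card := by positivity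
  unfold Num.base
  linarith

lemma pend_sum : ∑ x : F.CM, ∑ i ∈ range (Ts.np (F.tile x)), P.base (.inr (Ts.pk (F.tile x) i))
    ≤ ∑ j ∈ F.CP, F.X.Val j + F.X.D := by
  set PI : Finset (Σ _ : F.CM, ℕ) := univ.sigma fun x => range (Ts.np (F.tile x)) with hPI
  have hmem : ∀ q ∈ PI, q.2 < Ts.np (F.tile q.1) := fun q hq => by simpa [hPI] using hq
  have hex : ∀ q : (Σ _ : F.CM, ℕ), ∃ j', q ∈ PI → q.1.1 < j' ∧ j' < F.X.J ∧
      F.X.Coll j' ((F.W q.1).yp q.2).set ∧ (F.W q.1).vp q.2 ∈ F.X.Att j' := by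
    intro q
    by_cases hq : q ∈ PI
    · obtain ⟨j', hj'⟩ := (F.vp_facts q.1 (hmem q hq)).2.2.2
      exact ⟨j', fun _ => hj'⟩
    · exact ⟨0, fun h => absurd h hq⟩
  choose pt hpt using hex
  have hinj : Set.InjOn (fun q : (Σ _ : F.CM, ℕ) => (F.W q.1).vp q.2) PI := by
    rintro ⟨x, i⟩ h1 ⟨x', i'⟩ h2 h
    simp only at h
    have a1 := F.X.A_sub_New _ (F.vp_facts x (hmem _ h1)).1
    have a2 := F.X.A_sub_New _ (F.vp_facts x' (hmem _ h2)).1
    obtain rfl : x = x' := Subtype.ext (F.X.new_unique a1 (h ▸ a2))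
    rw [(F.W x).vp_inj i (hmem _ h1) i' (hmem _ h2) h]
  have hclean : ∀ q ∈ PI, pt q ∉ F.X.Unc → F.X.Clean (pt q) (.inr (Ts.pk (F.tile q.1) q.2)) := by
    intro q hq hu
    have hs := hpt q hq
    simp only [Proc.Unc, mem_filter, mem_range, hs.2.1, true_and, not_forall, not_not] at hu
    obtain ⟨z, hz⟩ := hu
    have := (F.X.clean_coll hz hs.1.le ((F.W q.1).yp_reg q.2 (hmem q hq)) hs.2.2.1).2.1
    rw [← (F.W q.1).yp_kind q.2 (hmem q hq), this]
    exact hz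
  rw [sum_sigma', ← hPI, ← sum_filter_add_sum_filter_not PI (fun q => pt q ∈ F.X.Unc), add_comm]
  refine add_le_add ?_ ?_
  · have hinj2 : Set.InjOn pt (PI.filter fun q => pt q ∉ F.X.Unc : Finset _) := by
      intro q hq q' hq' h
      rw [mem_coe, mem_filter] at hq hq'
      have hc := hclean q hq.1 hq.2
      have := F.X.clean_Att_card hc
      rw [Ts.kap_pend] at this
      exact hinj hq.1 hq'.1 (card_le_one.mp (by omega : (F.X.Att (pt q)).card ≤ 1) _
        (hpt q hq.1).2.2.2 _ (h ▸ (hpt q' hq'.1).2.2.2))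
    calc _ ≤ ∑ q ∈ PI.filter (fun q => pt q ∉ F.X.Unc), F.X.Val (pt q) :=
          sum_le_sum fun q hq => F.pend_Val (hclean q (mem_filter.mp hq).1 (mem_filter.mp hq).2)
      _ = ∑ j ∈ (PI.filter fun q => pt q ∉ F.X.Unc).image pt, F.X.Val j := (sum_image hinj2).symm
      _ ≤ _ := by
        refine sum_le_sum_of_subset_of_nonneg ?_ ?_
        · intro j hj
          obtain ⟨q, hq, rfl⟩ := mem_image.mp hj
          rw [mem_filter] at hq
          exact mem_filter.mpr ⟨mem_range.mpr (hpt q hq.1).2.1, _, hclean q hq.1 hq.2⟩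
        · intro j hj _
          obtain ⟨i, hi⟩ := (mem_filter.mp hj).2
          exact (Ts.pend_nonneg i).trans (F.pend_Val hi)
  · have := F.X.count_unclean (PI.filter fun q => pt q ∈ F.X.Unc) pt
      (fun q => (F.W q.1).vp q.2) (fun q hq => (mem_filter.mp hq).2)
      (fun q hq => (hpt q (mem_filter.mp hq).1).2.2.2) (hinj.mono (coe_subset.mpr (filter_subset _ _)))
    calc _ ≤ ∑ _q ∈ PI.filter (fun q => pt q ∈ F.X.Unc), (1 : ℝ) :=
          sum_le_sum fun q _ => Ts.pend_le _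
      _ ≤ _ := by simpa using this

theorem total_nonneg : 0 ≤ ∑ j ∈ range F.X.J, F.X.Val j := by
  have hsplit : ∑ j ∈ range F.X.J, F.X.Val j =
      ∑ j ∈ F.CM, F.X.Val j + ∑ j ∈ F.CP, F.X.Val j + ∑ j ∈ F.X.Unc, F.X.Val j := by
    rw [← sum_union, ← sum_union]
    · congr 1
      ext j
      simp only [CM, CP, Proc.Unc, mem_union, mem_filter, ← not_exists, Sum.exists]
      tauto
    · rw [disjoint_left]
      intro j hj hj'
      simp only [CM, CP, Proc.Unc, mem_union, mem_filter] at hj hj'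
      rcases hj with ⟨-, t, ht⟩ | ⟨-, t, ht⟩ <;> exact hj'.2 _ ht
    · rw [disjoint_left]
      intro j hj hj'
      obtain ⟨t, ht⟩ := (mem_filter.mp hj).2
      obtain ⟨i, hi⟩ := (mem_filter.mp hj').2
      exact absurd (F.X.clean_unique ht hi) (by simp)
  have hU : P.Lam * F.X.D ≤ ∑ j ∈ F.X.Unc, F.X.Val j := by
    rw [Proc.D, Nat.cast_sum, mul_sum]
    exact sum_le_sum fun j hj => F.X.unclean_pays j (mem_filter.mp hj).2
  have hM := sum_le_sum fun x (_ : x ∈ (univ : Finset F.CM)) => F.main_Val x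
  rw [sum_coe_sort F.CM F.X.Val] at hM
  have hP := F.pend_sum
  have hC : ∑ x, (2 * (P.k (.inl (F.tile x)) : ℝ) + 1) ≤
      ∑ x, ((F.lam (x, false) + F.lam (x, true) : ℕ) : ℝ) + ∑ x : F.CM, ((F.X.Z x).card : ℝ)
        + (2 * Ts.kmax + 1) * F.X.D := by
    have := F.credit_sum
    rw [Fintype.sum_prod_type] at this
    simp only [Fintype.univ_bool, mem_singleton, Bool.true_eq_false, not_false_eq_true,
      sum_insert, sum_singleton] at this
    simp only [add_comm (F.lam (_, false))]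
    exact_mod_cast this
  have hcell := sum_congr (rfl : (univ : Finset F.CM) = univ) fun x _ => Ts.cell (F.tile x)
  have hxi := F.xi_sum
  simp only [sum_add_distrib, ← mul_sum] at hM hcell hC
  have hD : (0 : ℝ) ≤ F.X.D := by positivity
  have he1 := P.one_le_eps
  have he2 := Ts.eps_le
  have h1 : P.eps * -(Ts.Cst * (27 * (F.X.D : ℝ))) ≤ P.eps * ∑ x, Ts.xi (F.tile x) :=
    mul_le_mul_of_nonneg_left hxi (by linarith)
  have h2 : P.eps * (Ts.Cst * F.X.D) ≤ 2 * (Ts.Cst * F.X.D) :=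
    mul_le_mul_of_nonneg_right he2 (mul_nonneg Ts.Cst_nonneg hD)
  have h3 := mul_le_mul_of_nonneg_right Ts.Lam_ge hD
  linarith only [hsplit, hU, hP, hM, hcell, hC, h1, h2, h3]

end Full

end Pool.Agent.Work.MP_e0d07f_co.Hedge
end

-- merged part: Pool.Agent.Work.MP_e0d07f_co.Hedge.Lower
section
namespace Pool.Agent.Work.MP_e0d07f_co.Hedge

open Finset Module Classical

variable {L R V : Type}

variable {T : Type} {P : Num (T ⊕ Fin 3)} {Ts : TSys P}

noncomputable def Wit0.map {reg : Set (Entry L (T ⊕ Fin 3))} {Y S U : Finset L} {S' : Finset V}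
    {t : T} {φ : L → V} (hφ : Set.InjOn φ U) (hreg : ∀ y ∈ reg, y.set ⊆ U ∧ y.anch ⊆ y.set)
    (hY : Y ⊆ U) (hS : ∀ x ∈ S, x ∈ U → φ x ∈ S') (w : Wit0 Ts reg Y S t) :
    Wit0 Ts (Entry.map φ '' reg) (Y.image φ) S' t :=
  have hanc : w.anc ⊆ U := fun _ hx => hY (mem_inter.mp (w.anc_sub hx)).1
  have hv : ∀ ρ, w.v ρ ∈ U := fun ρ => hY (mem_of_inter (w.v_mem ρ)).1
  have hvp : ∀ i < Ts.np t, w.vp i ∈ U := fun i hi => hY (mem_of_inter (w.vp_mem i hi)).1
  have hy : ∀ ρ, (w.y ρ).set ⊆ U := fun ρ => (hreg _ (w.y_reg ρ)).1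
  have hya : ∀ ρ, (w.y ρ).anch ⊆ U := fun ρ => (hreg _ (w.y_reg ρ)).2.trans (hy ρ)
  have hgs : ∀ ρ, w.gs ρ ∈ U := fun ρ => hy ρ (mem_of_inter (w.gs_mem ρ)).1
  have hgd : ∀ ρ, w.gd ρ ∈ U := fun ρ => hy ρ (mem_of_inter (w.gd_mem ρ)).1
  { y := fun ρ => (w.y ρ).map φ
    ys := fun ρ => (w.ys ρ).map φ
    yd := w.yd.map φ
    yp := fun i => (w.yp i).map φ
    v := fun ρ => φ (w.v ρ)
    gs := fun ρ => φ (w.gs ρ)
    gd := fun ρ => φ (w.gd ρ)
    vp := fun i => φ (w.vp i)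
    anc := w.anc.image φ
    tt := w.tt
    ts := w.ts
    td := w.td
    y_reg := fun ρ => ⟨_, w.y_reg ρ, rfl⟩
    ys_reg := fun ρ => ⟨_, w.ys_reg ρ, rfl⟩
    yd_reg := ⟨_, w.yd_reg, rfl⟩
    yp_reg := fun i hi => ⟨_, w.yp_reg i hi, rfl⟩
    y_kind := w.y_kind
    ys_kind := w.ys_kind
    yd_kind := w.yd_kind
    yp_kind := w.yp_kind
    hor := w.hor
    ver := w.ver
    ts_cls := w.ts_cls
    td_cls := w.td_cls
    anc_sub := by
      intro g hg
      obtain ⟨x, hx, rfl⟩ := mem_image.mp hg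
      have := mem_inter.mp (w.anc_sub hx)
      exact mem_inter.mpr ⟨mem_image_of_mem _ this.1, hS x this.2 (hanc hx)⟩
    anc_card := (card_img hφ hanc).trans w.anc_card
    v_mem := fun ρ => inter_img hφ hY (hy ρ) (w.v_mem ρ)
    vp_mem := fun i hi => inter_img hφ hY (hreg _ (w.yp_reg i hi)).1 (w.vp_mem i hi)
    v_anc := fun ρ => nmem_img hφ hanc (hv ρ) (w.v_anc ρ)
    vp_anc := fun i hi => nmem_img hφ hanc (hvp i hi) (w.vp_anc i hi)
    v_ne := fun h => w.v_ne (hφ (hv _) (hv _) h)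
    v_vp := fun ρ i hi h => w.v_vp ρ i hi (hφ (hv _) (hvp i hi) h)
    vp_inj := fun i hi i' hi' h => w.vp_inj i hi i' hi' (hφ (hvp i hi) (hvp i' hi') h)
    gs_mem := fun ρ => inter_img hφ (hy ρ) (hreg _ (w.ys_reg ρ)).1 (w.gs_mem ρ)
    gd_mem := fun ρ => inter_img hφ (hy ρ) (hreg _ w.yd_reg).1 (w.gd_mem ρ)
    gs_anch := fun ρ => nmem_img hφ (hya ρ) (hgs ρ) (w.gs_anch ρ)
    gd_anch := fun ρ => nmem_img hφ (hya ρ) (hgd ρ) (w.gd_anch ρ)
    gs_v := fun ρ h => w.gs_v ρ (hφ (hgs _) (hv _) h)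
    gd_v := fun ρ h => w.gd_v ρ (hφ (hgd _) (hv _) h)
    gd_gs := fun ρ h => w.gd_gs ρ (hφ (hgd _) (hgs _) h) }

noncomputable def Wit0.mono {reg : Set (Entry V (T ⊕ Fin 3))} {Y S S' : Finset V} {t : T}
    (h : S ⊆ S') (w : Wit0 Ts reg Y S t) : Wit0 Ts reg Y S' t :=
  { w with anc_sub := w.anc_sub.trans (inter_subset_inter_left h) }

/-- What the lower bound needs from a family of rules. -/
structure LowOK (Ts : TSys P) (ρ : R → Rule L) : Prop where
  cl_sub : ∀ r, ∀ c ∈ (ρ r).cl, c ⊆ (ρ r).verts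
  cl_card : ∀ r, ∀ c ∈ (ρ r).cl, P.d + 2 ≤ c.card
  pad : ∃ r, (ρ r).KK ⊆ (ρ r).verts ∧ P.m ≤ (ρ r).KK.card
  bridge : ∀ r x s, (ρ r).br x s → x ∉ (ρ r).KK ∧ s ∈ (ρ r).KK ∧
    ∃ reg : Set (Entry L (T ⊕ Fin 3)),
      (∀ y ∈ reg, y.set ∈ (ρ r).cl ∧ s ∉ y.set ∧ y.set.card = P.N y.kind + P.kap y.kind ∧
        y.anch ⊆ y.set ∧ y.anch ⊆ (ρ r).KK ∧ y.anch.card = P.k y.kind) ∧
      ∃ c ∈ reg, x ∈ c.set ∧ (∃ A ⊆ c.set, A ⊆ (ρ r).KK ∧ A.card = P.kap c.kind) ∧
        ∀ t, c.kind = .inl t → Nonempty (Wit0 Ts reg c.set (ρ r).KK t)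

structure EvP (Ts : TSys P) (t : V → ℚ) (H H' : SimpleGraph V) (D : EvD V (T ⊕ Fin 3)) : Prop where
  Y0_clique : H.IsClique (D.Y0 : Set V)
  Y1_clique : H.IsClique (D.Y1 : Set V)
  Y0_card : D.Y0 = ∅ ∨ P.m ≤ D.Y0.card
  step : Mot P.d t H ⊓ Van P.d (D.Y0 : Set V) ⊓ Van P.d (D.Y1 : Set V) ≤ Mot P.d t H'
  reg_ok : ∀ y ∈ D.reg, H.IsClique (y.set : Set V) ∧ y.set.card = P.N y.kind + P.kap y.kind ∧
    y.anch ⊆ y.set ∧ y.anch.card = P.k y.kind ∧ y.anch ⊆ D.Y0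
  none_case : D.fire = none → D.Y1 = ∅
  fire_case : ∀ z, D.fire = some z → (∃ y ∈ D.reg, y.set = D.Y1 ∧ y.kind = z) ∧
    ∃ A ⊆ D.Y1, A.card = P.kap z ∧ A ⊆ D.Y0
  wit : ∀ t, D.fire = some (.inl t) → Nonempty (Wit0 Ts D.reg D.Y1 D.Y0 t)

lemma evP_quiet {t : V → ℚ} {H H' : SimpleGraph V} (Y : Finset V) (hY : H.IsClique (Y : Set V))
    (hc : Y = ∅ ∨ P.m ≤ Y.card) (h : Mot P.d t H ≤ Mot P.d t H') :
    EvP Ts t H H' ⟨Y, ∅, ∅, none⟩ where
  Y0_clique := hY
  Y1_clique := by simp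
  Y0_card := hc
  step := inf_le_left.trans (inf_le_left.trans h)
  reg_ok := by simp
  none_case := fun _ => rfl
  fire_case := by simp
  wit := by simp

lemma exists_ev [Finite R] {ρ : R → Rule L} (hρ : LowOK Ts ρ) {t : V → ℚ}
    (ht : Function.Injective t) {H H' : SimpleGraph V} {e : Sym2 V} (hs : Step (graph ρ) H e)
    (hH : ∀ x y, H'.Adj x y → s(x, y) = e ∨ H.Adj x y) : ∃ D, EvP Ts t H H' D := by
  obtain ⟨φ, hφ, h1, a, b, hab, he⟩ := hs
  have := Fintype.ofFinite (Vx ρ)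
  obtain ⟨hne, hrel⟩ := graph_adj.mp hab
  wlog hr : rel ρ a b generalizing a b
  · exact this b a hab.symm (by rw [Sym2.eq_swap]; exact he) hne.symm hrel.symm
      (hrel.resolve_left hr)
  subst he
  let ψ : R → L → V := fun r x => if h : x ∈ (ρ r).verts then φ ⟨(r, x), h⟩ else φ a
  have hψ : ∀ r x (h : x ∈ (ρ r).verts), ψ r x = φ ⟨(r, x), h⟩ := fun r x h => dif_pos h
  have hinj : ∀ r, Set.InjOn (ψ r) (ρ r).verts := by
    intro r x hx y hy h
    rw [hψ r x hx, hψ r y hy] at h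
    simpa using hφ h
  let Y0 : Finset V := (univ.filter (isK ρ)).image φ
  have hY0 : ∀ r, ∀ x ∈ (ρ r).KK, x ∈ (ρ r).verts → ψ r x ∈ Y0 := by
    intro r x hx hx'
    rw [hψ r x hx']
    exact mem_image_of_mem _ (mem_filter.mpr ⟨mem_univ _, hx⟩)
  have hY0c : P.m ≤ Y0.card := by
    obtain ⟨r, h2, h3⟩ := hρ.pad
    rw [← card_img (hinj r) h2] at h3
    refine h3.trans (card_le_card fun g hg => ?_)
    obtain ⟨x, hx, rfl⟩ := mem_image.mp hg
    exact hY0 r x hx (h2 hx)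
  have hKK : ∀ x ∈ Y0, ∀ y ∈ Y0, x ≠ y → ∃ x' y', isK ρ x' ∧ isK ρ y' ∧ x = φ x' ∧ y = φ y' ∧
      (graph ρ).Adj x' y' := by
    intro x hx y hy hxy
    obtain ⟨x', hx', rfl⟩ := mem_image.mp hx
    obtain ⟨y', hy', rfl⟩ := mem_image.mp hy
    have h2 := (mem_filter.mp hx').2
    have h3 := (mem_filter.mp hy').2
    exact ⟨x', y', h2, h3, rfl, rfl,
      graph_adj.mpr ⟨fun h => hxy (h ▸ rfl), Or.inl (Or.inl ⟨h2, h3⟩)⟩⟩
  have hcl : ∀ r, ∀ c ∈ (ρ r).cl, ∀ x ∈ c.image (ψ r), ∀ y ∈ c.image (ψ r), x ≠ y →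
      ∃ x' y' : Vx ρ, x'.1.2 ∈ c ∧ y'.1.2 ∈ c ∧ x = φ x' ∧ y = φ y' ∧ (graph ρ).Adj x' y' := by
    intro r c hc x hx y hy hxy
    obtain ⟨x', hx', rfl⟩ := mem_image.mp hx
    obtain ⟨y', hy', rfl⟩ := mem_image.mp hy
    have h2 := hρ.cl_sub r c hc hx'
    have h3 := hρ.cl_sub r c hc hy'
    refine ⟨⟨(r, x'), h2⟩, ⟨(r, y'), h3⟩, hx', hy', hψ r _ h2, hψ r _ h3, graph_adj.mpr
      ⟨fun h => hxy ?_, Or.inl (Or.inr ⟨rfl, Or.inl ⟨c, hc, hx', hy'⟩⟩)⟩⟩
    rw [hψ r _ h2, hψ r _ h3, h]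
  rcases hr with ⟨ha, hb⟩ | ⟨hr, ⟨c, hc, ha, hb⟩ | hbr⟩
  · refine ⟨_, evP_quiet ∅ (by simp) (Or.inl rfl) (mot_step ht Y0 ?_
      (mem_image_of_mem _ (mem_filter.mpr ⟨mem_univ _, ha⟩))
      (mem_image_of_mem _ (mem_filter.mpr ⟨mem_univ _, hb⟩)) ?_ hH)⟩
    · have := P.m_big
      have := P.d_big
      nlinarith
    · intro x hx y hy hxy
      obtain ⟨x', y', -, -, rfl, rfl, h⟩ := hKK x hx y hy hxy
      exact h1 _ _ h
  · refine ⟨_, evP_quiet ∅ (by simp) (Or.inl rfl) (mot_step ht (c.image (ψ a.1.1)) ?_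
      (mem_image.mpr ⟨_, ha, hψ _ _ a.2⟩) (mem_image.mpr ⟨_, hb, ?_⟩) ?_ hH)⟩
    · rw [card_img (hinj _) (hρ.cl_sub _ c hc)]
      exact hρ.cl_card _ c hc
    · rw [hr]; exact hψ _ _ b.2
    · intro x hx y hy hxy
      obtain ⟨x', y', -, -, rfl, rfl, h⟩ := hcl _ c hc x hx y hy hxy
      exact h1 _ _ h
  · obtain ⟨hx, hs, reg, hreg, c, hc, hxc, ⟨A, hA1, hA2, hA3⟩, hw⟩ := hρ.bridge _ _ _ hbr
    have hsub : ∀ y ∈ reg, y.set ⊆ (ρ a.1.1).verts := fun y hy => hρ.cl_sub _ _ (hreg y hy).1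
    have hclq : ∀ y ∈ reg, H.IsClique (y.set.image (ψ a.1.1) : Set V) := by
      intro y hy u hu v hv huv
      obtain ⟨x', y', h2, h3, rfl, rfl, h⟩ := hcl _ _ (hreg y hy).1 u (mem_coe.mp hu) v
        (mem_coe.mp hv) huv
      refine (h1 _ _ h).resolve_left fun h4 => (hreg y hy).2.1 ?_
      rw [Sym2.eq_iff] at h4
      rcases h4 with ⟨-, h4⟩ | ⟨h4, -⟩
      · exact hφ h4 ▸ h3
      · exact hφ h4 ▸ h2
    refine ⟨⟨Y0, c.set.image (ψ a.1.1), Entry.map (ψ a.1.1) '' reg, some c.kind⟩,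
      ?_, hclq c hc, Or.inr hY0c, ?_, ?_, by simp, ?_, ?_⟩
    · intro u hu v hv huv
      obtain ⟨x', y', h2, h3, rfl, rfl, h⟩ := hKK u (mem_coe.mp hu) v (mem_coe.mp hv) huv
      refine (h1 _ _ h).resolve_left fun h4 => hx ?_
      rw [Sym2.eq_iff] at h4
      rcases h4 with ⟨h4, -⟩ | ⟨-, h4⟩
      · exact (hφ h4 ▸ h2 : isK ρ a)
      · exact (hφ h4 ▸ h3 : isK ρ a)
    · rintro m ⟨⟨hm, hm0⟩, hm1⟩ x y hxy
      have za : m (φ a) = 0 := hm1 _ (mem_coe.mpr (mem_image.mpr ⟨_, hxc, hψ _ _ a.2⟩))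
      have zb : m (φ b) = 0 := hm0 _ (mem_coe.mpr (mem_image_of_mem _
        (mem_filter.mpr ⟨mem_univ _, show b.1.2 ∈ (ρ b.1.1).KK from hr ▸ hs⟩)))
      rcases hH x y hxy with h2 | h2
      · rw [Sym2.eq_iff] at h2
        rcases h2 with ⟨rfl, rfl⟩ | ⟨rfl, rfl⟩ <;> simp [za, zb]
      · exact hm x y h2
    · rintro _ ⟨y, hy, rfl⟩
      obtain ⟨h2, h3, h4, h5, h6, h7⟩ := hreg y hy
      refine ⟨hclq y hy, (card_img (hinj _) (hsub y hy)).trans h4, image_subset_image h5,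
        (card_img (hinj _) (h5.trans (hsub y hy))).trans h7, fun g hg => ?_⟩
      obtain ⟨x, hx, rfl⟩ := mem_image.mp hg
      exact hY0 _ x (h6 hx) (hsub y hy (h5 hx))
    · intro z hz
      obtain rfl : c.kind = z := by simpa using hz
      refine ⟨⟨_, ⟨c, hc, rfl⟩, rfl, rfl⟩, A.image (ψ a.1.1), image_subset_image hA1,
        (card_img (hinj _) (hA1.trans (hsub c hc))).trans hA3, fun g hg => ?_⟩
      obtain ⟨x, hx, rfl⟩ := mem_image.mp hg
      exact hY0 _ x (hA2 hx) (hsub c hc (hA1 hx))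
    · intro t ht
      obtain ⟨w⟩ := hw t (by simpa using ht)
      exact ⟨w.map (hinj _) (fun y hy => ⟨hsub y hy, (hreg y hy).2.2.2.1⟩) (hsub c hc) (hY0 _)⟩

/-- The lower bound. -/
theorem lower_bound [Finite R] [Fintype V] {ρ : R → Rule L} (hρ : LowOK Ts ρ)
    {G : SimpleGraph V} (hG : WeaklySaturated (graph ρ) G) (hV : P.m ≤ Fintype.card V) :
    (P.d - P.eps) * Fintype.card V ≤ G.edgeSet.ncard := by
  obtain ⟨n, H, h0, hn, hmono, hstep⟩ := hG.chain
  obtain ⟨t, ht⟩ : ∃ t : V → ℚ, Function.Injective t :=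
    ⟨fun v => ((Fintype.equivFin V v).val : ℚ), fun u v h =>
      (Fintype.equivFin V).injective (Fin.ext (Nat.cast_injective (R := ℚ) h))⟩
  have hE : ∀ i, ∃ D, EvP Ts t (H i) (H (i + 1)) D ∧ (i = n → D.Y0 = univ) := by
    intro i
    rcases Nat.lt_or_ge i n with hi | hi
    · obtain ⟨e, h1, h2⟩ := hstep i hi
      obtain ⟨D, hD⟩ := exists_ev hρ ht h1 h2
      exact ⟨D, hD, fun h => by omega⟩
    · have h1 : H i = ⊤ := top_le_iff.mp (hn ▸ hmono hi)
      refine ⟨_, evP_quiet univ ?_ (Or.inr (by simpa using hV)) (Mot_anti ?_), fun _ => rfl⟩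
      · rw [h1]; intro u _ v _ h; exact h
      · rw [h1]; exact le_top
  choose E hE hEn using hE
  let Y : ℕ → Finset V := fun j => if j % 2 = 0 then (E (j / 2)).Y0 else (E (j / 2)).Y1
  obtain ⟨M, hM0, hM⟩ : ∃ M : ℕ → Submodule ℚ (V → Pd P.d), M 0 = Mot P.d t G ∧
      ∀ j, M (j + 1) = M j ⊓ Van P.d (Y j : Set V) :=
    ⟨fun j => Nat.rec (Mot P.d t G) (fun j M => M ⊓ Van P.d (Y j : Set V)) j, rfl, fun _ => rfl⟩
  let reg : ℕ → Set (Entry V (T ⊕ Fin 3)) := fun j => if j % 2 = 0 then ∅ else (E (j / 2)).reg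
  let fire : ℕ → Option (T ⊕ Fin 3) := fun j => if j % 2 = 0 then none else (E (j / 2)).fire
  have d0 : ∀ i, 2 * i / 2 = i := fun i => by omega
  have d1 : ∀ i, (2 * i + 1) / 2 = i := fun i => by omega
  have Y0 : ∀ i, Y (2 * i) = (E i).Y0 := fun i => by
    simp only [Y]; rw [if_pos (by omega), d0]
  have Y1 : ∀ i, Y (2 * i + 1) = (E i).Y1 := fun i => by
    simp only [Y]; rw [if_neg (by omega), d1]
  have r0 : ∀ i, reg (2 * i) = ∅ := fun i => by
    simp only [reg]; rw [if_pos (by omega)]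
  have r1 : ∀ i, reg (2 * i + 1) = (E i).reg := fun i => by
    simp only [reg]; rw [if_neg (by omega), d1]
  have f0 : ∀ i, fire (2 * i) = none := fun i => by
    simp only [fire]; rw [if_pos (by omega)]
  have f1 : ∀ i, fire (2 * i + 1) = (E i).fire := fun i => by
    simp only [fire]; rw [if_neg (by omega), d1]
  have hMe : ∀ i, M (2 * i) ≤ Mot P.d t (H i) := by
    intro i
    induction i with
    | zero => rw [h0]; exact hM0.le
    | succ i ih =>
      rw [show 2 * (i + 1) = 2 * i + 1 + 1 by ring, hM, hM, Y0, Y1]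
      exact (inf_le_inf_right _ (inf_le_inf_right _ ih)).trans (hE i).step
  have hMo : ∀ i, ∀ g ∈ (E i).Y0, ∀ m ∈ M (2 * i + 1), m g = 0 := by
    intro i g hg m hm
    rw [hM, Y0] at hm
    exact hm.2 g hg
  have hreg : ∀ j, ∀ y ∈ reg j, ∃ i, j = 2 * i + 1 ∧ y ∈ (E i).reg := by
    intro j y hy
    obtain ⟨i, rfl | rfl⟩ := Nat.even_or_odd' j
    · rw [r0] at hy; exact hy.elim
    · exact ⟨i, rfl, r1 i ▸ hy⟩
  let X : Proc V P :=
    { t := t
      ht := ht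
      J := 2 * n + 1
      H := fun j => H (j / 2)
      Y := Y
      M := M
      reg := reg
      fire := fire
      H_mono := fun _ _ h => hmono (Nat.div_le_div_right h)
      Y_clique := by
        intro j
        obtain ⟨i, rfl | rfl⟩ := Nat.even_or_odd' j
        · rw [Y0, d0]; exact (hE i).Y0_clique
        · rw [Y1, d1]; exact (hE i).Y1_clique
      M_le := by
        intro j
        obtain ⟨i, rfl | rfl⟩ := Nat.even_or_odd' j
        · rw [d0]; exact hMe i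
        · rw [d1, hM]; exact inf_le_left.trans (hMe i)
      M_succ := hM
      M_end := by
        refine eq_bot_iff.mpr fun m hm => ?_
        rw [Submodule.mem_bot]
        exact funext fun g => hMo n g (by rw [hEn n rfl]; exact mem_univ _) m hm
      reg_clique := by
        intro j y hy
        obtain ⟨i, rfl, h⟩ := hreg j y hy
        rw [d1]; exact ((hE i).reg_ok y h).1
      reg_card := by
        intro j y hy
        obtain ⟨i, rfl, h⟩ := hreg j y hy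
        exact ((hE i).reg_ok y h).2.1
      anch_sub := by
        intro j y hy
        obtain ⟨i, rfl, h⟩ := hreg j y hy
        exact ((hE i).reg_ok y h).2.2.1
      anch_card := by
        intro j y hy
        obtain ⟨i, rfl, h⟩ := hreg j y hy
        exact ((hE i).reg_ok y h).2.2.2.1
      anch_S := by
        intro j y hy g hg
        obtain ⟨i, rfl, h⟩ := hreg j y hy
        exact hMo i g (((hE i).reg_ok y h).2.2.2.2 hg)
      none_case := by
        intro j hj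
        obtain ⟨i, rfl | rfl⟩ := Nat.even_or_odd' j
        · rw [Y0]; exact (hE i).Y0_card
        · rw [Y1]; exact Or.inl ((hE i).none_case (f1 i ▸ hj))
      fire_case := by
        intro j z hj
        obtain ⟨i, rfl | rfl⟩ := Nat.even_or_odd' j
        · rw [f0] at hj; simp at hj
        · rw [f1] at hj
          obtain ⟨h1, A, h2, h3, h4⟩ := (hE i).fire_case z hj
          rw [Y1, r1]
          exact ⟨h1, A, h2, h3, fun g hg => hMo i g (h4 hg)⟩ }
  let Fu : Full V Ts :=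
    { X := X
      hW := by
        intro j t hj
        obtain ⟨i, rfl | rfl⟩ := Nat.even_or_odd' j
        · have : fire (2 * i) = some (.inl t) := hj
          rw [f0] at this; simp at this
        · have : fire (2 * i + 1) = some (.inl t) := hj
          rw [f1] at this
          obtain ⟨w⟩ := (hE i).wit t this
          have h1 : X.reg (2 * i + 1) = (E i).reg := r1 i
          have h2 : X.Y (2 * i + 1) = (E i).Y1 := Y1 i
          unfold Wit
          rw [h1, h2]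
          exact ⟨w.mono fun g hg => X.mem_S.mpr (hMo i g hg)⟩ }
  have h1 := Fu.total_nonneg
  have h2 := X.sum_Val_le
  have h3 : (P.d : ℝ) * Fintype.card V ≤ finrank ℚ (Mot P.d t G) + G.edgeSet.ncard := by
    exact_mod_cast finrank_Mot_ge (d := P.d) (t := t) G
  have h4 : X.M 0 = Mot P.d t G := hM0
  rw [h4] at h2
  have h5 : Fu.X = X := rfl
  rw [h5] at h1
  linarith only [h1, h2, h3]

end Pool.Agent.Work.MP_e0d07f_co.Hedge
end

-- merged part: Pool.Agent.Work.MP_e0d07f_co.Hedge.Block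
section
namespace Pool.Agent.Work.MP_e0d07f_co.Hedge

open Finset

/-- Locations: type (`0` anchor, `1` own, `2` spare), column, row, slot, index. -/
abbrev Loc : Type := ℕ × ℕ × ℕ × ℕ × ℕ

def anchS (a b p k : ℕ) : Finset Loc := (range k).image fun i => (0, a % 3, b % 3, p, i)
def ownS (a b p n : ℕ) : Finset Loc := (range n).image fun i => (1, a + 1, b + 1, p, i)
def spare (n : ℕ) : Finset Loc := (range n).image fun i => (2, 0, 0, 0, i)
def ports (a b p : ℕ) : Finset Loc :=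
  if p = 0 then {(1, a, b + 1, 0, 0), (1, a + 1, b, 0, 1)} else {(1, a + 1, b + 1, 0, p + 1)}

lemma mem_anchS {a b p k τ c e q i : ℕ} : (τ, c, e, q, i) ∈ anchS a b p k ↔
    τ = 0 ∧ c = a % 3 ∧ e = b % 3 ∧ q = p ∧ i < k := by
  simp only [anchS, mem_image, mem_range, Prod.mk.injEq]
  constructor
  · rintro ⟨j, h⟩; omega
  · intro h; exact ⟨i, by omega⟩

lemma mem_ownS {a b p k τ c e q i : ℕ} : (τ, c, e, q, i) ∈ ownS a b p k ↔
    τ = 1 ∧ c = a + 1 ∧ e = b + 1 ∧ q = p ∧ i < k := by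
  simp only [ownS, mem_image, mem_range, Prod.mk.injEq]
  constructor
  · rintro ⟨j, h⟩; omega
  · intro h; exact ⟨i, by omega⟩

lemma mem_spare {k τ c e q i : ℕ} : (τ, c, e, q, i) ∈ spare k ↔
    τ = 2 ∧ c = 0 ∧ e = 0 ∧ q = 0 ∧ i < k := by
  simp only [spare, mem_image, mem_range, Prod.mk.injEq]
  constructor
  · rintro ⟨j, h⟩; omega
  · intro h; exact ⟨i, by omega⟩

lemma mem_ports {a b p τ c e q i : ℕ} : (τ, c, e, q, i) ∈ ports a b p ↔
    τ = 1 ∧ q = 0 ∧ ((p = 0 ∧ c = a ∧ e = b + 1 ∧ i = 0) ∨ (p = 0 ∧ c = a + 1 ∧ e = b ∧ i = 1) ∨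
      (p ≠ 0 ∧ c = a + 1 ∧ e = b + 1 ∧ i = p + 1)) := by
  unfold ports
  split_ifs with h <;> simp only [mem_insert, mem_singleton, Prod.mk.injEq] <;> (clear * - h; omega)

lemma card_anchS (a b p k : ℕ) : (anchS a b p k).card = k := by
  rw [anchS, card_image_of_injective _ fun i j h => by simpa using h, card_range]

lemma card_ownS (a b p k : ℕ) : (ownS a b p k).card = k := by
  rw [ownS, card_image_of_injective _ fun i j h => by simpa using h, card_range]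

lemma card_spare (k : ℕ) : (spare k).card = k := by
  rw [spare, card_image_of_injective _ fun i j h => by simpa using h, card_range]

lemma card_ports (a b p : ℕ) : (ports a b p).card = if p = 0 then 2 else 1 := by
  unfold ports
  split_ifs
  · rw [card_pair]; simp
  · simp

variable {T : Type} {P : Num (T ⊕ Fin 3)} (Ts : TSys P)

def kd (t : T) (p : ℕ) : T ⊕ Fin 3 := if p = 0 then .inl t else .inr (Ts.pk t (p - 1))

def atom (P : Num (T ⊕ Fin 3)) (a b p : ℕ) (z : T ⊕ Fin 3) : Entry Loc (T ⊕ Fin 3) :=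
  ⟨ownS a b p (P.N z) ∪ (anchS a b p (P.k z) ∪ ports a b p), z, anchS a b p (P.k z)⟩

lemma mem_atom {a b p τ c e q i : ℕ} {z : T ⊕ Fin 3} : (τ, c, e, q, i) ∈ (atom P a b p z).set ↔
    (τ = 1 ∧ c = a + 1 ∧ e = b + 1 ∧ q = p ∧ i < P.N z) ∨
    (τ = 0 ∧ c = a % 3 ∧ e = b % 3 ∧ q = p ∧ i < P.k z) ∨
    (τ = 1 ∧ q = 0 ∧ ((p = 0 ∧ c = a ∧ e = b + 1 ∧ i = 0) ∨ (p = 0 ∧ c = a + 1 ∧ e = b ∧ i = 1) ∨
      (p ≠ 0 ∧ c = a + 1 ∧ e = b + 1 ∧ i = p + 1))) := by
  simp only [atom, mem_union, mem_ownS, mem_anchS, mem_ports]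

lemma mem_atom0 {a b τ c e q i : ℕ} {z : T ⊕ Fin 3} : (τ, c, e, q, i) ∈ (atom P a b 0 z).set ↔
    (τ = 1 ∧ c = a + 1 ∧ e = b + 1 ∧ q = 0 ∧ i < P.N z) ∨
    (τ = 0 ∧ c = a % 3 ∧ e = b % 3 ∧ q = 0 ∧ i < P.k z) ∨
    (τ = 1 ∧ q = 0 ∧ ((c = a ∧ e = b + 1 ∧ i = 0) ∨ (c = a + 1 ∧ e = b ∧ i = 1))) := by
  simp [mem_atom]

lemma card_anc (a b p : ℕ) (t : T) :
    (anchS a b p (P.k (kd Ts t p)) ∪ ports a b p).card = P.kap (kd Ts t p) := by
  rw [card_union_of_disjoint, card_anchS, card_ports]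
  · unfold kd
    split_ifs
    · rw [Ts.kap_main]
    · rw [Ts.kap_pend]
  · rw [disjoint_left]
    rintro ⟨τ, c, e, q, i⟩ h1 h2
    rw [mem_anchS] at h1
    rw [mem_ports] at h2
    omega

lemma card_atom (a b p : ℕ) (t : T) :
    (atom P a b p (kd Ts t p)).set.card = P.N (kd Ts t p) + P.kap (kd Ts t p) := by
  rw [atom, card_union_of_disjoint, card_ownS, card_anc]
  rw [disjoint_left]
  rintro ⟨τ, c, e, q, i⟩ h1 h2
  rw [mem_ownS] at h1
  rw [mem_union, mem_anchS, mem_ports] at h2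
  omega

lemma N_big (z : T ⊕ Fin 3) : P.d + 2 ≤ P.N z := by
  have h1 := P.size_lo z
  have h2 := P.d_big
  nlinarith only [h1, h2]

lemma np_small (t : T) : Ts.np t + 2 ≤ P.d := by
  have := Ts.room t
  omega

def Valid (μ : Fin 3 → Fin 3 → T) : Prop :=
  Ts.Hor (μ 1 1) (μ 2 1) ∧ Ts.Ver (μ 1 1) (μ 1 2) ∧ Ts.Ver (μ 2 1) (μ 2 2) ∧
    Ts.Ver (μ 2 0) (μ 2 1) ∧ Ts.Hor (μ 0 2) (μ 1 2)

abbrev Idx : Type :=
  {x : (Fin 3 → Fin 3 → T) × Fin P.d × Fin P.d // Valid Ts x.1 ∧ x.2.1.val ≤ Ts.np (x.1 1 1)}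

def regS (μ : Fin 3 → Fin 3 → T) : Set (Entry Loc (T ⊕ Fin 3)) :=
  {y | ∃ i j : Fin 3, ∃ p ≤ Ts.np (μ i j), y = atom P i j p (kd Ts (μ i j) p)}

def blk (μ : Fin 3 → Fin 3 → T) : Finset Loc :=
  insert (2, 0, 0, 0, 0) (univ.biUnion fun i : Fin 3 => univ.biUnion fun j : Fin 3 =>
    (range (Ts.np (μ i j) + 1)).biUnion fun p => (atom P i j p (kd Ts (μ i j) p)).set)

lemma mem_blk {μ : Fin 3 → Fin 3 → T} {x : Loc} :
    x ∈ blk Ts μ ↔ x = (2, 0, 0, 0, 0) ∨ ∃ y ∈ regS Ts μ, x ∈ y.set := by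
  simp only [blk, mem_insert, mem_biUnion, mem_univ, true_and, mem_range, regS, Set.mem_ofPred_eq]
  refine or_congr Iff.rfl ⟨?_, ?_⟩
  · rintro ⟨i, j, p, hp, h⟩
    exact ⟨_, ⟨i, j, p, by omega, rfl⟩, h⟩
  · rintro ⟨_, ⟨i, j, p, hp, rfl⟩, h⟩
    exact ⟨i, j, p, by omega, h⟩

def mainRule (μ : Fin 3 → Fin 3 → T) (p β : ℕ) : Rule Loc where
  verts := blk Ts μ
  KK := (blk Ts μ).filter fun x => x.1 = 0 ∨ x.1 = 2 ∨ x ∈ ports 1 1 p
  cl := {c | ∃ y ∈ regS Ts μ, c = y.set}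
  br := fun x s => x = (1, 2, 2, p, β) ∧ s = (2, 0, 0, 0, 0)

def rules : Option (Option (Idx Ts)) → Rule Loc
  | none => ⟨spare (P.d + 2), {(2, 0, 0, 0, 0)}, {spare (P.d + 2)}, fun _ _ => False⟩
  | some none => ⟨spare P.m, spare P.m, ∅, fun _ _ => False⟩
  | some (some x) => mainRule Ts x.1.1 x.1.2.1 x.1.2.2

open Classical in
lemma inter_single {L : Type} {A B : Finset L} {v : L} (h : ∀ x, x ∈ A ∧ x ∈ B ↔ x = v) :
    A ∩ B = {v} := by
  ext x; rw [mem_inter, mem_singleton, h]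

open Classical in
lemma sub_inter {L : Type} {A B C : Finset L} (h1 : A ⊆ B) (h2 : A ⊆ C) : A ⊆ B ∩ C :=
  subset_inter h1 h2

lemma kd_zero (t : T) : kd Ts t 0 = .inl t := rfl

lemma kd_succ (t : T) (i : ℕ) : kd Ts t (i + 1) = .inr (Ts.pk t i) := rfl

lemma centre_reg {μ : Fin 3 → Fin 3 → T} {p : ℕ} (hp : p ≤ Ts.np (μ 1 1)) :
    atom P 1 1 p (kd Ts (μ 1 1) p) ∈ regS Ts μ := ⟨1, 1, p, hp, rfl⟩

lemma anc_KK {μ : Fin 3 → Fin 3 → T} {p : ℕ} (β : ℕ) (hp : p ≤ Ts.np (μ 1 1)) :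
    anchS 1 1 p (P.k (kd Ts (μ 1 1) p)) ∪ ports 1 1 p ⊆ (mainRule Ts μ p β).KK := by
  intro x hx
  refine mem_filter.mpr ⟨(mem_blk Ts).mpr (Or.inr ⟨_, centre_reg Ts hp,
    mem_union_right _ hx⟩), ?_⟩
  rcases mem_union.mp hx with h | h
  · obtain ⟨τ, c, e, q, i⟩ := x
    exact Or.inl (mem_anchS.mp h).1
  · exact Or.inr (Or.inr h)

noncomputable def blockWit {μ : Fin 3 → Fin 3 → T} (hμ : Valid Ts μ) (β : ℕ) :
    Wit0 Ts (regS Ts μ) (atom P 1 1 0 (.inl (μ 1 1))).set (mainRule Ts μ 0 β).KK (μ 1 1) where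
  y := fun ρ => cond ρ (atom P 1 2 0 (.inl (μ 1 2))) (atom P 2 1 0 (.inl (μ 2 1)))
  ys := fun ρ => cond ρ (atom P 0 2 0 (.inl (μ 0 2))) (atom P 2 0 0 (.inl (μ 2 0)))
  yd := atom P 2 2 0 (.inl (μ 2 2))
  yp := fun i => atom P 1 1 (i + 1) (.inr (Ts.pk (μ 1 1) i))
  v := fun ρ => cond ρ (1, 2, 2, 0, 1) (1, 2, 2, 0, 0)
  gs := fun ρ => cond ρ (1, 1, 3, 0, 0) (1, 3, 1, 0, 1)
  gd := fun ρ => cond ρ (1, 2, 3, 0, 0) (1, 3, 2, 0, 1)
  vp := fun i => (1, 2, 2, 0, i + 2)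
  anc := anchS 1 1 0 (P.k (.inl (μ 1 1))) ∪ ports 1 1 0
  tt := fun ρ => cond ρ (μ 1 2) (μ 2 1)
  ts := fun ρ => cond ρ (μ 0 2) (μ 2 0)
  td := μ 2 2
  y_reg := by
    rintro (_ | _)
    · exact ⟨2, 1, 0, Nat.zero_le _, rfl⟩
    · exact ⟨1, 2, 0, Nat.zero_le _, rfl⟩
  ys_reg := by
    rintro (_ | _)
    · exact ⟨2, 0, 0, Nat.zero_le _, rfl⟩
    · exact ⟨0, 2, 0, Nat.zero_le _, rfl⟩
  yd_reg := ⟨2, 2, 0, Nat.zero_le _, rfl⟩
  yp_reg := fun i hi => ⟨1, 1, i + 1, hi, rfl⟩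
  y_kind := by rintro (_ | _) <;> rfl
  ys_kind := by rintro (_ | _) <;> rfl
  yd_kind := rfl
  yp_kind := fun _ _ => rfl
  hor := hμ.1
  ver := hμ.2.1
  ts_cls := by
    obtain ⟨h1, h2, h3, h4, h5⟩ := hμ
    rintro (_ | _)
    · have := (Ts.ver_cls _ _ h4).symm.trans (Ts.hor_cls _ _ h1)
      simpa [stp] using this
    · have := (Ts.hor_cls _ _ h5).symm.trans (Ts.ver_cls _ _ h2)
      simpa [stp] using this
  td_cls := by
    rw [Ts.ver_cls _ _ hμ.2.2.1, Ts.hor_cls _ _ hμ.1]; ring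
  anc_sub := sub_inter subset_union_right (anc_KK Ts β (Nat.zero_le _))
  anc_card := card_anc Ts 1 1 0 _
  v_mem := by
    have h1 := N_big (P := P) (.inl (μ 1 1))
    rintro (_ | _) <;> refine inter_single ?_ <;> rintro ⟨τ, c, e, q, i⟩ <;>
      simp only [cond, mem_atom0, Prod.mk.injEq] <;> omega
  vp_mem := by
    have h1 := N_big (P := P) (.inl (μ 1 1))
    have h2 := np_small Ts (μ 1 1)
    intro j hj
    refine inter_single ?_
    rintro ⟨τ, c, e, q, i⟩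
    simp only [mem_atom, Prod.mk.injEq]
    omega
  v_anc := by
    rintro (_ | _) <;> simp only [cond, mem_union, mem_anchS, mem_ports] <;> omega
  vp_anc := by
    intro j hj
    simp only [mem_union, mem_anchS, mem_ports]
    omega
  v_ne := by simp
  v_vp := by rintro (_ | _) i _ <;> simp
  vp_inj := by intro i _ j _ h; simpa using h
  gs_mem := by
    have h1 := N_big (P := P) (.inl (μ 0 2))
    have h2 := N_big (P := P) (.inl (μ 2 0))
    rintro (_ | _) <;> refine inter_single ?_ <;> rintro ⟨τ, c, e, q, i⟩ <;>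
      simp only [cond, mem_atom0, Prod.mk.injEq] <;> omega
  gd_mem := by
    have h1 := N_big (P := P) (.inl (μ 1 2))
    have h2 := N_big (P := P) (.inl (μ 2 1))
    rintro (_ | _) <;> refine inter_single ?_ <;> rintro ⟨τ, c, e, q, i⟩ <;>
      simp only [cond, mem_atom0, Prod.mk.injEq] <;> omega
  gs_anch := by rintro (_ | _) <;> simp [atom, mem_anchS]
  gd_anch := by rintro (_ | _) <;> simp [atom, mem_anchS]
  gs_v := by rintro (_ | _) <;> simp
  gd_v := by rintro (_ | _) <;> simp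
  gd_gs := by rintro (_ | _) <;> simp

lemma lowOK : LowOK Ts (rules Ts) where
  cl_sub := by
    rintro (_ | _ | x) c hc
    · exact (Set.mem_singleton_iff.mp hc).subset
    · exact hc.elim
    · obtain ⟨y, hy, rfl⟩ := hc
      exact fun x hx => (mem_blk Ts).mpr (Or.inr ⟨y, hy, hx⟩)
  cl_card := by
    rintro (_ | _ | x) c hc
    · rw [Set.mem_singleton_iff.mp hc, card_spare]
    · exact hc.elim
    · obtain ⟨_, ⟨i, j, p, -, rfl⟩, rfl⟩ := hc
      rw [card_atom]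
      exact (N_big _).trans (Nat.le_add_right _ _)
  pad := ⟨some none, subset_rfl, (card_spare _).ge⟩
  bridge := by
    rintro (_ | _ | ⟨⟨μ, p, β⟩, hμ, hp⟩) x s h
    · exact h.elim
    · exact h.elim
    obtain ⟨rfl, rfl⟩ := h
    refine ⟨fun h => ?_, mem_filter.mpr ⟨mem_insert_self _ _, Or.inr (Or.inl rfl)⟩,
      regS Ts μ, ?_, _, centre_reg Ts hp, ?_,
      ⟨_, subset_union_right, anc_KK Ts β hp, card_anc Ts 1 1 p _⟩, ?_⟩
    · have := (mem_filter.mp h).2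
      simp only [mem_ports] at this
      omega
    · rintro _ ⟨i, j, q, hq, rfl⟩
      refine ⟨⟨_, ⟨i, j, q, hq, rfl⟩, rfl⟩, ?_, card_atom Ts _ _ _ _,
        subset_union_left.trans subset_union_right, ?_, card_anchS _ _ _ _⟩
      · rw [mem_atom]; omega
      · rintro ⟨τ, c, e, q', k⟩ hx
        exact mem_filter.mpr ⟨(mem_blk Ts).mpr (Or.inr ⟨_, ⟨i, j, q, hq, rfl⟩,
          mem_union_right _ (mem_union_left _ hx)⟩), Or.inl (mem_anchS.mp hx).1⟩
    · have := N_big (P := P) (kd Ts (μ 1 1) p)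
      have h2 : (β : ℕ) < P.N (kd Ts (μ 1 1) p) := by have := β.2; omega
      exact mem_atom.mpr (Or.inl ⟨rfl, rfl, rfl, rfl, h2⟩)
    · intro t ht
      obtain ⟨p, hp'⟩ := p
      rcases p with _ | p
      · obtain rfl : μ 1 1 = t := by simpa [atom, kd] using ht
        exact ⟨blockWit Ts hμ β⟩
      · simp [atom, kd] at ht

lemma rules_connected (hk : ∀ z, 1 ≤ P.k z) : (graph (rules Ts)).Connected := by
  let z0 : Vx (rules Ts) := ⟨(none, (2, 0, 0, 0, 0)), mem_spare.mpr (by omega)⟩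
  have hz0 : isK (rules Ts) z0 := mem_singleton_self _
  have h1 : ∀ x y, rel (rules Ts) x y → (graph (rules Ts)).Reachable x y := by
    intro x y h
    by_cases hxy : x = y
    · rw [hxy]
    · exact (graph_adj.mpr ⟨hxy, Or.inl h⟩).reachable
  have h2 : ∀ x, ∃ y, isK (rules Ts) y ∧ rel (rules Ts) x y := by
    rintro ⟨⟨_ | _ | ⟨⟨μ, p, β⟩, hμ, hp⟩, x⟩, hx⟩
    · exact ⟨z0, hz0, Or.inr ⟨rfl, Or.inl ⟨_, rfl, hx, z0.2⟩⟩⟩
    · exact ⟨z0, hz0, Or.inl ⟨hx, hz0⟩⟩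
    · rcases (mem_blk Ts).mp hx with h | ⟨y, hy, h⟩
      · exact ⟨z0, hz0, Or.inl ⟨mem_filter.mpr ⟨hx, Or.inr (Or.inl (by rw [h]))⟩, hz0⟩⟩
      · obtain ⟨i, j, q, hq, rfl⟩ := id hy
        have h3 : ((0, i % 3, j % 3, q, 0) : Loc) ∈ (atom P i j q (kd Ts (μ i j) q)).set :=
          mem_atom.mpr (Or.inr (Or.inl ⟨rfl, rfl, rfl, rfl, hk _⟩))
        have h4 := (mem_blk Ts).mpr (Or.inr ⟨_, hy, h3⟩)
        exact ⟨⟨(some (some ⟨⟨μ, p, β⟩, hμ, hp⟩), _), h4⟩, mem_filter.mpr ⟨h4, Or.inl rfl⟩,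
          Or.inr ⟨rfl, Or.inl ⟨_, ⟨_, hy, rfl⟩, h, h3⟩⟩⟩
  rw [SimpleGraph.connected_iff_exists_forall_reachable]
  refine ⟨z0, fun x => ?_⟩
  obtain ⟨y, hy, h⟩ := h2 x
  exact (h1 _ _ (Or.inl ⟨hz0, hy⟩)).trans (h1 _ _ h).symm

end Pool.Agent.Work.MP_e0d07f_co.Hedge
end

-- merged part: Pool.Agent.Work.MP_e0d07f_co.Hedge.Upper
section
namespace Pool.Agent.Work.MP_e0d07f_co.Hedge

open Finset

variable {T : Type} {P : Num (T ⊕ Fin 3)} (Ts : TSys P)

/-- Translation of a block. -/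
def tr (a b : ℕ) (s x : Loc) : Loc :=
  if x.1 = 0 then (0, (a + x.2.1) % 3, (b + x.2.2.1) % 3, x.2.2.2)
  else if x.1 = 1 then (1, a + x.2.1, b + x.2.2.1, x.2.2.2) else s

lemma tr0 (a b : ℕ) (s : Loc) (c e q i : ℕ) :
    tr a b s (0, c, e, q, i) = (0, (a + c) % 3, (b + e) % 3, q, i) := rfl
lemma tr1 (a b : ℕ) (s : Loc) (c e q i : ℕ) :
    tr a b s (1, c, e, q, i) = (1, a + c, b + e, q, i) := rfl
lemma tr2 (a b : ℕ) (s : Loc) (c e q i : ℕ) : tr a b s (2, c, e, q, i) = s := rfl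

lemma tr_atom {a b i j p : ℕ} {s x : Loc} {z : T ⊕ Fin 3} (h : x ∈ (atom P i j p z).set) :
    tr a b s x ∈ (atom P (a + i) (b + j) p z).set := by
  obtain ⟨τ, c, e, q, k⟩ := x
  rw [mem_atom] at h
  rcases h with ⟨rfl, rfl, rfl, rfl, h⟩ | ⟨rfl, rfl, rfl, rfl, h⟩ | ⟨rfl, rfl, h | h | h⟩
  · exact mem_atom.mpr (Or.inl ⟨rfl, rfl, rfl, rfl, h⟩)
  · rw [tr0]; exact mem_atom.mpr (Or.inr (Or.inl ⟨rfl, by omega, by omega, rfl, h⟩))
  · rw [tr1]; exact mem_atom.mpr (Or.inr (Or.inr ⟨rfl, rfl, Or.inl (by omega)⟩))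
  · rw [tr1]; exact mem_atom.mpr (Or.inr (Or.inr ⟨rfl, rfl, Or.inr (Or.inl (by omega))⟩))
  · rw [tr1]; exact mem_atom.mpr (Or.inr (Or.inr ⟨rfl, rfl, Or.inr (Or.inr (by omega))⟩))

lemma blk_cases {μ : Fin 3 → Fin 3 → T} {τ c e q i : ℕ} (h : (τ, c, e, q, i) ∈ blk Ts μ) :
    (τ = 0 ∧ c < 3 ∧ e < 3) ∨ τ = 1 ∨ (τ = 2 ∧ c = 0 ∧ e = 0 ∧ q = 0 ∧ i = 0) := by
  rcases (mem_blk Ts).mp h with h | ⟨_, ⟨i, j, p, -, rfl⟩, h⟩
  · simp only [Prod.mk.injEq] at h; omega
  · rw [mem_atom] at h; (clear * - h; omega)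

lemma tr_inj (μ : Fin 3 → Fin 3 → T) (a b : ℕ) {s : Loc} (hs : s.1 = 2) :
    Set.InjOn (tr a b s) (blk Ts μ) := by
  rintro ⟨τ, c, e, q, i⟩ hx ⟨τ', c', e', q', i'⟩ hy h
  obtain ⟨s1, s2, s3, s4, s5⟩ := s
  simp only at hs
  rcases blk_cases Ts hx with ⟨rfl, h1⟩ | rfl | ⟨rfl, h1⟩ <;>
    rcases blk_cases Ts hy with ⟨rfl, h2⟩ | rfl | ⟨rfl, h2⟩ <;>
    simp only [tr0, tr1, tr2, Prod.mk.injEq, true_and] at h ⊢ <;> omega

variable (lab : ℕ → ℕ → T)

abbrev hat (a b p : ℕ) : Entry Loc (T ⊕ Fin 3) := atom P a b p (kd Ts (lab a b) p)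

lemma fire [Finite T] (hor : ∀ i j, Ts.Hor (lab i j) (lab (i + 1) j))
    (ver : ∀ i j, Ts.Ver (lab i j) (lab i (j + 1))) {VS : Finset Loc} {M : ℕ}
    {H : SimpleGraph Loc} (c : Ctx (rules Ts) P.d VS (spare M) H) {a b p : ℕ}
    (hp : p ≤ Ts.np (lab (a + 1) (b + 1)))
    (hcl : ∀ i j : Fin 3, ∀ q ≤ Ts.np (lab (a + i) (b + j)),
      (hat Ts lab (a + i) (b + j) q).set ⊆ VS ∧
        H.IsClique ((hat Ts lab (a + i) (b + j) q).set : Set Loc))
    (hK : ∀ x ∈ VS, x.1 = 0 → Abs (spare M) H x)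
    (hport : ∀ x ∈ ports (a + 1) (b + 1) p, Abs (spare M) H x) :
    ∀ i < P.N (kd Ts (lab (a + 1) (b + 1)) p), Abs (spare M) H (1, a + 2, b + 2, p, i) := by
  let μ : Fin 3 → Fin 3 → T := fun i j => lab (a + i) (b + j)
  have hμ : Valid Ts μ := ⟨hor _ _, ver _ _, ver _ _, ver _ _, hor _ _⟩
  have hpd : p < P.d := by have := np_small Ts (lab (a + 1) (b + 1)); omega
  have hN := N_big (P := P) (kd Ts (lab (a + 1) (b + 1)) p)
  have h1 : ∀ β < P.d, Abs (spare M) H (1, a + 2, b + 2, p, β) := by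
    intro β hβ s hs _
    have hs2 : s.1 = 2 := by
      obtain ⟨τ, c, e, q, i⟩ := s
      exact (mem_spare.mp hs).1
    have hVS : ∀ x ∈ blk Ts μ, tr a b s x ∈ VS := by
      intro x hx
      rcases (mem_blk Ts).mp hx with rfl | ⟨_, ⟨i, j, q, hq, rfl⟩, h⟩
      · exact c.Q_sub hs
      · exact (hcl i j q hq).1 (tr_atom h)
    have hKa : ∀ z ∈ blk Ts μ, z ∈ (mainRule Ts μ p β).KK → Abs (spare M) H (tr a b s z) := by
      rintro ⟨τ, c', e, q, i⟩ hz hk
      rcases (mem_filter.mp hk).2 with h | h | h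
      · obtain rfl : τ = 0 := h
        exact hK _ (hVS _ hz) rfl
      · obtain rfl : τ = 2 := h
        exact c.Q_abs _ hs
      · rw [mem_ports] at h
        obtain ⟨rfl, h⟩ := h
        refine hport _ ?_
        rw [tr1, mem_ports]
        (clear * - h; omega)
    have hx : ((1, 2, 2, p, β) : Loc) ∈ blk Ts μ :=
      (mem_blk Ts).mpr (Or.inr ⟨_, centre_reg Ts hp,
        mem_atom.mpr (Or.inl ⟨rfl, rfl, rfl, rfl, lt_of_lt_of_le (by omega) hN⟩)⟩)
    refine c.ext (some (some ⟨(μ, ⟨p, hpd⟩, ⟨β, hβ⟩), hμ, hp⟩)) (tr a b s) (tr_inj Ts μ a b hs2)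
      hVS hx (mem_insert_self _ _) (by simp) (Or.inr ⟨rfl, rfl⟩) hKa ?_ ?_ ?_
    · intro z hz z' hz' h h' hne
      exact c.abs_adj (hVS z hz) (hVS z' hz') (fun e => hne (tr_inj Ts μ a b hs2 hz hz' e))
        (hKa z hz h) (hKa z' hz' h')
    · rintro _ ⟨y, hy, rfl⟩ z hz z' hz' hne
      have hz1 := (mem_blk Ts).mpr (Or.inr ⟨y, hy, hz⟩)
      have hz2 := (mem_blk Ts).mpr (Or.inr ⟨y, hy, hz'⟩)
      obtain ⟨i, j, q, hq, rfl⟩ := hy
      exact Or.inr ((hcl i j q hq).2 (tr_atom hz) (tr_atom hz')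
        fun e => hne (tr_inj Ts μ a b hs2 hz1 hz2 e))
    · rintro _ _ ⟨rfl, rfl⟩
      rfl
  intro i hi
  by_cases hid : i < P.d
  · exact h1 i hid
  obtain ⟨h2, h3⟩ := hcl 1 1 p hp
  have hm : ∀ j < P.N (kd Ts (lab (a + 1) (b + 1)) p),
      ((1, a + 2, b + 2, p, j) : Loc) ∈ (hat Ts lab (a + 1) (b + 1) p).set :=
    fun j hj => mem_atom.mpr (Or.inl ⟨rfl, rfl, rfl, rfl, hj⟩)
  refine c.abs_of_nbrs (h2 (hm i hi)) (ownS (a + 1) (b + 1) p P.d) ?_ (card_ownS _ _ _ _).ge ?_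
  · rintro ⟨τ, c', e, q, j⟩ hj
    obtain ⟨rfl, rfl, rfl, rfl, hj'⟩ := mem_ownS.mp hj
    exact h2 (hm j (by omega))
  · rintro ⟨τ, c', e, q, j⟩ hj
    obtain ⟨rfl, rfl, rfl, rfl, hj'⟩ := mem_ownS.mp hj
    exact ⟨h1 j hj', h3 (hm i hi) (hm j (by omega)) (by simp; omega)⟩

def Own (A B : ℕ) : Finset Loc :=
  ((range A).sigma fun a => (range B).sigma fun b => (range (Ts.np (lab a b) + 1)).sigma
    fun p => range (P.N (kd Ts (lab a b) p))).image
      fun x => (1, x.1 + 1, x.2.1 + 1, x.2.2.1, x.2.2.2)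

lemma mem_Own {A B τ c e q i : ℕ} : (τ, c, e, q, i) ∈ Own Ts lab A B ↔
    τ = 1 ∧ ∃ a < A, ∃ b < B, c = a + 1 ∧ e = b + 1 ∧ q ≤ Ts.np (lab a b) ∧
      i < P.N (kd Ts (lab a b) q) := by
  simp only [Own, mem_image, mem_sigma, mem_range, Prod.mk.injEq]
  constructor
  · rintro ⟨⟨a, b, p, j⟩, ⟨h1, h2, h3, h4⟩, rfl, rfl, rfl, rfl, rfl⟩
    exact ⟨rfl, a, h1, b, h2, rfl, rfl, Nat.lt_succ_iff.mp h3, h4⟩
  · rintro ⟨rfl, a, h1, b, h2, rfl, rfl, h3, h4⟩
    exact ⟨⟨a, b, q, i⟩, ⟨h1, h2, Nat.lt_succ_iff.mpr h3, h4⟩, rfl, rfl, rfl, rfl, rfl⟩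

def csz (t : T) : ℕ := ∑ p ∈ range (Ts.np t + 1), P.N (kd Ts t p)

lemma card_Own (A B : ℕ) :
    (Own Ts lab A B).card = ∑ a ∈ range A, ∑ b ∈ range B, csz Ts (lab a b) := by
  rw [Own, card_image_of_injective]
  · simp [card_sigma, csz]
  · rintro ⟨a, b, p, j⟩ ⟨a', b', p', j'⟩ h
    simp only [Prod.mk.injEq, add_left_inj, true_and] at h
    obtain ⟨rfl, rfl, rfl, rfl⟩ := h
    rfl

lemma N_le (z : T ⊕ Fin 3) : P.N z ≤ P.d * P.d := by
  have := P.size_hi z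
  omega

include Ts in
lemma k_small (z : T ⊕ Fin 3) (t : T) : P.k z ≤ P.d := by
  have := Ts.k_le z
  have := Ts.room t
  omega

lemma csz_bd (t : T) : 1 ≤ csz Ts t ∧ csz Ts t ≤ P.d * (P.d * P.d) := by
  constructor
  · rw [csz, sum_range_succ']
    have := N_big (P := P) (kd Ts t 0)
    omega
  · refine (sum_le_card_nsmul _ _ _ fun p _ => N_le _).trans ?_
    rw [card_range, smul_eq_mul]
    exact Nat.mul_le_mul_right _ (by have := np_small Ts t; omega)

def Fix (d A B : ℕ) : Finset Loc :=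
  {0} ×ˢ range 3 ×ˢ range 3 ×ˢ range d ×ˢ range d ∪
    ({1} ×ˢ {0} ×ˢ range (B + 1) ×ˢ {0} ×ˢ {0} ∪ {1} ×ˢ range (A + 1) ×ˢ {0} ×ˢ {0} ×ˢ {1})

lemma card_Fix (d A B : ℕ) : (Fix d A B).card ≤ 9 * (d * d) + (B + 1) + (A + 1) := by
  refine (card_union_le _ _).trans ((add_le_add_right (card_union_le _ _) _).trans (le_of_eq ?_))
  simp only [card_product, card_singleton, card_range]
  ring

def Mar (d A B : ℕ) : Finset Loc :=
  {1} ×ˢ {1, A} ×ˢ range (B + 1) ×ˢ range d ×ˢ range (d * d) ∪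
    {1} ×ˢ range (A + 1) ×ˢ {1, B} ×ˢ range d ×ˢ range (d * d)

lemma card_Mar (d A B : ℕ) : (Mar d A B).card ≤ 2 * (A + B + 2) * (d * (d * d)) := by
  refine (card_union_le _ _).trans ?_
  simp only [card_product, card_singleton, card_range]
  have h1 : ({1, A} : Finset ℕ).card ≤ 2 := card_le_two
  have h2 : ({1, B} : Finset ℕ).card ≤ 2 := card_le_two
  have h3 := Nat.mul_le_mul_right ((B + 1) * (d * (d * d))) h1
  have h4 := Nat.mul_le_mul_right ((A + 1) * (d * (d * d))) h2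
  nlinarith only [h3, h4]

def Act (A B : ℕ) : Finset Loc :=
  (Own Ts lab A B).filter fun x => 2 ≤ x.2.1 ∧ x.2.1 < A ∧ 2 ≤ x.2.2.1 ∧ x.2.2.1 < B

lemma card_Act (A B : ℕ) :
    (Own Ts lab A B).card ≤ (Act Ts lab A B).card + 2 * (A + B + 2) * (P.d * (P.d * P.d)) := by
  refine (card_le_card (t := Act Ts lab A B ∪ Mar P.d A B) ?_).trans
    ((card_union_le _ _).trans (add_le_add_right (card_Mar _ _ _) _))
  rintro ⟨τ, c, e, q, i⟩ hx
  obtain ⟨rfl, a, h1, b, h2, rfl, rfl, h3, h4⟩ := (mem_Own Ts lab).mp hx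
  have h5 := np_small Ts (lab a b)
  have h6 := N_le (P := P) (kd Ts (lab a b) q)
  simp only [Act, Mar, mem_union, mem_filter, hx, mem_product, mem_singleton, mem_insert,
    mem_range, true_and]
  omega

lemma hat_sub {A B a b p : ℕ} (ha : a < A) (hb : b < B) (hp : p ≤ Ts.np (lab a b)) :
    (hat Ts lab a b p).set ⊆ Fix P.d A B ∪ Own Ts lab A B := by
  rintro ⟨τ, c, e, q, i⟩ hx
  have h5 := np_small Ts (lab a b)
  have h6 := k_small Ts (kd Ts (lab a b) p) (lab a b)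
  have hN : ∀ z, P.d + 2 ≤ P.N z := N_big
  rw [mem_union, mem_Own]
  simp only [Fix, mem_union, mem_product, mem_singleton, mem_range]
  rcases mem_atom.mp hx with ⟨rfl, rfl, rfl, rfl, h⟩ | h |
    ⟨rfl, rfl, ⟨rfl, rfl, rfl, rfl⟩ | ⟨rfl, rfl, rfl, rfl⟩ | ⟨h, rfl, rfl, rfl⟩⟩
  · exact Or.inr ⟨rfl, a, ha, b, hb, rfl, rfl, hp, h⟩
  · left; (clear * - ha hb hp h5 h6 h; omega)
  · rcases c with _ | c
    · left; omega
    · exact Or.inr ⟨rfl, c, by omega, b, hb, rfl, rfl, Nat.zero_le _,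
        lt_of_lt_of_le (by omega) (hN _)⟩
  · rcases e with _ | e
    · left; omega
    · exact Or.inr ⟨rfl, a, ha, e, by omega, rfl, rfl, Nat.zero_le _,
        lt_of_lt_of_le (by omega) (hN _)⟩
  · exact Or.inr ⟨rfl, a, ha, b, hb, rfl, rfl, Nat.zero_le _, lt_of_lt_of_le (by omega) (hN _)⟩

lemma all_abs [Finite T] (hor : ∀ i j, Ts.Hor (lab i j) (lab (i + 1) j))
    (ver : ∀ i j, Ts.Ver (lab i j) (lab i (j + 1))) {VS : Finset Loc} {M A B : ℕ}
    {H : SimpleGraph Loc} (c : Ctx (rules Ts) P.d VS (spare M) H)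
    (hVS : Fix P.d A B ∪ Own Ts lab A B ⊆ VS)
    (hbr : ∀ x ∈ VS, x ∉ Act Ts lab A B → Abs (spare M) H x)
    (hcl : ∀ a < A, ∀ b < B, ∀ p ≤ Ts.np (lab a b), H.IsClique ((hat Ts lab a b p).set : Set Loc)) :
    ∀ x ∈ VS, Abs (spare M) H x := by
  have hN : ∀ z, P.d + 2 ≤ P.N z := N_big
  have hK : ∀ x ∈ VS, x.1 = 0 → Abs (spare M) H x := by
    rintro ⟨τ, c, e, q, i⟩ hx h
    refine hbr _ hx fun h' => ?_
    have := ((mem_Own Ts lab).mp (mem_filter.mp h').1).1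
    simp only at h
    omega
  have hf : ∀ a b p, a + 2 < A → b + 2 < B → p ≤ Ts.np (lab (a + 1) (b + 1)) →
      (∀ x ∈ ports (a + 1) (b + 1) p, Abs (spare M) H x) →
      ∀ i < P.N (kd Ts (lab (a + 1) (b + 1)) p), Abs (spare M) H (1, a + 2, b + 2, p, i) := by
    intro a b p ha hb hp hport
    refine fire Ts lab hor ver c hp (fun i j q hq => ?_) hK hport
    have := i.2
    have := j.2
    exact ⟨(hat_sub Ts lab (by omega) (by omega) hq).trans hVS,
      hcl _ (by omega) _ (by omega) q hq⟩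
  have hmain : ∀ s a b, a + b = s → a < A → b < B → ∀ i < P.N (kd Ts (lab a b) 0),
      Abs (spare M) H (1, a + 1, b + 1, 0, i) := by
    intro s
    induction s using Nat.strong_induction_on with
    | _ s ih =>
      intro a b hs ha hb i hi
      by_cases h : ((1, a + 1, b + 1, 0, i) : Loc) ∈ Act Ts lab A B
      · have h1 := (mem_filter.mp h).2
        simp only at h1
        obtain ⟨a, rfl⟩ : ∃ a', a = a' + 1 := ⟨a - 1, by omega⟩
        obtain ⟨b, rfl⟩ : ∃ b', b = b' + 1 := ⟨b - 1, by omega⟩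
        refine hf a b 0 (by omega) (by omega) (Nat.zero_le _) ?_ i hi
        rintro ⟨τ, c, e, q, j⟩ hx
        obtain ⟨rfl, rfl, ⟨-, rfl, rfl, rfl⟩ | ⟨-, rfl, rfl, rfl⟩ | ⟨h2, -⟩⟩ := mem_ports.mp hx
        · exact ih _ (by omega) a (b + 1) rfl (by omega) hb 0 (lt_of_lt_of_le (by omega) (hN _))
        · exact ih _ (by omega) (a + 1) b rfl ha (by omega) 1 (lt_of_lt_of_le (by omega) (hN _))
        · exact (h2 rfl).elim
      · exact hbr _ (hVS (mem_union_right _ ((mem_Own Ts lab).mpr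
          ⟨rfl, a, ha, b, hb, rfl, rfl, Nat.zero_le _, hi⟩))) h
  rintro ⟨τ, c, e, q, i⟩ hx
  by_cases h : ((τ, c, e, q, i) : Loc) ∈ Act Ts lab A B
  · obtain ⟨h0, h1⟩ := mem_filter.mp h
    obtain ⟨rfl, a, ha, b, hb, rfl, rfl, hq, hi⟩ := (mem_Own Ts lab).mp h0
    simp only at h1
    rcases q with _ | q
    · exact hmain _ a b rfl ha hb i hi
    obtain ⟨a, rfl⟩ : ∃ a', a = a' + 1 := ⟨a - 1, by omega⟩
    obtain ⟨b, rfl⟩ : ∃ b', b = b' + 1 := ⟨b - 1, by omega⟩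
    refine hf a b _ (by omega) (by omega) hq ?_ i hi
    rintro ⟨τ, c, e, q', j⟩ hx
    obtain ⟨rfl, rfl, ⟨h2, -⟩ | ⟨h2, -⟩ | ⟨-, rfl, rfl, rfl⟩⟩ := mem_ports.mp hx
    · omega
    · omega
    · have := np_small Ts (lab (a + 1) (b + 1))
      exact hmain _ _ _ rfl ha hb _ (lt_of_lt_of_le (by omega) (hN _))
  · exact hbr _ hx h

lemma gen_bound (z : T ⊕ Fin 3) {x : ℝ}
    (h : 2 * x ≤ P.d * (P.d - 1) - P.k z * (P.k z - 1) + 2 * P.d * (P.N z + P.kap z - P.d)) :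
    2 * x ≤ 2 * ((P.d - P.eps) * P.N z + P.base z) + P.kap z * (P.kap z - 1)
      - P.k z * (P.k z - 1) := by
  have h1 : P.kap z ≤ P.d := by
    have h2 := P.kap_small z
    have h3 := P.one_le_eps
    have h4 : (0 : ℝ) ≤ P.kap z := by positivity
    have : (P.kap z : ℝ) ≤ P.d := by linarith
    exact_mod_cast this
  have h2 := two_mul_Tri P.d (P.kap z) h1
  unfold Num.base
  linarith only [h, h2]

lemma cell_bound (t : T) (x : ℕ → ℝ) (h : ∀ p, 2 * x p ≤ P.d * (P.d - 1) -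
      P.k (kd Ts t p) * (P.k (kd Ts t p) - 1) +
      2 * P.d * (P.N (kd Ts t p) + P.kap (kd Ts t p) - P.d)) :
    ∑ p ∈ range (Ts.np t + 1), x p ≤ (P.d - P.eps) * csz Ts t + P.eps * Ts.xi t := by
  rw [← Ts.cell, csz, sum_range_succ', sum_range_succ']
  have h0 := gen_bound _ (h 0)
  rw [kd_zero, Ts.kap_main] at h0
  have h1 : ∑ p ∈ range (Ts.np t), x (p + 1) ≤ ∑ p ∈ range (Ts.np t),
      ((P.d - P.eps) * P.N (kd Ts t (p + 1)) +
        (P.base (.inr (Ts.pk t p)) + P.k (.inr (Ts.pk t p)))) := by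
    refine sum_le_sum fun p _ => ?_
    have h2 := gen_bound _ (h (p + 1))
    rw [kd_succ, Ts.kap_pend] at h2
    rw [kd_succ]
    push_cast at h2
    linarith
  rw [sum_add_distrib, ← mul_sum] at h1
  rw [kd_zero]
  push_cast at h0 ⊢
  linarith

lemma host_bound [Finite T] (hk : ∀ z, 1 ≤ P.k z) (hor : ∀ i j, Ts.Hor (lab i j) (lab (i + 1) j))
    (ver : ∀ i j, Ts.Ver (lab i j) (lab i (j + 1)))
    (row : ∀ j n, ∑ i ∈ range n, Ts.xi (lab i j) ≤ Ts.Cst) {M A B n : ℕ}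
    (hM : 2 * Nat.card (Vx (rules Ts)) ≤ M) (hMd : P.d ≤ M)
    (hn : 9 * (P.d * P.d) + (B + 1) + (A + 1) + (Own Ts lab A B).card + M ≤ n) :
    (wsat (graph (rules Ts)) n : ℝ) ≤ M * M + (n - (Act Ts lab A B).card) * P.d +
      ((P.d - P.eps) * (Own Ts lab A B).card + P.eps * (Ts.Cst * B)) := by
  have hg : ∀ a b p, ∃ E : Finset (Sym2 Loc), 2 * (E.card : ℝ) ≤ P.d * (P.d - 1) -
      P.k (kd Ts (lab a b) p) * (P.k (kd Ts (lab a b) p) - 1) +
      2 * P.d * (P.N (kd Ts (lab a b) p) + P.kap (kd Ts (lab a b) p) - P.d) ∧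
      ∀ (VS Q : Finset Loc) (H : SimpleGraph Loc), Ctx (rules Ts) P.d VS Q H →
        (hat Ts lab a b p).set ⊆ VS → (∀ g ∈ (hat Ts lab a b p).anch, Abs Q H g) →
        (∀ u ∈ (hat Ts lab a b p).set, ∀ v ∈ (hat Ts lab a b p).set, u ≠ v → s(u, v) ∈ E →
          H.Adj u v) → H.IsClique ((hat Ts lab a b p).set : Set Loc) := by
    intro a b p
    have h1 : (hat Ts lab a b p).anch.card = P.k (kd Ts (lab a b) p) := card_anchS _ _ _ _
    have h2 := card_atom Ts a b p (lab a b)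
    have h3 := N_big (P := P) (kd Ts (lab a b) p)
    obtain ⟨E, h4, h5⟩ := exists_gen (rules Ts) P.d (hat Ts lab a b p).set (hat Ts lab a b p).anch
      (subset_union_left.trans subset_union_right) (h1 ▸ hk _) (h1 ▸ k_small Ts _ (lab a b))
      (by rw [h2]; omega)
    rw [h1, h2] at h4
    push_cast at h4
    exact ⟨E, h4, h5⟩
  choose gE hgE hgE' using hg
  let V0 := Fix P.d A B ∪ Own Ts lab A B
  have hV0 : V0.card + M ≤ n := by
    have h1 := card_Fix P.d A B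
    have h2 : V0.card ≤ _ := card_union_le _ _
    omega
  let VS := V0 ∪ spare (n - V0.card)
  have hcard : VS.card = n := by
    rw [card_union_of_disjoint, card_spare]
    · omega
    · rw [disjoint_left]
      rintro ⟨τ, c, e, q, i⟩ h1 h2
      have h3 := (mem_spare.mp h2).1
      rw [mem_union, mem_Own] at h1
      simp only [Fix, mem_union, mem_product, mem_singleton] at h1
      omega
  have hsp : ∀ {k l : ℕ}, k ≤ l → spare k ⊆ spare l := fun h =>
    image_subset_image (range_subset_range.mpr h)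
  have hQ : spare M ⊆ VS := (hsp (by omega)).trans subset_union_right
  let E := (spare M ×ˢ spare M).image Sym2.mk.uncurry ∪
    ((VS \ Act Ts lab A B) ×ˢ spare P.d).image Sym2.mk.uncurry ∪
    (range A).biUnion fun a => (range B).biUnion fun b =>
      (range (Ts.np (lab a b) + 1)).biUnion fun p => gE a b p
  have hw : wsat (graph (rules Ts)) n ≤ E.card := by
    rw [← hcard]
    refine wsat_le_of_loc _ VS E fun H hE hc => ?_
    have c : Ctx (rules Ts) P.d VS (spare M) H :=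
      { closed := hc
        Q_sub := hQ
        Q_card := by rwa [card_spare]
        Q_abs := fun q hq q' hq' hne => hE q (hQ hq) q' (hQ hq') hne.symm (mem_union_left _
          (mem_union_left _ (mem_image.mpr ⟨(q, q'), mem_product.mpr ⟨hq, hq'⟩, rfl⟩)))
        crule := ⟨none, (2, 0, 0, 0, 0), rfl, rfl, mem_spare.mpr (by omega), card_spare _,
          fun _ _ h => h⟩ }
    have hbr : ∀ x ∈ VS, x ∉ Act Ts lab A B → Abs (spare M) H x := by
      intro x hx hx'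
      by_cases h : x ∈ spare M
      · exact c.Q_abs x h
      · refine c.abs_of_nbrs hx (spare P.d) ((hsp hMd).trans hQ) (card_spare _).ge fun g hg => ?_
        exact ⟨c.Q_abs g (hsp hMd hg), hE x hx g (hQ (hsp hMd hg)) (fun e => h (e ▸ hsp hMd hg))
          (mem_union_left _ (mem_union_right _ (mem_image.mpr
            ⟨(x, g), mem_product.mpr ⟨mem_sdiff.mpr ⟨hx, hx'⟩, hg⟩, rfl⟩)))⟩
    have habs := all_abs Ts lab hor ver c (A := A) (B := B) subset_union_left hbr ?_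
    · exact fun u hu v hv huv => c.abs_adj hu hv huv (habs u hu) (habs v hv)
    · intro a ha b hb p hp
      have hsub : (hat Ts lab a b p).set ⊆ VS := (hat_sub Ts lab ha hb hp).trans subset_union_left
      refine hgE' a b p VS _ H c hsub ?_ fun u hu v hv huv h => hE u (hsub hu) v (hsub hv) huv
        (mem_union_right _ (mem_biUnion.mpr ⟨a, mem_range.mpr ha, mem_biUnion.mpr
          ⟨b, mem_range.mpr hb, mem_biUnion.mpr ⟨p, mem_range.mpr (by omega), h⟩⟩⟩))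
      rintro ⟨τ, c, e, q, i⟩ hg
      refine hbr _ (hsub (mem_union_right _ (mem_union_left _ hg))) fun h => ?_
      have h1 := ((mem_Own Ts lab).mp (mem_filter.mp h).1).1
      have h2 := (mem_anchS.mp hg).1
      omega
  have hAct : Act Ts lab A B ⊆ VS :=
    (filter_subset _ _).trans (subset_union_right.trans subset_union_left)
  have hE : E.card ≤ M * M + (n - (Act Ts lab A B).card) * P.d +
      ∑ a ∈ range A, ∑ b ∈ range B, ∑ p ∈ range (Ts.np (lab a b) + 1), (gE a b p).card := by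
    refine (card_union_le _ _).trans (add_le_add ((card_union_le _ _).trans (add_le_add ?_ ?_)) ?_)
    · exact card_image_le.trans (by rw [card_product, card_spare])
    · exact card_image_le.trans (by rw [card_product, card_spare, card_sdiff_of_subset hAct, hcard])
    · exact card_biUnion_le.trans (sum_le_sum fun a _ => card_biUnion_le.trans
        (sum_le_sum fun b _ => card_biUnion_le))
  have hE' := (Nat.cast_le (α := ℝ)).mpr (hw.trans hE)
  push_cast [Nat.cast_sub (hcard ▸ card_le_card hAct : (Act Ts lab A B).card ≤ n)] at hE'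
  refine hE'.trans (add_le_add_right ?_ _)
  refine (sum_le_sum fun a _ => sum_le_sum fun b _ =>
    cell_bound Ts (lab a b) (fun p => ((gE a b p).card : ℝ)) (hgE a b)).trans ?_
  rw [card_Own]
  simp only [sum_add_distrib, ← mul_sum]
  push_cast
  refine add_le_add_right (mul_le_mul_of_nonneg_left ?_ (by linarith only [P.one_le_eps])) _
  rw [sum_comm]
  refine (sum_le_sum fun b _ => row b A).trans ?_
  simp [mul_comm]

theorem upper_bound [Finite T] (hk : ∀ z, 1 ≤ P.k z)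
    (hor : ∀ i j, Ts.Hor (lab i j) (lab (i + 1) j))
    (ver : ∀ i j, Ts.Ver (lab i j) (lab i (j + 1)))
    (row : ∀ j n, ∑ i ∈ range n, Ts.xi (lab i j) ≤ Ts.Cst) :
    ∃ c : ℝ, ∀ B : ℕ, 1 ≤ B → ∃ (c' : ℝ) (n0 : ℕ), ∀ n ≥ n0,
      (wsat (graph (rules Ts)) n : ℝ) ≤ (P.d - P.eps) * n + c' + c * (n / B) := by
  obtain ⟨M, hM, hMd⟩ : ∃ M, 2 * Nat.card (Vx (rules Ts)) ≤ M ∧ P.d ≤ M :=
    ⟨_, le_max_left _ _, le_max_right _ _⟩
  obtain ⟨cm, hcm⟩ : ∃ cm, cm = P.d * (P.d * P.d) := ⟨_, rfl⟩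
  refine ⟨(1 + 2 * cm) * P.d, fun B hB => ?_⟩
  obtain ⟨c0, hc0⟩ : ∃ c0, c0 = 9 * (P.d * P.d) + (B + 1) + 1 + M := ⟨_, rfl⟩
  refine ⟨M * M + (B * cm + 1 + c0 + 2 * (B + 2) * cm) * P.d + P.eps * (Ts.Cst * B), c0,
    fun n hn => ?_⟩
  have hex : ∃ A, n < (Own Ts lab (A + 1) B).card + (A + 1) + c0 := ⟨n, by omega⟩
  obtain ⟨A, h1, h2⟩ : ∃ A, n < (Own Ts lab (A + 1) B).card + (A + 1) + c0 ∧
      (Own Ts lab A B).card + A + c0 ≤ n := by
    refine ⟨Nat.find hex, Nat.find_spec hex, ?_⟩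
    rcases h : Nat.find hex with _ | A
    · rw [card_Own]; simpa using hn
    · exact not_lt.mp (Nat.find_min hex (by omega))
  have h3 : (Own Ts lab (A + 1) B).card ≤ (Own Ts lab A B).card + B * cm := by
    rw [card_Own, card_Own, sum_range_succ]
    refine add_le_add_right ((sum_le_card_nsmul _ _ _ fun b _ => (csz_bd Ts _).2).trans ?_) _
    rw [card_range, smul_eq_mul, hcm]
  have h4 : A * B ≤ (Own Ts lab A B).card := by
    rw [card_Own]
    refine le_trans ?_ (sum_le_sum fun a _ => sum_le_sum fun b _ => (csz_bd Ts (lab a b)).1)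
    simp
  have h5 := card_Act Ts lab A B
  rw [← hcm] at h5
  have h6 := host_bound Ts lab hk hor ver row hM hMd (A := A) (B := B) (n := n) (by omega)
  have h7 : (n : ℝ) - (Act Ts lab A B).card ≤ B * cm + 1 + c0 + 2 * (B + 2) * cm
      + (1 + 2 * cm) * A := by
    have : n ≤ (Act Ts lab A B).card + (B * cm + 1 + c0 + 2 * (B + 2) * cm + (1 + 2 * cm) * A) := by
      nlinarith only [h1, h3, h5]
    have := (Nat.cast_le (α := ℝ)).mpr this
    push_cast at this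
    linarith only [this]
  have h8 : (A : ℝ) ≤ n / B := by
    rw [le_div_iff₀ (by exact_mod_cast hB)]
    exact_mod_cast (by omega : A * B ≤ n)
  have h9 : ((Own Ts lab A B).card : ℝ) ≤ n := by exact_mod_cast (by omega)
  have h10 : 0 ≤ (P.d : ℝ) - P.eps := by
    have h := P.kap_small (.inr 0)
    have h' := P.one_le_eps
    have : (0 : ℝ) ≤ P.kap (.inr 0) := by positivity
    linarith only [h, h']
  have h11 := mul_le_mul_of_nonneg_left h9 h10
  have h12 := mul_le_mul_of_nonneg_right h7 (Nat.cast_nonneg P.d)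
  have h13 := mul_le_mul_of_nonneg_left h8 (show (0 : ℝ) ≤ (1 + 2 * cm) * P.d by positivity)
  linarith only [h6, h11, h12, h13]

end Pool.Agent.Work.MP_e0d07f_co.Hedge
end

-- merged part: Pool.Agent.Work.MP_e0d07f_co.Block
section
namespace Pool.Agent.Work.MP_e0d07f_co

open Finset

/-- Locations: type (`0` anchor, `1` own, `2` spare), column, row, slot, index. -/
abbrev Loc : Type := ℕ × ℕ × ℕ × ℕ × ℕ

def anchS (a b p k : ℕ) : Finset Loc := (range k).image fun i => (0, a % 3, b % 3, p, i)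
def ownS (a b p n : ℕ) : Finset Loc := (range n).image fun i => (1, a + 1, b + 1, p, i)
def spare (n : ℕ) : Finset Loc := (range n).image fun i => (2, 0, 0, 0, i)
def ports (a b p : ℕ) : Finset Loc :=
  if p = 0 then {(1, a, b + 1, 0, 0), (1, a + 1, b, 0, 1)} else {(1, a + 1, b + 1, 0, p + 1)}

lemma mem_anchS {a b p k τ c e q i : ℕ} : (τ, c, e, q, i) ∈ anchS a b p k ↔
    τ = 0 ∧ c = a % 3 ∧ e = b % 3 ∧ q = p ∧ i < k := by
  simp only [anchS, mem_image, mem_range, Prod.mk.injEq]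
  constructor
  · rintro ⟨j, h⟩; omega
  · intro h; exact ⟨i, by omega⟩

lemma mem_ownS {a b p k τ c e q i : ℕ} : (τ, c, e, q, i) ∈ ownS a b p k ↔
    τ = 1 ∧ c = a + 1 ∧ e = b + 1 ∧ q = p ∧ i < k := by
  simp only [ownS, mem_image, mem_range, Prod.mk.injEq]
  constructor
  · rintro ⟨j, h⟩; omega
  · intro h; exact ⟨i, by omega⟩

lemma mem_spare {k τ c e q i : ℕ} : (τ, c, e, q, i) ∈ spare k ↔
    τ = 2 ∧ c = 0 ∧ e = 0 ∧ q = 0 ∧ i < k := by
  simp only [spare, mem_image, mem_range, Prod.mk.injEq]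
  constructor
  · rintro ⟨j, h⟩; omega
  · intro h; exact ⟨i, by omega⟩

lemma mem_ports {a b p τ c e q i : ℕ} : (τ, c, e, q, i) ∈ ports a b p ↔
    τ = 1 ∧ q = 0 ∧ ((p = 0 ∧ c = a ∧ e = b + 1 ∧ i = 0) ∨ (p = 0 ∧ c = a + 1 ∧ e = b ∧ i = 1) ∨
      (p ≠ 0 ∧ c = a + 1 ∧ e = b + 1 ∧ i = p + 1)) := by
  unfold ports
  split_ifs with h <;> simp only [mem_insert, mem_singleton, Prod.mk.injEq] <;> (clear * - h; omega)

lemma card_anchS (a b p k : ℕ) : (anchS a b p k).card = k := by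
  rw [anchS, card_image_of_injective _ fun i j h => by simpa using h, card_range]

lemma card_ownS (a b p k : ℕ) : (ownS a b p k).card = k := by
  rw [ownS, card_image_of_injective _ fun i j h => by simpa using h, card_range]

lemma card_spare (k : ℕ) : (spare k).card = k := by
  rw [spare, card_image_of_injective _ fun i j h => by simpa using h, card_range]

lemma card_ports (a b p : ℕ) : (ports a b p).card = if p = 0 then 2 else 1 := by
  unfold ports
  split_ifs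
  · rw [card_pair]; simp
  · simp

variable {T : Type} {P : Num (T ⊕ Fin 3)} (Ts : TSys P)

def kd (t : T) (p : ℕ) : T ⊕ Fin 3 := if p = 0 then .inl t else .inr (Ts.pk t (p - 1))

def atom (P : Num (T ⊕ Fin 3)) (a b p : ℕ) (z : T ⊕ Fin 3) : Entry Loc (T ⊕ Fin 3) :=
  ⟨ownS a b p (P.N z) ∪ (anchS a b p (P.k z) ∪ ports a b p), z, anchS a b p (P.k z)⟩

lemma mem_atom {a b p τ c e q i : ℕ} {z : T ⊕ Fin 3} : (τ, c, e, q, i) ∈ (atom P a b p z).set ↔
    (τ = 1 ∧ c = a + 1 ∧ e = b + 1 ∧ q = p ∧ i < P.N z) ∨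
    (τ = 0 ∧ c = a % 3 ∧ e = b % 3 ∧ q = p ∧ i < P.k z) ∨
    (τ = 1 ∧ q = 0 ∧ ((p = 0 ∧ c = a ∧ e = b + 1 ∧ i = 0) ∨ (p = 0 ∧ c = a + 1 ∧ e = b ∧ i = 1) ∨
      (p ≠ 0 ∧ c = a + 1 ∧ e = b + 1 ∧ i = p + 1))) := by
  simp only [atom, mem_union, mem_ownS, mem_anchS, mem_ports]

lemma mem_atom0 {a b τ c e q i : ℕ} {z : T ⊕ Fin 3} : (τ, c, e, q, i) ∈ (atom P a b 0 z).set ↔
    (τ = 1 ∧ c = a + 1 ∧ e = b + 1 ∧ q = 0 ∧ i < P.N z) ∨
    (τ = 0 ∧ c = a % 3 ∧ e = b % 3 ∧ q = 0 ∧ i < P.k z) ∨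
    (τ = 1 ∧ q = 0 ∧ ((c = a ∧ e = b + 1 ∧ i = 0) ∨ (c = a + 1 ∧ e = b ∧ i = 1))) := by
  simp [mem_atom]

lemma card_anc (a b p : ℕ) (t : T) :
    (anchS a b p (P.k (kd Ts t p)) ∪ ports a b p).card = P.kap (kd Ts t p) := by
  rw [card_union_of_disjoint, card_anchS, card_ports]
  · unfold kd
    split_ifs
    · rw [Ts.kap_main]
    · rw [Ts.kap_pend]
  · rw [disjoint_left]
    rintro ⟨τ, c, e, q, i⟩ h1 h2
    rw [mem_anchS] at h1
    rw [mem_ports] at h2
    omega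

lemma card_atom (a b p : ℕ) (t : T) :
    (atom P a b p (kd Ts t p)).set.card = P.N (kd Ts t p) + P.kap (kd Ts t p) := by
  rw [atom, card_union_of_disjoint, card_ownS, card_anc]
  rw [disjoint_left]
  rintro ⟨τ, c, e, q, i⟩ h1 h2
  rw [mem_ownS] at h1
  rw [mem_union, mem_anchS, mem_ports] at h2
  omega

lemma N_big (z : T ⊕ Fin 3) : P.d + 2 ≤ P.N z := by
  have h1 := P.size_lo z
  have h2 := P.d_big
  nlinarith only [h1, h2]

lemma np_small (t : T) : Ts.np t + 2 ≤ P.d := by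
  have := Ts.room t
  omega

def Valid (μ : Fin 3 → Fin 3 → T) : Prop :=
  Ts.Hor (μ 1 1) (μ 2 1) ∧ Ts.Ver (μ 1 1) (μ 1 2) ∧ Ts.Ver (μ 2 1) (μ 2 2) ∧
    Ts.Ver (μ 2 0) (μ 2 1) ∧ Ts.Hor (μ 0 2) (μ 1 2)

abbrev Idx : Type :=
  {x : (Fin 3 → Fin 3 → T) × Fin P.d × Fin P.d // Valid Ts x.1 ∧ x.2.1.val ≤ Ts.np (x.1 1 1)}

def regS (μ : Fin 3 → Fin 3 → T) : Set (Entry Loc (T ⊕ Fin 3)) :=
  {y | ∃ i j : Fin 3, ∃ p ≤ Ts.np (μ i j), y = atom P i j p (kd Ts (μ i j) p)}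

def blk (μ : Fin 3 → Fin 3 → T) : Finset Loc :=
  insert (2, 0, 0, 0, 0) (univ.biUnion fun i : Fin 3 => univ.biUnion fun j : Fin 3 =>
    (range (Ts.np (μ i j) + 1)).biUnion fun p => (atom P i j p (kd Ts (μ i j) p)).set)

lemma mem_blk {μ : Fin 3 → Fin 3 → T} {x : Loc} :
    x ∈ blk Ts μ ↔ x = (2, 0, 0, 0, 0) ∨ ∃ y ∈ regS Ts μ, x ∈ y.set := by
  simp only [blk, mem_insert, mem_biUnion, mem_univ, true_and, mem_range, regS, Set.mem_ofPred_eq]
  refine or_congr Iff.rfl ⟨?_, ?_⟩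
  · rintro ⟨i, j, p, hp, h⟩
    exact ⟨_, ⟨i, j, p, by omega, rfl⟩, h⟩
  · rintro ⟨_, ⟨i, j, p, hp, rfl⟩, h⟩
    exact ⟨i, j, p, by omega, h⟩

def mainRule (μ : Fin 3 → Fin 3 → T) (p β : ℕ) : Rule Loc where
  verts := blk Ts μ
  KK := (blk Ts μ).filter fun x => x.1 = 0 ∨ x.1 = 2 ∨ x ∈ ports 1 1 p
  cl := {c | ∃ y ∈ regS Ts μ, c = y.set}
  br := fun x s => x = (1, 2, 2, p, β) ∧ s = (2, 0, 0, 0, 0)

def rules : Option (Option (Idx Ts)) → Rule Loc
  | none => ⟨spare (P.d + 2), {(2, 0, 0, 0, 0)}, {spare (P.d + 2)}, fun _ _ => False⟩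
  | some none => ⟨spare P.m, spare P.m, ∅, fun _ _ => False⟩
  | some (some x) => mainRule Ts x.1.1 x.1.2.1 x.1.2.2

open Classical in
lemma inter_single {L : Type} {A B : Finset L} {v : L} (h : ∀ x, x ∈ A ∧ x ∈ B ↔ x = v) :
    A ∩ B = {v} := by
  ext x; rw [mem_inter, mem_singleton, h]

open Classical in
lemma sub_inter {L : Type} {A B C : Finset L} (h1 : A ⊆ B) (h2 : A ⊆ C) : A ⊆ B ∩ C :=
  subset_inter h1 h2

lemma kd_zero (t : T) : kd Ts t 0 = .inl t := rfl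

lemma kd_succ (t : T) (i : ℕ) : kd Ts t (i + 1) = .inr (Ts.pk t i) := rfl

lemma centre_reg {μ : Fin 3 → Fin 3 → T} {p : ℕ} (hp : p ≤ Ts.np (μ 1 1)) :
    atom P 1 1 p (kd Ts (μ 1 1) p) ∈ regS Ts μ := ⟨1, 1, p, hp, rfl⟩

lemma anc_KK {μ : Fin 3 → Fin 3 → T} {p : ℕ} (β : ℕ) (hp : p ≤ Ts.np (μ 1 1)) :
    anchS 1 1 p (P.k (kd Ts (μ 1 1) p)) ∪ ports 1 1 p ⊆ (mainRule Ts μ p β).KK := by
  intro x hx
  refine mem_filter.mpr ⟨(mem_blk Ts).mpr (Or.inr ⟨_, centre_reg Ts hp,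
    mem_union_right _ hx⟩), ?_⟩
  rcases mem_union.mp hx with h | h
  · obtain ⟨τ, c, e, q, i⟩ := x
    exact Or.inl (mem_anchS.mp h).1
  · exact Or.inr (Or.inr h)

noncomputable def blockWit {μ : Fin 3 → Fin 3 → T} (hμ : Valid Ts μ) (β : ℕ) :
    Wit0 Ts (regS Ts μ) (atom P 1 1 0 (.inl (μ 1 1))).set (mainRule Ts μ 0 β).KK (μ 1 1) where
  y := fun ρ => cond ρ (atom P 1 2 0 (.inl (μ 1 2))) (atom P 2 1 0 (.inl (μ 2 1)))
  ys := fun ρ => cond ρ (atom P 0 2 0 (.inl (μ 0 2))) (atom P 2 0 0 (.inl (μ 2 0)))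
  yd := atom P 2 2 0 (.inl (μ 2 2))
  yp := fun i => atom P 1 1 (i + 1) (.inr (Ts.pk (μ 1 1) i))
  v := fun ρ => cond ρ (1, 2, 2, 0, 1) (1, 2, 2, 0, 0)
  gs := fun ρ => cond ρ (1, 1, 3, 0, 0) (1, 3, 1, 0, 1)
  gd := fun ρ => cond ρ (1, 2, 3, 0, 0) (1, 3, 2, 0, 1)
  vp := fun i => (1, 2, 2, 0, i + 2)
  anc := anchS 1 1 0 (P.k (.inl (μ 1 1))) ∪ ports 1 1 0
  tt := fun ρ => cond ρ (μ 1 2) (μ 2 1)
  ts := fun ρ => cond ρ (μ 0 2) (μ 2 0)
  td := μ 2 2
  y_reg := by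
    rintro (_ | _)
    · exact ⟨2, 1, 0, Nat.zero_le _, rfl⟩
    · exact ⟨1, 2, 0, Nat.zero_le _, rfl⟩
  ys_reg := by
    rintro (_ | _)
    · exact ⟨2, 0, 0, Nat.zero_le _, rfl⟩
    · exact ⟨0, 2, 0, Nat.zero_le _, rfl⟩
  yd_reg := ⟨2, 2, 0, Nat.zero_le _, rfl⟩
  yp_reg := fun i hi => ⟨1, 1, i + 1, hi, rfl⟩
  y_kind := by rintro (_ | _) <;> rfl
  ys_kind := by rintro (_ | _) <;> rfl
  yd_kind := rfl
  yp_kind := fun _ _ => rfl
  hor := hμ.1
  ver := hμ.2.1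
  ts_cls := by
    obtain ⟨h1, h2, h3, h4, h5⟩ := hμ
    rintro (_ | _)
    · have := (Ts.ver_cls _ _ h4).symm.trans (Ts.hor_cls _ _ h1)
      simpa [stp] using this
    · have := (Ts.hor_cls _ _ h5).symm.trans (Ts.ver_cls _ _ h2)
      simpa [stp] using this
  td_cls := by
    rw [Ts.ver_cls _ _ hμ.2.2.1, Ts.hor_cls _ _ hμ.1]; ring
  anc_sub := sub_inter subset_union_right (anc_KK Ts β (Nat.zero_le _))
  anc_card := card_anc Ts 1 1 0 _
  v_mem := by
    have h1 := N_big (P := P) (.inl (μ 1 1))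
    rintro (_ | _) <;> refine inter_single ?_ <;> rintro ⟨τ, c, e, q, i⟩ <;>
      simp only [cond, mem_atom0, Prod.mk.injEq] <;> omega
  vp_mem := by
    have h1 := N_big (P := P) (.inl (μ 1 1))
    have h2 := np_small Ts (μ 1 1)
    intro j hj
    refine inter_single ?_
    rintro ⟨τ, c, e, q, i⟩
    simp only [mem_atom, Prod.mk.injEq]
    omega
  v_anc := by
    rintro (_ | _) <;> simp only [cond, mem_union, mem_anchS, mem_ports] <;> omega
  vp_anc := by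
    intro j hj
    simp only [mem_union, mem_anchS, mem_ports]
    omega
  v_ne := by simp
  v_vp := by rintro (_ | _) i _ <;> simp
  vp_inj := by intro i _ j _ h; simpa using h
  gs_mem := by
    have h1 := N_big (P := P) (.inl (μ 0 2))
    have h2 := N_big (P := P) (.inl (μ 2 0))
    rintro (_ | _) <;> refine inter_single ?_ <;> rintro ⟨τ, c, e, q, i⟩ <;>
      simp only [cond, mem_atom0, Prod.mk.injEq] <;> omega
  gd_mem := by
    have h1 := N_big (P := P) (.inl (μ 1 2))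
    have h2 := N_big (P := P) (.inl (μ 2 1))
    rintro (_ | _) <;> refine inter_single ?_ <;> rintro ⟨τ, c, e, q, i⟩ <;>
      simp only [cond, mem_atom0, Prod.mk.injEq] <;> omega
  gs_anch := by rintro (_ | _) <;> simp [atom, mem_anchS]
  gd_anch := by rintro (_ | _) <;> simp [atom, mem_anchS]
  gs_v := by rintro (_ | _) <;> simp
  gd_v := by rintro (_ | _) <;> simp
  gd_gs := by rintro (_ | _) <;> simp

lemma lowOK : LowOK Ts (rules Ts) where
  cl_sub := by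
    rintro (_ | _ | x) c hc
    · exact (Set.mem_singleton_iff.mp hc).subset
    · exact hc.elim
    · obtain ⟨y, hy, rfl⟩ := hc
      exact fun x hx => (mem_blk Ts).mpr (Or.inr ⟨y, hy, hx⟩)
  cl_card := by
    rintro (_ | _ | x) c hc
    · rw [Set.mem_singleton_iff.mp hc, card_spare]
    · exact hc.elim
    · obtain ⟨_, ⟨i, j, p, -, rfl⟩, rfl⟩ := hc
      rw [card_atom]
      exact (N_big _).trans (Nat.le_add_right _ _)
  pad := ⟨some none, subset_rfl, (card_spare _).ge⟩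
  bridge := by
    rintro (_ | _ | ⟨⟨μ, p, β⟩, hμ, hp⟩) x s h
    · exact h.elim
    · exact h.elim
    obtain ⟨rfl, rfl⟩ := h
    refine ⟨fun h => ?_, mem_filter.mpr ⟨mem_insert_self _ _, Or.inr (Or.inl rfl)⟩,
      regS Ts μ, ?_, _, centre_reg Ts hp, ?_,
      ⟨_, subset_union_right, anc_KK Ts β hp, card_anc Ts 1 1 p _⟩, ?_⟩
    · have := (mem_filter.mp h).2
      simp only [mem_ports] at this
      omega
    · rintro _ ⟨i, j, q, hq, rfl⟩
      refine ⟨⟨_, ⟨i, j, q, hq, rfl⟩, rfl⟩, ?_, card_atom Ts _ _ _ _,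
        subset_union_left.trans subset_union_right, ?_, card_anchS _ _ _ _⟩
      · rw [mem_atom]; omega
      · rintro ⟨τ, c, e, q', k⟩ hx
        exact mem_filter.mpr ⟨(mem_blk Ts).mpr (Or.inr ⟨_, ⟨i, j, q, hq, rfl⟩,
          mem_union_right _ (mem_union_left _ hx)⟩), Or.inl (mem_anchS.mp hx).1⟩
    · have := N_big (P := P) (kd Ts (μ 1 1) p)
      have h2 : (β : ℕ) < P.N (kd Ts (μ 1 1) p) := by have := β.2; omega
      exact mem_atom.mpr (Or.inl ⟨rfl, rfl, rfl, rfl, h2⟩)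
    · intro t ht
      obtain ⟨p, hp'⟩ := p
      rcases p with _ | p
      · obtain rfl : μ 1 1 = t := by simpa [atom, kd] using ht
        exact ⟨blockWit Ts hμ β⟩
      · simp [atom, kd] at ht

lemma rules_connected (hk : ∀ z, 1 ≤ P.k z) : (graph (rules Ts)).Connected := by
  let z0 : Vx (rules Ts) := ⟨(none, (2, 0, 0, 0, 0)), mem_spare.mpr (by omega)⟩
  have hz0 : isK (rules Ts) z0 := mem_singleton_self _
  have h1 : ∀ x y, rel (rules Ts) x y → (graph (rules Ts)).Reachable x y := by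
    intro x y h
    by_cases hxy : x = y
    · rw [hxy]
    · exact (graph_adj.mpr ⟨hxy, Or.inl h⟩).reachable
  have h2 : ∀ x, ∃ y, isK (rules Ts) y ∧ rel (rules Ts) x y := by
    rintro ⟨⟨_ | _ | ⟨⟨μ, p, β⟩, hμ, hp⟩, x⟩, hx⟩
    · exact ⟨z0, hz0, Or.inr ⟨rfl, Or.inl ⟨_, rfl, hx, z0.2⟩⟩⟩
    · exact ⟨z0, hz0, Or.inl ⟨hx, hz0⟩⟩
    · rcases (mem_blk Ts).mp hx with h | ⟨y, hy, h⟩
      · exact ⟨z0, hz0, Or.inl ⟨mem_filter.mpr ⟨hx, Or.inr (Or.inl (by rw [h]))⟩, hz0⟩⟩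
      · obtain ⟨i, j, q, hq, rfl⟩ := id hy
        have h3 : ((0, i % 3, j % 3, q, 0) : Loc) ∈ (atom P i j q (kd Ts (μ i j) q)).set :=
          mem_atom.mpr (Or.inr (Or.inl ⟨rfl, rfl, rfl, rfl, hk _⟩))
        have h4 := (mem_blk Ts).mpr (Or.inr ⟨_, hy, h3⟩)
        exact ⟨⟨(some (some ⟨⟨μ, p, β⟩, hμ, hp⟩), _), h4⟩, mem_filter.mpr ⟨h4, Or.inl rfl⟩,
          Or.inr ⟨rfl, Or.inl ⟨_, ⟨_, hy, rfl⟩, h, h3⟩⟩⟩
  rw [SimpleGraph.connected_iff_exists_forall_reachable]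
  refine ⟨z0, fun x => ?_⟩
  obtain ⟨y, hy, h⟩ := h2 x
  exact (h1 _ _ (Or.inl ⟨hz0, hy⟩)).trans (h1 _ _ h).symm

end Pool.Agent.Work.MP_e0d07f_co
end

-- merged part: Pool.Agent.Work.MP_e0d07f_co.Upper
section
namespace Pool.Agent.Work.MP_e0d07f_co

open Finset

variable {T : Type} {P : Num (T ⊕ Fin 3)} (Ts : TSys P)

/-- Translation of a block. -/
def tr (a b : ℕ) (s x : Loc) : Loc :=
  if x.1 = 0 then (0, (a + x.2.1) % 3, (b + x.2.2.1) % 3, x.2.2.2)
  else if x.1 = 1 then (1, a + x.2.1, b + x.2.2.1, x.2.2.2) else s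

lemma tr0 (a b : ℕ) (s : Loc) (c e q i : ℕ) :
    tr a b s (0, c, e, q, i) = (0, (a + c) % 3, (b + e) % 3, q, i) := rfl
lemma tr1 (a b : ℕ) (s : Loc) (c e q i : ℕ) :
    tr a b s (1, c, e, q, i) = (1, a + c, b + e, q, i) := rfl
lemma tr2 (a b : ℕ) (s : Loc) (c e q i : ℕ) : tr a b s (2, c, e, q, i) = s := rfl

lemma tr_atom {a b i j p : ℕ} {s x : Loc} {z : T ⊕ Fin 3} (h : x ∈ (atom P i j p z).set) :
    tr a b s x ∈ (atom P (a + i) (b + j) p z).set := by
  obtain ⟨τ, c, e, q, k⟩ := x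
  rw [mem_atom] at h
  rcases h with ⟨rfl, rfl, rfl, rfl, h⟩ | ⟨rfl, rfl, rfl, rfl, h⟩ | ⟨rfl, rfl, h | h | h⟩
  · exact mem_atom.mpr (Or.inl ⟨rfl, rfl, rfl, rfl, h⟩)
  · rw [tr0]; exact mem_atom.mpr (Or.inr (Or.inl ⟨rfl, by omega, by omega, rfl, h⟩))
  · rw [tr1]; exact mem_atom.mpr (Or.inr (Or.inr ⟨rfl, rfl, Or.inl (by omega)⟩))
  · rw [tr1]; exact mem_atom.mpr (Or.inr (Or.inr ⟨rfl, rfl, Or.inr (Or.inl (by omega))⟩))
  · rw [tr1]; exact mem_atom.mpr (Or.inr (Or.inr ⟨rfl, rfl, Or.inr (Or.inr (by omega))⟩))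

lemma blk_cases {μ : Fin 3 → Fin 3 → T} {τ c e q i : ℕ} (h : (τ, c, e, q, i) ∈ blk Ts μ) :
    (τ = 0 ∧ c < 3 ∧ e < 3) ∨ τ = 1 ∨ (τ = 2 ∧ c = 0 ∧ e = 0 ∧ q = 0 ∧ i = 0) := by
  rcases (mem_blk Ts).mp h with h | ⟨_, ⟨i, j, p, -, rfl⟩, h⟩
  · simp only [Prod.mk.injEq] at h; omega
  · rw [mem_atom] at h; (clear * - h; omega)

lemma tr_inj (μ : Fin 3 → Fin 3 → T) (a b : ℕ) {s : Loc} (hs : s.1 = 2) :
    Set.InjOn (tr a b s) (blk Ts μ) := by
  rintro ⟨τ, c, e, q, i⟩ hx ⟨τ', c', e', q', i'⟩ hy h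
  obtain ⟨s1, s2, s3, s4, s5⟩ := s
  simp only at hs
  rcases blk_cases Ts hx with ⟨rfl, h1⟩ | rfl | ⟨rfl, h1⟩ <;>
    rcases blk_cases Ts hy with ⟨rfl, h2⟩ | rfl | ⟨rfl, h2⟩ <;>
    simp only [tr0, tr1, tr2, Prod.mk.injEq, true_and] at h ⊢ <;> omega

variable (lab : ℕ → ℕ → T)

abbrev hat (a b p : ℕ) : Entry Loc (T ⊕ Fin 3) := atom P a b p (kd Ts (lab a b) p)

lemma fire [Finite T] (hor : ∀ i j, Ts.Hor (lab i j) (lab (i + 1) j))
    (ver : ∀ i j, Ts.Ver (lab i j) (lab i (j + 1))) {VS : Finset Loc} {M : ℕ}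
    {H : SimpleGraph Loc} (c : Ctx (rules Ts) P.d VS (spare M) H) {a b p : ℕ}
    (hp : p ≤ Ts.np (lab (a + 1) (b + 1)))
    (hcl : ∀ i j : Fin 3, ∀ q ≤ Ts.np (lab (a + i) (b + j)),
      (hat Ts lab (a + i) (b + j) q).set ⊆ VS ∧
        H.IsClique ((hat Ts lab (a + i) (b + j) q).set : Set Loc))
    (hK : ∀ x ∈ VS, x.1 = 0 → Abs (spare M) H x)
    (hport : ∀ x ∈ ports (a + 1) (b + 1) p, Abs (spare M) H x) :
    ∀ i < P.N (kd Ts (lab (a + 1) (b + 1)) p), Abs (spare M) H (1, a + 2, b + 2, p, i) := by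
  let μ : Fin 3 → Fin 3 → T := fun i j => lab (a + i) (b + j)
  have hμ : Valid Ts μ := ⟨hor _ _, ver _ _, ver _ _, ver _ _, hor _ _⟩
  have hpd : p < P.d := by have := np_small Ts (lab (a + 1) (b + 1)); omega
  have hN := N_big (P := P) (kd Ts (lab (a + 1) (b + 1)) p)
  have h1 : ∀ β < P.d, Abs (spare M) H (1, a + 2, b + 2, p, β) := by
    intro β hβ s hs _
    have hs2 : s.1 = 2 := by
      obtain ⟨τ, c, e, q, i⟩ := s
      exact (mem_spare.mp hs).1
    have hVS : ∀ x ∈ blk Ts μ, tr a b s x ∈ VS := by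
      intro x hx
      rcases (mem_blk Ts).mp hx with rfl | ⟨_, ⟨i, j, q, hq, rfl⟩, h⟩
      · exact c.Q_sub hs
      · exact (hcl i j q hq).1 (tr_atom h)
    have hKa : ∀ z ∈ blk Ts μ, z ∈ (mainRule Ts μ p β).KK → Abs (spare M) H (tr a b s z) := by
      rintro ⟨τ, c', e, q, i⟩ hz hk
      rcases (mem_filter.mp hk).2 with h | h | h
      · obtain rfl : τ = 0 := h
        exact hK _ (hVS _ hz) rfl
      · obtain rfl : τ = 2 := h
        exact c.Q_abs _ hs
      · rw [mem_ports] at h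
        obtain ⟨rfl, h⟩ := h
        refine hport _ ?_
        rw [tr1, mem_ports]
        (clear * - h; omega)
    have hx : ((1, 2, 2, p, β) : Loc) ∈ blk Ts μ :=
      (mem_blk Ts).mpr (Or.inr ⟨_, centre_reg Ts hp,
        mem_atom.mpr (Or.inl ⟨rfl, rfl, rfl, rfl, lt_of_lt_of_le (by omega) hN⟩)⟩)
    refine c.ext (some (some ⟨(μ, ⟨p, hpd⟩, ⟨β, hβ⟩), hμ, hp⟩)) (tr a b s) (tr_inj Ts μ a b hs2)
      hVS hx (mem_insert_self _ _) (by simp) (Or.inr ⟨rfl, rfl⟩) hKa ?_ ?_ ?_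
    · intro z hz z' hz' h h' hne
      exact c.abs_adj (hVS z hz) (hVS z' hz') (fun e => hne (tr_inj Ts μ a b hs2 hz hz' e))
        (hKa z hz h) (hKa z' hz' h')
    · rintro _ ⟨y, hy, rfl⟩ z hz z' hz' hne
      have hz1 := (mem_blk Ts).mpr (Or.inr ⟨y, hy, hz⟩)
      have hz2 := (mem_blk Ts).mpr (Or.inr ⟨y, hy, hz'⟩)
      obtain ⟨i, j, q, hq, rfl⟩ := hy
      exact Or.inr ((hcl i j q hq).2 (tr_atom hz) (tr_atom hz')
        fun e => hne (tr_inj Ts μ a b hs2 hz1 hz2 e))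
    · rintro _ _ ⟨rfl, rfl⟩
      rfl
  intro i hi
  by_cases hid : i < P.d
  · exact h1 i hid
  obtain ⟨h2, h3⟩ := hcl 1 1 p hp
  have hm : ∀ j < P.N (kd Ts (lab (a + 1) (b + 1)) p),
      ((1, a + 2, b + 2, p, j) : Loc) ∈ (hat Ts lab (a + 1) (b + 1) p).set :=
    fun j hj => mem_atom.mpr (Or.inl ⟨rfl, rfl, rfl, rfl, hj⟩)
  refine c.abs_of_nbrs (h2 (hm i hi)) (ownS (a + 1) (b + 1) p P.d) ?_ (card_ownS _ _ _ _).ge ?_
  · rintro ⟨τ, c', e, q, j⟩ hj
    obtain ⟨rfl, rfl, rfl, rfl, hj'⟩ := mem_ownS.mp hj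
    exact h2 (hm j (by omega))
  · rintro ⟨τ, c', e, q, j⟩ hj
    obtain ⟨rfl, rfl, rfl, rfl, hj'⟩ := mem_ownS.mp hj
    exact ⟨h1 j hj', h3 (hm i hi) (hm j (by omega)) (by simp; omega)⟩

def Own (A B : ℕ) : Finset Loc :=
  ((range A).sigma fun a => (range B).sigma fun b => (range (Ts.np (lab a b) + 1)).sigma
    fun p => range (P.N (kd Ts (lab a b) p))).image
      fun x => (1, x.1 + 1, x.2.1 + 1, x.2.2.1, x.2.2.2)

lemma mem_Own {A B τ c e q i : ℕ} : (τ, c, e, q, i) ∈ Own Ts lab A B ↔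
    τ = 1 ∧ ∃ a < A, ∃ b < B, c = a + 1 ∧ e = b + 1 ∧ q ≤ Ts.np (lab a b) ∧
      i < P.N (kd Ts (lab a b) q) := by
  simp only [Own, mem_image, mem_sigma, mem_range, Prod.mk.injEq]
  constructor
  · rintro ⟨⟨a, b, p, j⟩, ⟨h1, h2, h3, h4⟩, rfl, rfl, rfl, rfl, rfl⟩
    exact ⟨rfl, a, h1, b, h2, rfl, rfl, Nat.lt_succ_iff.mp h3, h4⟩
  · rintro ⟨rfl, a, h1, b, h2, rfl, rfl, h3, h4⟩
    exact ⟨⟨a, b, q, i⟩, ⟨h1, h2, Nat.lt_succ_iff.mpr h3, h4⟩, rfl, rfl, rfl, rfl, rfl⟩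

def csz (t : T) : ℕ := ∑ p ∈ range (Ts.np t + 1), P.N (kd Ts t p)

lemma card_Own (A B : ℕ) :
    (Own Ts lab A B).card = ∑ a ∈ range A, ∑ b ∈ range B, csz Ts (lab a b) := by
  rw [Own, card_image_of_injective]
  · simp [card_sigma, csz]
  · rintro ⟨a, b, p, j⟩ ⟨a', b', p', j'⟩ h
    simp only [Prod.mk.injEq, add_left_inj, true_and] at h
    obtain ⟨rfl, rfl, rfl, rfl⟩ := h
    rfl

lemma N_le (z : T ⊕ Fin 3) : P.N z ≤ P.d * P.d := by
  have := P.size_hi z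
  omega

include Ts in
lemma k_small (z : T ⊕ Fin 3) (t : T) : P.k z ≤ P.d := by
  have := Ts.k_le z
  have := Ts.room t
  omega

lemma csz_bd (t : T) : 1 ≤ csz Ts t ∧ csz Ts t ≤ P.d * (P.d * P.d) := by
  constructor
  · rw [csz, sum_range_succ']
    have := N_big (P := P) (kd Ts t 0)
    omega
  · refine (sum_le_card_nsmul _ _ _ fun p _ => N_le _).trans ?_
    rw [card_range, smul_eq_mul]
    exact Nat.mul_le_mul_right _ (by have := np_small Ts t; omega)

def Fix (d A B : ℕ) : Finset Loc :=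
  {0} ×ˢ range 3 ×ˢ range 3 ×ˢ range d ×ˢ range d ∪
    ({1} ×ˢ {0} ×ˢ range (B + 1) ×ˢ {0} ×ˢ {0} ∪ {1} ×ˢ range (A + 1) ×ˢ {0} ×ˢ {0} ×ˢ {1})

lemma card_Fix (d A B : ℕ) : (Fix d A B).card ≤ 9 * (d * d) + (B + 1) + (A + 1) := by
  refine (card_union_le _ _).trans ((add_le_add_right (card_union_le _ _) _).trans (le_of_eq ?_))
  simp only [card_product, card_singleton, card_range]
  ring

def Mar (d A B : ℕ) : Finset Loc :=
  {1} ×ˢ {1, A} ×ˢ range (B + 1) ×ˢ range d ×ˢ range (d * d) ∪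
    {1} ×ˢ range (A + 1) ×ˢ {1, B} ×ˢ range d ×ˢ range (d * d)

lemma card_Mar (d A B : ℕ) : (Mar d A B).card ≤ 2 * (A + B + 2) * (d * (d * d)) := by
  refine (card_union_le _ _).trans ?_
  simp only [card_product, card_singleton, card_range]
  have h1 : ({1, A} : Finset ℕ).card ≤ 2 := card_le_two
  have h2 : ({1, B} : Finset ℕ).card ≤ 2 := card_le_two
  have h3 := Nat.mul_le_mul_right ((B + 1) * (d * (d * d))) h1
  have h4 := Nat.mul_le_mul_right ((A + 1) * (d * (d * d))) h2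
  nlinarith only [h3, h4]

def Act (A B : ℕ) : Finset Loc :=
  (Own Ts lab A B).filter fun x => 2 ≤ x.2.1 ∧ x.2.1 < A ∧ 2 ≤ x.2.2.1 ∧ x.2.2.1 < B

lemma card_Act (A B : ℕ) :
    (Own Ts lab A B).card ≤ (Act Ts lab A B).card + 2 * (A + B + 2) * (P.d * (P.d * P.d)) := by
  refine (card_le_card (t := Act Ts lab A B ∪ Mar P.d A B) ?_).trans
    ((card_union_le _ _).trans (add_le_add_right (card_Mar _ _ _) _))
  rintro ⟨τ, c, e, q, i⟩ hx
  obtain ⟨rfl, a, h1, b, h2, rfl, rfl, h3, h4⟩ := (mem_Own Ts lab).mp hx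
  have h5 := np_small Ts (lab a b)
  have h6 := N_le (P := P) (kd Ts (lab a b) q)
  simp only [Act, Mar, mem_union, mem_filter, hx, mem_product, mem_singleton, mem_insert,
    mem_range, true_and]
  omega

lemma hat_sub {A B a b p : ℕ} (ha : a < A) (hb : b < B) (hp : p ≤ Ts.np (lab a b)) :
    (hat Ts lab a b p).set ⊆ Fix P.d A B ∪ Own Ts lab A B := by
  rintro ⟨τ, c, e, q, i⟩ hx
  have h5 := np_small Ts (lab a b)
  have h6 := k_small Ts (kd Ts (lab a b) p) (lab a b)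
  have hN : ∀ z, P.d + 2 ≤ P.N z := N_big
  rw [mem_union, mem_Own]
  simp only [Fix, mem_union, mem_product, mem_singleton, mem_range]
  rcases mem_atom.mp hx with ⟨rfl, rfl, rfl, rfl, h⟩ | h |
    ⟨rfl, rfl, ⟨rfl, rfl, rfl, rfl⟩ | ⟨rfl, rfl, rfl, rfl⟩ | ⟨h, rfl, rfl, rfl⟩⟩
  · exact Or.inr ⟨rfl, a, ha, b, hb, rfl, rfl, hp, h⟩
  · left; (clear * - ha hb hp h5 h6 h; omega)
  · rcases c with _ | c
    · left; omega
    · exact Or.inr ⟨rfl, c, by omega, b, hb, rfl, rfl, Nat.zero_le _,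
        lt_of_lt_of_le (by omega) (hN _)⟩
  · rcases e with _ | e
    · left; omega
    · exact Or.inr ⟨rfl, a, ha, e, by omega, rfl, rfl, Nat.zero_le _,
        lt_of_lt_of_le (by omega) (hN _)⟩
  · exact Or.inr ⟨rfl, a, ha, b, hb, rfl, rfl, Nat.zero_le _, lt_of_lt_of_le (by omega) (hN _)⟩

lemma all_abs [Finite T] (hor : ∀ i j, Ts.Hor (lab i j) (lab (i + 1) j))
    (ver : ∀ i j, Ts.Ver (lab i j) (lab i (j + 1))) {VS : Finset Loc} {M A B : ℕ}
    {H : SimpleGraph Loc} (c : Ctx (rules Ts) P.d VS (spare M) H)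
    (hVS : Fix P.d A B ∪ Own Ts lab A B ⊆ VS)
    (hbr : ∀ x ∈ VS, x ∉ Act Ts lab A B → Abs (spare M) H x)
    (hcl : ∀ a < A, ∀ b < B, ∀ p ≤ Ts.np (lab a b), H.IsClique ((hat Ts lab a b p).set : Set Loc)) :
    ∀ x ∈ VS, Abs (spare M) H x := by
  have hN : ∀ z, P.d + 2 ≤ P.N z := N_big
  have hK : ∀ x ∈ VS, x.1 = 0 → Abs (spare M) H x := by
    rintro ⟨τ, c, e, q, i⟩ hx h
    refine hbr _ hx fun h' => ?_
    have := ((mem_Own Ts lab).mp (mem_filter.mp h').1).1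
    simp only at h
    omega
  have hf : ∀ a b p, a + 2 < A → b + 2 < B → p ≤ Ts.np (lab (a + 1) (b + 1)) →
      (∀ x ∈ ports (a + 1) (b + 1) p, Abs (spare M) H x) →
      ∀ i < P.N (kd Ts (lab (a + 1) (b + 1)) p), Abs (spare M) H (1, a + 2, b + 2, p, i) := by
    intro a b p ha hb hp hport
    refine fire Ts lab hor ver c hp (fun i j q hq => ?_) hK hport
    have := i.2
    have := j.2
    exact ⟨(hat_sub Ts lab (by omega) (by omega) hq).trans hVS,
      hcl _ (by omega) _ (by omega) q hq⟩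
  have hmain : ∀ s a b, a + b = s → a < A → b < B → ∀ i < P.N (kd Ts (lab a b) 0),
      Abs (spare M) H (1, a + 1, b + 1, 0, i) := by
    intro s
    induction s using Nat.strong_induction_on with
    | _ s ih =>
      intro a b hs ha hb i hi
      by_cases h : ((1, a + 1, b + 1, 0, i) : Loc) ∈ Act Ts lab A B
      · have h1 := (mem_filter.mp h).2
        simp only at h1
        obtain ⟨a, rfl⟩ : ∃ a', a = a' + 1 := ⟨a - 1, by omega⟩
        obtain ⟨b, rfl⟩ : ∃ b', b = b' + 1 := ⟨b - 1, by omega⟩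
        refine hf a b 0 (by omega) (by omega) (Nat.zero_le _) ?_ i hi
        rintro ⟨τ, c, e, q, j⟩ hx
        obtain ⟨rfl, rfl, ⟨-, rfl, rfl, rfl⟩ | ⟨-, rfl, rfl, rfl⟩ | ⟨h2, -⟩⟩ := mem_ports.mp hx
        · exact ih _ (by omega) a (b + 1) rfl (by omega) hb 0 (lt_of_lt_of_le (by omega) (hN _))
        · exact ih _ (by omega) (a + 1) b rfl ha (by omega) 1 (lt_of_lt_of_le (by omega) (hN _))
        · exact (h2 rfl).elim
      · exact hbr _ (hVS (mem_union_right _ ((mem_Own Ts lab).mpr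
          ⟨rfl, a, ha, b, hb, rfl, rfl, Nat.zero_le _, hi⟩))) h
  rintro ⟨τ, c, e, q, i⟩ hx
  by_cases h : ((τ, c, e, q, i) : Loc) ∈ Act Ts lab A B
  · obtain ⟨h0, h1⟩ := mem_filter.mp h
    obtain ⟨rfl, a, ha, b, hb, rfl, rfl, hq, hi⟩ := (mem_Own Ts lab).mp h0
    simp only at h1
    rcases q with _ | q
    · exact hmain _ a b rfl ha hb i hi
    obtain ⟨a, rfl⟩ : ∃ a', a = a' + 1 := ⟨a - 1, by omega⟩
    obtain ⟨b, rfl⟩ : ∃ b', b = b' + 1 := ⟨b - 1, by omega⟩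
    refine hf a b _ (by omega) (by omega) hq ?_ i hi
    rintro ⟨τ, c, e, q', j⟩ hx
    obtain ⟨rfl, rfl, ⟨h2, -⟩ | ⟨h2, -⟩ | ⟨-, rfl, rfl, rfl⟩⟩ := mem_ports.mp hx
    · omega
    · omega
    · have := np_small Ts (lab (a + 1) (b + 1))
      exact hmain _ _ _ rfl ha hb _ (lt_of_lt_of_le (by omega) (hN _))
  · exact hbr _ hx h

lemma gen_bound (z : T ⊕ Fin 3) {x : ℝ}
    (h : 2 * x ≤ P.d * (P.d - 1) - P.k z * (P.k z - 1) + 2 * P.d * (P.N z + P.kap z - P.d)) :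
    2 * x ≤ 2 * ((P.d - P.eps) * P.N z + P.base z) + P.kap z * (P.kap z - 1)
      - P.k z * (P.k z - 1) := by
  have h1 : P.kap z ≤ P.d := by
    have h2 := P.kap_small z
    have h3 := P.one_le_eps
    have h4 : (0 : ℝ) ≤ P.kap z := by positivity
    have : (P.kap z : ℝ) ≤ P.d := by linarith
    exact_mod_cast this
  have h2 := two_mul_Tri P.d (P.kap z) h1
  unfold Num.base
  linarith only [h, h2]

lemma cell_bound (t : T) (x : ℕ → ℝ) (h : ∀ p, 2 * x p ≤ P.d * (P.d - 1) -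
      P.k (kd Ts t p) * (P.k (kd Ts t p) - 1) +
      2 * P.d * (P.N (kd Ts t p) + P.kap (kd Ts t p) - P.d)) :
    ∑ p ∈ range (Ts.np t + 1), x p ≤ (P.d - P.eps) * csz Ts t + P.eps * Ts.xi t := by
  rw [← Ts.cell, csz, sum_range_succ', sum_range_succ']
  have h0 := gen_bound _ (h 0)
  rw [kd_zero, Ts.kap_main] at h0
  have h1 : ∑ p ∈ range (Ts.np t), x (p + 1) ≤ ∑ p ∈ range (Ts.np t),
      ((P.d - P.eps) * P.N (kd Ts t (p + 1)) +
        (P.base (.inr (Ts.pk t p)) + P.k (.inr (Ts.pk t p)))) := by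
    refine sum_le_sum fun p _ => ?_
    have h2 := gen_bound _ (h (p + 1))
    rw [kd_succ, Ts.kap_pend] at h2
    rw [kd_succ]
    push_cast at h2
    linarith only [h2]
  rw [sum_add_distrib, ← mul_sum] at h1
  rw [kd_zero]
  push_cast at h0 ⊢
  linarith

lemma host_bound [Finite T] (hk : ∀ z, 1 ≤ P.k z) (hor : ∀ i j, Ts.Hor (lab i j) (lab (i + 1) j))
    (ver : ∀ i j, Ts.Ver (lab i j) (lab i (j + 1)))
    (row : ∀ j n, ∑ i ∈ range n, Ts.xi (lab i j) ≤ 1) {M A B n : ℕ}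
    (hM : 2 * Nat.card (Vx (rules Ts)) ≤ M) (hMd : P.d ≤ M)
    (hn : 9 * (P.d * P.d) + (B + 1) + (A + 1) + (Own Ts lab A B).card + M ≤ n) :
    (wsat (graph (rules Ts)) n : ℝ) ≤ M * M + (n - (Act Ts lab A B).card) * P.d +
      ((P.d - P.eps) * (Own Ts lab A B).card + P.eps * B) := by
  have hg : ∀ a b p, ∃ E : Finset (Sym2 Loc), 2 * (E.card : ℝ) ≤ P.d * (P.d - 1) -
      P.k (kd Ts (lab a b) p) * (P.k (kd Ts (lab a b) p) - 1) +
      2 * P.d * (P.N (kd Ts (lab a b) p) + P.kap (kd Ts (lab a b) p) - P.d) ∧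
      ∀ (VS Q : Finset Loc) (H : SimpleGraph Loc), Ctx (rules Ts) P.d VS Q H →
        (hat Ts lab a b p).set ⊆ VS → (∀ g ∈ (hat Ts lab a b p).anch, Abs Q H g) →
        (∀ u ∈ (hat Ts lab a b p).set, ∀ v ∈ (hat Ts lab a b p).set, u ≠ v → s(u, v) ∈ E →
          H.Adj u v) → H.IsClique ((hat Ts lab a b p).set : Set Loc) := by
    intro a b p
    have h1 : (hat Ts lab a b p).anch.card = P.k (kd Ts (lab a b) p) := card_anchS _ _ _ _
    have h2 := card_atom Ts a b p (lab a b)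
    have h3 := N_big (P := P) (kd Ts (lab a b) p)
    obtain ⟨E, h4, h5⟩ := exists_gen (rules Ts) P.d (hat Ts lab a b p).set (hat Ts lab a b p).anch
      (subset_union_left.trans subset_union_right) (h1 ▸ hk _) (h1 ▸ k_small Ts _ (lab a b))
      (by rw [h2]; omega)
    rw [h1, h2] at h4
    push_cast at h4
    exact ⟨E, h4, h5⟩
  choose gE hgE hgE' using hg
  let V0 := Fix P.d A B ∪ Own Ts lab A B
  have hV0 : V0.card + M ≤ n := by
    have h1 := card_Fix P.d A B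
    have h2 : V0.card ≤ _ := card_union_le _ _
    omega
  let VS := V0 ∪ spare (n - V0.card)
  have hcard : VS.card = n := by
    rw [card_union_of_disjoint, card_spare]
    · omega
    · rw [disjoint_left]
      rintro ⟨τ, c, e, q, i⟩ h1 h2
      have h3 := (mem_spare.mp h2).1
      rw [mem_union, mem_Own] at h1
      simp only [Fix, mem_union, mem_product, mem_singleton] at h1
      omega
  have hsp : ∀ {k l : ℕ}, k ≤ l → spare k ⊆ spare l := fun h =>
    image_subset_image (range_subset_range.mpr h)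
  have hQ : spare M ⊆ VS := (hsp (by omega)).trans subset_union_right
  let E := (spare M ×ˢ spare M).image Sym2.mk.uncurry ∪
    ((VS \ Act Ts lab A B) ×ˢ spare P.d).image Sym2.mk.uncurry ∪
    (range A).biUnion fun a => (range B).biUnion fun b =>
      (range (Ts.np (lab a b) + 1)).biUnion fun p => gE a b p
  have hw : wsat (graph (rules Ts)) n ≤ E.card := by
    rw [← hcard]
    refine wsat_le_of_loc _ VS E fun H hE hc => ?_
    have c : Ctx (rules Ts) P.d VS (spare M) H :=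
      { closed := hc
        Q_sub := hQ
        Q_card := by rwa [card_spare]
        Q_abs := fun q hq q' hq' hne => hE q (hQ hq) q' (hQ hq') hne.symm (mem_union_left _
          (mem_union_left _ (mem_image.mpr ⟨(q, q'), mem_product.mpr ⟨hq, hq'⟩, rfl⟩)))
        crule := ⟨none, (2, 0, 0, 0, 0), rfl, rfl, mem_spare.mpr (by omega), card_spare _,
          fun _ _ h => h⟩ }
    have hbr : ∀ x ∈ VS, x ∉ Act Ts lab A B → Abs (spare M) H x := by
      intro x hx hx'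
      by_cases h : x ∈ spare M
      · exact c.Q_abs x h
      · refine c.abs_of_nbrs hx (spare P.d) ((hsp hMd).trans hQ) (card_spare _).ge fun g hg => ?_
        exact ⟨c.Q_abs g (hsp hMd hg), hE x hx g (hQ (hsp hMd hg)) (fun e => h (e ▸ hsp hMd hg))
          (mem_union_left _ (mem_union_right _ (mem_image.mpr
            ⟨(x, g), mem_product.mpr ⟨mem_sdiff.mpr ⟨hx, hx'⟩, hg⟩, rfl⟩)))⟩
    have habs := all_abs Ts lab hor ver c (A := A) (B := B) subset_union_left hbr ?_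
    · exact fun u hu v hv huv => c.abs_adj hu hv huv (habs u hu) (habs v hv)
    · intro a ha b hb p hp
      have hsub : (hat Ts lab a b p).set ⊆ VS := (hat_sub Ts lab ha hb hp).trans subset_union_left
      refine hgE' a b p VS _ H c hsub ?_ fun u hu v hv huv h => hE u (hsub hu) v (hsub hv) huv
        (mem_union_right _ (mem_biUnion.mpr ⟨a, mem_range.mpr ha, mem_biUnion.mpr
          ⟨b, mem_range.mpr hb, mem_biUnion.mpr ⟨p, mem_range.mpr (by omega), h⟩⟩⟩))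
      rintro ⟨τ, c, e, q, i⟩ hg
      refine hbr _ (hsub (mem_union_right _ (mem_union_left _ hg))) fun h => ?_
      have h1 := ((mem_Own Ts lab).mp (mem_filter.mp h).1).1
      have h2 := (mem_anchS.mp hg).1
      omega
  have hAct : Act Ts lab A B ⊆ VS :=
    (filter_subset _ _).trans (subset_union_right.trans subset_union_left)
  have hE : E.card ≤ M * M + (n - (Act Ts lab A B).card) * P.d +
      ∑ a ∈ range A, ∑ b ∈ range B, ∑ p ∈ range (Ts.np (lab a b) + 1), (gE a b p).card := by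
    refine (card_union_le _ _).trans (add_le_add ((card_union_le _ _).trans (add_le_add ?_ ?_)) ?_)
    · exact card_image_le.trans (by rw [card_product, card_spare])
    · exact card_image_le.trans (by rw [card_product, card_spare, card_sdiff_of_subset hAct, hcard])
    · exact card_biUnion_le.trans (sum_le_sum fun a _ => card_biUnion_le.trans
        (sum_le_sum fun b _ => card_biUnion_le))
  have hE' := (Nat.cast_le (α := ℝ)).mpr (hw.trans hE)
  push_cast [Nat.cast_sub (hcard ▸ card_le_card hAct : (Act Ts lab A B).card ≤ n)] at hE'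
  refine hE'.trans (add_le_add_right ?_ _)
  refine (sum_le_sum fun a _ => sum_le_sum fun b _ =>
    cell_bound Ts (lab a b) (fun p => ((gE a b p).card : ℝ)) (hgE a b)).trans ?_
  rw [card_Own]
  simp only [sum_add_distrib, ← mul_sum]
  push_cast
  refine add_le_add_right (mul_le_mul_of_nonneg_left ?_ (by linarith only [P.one_le_eps])) _
  rw [sum_comm]
  refine (sum_le_sum fun b _ => row b A).trans ?_
  simp

theorem upper_bound [Finite T] (hk : ∀ z, 1 ≤ P.k z)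
    (hor : ∀ i j, Ts.Hor (lab i j) (lab (i + 1) j))
    (ver : ∀ i j, Ts.Ver (lab i j) (lab i (j + 1)))
    (row : ∀ j n, ∑ i ∈ range n, Ts.xi (lab i j) ≤ 1) :
    ∃ c : ℝ, ∀ B : ℕ, 1 ≤ B → ∃ (c' : ℝ) (n0 : ℕ), ∀ n ≥ n0,
      (wsat (graph (rules Ts)) n : ℝ) ≤ (P.d - P.eps) * n + c' + c * (n / B) := by
  obtain ⟨M, hM, hMd⟩ : ∃ M, 2 * Nat.card (Vx (rules Ts)) ≤ M ∧ P.d ≤ M :=
    ⟨_, le_max_left _ _, le_max_right _ _⟩
  obtain ⟨cm, hcm⟩ : ∃ cm, cm = P.d * (P.d * P.d) := ⟨_, rfl⟩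
  refine ⟨(1 + 2 * cm) * P.d, fun B hB => ?_⟩
  obtain ⟨c0, hc0⟩ : ∃ c0, c0 = 9 * (P.d * P.d) + (B + 1) + 1 + M := ⟨_, rfl⟩
  refine ⟨M * M + (B * cm + 1 + c0 + 2 * (B + 2) * cm) * P.d + P.eps * B, c0, fun n hn => ?_⟩
  have hex : ∃ A, n < (Own Ts lab (A + 1) B).card + (A + 1) + c0 := ⟨n, by omega⟩
  obtain ⟨A, h1, h2⟩ : ∃ A, n < (Own Ts lab (A + 1) B).card + (A + 1) + c0 ∧
      (Own Ts lab A B).card + A + c0 ≤ n := by
    refine ⟨Nat.find hex, Nat.find_spec hex, ?_⟩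
    rcases h : Nat.find hex with _ | A
    · rw [card_Own]; simpa using hn
    · exact not_lt.mp (Nat.find_min hex (by omega))
  have h3 : (Own Ts lab (A + 1) B).card ≤ (Own Ts lab A B).card + B * cm := by
    rw [card_Own, card_Own, sum_range_succ]
    refine add_le_add_right ((sum_le_card_nsmul _ _ _ fun b _ => (csz_bd Ts _).2).trans ?_) _
    rw [card_range, smul_eq_mul, hcm]
  have h4 : A * B ≤ (Own Ts lab A B).card := by
    rw [card_Own]
    refine le_trans ?_ (sum_le_sum fun a _ => sum_le_sum fun b _ => (csz_bd Ts (lab a b)).1)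
    simp
  have h5 := card_Act Ts lab A B
  rw [← hcm] at h5
  have h6 := host_bound Ts lab hk hor ver row hM hMd (A := A) (B := B) (n := n) (by omega)
  have h7 : (n : ℝ) - (Act Ts lab A B).card ≤ B * cm + 1 + c0 + 2 * (B + 2) * cm
      + (1 + 2 * cm) * A := by
    have : n ≤ (Act Ts lab A B).card + (B * cm + 1 + c0 + 2 * (B + 2) * cm + (1 + 2 * cm) * A) := by
      nlinarith only [h1, h3, h5]
    have := (Nat.cast_le (α := ℝ)).mpr this
    push_cast at this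
    linarith only [this]
  have h8 : (A : ℝ) ≤ n / B := by
    rw [le_div_iff₀ (by exact_mod_cast hB)]
    exact_mod_cast (by omega : A * B ≤ n)
  have h9 : ((Own Ts lab A B).card : ℝ) ≤ n := by exact_mod_cast (by omega)
  have h10 : 0 ≤ (P.d : ℝ) - P.eps := by
    have h := P.kap_small (.inr 0)
    have h' := P.one_le_eps
    have : (0 : ℝ) ≤ P.kap (.inr 0) := by positivity
    linarith only [h, h']
  have h11 := mul_le_mul_of_nonneg_left h9 h10
  have h12 := mul_le_mul_of_nonneg_right h7 (Nat.cast_nonneg P.d)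
  have h13 := mul_le_mul_of_nonneg_left h8 (show (0 : ℝ) ≤ (1 + 2 * cm) * P.d by positivity)
  linarith only [h6, h11, h12, h13]

end Pool.Agent.Work.MP_e0d07f_co
end

-- merged part: Pool.Agent.Work.MP_e0d07f_co.Contract
section
namespace Pool.Agent.Work.MP_e0d07f_co

open Finset

/-- The contraction lemma: a quantity that is multiplied by a factor of modulus at most `2/3`
from row to row (up to carries) has total sum bounded by the number of defects. -/
lemma contraction {X : Type} [Fintype X] [DecidableEq X] (σ τ : Equiv.Perm X) (B : Finset X)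
    (xb xt ψ cl cr : X → ℝ)
    (hrel : ∀ x, xt x = ψ x * xb x + cl x - cr x)
    (hψ : ∀ x, |ψ x| ≤ 2 / 3) (hb : ∀ x, |xb x| ≤ 4) (ht : ∀ x, |xt x| ≤ 4)
    (hcl : ∀ x, |cl x| ≤ 1) (hcr : ∀ x, |cr x| ≤ 1)
    (h1 : ∀ x ∉ B, ψ (σ x) = ψ x) (h2 : ∀ x ∉ B, cl (σ x) = cr x)
    (h3 : ∀ x ∉ B, xb (τ x) = xt x) (h4 : ∀ x ∉ B, τ (σ x) = σ (τ x)) :
    -(42 * B.card) ≤ ∑ x, xb x := by
  have hB : ∀ c : ℝ, ∑ x, (if x ∈ B then c else 0) = c * B.card := by
    intro c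
    rw [Finset.sum_ite_mem, univ_inter, sum_const, nsmul_eq_mul, mul_comm]
  have key : ∀ J : ℕ, ∀ f : X → ℝ, (∀ x, |f x| ≤ 1) →
      ∑ x, f x * xb x ≤ 3 * ∑ x, |f x - f (σ x)| + 42 * B.card
        + (2 / 3) ^ J * (4 * Fintype.card X) := by
    intro J
    induction J with
    | zero =>
      intro f hf
      have h5 : ∑ x, f x * xb x ≤ ∑ _x : X, (4 : ℝ) := by
        refine sum_le_sum fun x _ => ?_
        have := abs_le.mp (hf x)
        have := abs_le.mp (hb x)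
        nlinarith
      have h6 : 0 ≤ ∑ x, |f x - f (σ x)| := sum_nonneg fun x _ => abs_nonneg _
      simp only [sum_const, card_univ, nsmul_eq_mul] at h5
      have : (0 : ℝ) ≤ B.card := by (clear * - ; positivity)
      simp only [pow_zero]
      linarith
    | succ J ih =>
      intro f hf
      set TV := ∑ x, |f x - f (σ x)| with hTV
      let g : X → ℝ := fun x => 3 / 2 * ψ x * f (τ x)
      have hg : ∀ x, |g x| ≤ 1 := by
        intro x
        simp only [g, abs_mul]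
        have := hψ x
        have := hf (τ x)
        have h0 := abs_nonneg (ψ x)
        have h0' := abs_nonneg (f (τ x))
        rw [abs_of_pos (by norm_num : (0 : ℝ) < 3 / 2)]
        nlinarith
      have hTVτ : ∑ x, |f (τ x) - f (σ (τ x))| = TV :=
        Equiv.sum_comp τ (fun x => |f x - f (σ x)|)
      have hTVg : ∑ x, |g x - g (σ x)| ≤ TV + 2 * B.card := by
        rw [← hTVτ, ← hB 2, ← sum_add_distrib]
        refine sum_le_sum fun x _ => ?_
        split_ifs with hx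
        · have := abs_le.mp (hg x)
          have := abs_le.mp (hg (σ x))
          have := abs_nonneg (f (τ x) - f (σ (τ x)))
          rw [abs_le]; constructor <;> linarith
        · simp only [g, h1 x hx, h4 x hx, add_zero]
          rw [← mul_sub, abs_mul, abs_mul, abs_of_pos (by norm_num : (0 : ℝ) < 3 / 2)]
          have := hψ x
          have := abs_nonneg (f (τ x) - f (σ (τ x)))
          nlinarith
      have e1 : ∑ x, f x * xb x = ∑ x, f (τ x) * xb (τ x) :=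
        (Equiv.sum_comp τ (fun x => f x * xb x)).symm
      have e2 : ∑ x, f (τ x) * cl x = ∑ x, f (τ (σ x)) * cl (σ x) :=
        (Equiv.sum_comp σ (fun x => f (τ x) * cl x)).symm
      have e3 : ∑ x, f (τ x) * xb (τ x) ≤ ∑ x, f (τ x) * xt x + 8 * B.card := by
        rw [← hB 8, ← sum_add_distrib]
        refine sum_le_sum fun x _ => ?_
        split_ifs with hx
        · have := abs_le.mp (hf (τ x))
          have := abs_le.mp (hb (τ x))
          have := abs_le.mp (ht x)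
          nlinarith
        · rw [h3 x hx, add_zero]
      have e4 : ∑ x, f (τ x) * xt x = 2 / 3 * ∑ x, g x * xb x +
          ∑ x, (f (τ (σ x)) * cl (σ x) - f (τ x) * cr x) := by
        rw [sum_sub_distrib, ← e2, mul_sum, ← sum_sub_distrib, ← sum_add_distrib]
        refine sum_congr rfl fun x _ => ?_
        simp only [g, hrel x]; ring
      have e5 : ∑ x, (f (τ (σ x)) * cl (σ x) - f (τ x) * cr x) ≤ TV + 2 * B.card := by
        rw [← hTVτ, ← hB 2, ← sum_add_distrib]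
        refine sum_le_sum fun x _ => ?_
        split_ifs with hx
        · have := abs_le.mp (hf (τ (σ x)))
          have := abs_le.mp (hf (τ x))
          have := abs_le.mp (hcl (σ x))
          have := abs_le.mp (hcr x)
          have := abs_nonneg (f (τ x) - f (σ (τ x)))
          nlinarith
        · rw [h2 x hx, h4 x hx, add_zero, ← sub_mul]
          refine (le_abs_self _).trans ?_
          rw [abs_mul, abs_sub_comm]
          have := hcr x
          have := abs_nonneg (f (τ x) - f (σ (τ x)))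
          nlinarith
      have := ih g hg
      rw [pow_succ]
      linarith only [hTVg, e1, e3, e4, e5, this]
  have hfin : ∀ J : ℕ, -∑ x, xb x - 42 * B.card ≤ (2 / 3) ^ J * (4 * Fintype.card X) := by
    intro J
    have := key J (fun _ => -1) (fun _ => by simp)
    simp only [neg_mul, one_mul, sum_neg_distrib, sub_self, abs_zero, sum_const_zero,
      mul_zero, zero_add] at this
    linarith only [this]
  have hlim : Filter.Tendsto (fun J : ℕ => (2 / 3 : ℝ) ^ J * (4 * Fintype.card X))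
      Filter.atTop (nhds 0) := by
    simpa using (tendsto_pow_atTop_nhds_zero_of_lt_one (r := (2 / 3 : ℝ)) (by norm_num)
      (by norm_num)).mul_const (4 * Fintype.card X : ℝ)
  have := ge_of_tendsto' hlim hfin
  linarith

end Pool.Agent.Work.MP_e0d07f_co
end

-- merged part: Pool.Agent.Work.MP_e0d07f_co.Tiles
section
namespace Pool.Agent.Work.MP_e0d07f_co

open Finset

/-- The inverse of the golden ratio. -/
noncomputable def th : ℝ := Real.goldenRatio - 1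

lemma th_sq : th ^ 2 + th = 1 := by
  unfold th; have := Real.goldenRatio_sq; nlinarith only [this]

lemma th_pos : 1 / 2 < th := by
  have h := th_sq
  have : 0 < th := by unfold th; linarith [Real.one_lt_goldenRatio]
  nlinarith only [h, this]

lemma th_lt : th < 2 / 3 := by
  have h := th_sq
  have := th_pos
  nlinarith only [h, this]

lemma th_irr : Irrational th := by
  unfold th
  simpa using Real.goldenRatio_irrational.sub_natCast 1

structure Raw where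
  op : Bool
  x : ℕ
  y : ℕ
  x' : ℕ
  y' : ℕ
  l1 : ℕ
  l2 : ℕ
  r1 : ℕ
  r2 : ℕ
  c : ZMod 5

def Raw.Valid (t : Raw) : Prop :=
  1 ≤ t.x ∧ t.x ≤ 4 ∧ t.y ≤ 4 ∧ t.x' ≤ 4 ∧ t.y' ≤ 4 ∧ t.l1 ≤ 1 ∧ t.l2 ≤ 1 ∧ t.r1 ≤ 1 ∧ t.r2 ≤ 1 ∧
    (t.op = true → t.x' + t.r1 = t.x + t.y + t.l1 ∧ t.y' + t.r2 = t.x + t.l2) ∧
    (t.op = false → 2 * t.x' + t.r1 = t.x + t.l1 ∧ 2 * t.y' + t.r2 = t.y + t.l2)

def Tile : Type := {t : Raw // t.Valid}

instance : Finite Tile := by
  let f : Tile → Bool × Fin 5 × Fin 5 × Fin 5 × Fin 5 × Fin 5 × Fin 5 × Fin 5 × Fin 5 × ZMod 5 :=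
    fun t => (t.1.op, ⟨t.1.x, by have := t.2; unfold Raw.Valid at this; omega⟩,
      ⟨t.1.y, by have := t.2; unfold Raw.Valid at this; omega⟩,
      ⟨t.1.x', by have := t.2; unfold Raw.Valid at this; omega⟩,
      ⟨t.1.y', by have := t.2; unfold Raw.Valid at this; omega⟩,
      ⟨t.1.l1, by have := t.2; unfold Raw.Valid at this; omega⟩,
      ⟨t.1.l2, by have := t.2; unfold Raw.Valid at this; omega⟩,
      ⟨t.1.r1, by have := t.2; unfold Raw.Valid at this; omega⟩,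
      ⟨t.1.r2, by have := t.2; unfold Raw.Valid at this; omega⟩, t.1.c)
  refine Finite.of_injective f ?_
  rintro ⟨⟨a1, a2, a3, a4, a5, a6, a7, a8, a9, a10⟩, ha⟩ ⟨⟨b1, b2, b3, b4, b5, b6, b7, b8, b9, b10⟩, hb⟩ h
  simp only [f, Prod.mk.injEq, Fin.mk.injEq] at h
  apply Subtype.ext
  simp [h]

noncomputable instance : Fintype Tile := Fintype.ofFinite _

def THor (a b : Tile) : Prop :=
  a.1.op = b.1.op ∧ a.1.r1 = b.1.l1 ∧ a.1.r2 = b.1.l2 ∧ b.1.c = a.1.c + 1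

def TVer (a b : Tile) : Prop := a.1.x' = b.1.x ∧ a.1.y' = b.1.y ∧ b.1.c = a.1.c + 2

noncomputable def xi (t : Tile) : ℝ := t.1.y - th * t.1.x

lemma abs_xi_le {x y : ℕ} {c : ℝ} (hx : (x : ℝ) ≤ c) (hy : (y : ℝ) ≤ c) :
    |(y : ℝ) - th * x| ≤ c := by
  have h1 := th_pos
  have h2 := th_lt
  have hx0 : (0 : ℝ) ≤ x := by positivity
  have hy0 : (0 : ℝ) ≤ y := by positivity
  rw [abs_le]; constructor <;> nlinarith only [hx, h2, hy, h1]

lemma tiling {X : Type} [Fintype X] [DecidableEq X] (σ τ : Equiv.Perm X) (B : Finset X)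
    (t : X → Tile) (h : ∀ x ∉ B, THor (t x) (t (σ x)) ∧ TVer (t x) (t (τ x)) ∧ τ (σ x) = σ (τ x)) :
    -(42 * (B.card : ℝ)) ≤ ∑ x, xi (t x) := by
  have h1 := th_pos
  have h2 := th_lt
  have hq : ∀ (b : Bool) (z : ℝ), |z| ≤ 1 → |(if b then 1 else 1 / 2) * z| ≤ 1 := by
    intro b z hz
    cases b
    · simp only [Bool.false_eq_true, if_false, abs_mul]
      rw [abs_of_pos (by norm_num : (0 : ℝ) < 1 / 2)]
      linarith only [h1, h2, hz, abs_nonneg z]
    · simpa using hz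
  refine contraction σ τ B (fun x => xi (t x)) (fun x => (t x).1.y' - th * (t x).1.x')
    (fun x => if (t x).1.op then -th else 1 / 2)
    (fun x => (if (t x).1.op then 1 else 1 / 2) * ((t x).1.l2 - th * (t x).1.l1))
    (fun x => (if (t x).1.op then 1 else 1 / 2) * ((t x).1.r2 - th * (t x).1.r1))
    ?_ ?_ ?_ ?_ ?_ ?_ ?_ ?_ ?_ (fun x hx => (h x hx).2.2)
  · intro x
    obtain ⟨-, -, -, -, -, -, -, -, -, a, b⟩ := (t x).2
    unfold xi
    cases ho : (t x).1.op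
    · obtain ⟨b1, b2⟩ := b ho
      have c1 : 2 * ((t x).1.x' : ℝ) + (t x).1.r1 = (t x).1.x + (t x).1.l1 := by exact_mod_cast b1
      have c2 : 2 * ((t x).1.y' : ℝ) + (t x).1.r2 = (t x).1.y + (t x).1.l2 := by exact_mod_cast b2
      simp only [Bool.false_eq_true, if_false]
      linear_combination (1 / 2) * c2 - (th / 2) * c1
    · obtain ⟨b1, b2⟩ := a ho
      have c1 : ((t x).1.x' : ℝ) + (t x).1.r1 = (t x).1.x + (t x).1.y + (t x).1.l1 := by
        exact_mod_cast b1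
      have c2 : ((t x).1.y' : ℝ) + (t x).1.r2 = (t x).1.x + (t x).1.l2 := by exact_mod_cast b2
      simp only [if_true]
      linear_combination c2 - th * c1 - ((t x).1.x : ℝ) * th_sq
  · intro x
    split_ifs
    · rw [abs_neg, abs_of_pos (by linarith only [h1, h2])]; linarith
    · rw [abs_of_pos (by norm_num)]; norm_num
  · intro x
    obtain ⟨-, a, b, -⟩ := (t x).2
    exact abs_xi_le (by exact_mod_cast a) (by exact_mod_cast b)
  · intro x
    obtain ⟨-, -, -, a, b, -⟩ := (t x).2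
    exact abs_xi_le (by exact_mod_cast a) (by exact_mod_cast b)
  · intro x
    obtain ⟨-, -, -, -, -, a, b, -⟩ := (t x).2
    exact hq _ _ (abs_xi_le (by exact_mod_cast a) (by exact_mod_cast b))
  · intro x
    obtain ⟨-, -, -, -, -, -, -, a, b, -⟩ := (t x).2
    exact hq _ _ (abs_xi_le (by exact_mod_cast a) (by exact_mod_cast b))
  · intro x hx
    simp only [← (h x hx).1.1]
  · intro x hx
    obtain ⟨⟨a, b, c, -⟩, -⟩ := h x hx
    simp only [← a, ← b, ← c]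
  · intro x hx
    obtain ⟨-, ⟨a, b, -⟩, -⟩ := h x hx
    simp only [xi, ← a, ← b]

/-! ### A tiling of the quarter plane -/

noncomputable def al : ℕ → ℝ
  | 0 => 2
  | j + 1 => if al j ≤ 2 then al j + th * al j else al j / 2

lemma al_bd (j : ℕ) : 1 < al j ∧ al j ≤ 4 := by
  have h1 := th_pos
  have h2 := th_lt
  induction j with
  | zero => simp only [al]; norm_num
  | succ j ih =>
    simp only [al]
    split_ifs with h
    · constructor <;> nlinarith only [h2, ih, h1, h, ih.1]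
    · constructor <;> linarith only [h, h1, h2, ih, ih.2]

/-- `⌊i a⌋`. -/
noncomputable def fl (a : ℝ) (i : ℕ) : ℕ := ⌊(i : ℝ) * a⌋₊

lemma fl_spec {a : ℝ} (ha : 0 ≤ a) (i : ℕ) : (fl a i : ℝ) ≤ i * a ∧ i * a < fl a i + 1 :=
  ⟨Nat.floor_le (by positivity), Nat.lt_floor_add_one _⟩

lemma fl_step {a : ℝ} (ha : 0 ≤ a) (ha4 : a ≤ 4) (i : ℕ) :
    fl a i ≤ fl a (i + 1) ∧ fl a (i + 1) ≤ fl a i + 4 := by
  have h1 := fl_spec ha i
  have h2 := fl_spec ha (i + 1)
  push_cast at h2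
  constructor
  · have : (fl a i : ℝ) < fl a (i + 1) + 1 := by nlinarith only [ha, h1, h2]
    have : fl a i < fl a (i + 1) + 1 := by exact_mod_cast this
    omega
  · have : (fl a (i + 1) : ℝ) < fl a i + 4 + 1 := by nlinarith only [ha4, h1, h2]
    have : fl a (i + 1) < fl a i + 4 + 1 := by exact_mod_cast this
    omega

lemma fl_step1 {a : ℝ} (ha : 1 ≤ a) (i : ℕ) : fl a i + 1 ≤ fl a (i + 1) := by
  have h1 := fl_spec (a := a) (by linarith) i
  have h2 := fl_spec (a := a) (by linarith) (i + 1)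
  push_cast at h2
  have : (fl a i : ℝ) + 1 < fl a (i + 1) + 1 := by nlinarith only [ha, h1, h2]
  have : fl a i + 1 < fl a (i + 1) + 1 := by exact_mod_cast this
  omega

lemma fl_add {a b : ℝ} (ha : 0 ≤ a) (hb : 0 ≤ b) (i : ℕ) :
    fl a i + fl b i ≤ fl (a + b) i ∧ fl (a + b) i ≤ fl a i + fl b i + 1 := by
  have h1 := fl_spec ha i
  have h2 := fl_spec hb i
  have h3 := fl_spec (add_nonneg ha hb) i
  constructor
  · have : (fl a i : ℝ) + fl b i < fl (a + b) i + 1 := by nlinarith only [h1, h2, h3]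
    have : fl a i + fl b i < fl (a + b) i + 1 := by exact_mod_cast this
    omega
  · have : (fl (a + b) i : ℝ) < fl a i + fl b i + 1 + 1 := by nlinarith only [h1, h2, h3]
    have : fl (a + b) i < fl a i + fl b i + 1 + 1 := by exact_mod_cast this
    omega

lemma fl_half {a : ℝ} (ha : 0 ≤ a) (i : ℕ) :
    2 * fl (a / 2) i ≤ fl a i ∧ fl a i ≤ 2 * fl (a / 2) i + 1 := by
  have := fl_add (a := a / 2) (b := a / 2) (by linarith) (by linarith) i
  rw [add_halves] at this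
  omega

open Classical in
noncomputable def car1 (j i : ℕ) : ℕ :=
  if al j ≤ 2 then fl (al j) i + fl (th * al j) i + 1 - fl (al (j + 1)) i
  else fl (al j) i - 2 * fl (al (j + 1)) i

open Classical in
noncomputable def car2 (j i : ℕ) : ℕ :=
  if al j ≤ 2 then 0 else fl (th * al j) i - 2 * fl (th * al (j + 1)) i

open Classical in
noncomputable def rawLab (i j : ℕ) : Raw where
  op := decide (al j ≤ 2)
  x := fl (al j) (i + 1) - fl (al j) i
  y := fl (th * al j) (i + 1) - fl (th * al j) i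
  x' := fl (al (j + 1)) (i + 1) - fl (al (j + 1)) i
  y' := fl (th * al (j + 1)) (i + 1) - fl (th * al (j + 1)) i
  l1 := car1 j i
  l2 := car2 j i
  r1 := car1 j (i + 1)
  r2 := car2 j (i + 1)
  c := (i : ZMod 5) + 2 * (j : ZMod 5)

lemma rawLab_valid (i j : ℕ) : (rawLab i j).Valid := by
  have h1 := th_pos
  have h2 := th_lt
  have a1 := al_bd j
  have a2 := al_bd (j + 1)
  have b1 : 0 ≤ th * al j ∧ th * al j ≤ 4 := ⟨by nlinarith only [h2, a1, h1, a1.1], by nlinarith only [h2, a1, h1, a1.1, a1.2]⟩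
  have b2 : 0 ≤ th * al (j + 1) ∧ th * al (j + 1) ≤ 4 :=
    ⟨by nlinarith only [h2, a2, h1, a2.1], by nlinarith only [h2, a2, h1, a2.1, a2.2]⟩
  have s1 := fl_step (a := al j) (by linarith) a1.2 i
  have s2 := fl_step (a := al (j + 1)) (by linarith only [h1, h2, a2]) a2.2 i
  have s3 := fl_step b1.1 b1.2 i
  have s4 := fl_step b2.1 b2.2 i
  have s5 := fl_step1 a1.1.le i
  unfold Raw.Valid rawLab car1 car2
  by_cases h : al j ≤ 2
  · have e1 : al (j + 1) = al j + th * al j := by simp [al, h]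
    have e2 : th * al (j + 1) = al j := by rw [e1]; linear_combination (al j) * th_sq
    have t1 := fl_add (a := al j) (by linarith only [h1, h2, a1]) b1.1 i
    have t2 := fl_add (a := al j) (by linarith only [h1, h2, a1]) b1.1 (i + 1)
    rw [← e1] at t1 t2
    rw [e2] at s4 ⊢
    simp only [h, if_true, decide_true, Bool.true_eq_false, false_imp_iff, true_imp_iff, and_true]
    (clear * - s1 s2 s3 s5 t1 t2; omega)
  · have e1 : al (j + 1) = al j / 2 := by simp [al, h]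
    have e2 : th * al (j + 1) = th * al j / 2 := by rw [e1]; ring
    have t1 := fl_half (a := al j) (by linarith only [h1, h2, a2, e1]) i
    have t2 := fl_half (a := al j) (by linarith only [h1, h2, a2, e1]) (i + 1)
    have t3 := fl_half b1.1 i
    have t4 := fl_half b1.1 (i + 1)
    rw [← e1] at t1 t2
    rw [← e2] at t3 t4
    simp only [h, if_false, decide_false, Bool.false_eq_true, false_imp_iff, true_imp_iff, true_and]
    (clear * - s1 s2 s3 s4 s5 t1 t2 t3 t4; omega)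

noncomputable def lab (i j : ℕ) : Tile := ⟨rawLab i j, rawLab_valid i j⟩

lemma lab_hor (i j : ℕ) : THor (lab i j) (lab (i + 1) j) := by
  refine ⟨rfl, rfl, rfl, ?_⟩
  simp only [lab, rawLab]; push_cast; ring

lemma lab_ver (i j : ℕ) : TVer (lab i j) (lab i (j + 1)) := by
  refine ⟨rfl, rfl, ?_⟩
  simp only [lab, rawLab]; push_cast; ring

lemma lab_row (j n : ℕ) : ∑ i ∈ range n, xi (lab i j) ≤ 1 := by
  have h1 := th_pos
  have h2 := th_lt
  have a1 := al_bd j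
  have b1 : 0 ≤ th * al j ∧ th * al j ≤ 4 := ⟨by nlinarith only [h2, a1, h1, a1.1], by nlinarith only [h2, a1, h1, a1.1, a1.2]⟩
  have e : ∑ i ∈ range n, xi (lab i j) = fl (th * al j) n - th * fl (al j) n := by
    induction n with
    | zero => simp [fl]
    | succ n ih =>
      rw [sum_range_succ, ih]
      simp only [xi, lab, rawLab]
      rw [Nat.cast_sub (fl_step b1.1 b1.2 n).1,
        Nat.cast_sub (fl_step (a := al j) (by linarith only [h1, h2, a1]) a1.2 n).1]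
      ring
  rw [e]
  have t1 := fl_spec b1.1 n
  have t2 := fl_spec (a := al j) (by linarith only [h1, h2, a1]) n
  nlinarith only [h2, t1, t2, h1]

end Pool.Agent.Work.MP_e0d07f_co
end

-- merged part: Pool.Agent.Work.MP_e0d07f_co.Numbers
section
namespace Pool.Agent.Work.MP_e0d07f_co

open Finset

lemma exists_sc : ∃ p : ℕ × (Tile → ℕ), Function.Injective p.2 ∧ ∀ t, 2 ≤ p.2 t ∧ p.2 t ≤ p.1 := by
  obtain ⟨n, ⟨e⟩⟩ := Finite.exists_equiv_fin Tile
  refine ⟨(n + 1, fun t => (e t).val + 2), fun t t' h => e.injective (Fin.ext ?_), fun t => ?_⟩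
  · simpa using h
  · have := (e t).2
    simp only
    omega

noncomputable def sc : ℕ := (Classical.choose exists_sc).1
noncomputable def Qi (t : Tile) : ℕ := (Classical.choose exists_sc).2 t
noncomputable def LL : ℕ := Classical.choose (⟨_, rfl⟩ : ∃ x, x = 2 * (sc * sc))
noncomputable def dd : ℕ := Classical.choose (⟨_, rfl⟩ : ∃ x, x = 300000 * (sc * sc))

lemma LL_eq : LL = 2 * (sc * sc) := Classical.choose_spec (⟨_, rfl⟩ : ∃ x, x = 2 * (sc * sc))
lemma dd_eq : dd = 300000 * (sc * sc) :=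
  Classical.choose_spec (⟨_, rfl⟩ : ∃ x, x = 300000 * (sc * sc))

noncomputable def kk : Tile ⊕ Fin 3 → ℕ := Sum.elim (fun t => 4 * Qi t) fun i => 2 * i.val + 1
noncomputable def kp : Tile ⊕ Fin 3 → ℕ := Sum.elim (fun t => 4 * Qi t + 2) fun i => 2 * i.val + 2
noncomputable def NN : Tile ⊕ Fin 3 → ℕ :=
  Sum.elim (fun t => Tri dd (4 * Qi t + 2) + t.1.y - (4 * Qi t + 6 * (LL * t.1.x) + t.1.x))
    fun i => Tri dd (2 * i.val + 2)
noncomputable def gg : ℕ := LL * ((dd - 2) * (dd - 5))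
noncomputable def ee : ℝ := gg / (gg - 1 + th)
noncomputable def n1 (t : Tile) : ℕ := LL * t.1.x + 4 * Qi t - (2 * (Qi t * Qi t) + 1)
noncomputable def n3 (t : Tile) : ℕ := 4 * (Qi t * Qi t) - 6 * Qi t
noncomputable def n5 (t : Tile) : ℕ := LL * t.1.x + 2 * Qi t - 2 * (Qi t * Qi t)
noncomputable def npd (t : Tile) : ℕ := n1 t + n3 t + n5 t
noncomputable def pkd (t : Tile) (i : ℕ) : Fin 3 :=
  if i < n1 t then 0 else if i < n1 t + n3 t then 1 else 2

lemma Qi_bd (t : Tile) : 2 ≤ Qi t ∧ Qi t ≤ sc := (Classical.choose_spec exists_sc).2 t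

lemma Qi_inj {t t' : Tile} (h : Qi t = Qi t') : t = t' := (Classical.choose_spec exists_sc).1 h

lemma sc_pos : 1 ≤ sc := by
  have := Qi_bd (lab 0 0)
  omega

lemma sc_le_sq : sc ≤ sc * sc := Nat.le_mul_self _

lemma Q_sq (t : Tile) : 2 * Qi t ≤ Qi t * Qi t ∧ Qi t * Qi t ≤ sc * sc :=
  ⟨Nat.mul_le_mul_right _ (Qi_bd t).1, Nat.mul_le_mul (Qi_bd t).2 (Qi_bd t).2⟩

lemma Lx_bd (t : Tile) : LL ≤ LL * t.1.x ∧ LL * t.1.x ≤ 4 * LL := by
  obtain ⟨h1, h2, -⟩ := t.2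
  exact ⟨Nat.le_mul_of_pos_right _ h1, by rw [mul_comm 4]; exact Nat.mul_le_mul_left _ h2⟩

lemma kp_bd (z : Tile ⊕ Fin 3) : 2 ≤ kp z ∧ kp z ≤ 4 * sc + 6 := by
  rcases z with t | i
  · have := Qi_bd t; simp only [kp, Sum.elim_inl]; omega
  · have := i.2; simp only [kp, Sum.elim_inr]; omega

lemma Tri_anti (d : ℕ) {a b : ℕ} (h : a ≤ b) : Tri d b ≤ Tri d a := by
  induction b, h using Nat.le_induction with
  | base => exact le_rfl
  | succ m _ ih => have := Tri_succ d m; omega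

lemma Tri_gap (d : ℕ) {a b : ℕ} (h : a < b) (hb : b ≤ d) :
    Tri d b + b + (d - b) ≤ Tri d a + a + 1 := by
  have h' : a + 1 ≤ b := h
  induction b, h' using Nat.le_induction with
  | base => rw [Tri_succ d a]; omega
  | succ m hm ih =>
    have := Tri_succ d m
    have := ih (by omega) (by omega)
    omega

lemma Tri_bd (d κ : ℕ) (h2 : 2 ≤ κ) (h : 10 * κ ≤ d) :
    81 * (d * d) ≤ 200 * Tri d κ ∧ 2 * Tri d κ ≤ d * d := by
  have h1 := two_mul_Tri d κ (by omega)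
  have h2' : (2 : ℝ) ≤ κ := by exact_mod_cast h2
  have h' : 10 * (κ : ℝ) ≤ d := by exact_mod_cast h
  constructor
  · have : 81 * ((d : ℝ) * d) ≤ 200 * Tri d κ := by nlinarith only [h1, h2', h']
    exact_mod_cast this
  · have : 2 * (Tri d κ : ℝ) ≤ d * d := by nlinarith only [h1, h2', h']
    exact_mod_cast this

lemma dd_sq : 300000 * dd ≤ dd * dd := by
  apply Nat.mul_le_mul_right
  have := sc_pos
  have := sc_le_sq
  have := dd_eq; omega

lemma NN_bd (z : Tile ⊕ Fin 3) :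
    Tri dd (kp z) ≤ NN z + (48 * (sc * sc) + 4 * sc + 4) ∧ NN z ≤ Tri dd (kp z) + 4 := by
  rcases z with t | i
  · have h1 := Qi_bd t
    have h2 := Lx_bd t
    obtain ⟨-, h3, h4, -⟩ := t.2
    simp only [NN, kp, Sum.elim_inl]
    have := LL_eq
    omega
  · simp only [NN, kp, Sum.elim_inr]; omega

lemma kp_Tri (z : Tile ⊕ Fin 3) :
    81 * (dd * dd) ≤ 200 * Tri dd (kp z) ∧ 2 * Tri dd (kp z) ≤ dd * dd := by
  have h1 := kp_bd z
  have := sc_pos
  have := sc_le_sq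
  exact Tri_bd _ _ h1.1 (by have := dd_eq; omega)

lemma gg_real : (gg : ℝ) = LL * ((dd - 2) * (dd - 5)) := by
  have := sc_pos
  have := sc_le_sq
  unfold gg
  push_cast [Nat.cast_sub (show 2 ≤ dd by have := dd_eq; omega),
    Nat.cast_sub (show 5 ≤ dd by have := dd_eq; omega)]
  ring

lemma gg_ge : (dd : ℝ) * dd ≤ gg ∧ (300000 : ℝ) ≤ dd := by
  have h1 := sc_pos
  have h2 := sc_le_sq
  have h3 : (300000 : ℝ) ≤ dd := by exact_mod_cast (by have := dd_eq; omega : 300000 ≤ dd)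
  have h4 : (2 : ℝ) ≤ LL := by exact_mod_cast (by have := LL_eq; omega : 2 ≤ LL)
  refine ⟨?_, h3⟩
  rw [gg_real]
  have : 0 ≤ ((dd : ℝ) - 2) * (dd - 5) := mul_nonneg (by linarith) (by linarith)
  nlinarith only [h3, h4, this]

lemma ee_mul : ee * (gg - 1 + th) = gg := by
  have := gg_ge
  have := th_pos
  unfold ee
  rw [div_mul_cancel₀]
  nlinarith

lemma ee_bd : 1 ≤ ee ∧ (ee - 1) * (dd * dd) ≤ 1 := by
  have h1 := gg_ge
  have h2 := th_pos
  have h3 := th_lt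
  have h4 := ee_mul
  have h5 : 0 < (gg : ℝ) - 1 + th := by nlinarith only [h1, h2, h3]
  have h6 : 1 ≤ ee := by unfold ee; rw [le_div_iff₀ h5]; linarith
  refine ⟨h6, ?_⟩
  have h7 : (ee - 1) * (gg - 1 + th) = 1 - th := by linarith only [h4]
  have h8 : (dd : ℝ) * dd ≤ 2 * (gg - 1 + th) := by nlinarith only [h1, h2, h3]
  nlinarith only [h1, h4, h3, h2, h8, h5]

lemma ee_le : ee ≤ 2 := by
  have h1 := ee_bd
  have h2 := gg_ge.2
  nlinarith only [h1, h2]

lemma w_irr : Irrational ((dd : ℝ) - ee) := by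
  have h1 : Irrational ((gg : ℝ) - 1 + th) := by
    have := (th_irr.natCast_add gg).sub_natCast 1
    convert this using 1
    push_cast; ring
  have h2 : gg ≠ 0 := by
    have := gg_ge
    intro h
    rw [h] at this
    simp only [Nat.cast_zero] at this
    nlinarith only [this]
  exact (h1.natCast_div h2).natCast_sub dd

noncomputable def PP : Num (Tile ⊕ Fin 3) where
  d := dd
  k := kk
  kap := kp
  N := NN
  eps := ee
  Lam := ((8 * sc + 2280 : ℕ) : ℝ)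
  b0 := ((48 * (sc * sc) + 4 * sc + 4 : ℕ) : ℝ)
  m := dd * dd + 2 * dd
  one_le_eps := ee_bd.1
  Lam_nonneg := by positivity
  b0_nonneg := by positivity
  kap_inj := by
    rintro (t | i) (t' | i') h <;> simp only [kp, Sum.elim_inl, Sum.elim_inr] at h
    · rw [Qi_inj (t := t) (t' := t') (by omega)]
    · have := Qi_bd t; have := i'.2; omega
    · have := Qi_bd t'; have := i.2; omega
    · rw [Fin.ext (show i.val = i'.val by omega)]
  kap_gap := by
    rintro (t | i) (t' | i') h <;> simp only [kp, kk, Sum.elim_inl, Sum.elim_inr] at h ⊢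
    · omega
    · have := Qi_bd t; have := i'.2; omega
    · have := Qi_bd t'; have := i.2; omega
    · omega
  size_gap := by
    intro z z' h
    have h1 := kp_bd z'
    have h2 := NN_bd z
    have h3 := NN_bd z'
    have := sc_pos
    have := sc_le_sq
    have h4 := Tri_gap dd h (by have := dd_eq; omega)
    have := dd_eq
    omega
  size_lo := by
    intro z
    have h1 := NN_bd z
    have h2 := kp_Tri z
    have h3 := dd_sq
    have := sc_pos
    have := sc_le_sq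
    have h4 := dd_eq
    omega
  size_hi := by
    intro z
    have h1 := NN_bd z
    have h2 := kp_Tri z
    have h3 := dd_sq
    have := sc_pos
    have := sc_le_sq
    have h4 := dd_eq
    omega
  base_lo := by
    intro z
    have h1 : (Tri dd (kp z) : ℝ) ≤ NN z + ((48 * (sc * sc) + 4 * sc + 4 : ℕ) : ℝ) := by
      exact_mod_cast (NN_bd z).1
    have h2 : (NN z : ℝ) ≤ ee * NN z := le_mul_of_one_le_left (by positivity) ee_bd.1
    linarith
  big := by
    intro z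
    have h1 := (kp_bd z).2
    have h2 : (kp z : ℝ) ≤ 4 * sc + 6 := by exact_mod_cast h1
    have h3 : (1 : ℝ) ≤ sc := by exact_mod_cast sc_pos
    have h4 : (dd : ℝ) = 300000 * (sc * sc) := by rw [dd_eq]; push_cast; ring
    have h5 : (8 * (sc : ℝ) + 2280) * (2 * kp z + 5) ≤ (8 * sc + 2280) * (8 * sc + 17) :=
      mul_le_mul_of_nonneg_left (by linarith) (by linarith)
    push_cast
    nlinarith
  Lam_small := by
    have h3 : (1 : ℝ) ≤ sc := by exact_mod_cast sc_pos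
    have h4 : (dd : ℝ) = 300000 * (sc * sc) := by rw [dd_eq]; push_cast; ring
    push_cast
    nlinarith
  kap_small := by
    intro z
    have h1 := (kp_bd z).2
    have := sc_pos
    have := sc_le_sq
    have h4 : 2 * kp z + 8 ≤ dd := by have := dd_eq; omega
    have h5 : 2 * (kp z : ℝ) + 8 ≤ dd := by exact_mod_cast h4
    linarith [ee_le]
  m_big := le_rfl
  d_big := by
    have := sc_pos
    have := sc_le_sq
    have := dd_eq; omega

lemma sum_pkd (t : Tile) (f : Fin 3 → ℝ) :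
    ∑ i ∈ range (npd t), f (pkd t i) = n1 t * f 0 + n3 t * f 1 + n5 t * f 2 := by
  unfold npd
  rw [sum_range_add, sum_range_add]
  rw [sum_congr rfl (g := fun _ => f 0), sum_congr (s₁ := range (n3 t)) rfl (g := fun _ => f 1),
    sum_congr (s₁ := range (n5 t)) rfl (g := fun _ => f 2)]
  · simp
  · intro i _
    simp only [pkd]
    rw [if_neg (by omega), if_neg (by omega)]
  · intro i hi
    have := mem_range.mp hi
    simp only [pkd]
    rw [if_neg (by omega), if_pos (by omega)]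
  · intro i hi
    simp only [pkd]
    rw [if_pos (mem_range.mp hi)]

lemma cell_id (t : Tile) : PP.base (.inl t) + (2 * PP.k (.inl t) + 1) +
    ∑ i ∈ range (npd t), (PP.base (.inr (pkd t i)) + PP.k (.inr (pkd t i))) = PP.eps * xi t := by
  rw [sum_pkd t fun j => PP.base (.inr j) + PP.k (.inr j)]
  have h1 := Qi_bd t
  have h2 := Lx_bd t
  have h3 := Q_sq t
  have h4 := kp_Tri (.inl t)
  have h5 := dd_sq
  have h6 := sc_pos
  have h7 := sc_le_sq
  have hd := dd_eq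
  have hL := LL_eq
  obtain ⟨-, hx, -⟩ := t.2
  simp only [kp, Sum.elim_inl] at h4
  have e1 : (n1 t : ℝ) = LL * t.1.x + 4 * Qi t - (2 * (Qi t * Qi t) + 1) := by
    unfold n1; rw [Nat.cast_sub (by omega)]; push_cast; ring
  have e3 : (n3 t : ℝ) = 4 * (Qi t * Qi t) - 6 * Qi t := by
    unfold n3; rw [Nat.cast_sub (by omega)]; push_cast; ring
  have e5 : (n5 t : ℝ) = LL * t.1.x + 2 * Qi t - 2 * (Qi t * Qi t) := by
    unfold n5; rw [Nat.cast_sub (by omega)]; push_cast; ring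
  have eN : (NN (.inl t) : ℝ) =
      Tri dd (4 * Qi t + 2) + t.1.y - (4 * Qi t + 6 * (LL * t.1.x) + t.1.x) := by
    simp only [NN, Sum.elim_inl]; rw [Nat.cast_sub (by omega)]; push_cast; ring
  have t0 := two_mul_Tri dd (4 * Qi t + 2) (by omega)
  have t2 := two_mul_Tri dd 2 (by omega)
  have t4 := two_mul_Tri dd 4 (by omega)
  have t6 := two_mul_Tri dd 6 (by omega)
  have hg := gg_real
  have he := ee_mul
  simp only [Num.base, PP, eN, e1, e3, e5, xi]
  simp only [NN, kp, kk, Sum.elim_inl, Sum.elim_inr, Fin.val_zero, Fin.val_one, Fin.val_two,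
    mul_zero, zero_add, mul_one, Nat.reduceAdd, Nat.reduceMul]
  push_cast at t0 t2 t4 t6 ⊢
  have key : (Tri dd (4 * Qi t + 2) : ℝ)
      + (LL * t.1.x + 4 * Qi t - (2 * (Qi t * Qi t) + 1)) * Tri dd 2
      + (4 * (Qi t * Qi t) - 6 * Qi t) * Tri dd 4
      + (LL * t.1.x + 2 * Qi t - 2 * (Qi t * Qi t)) * Tri dd 6
      - 4 * Qi t - 6 * (LL * t.1.x) = gg * t.1.x := by
    rw [hg]
    linear_combination (1 / 2) * t0
      + ((LL * t.1.x + 4 * Qi t - (2 * (Qi t * Qi t) + 1)) / 2 : ℝ) * t2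
      + ((4 * (Qi t * Qi t) - 6 * Qi t) / 2 : ℝ) * t4
      + ((LL * t.1.x + 2 * Qi t - 2 * (Qi t * Qi t)) / 2 : ℝ) * t6
  linear_combination (ee - 1) * key + (t.1.x : ℝ) * he

noncomputable def TT : TSys PP where
  cls := fun t => t.1.c
  Hor := THor
  Ver := TVer
  hor_cls := fun _ _ h => h.2.2.2
  ver_cls := fun _ _ h => h.2.2
  np := npd
  pk := pkd
  xi := xi
  kmax := 4 * sc + 5
  kap_main := fun _ => rfl
  kap_pend := fun _ => rfl
  k_le := by
    rintro (t | i)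
    · have := Qi_bd t; simp only [PP, kk, Sum.elim_inl]; omega
    · have := i.2; simp only [PP, kk, Sum.elim_inr]; omega
  room := by
    intro t
    have h1 := Qi_bd t
    have h2 := Lx_bd t
    have h3 := Q_sq t
    have h6 := sc_pos
    have h7 := sc_le_sq
    have hL := LL_eq
    have hd := dd_eq
    simp only [PP, kp, Sum.elim_inl, npd, n1, n3, n5]
    omega
  pend_nonneg := by
    intro i
    simp only [Num.base, PP, NN, kp, Sum.elim_inr]
    have : (0 : ℝ) ≤ Tri dd (2 * i.val + 2) := by positivity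
    nlinarith [ee_bd.1]
  pend_le := by
    intro i
    have h1 : 2 * (Tri dd (2 * i.val + 2) : ℝ) ≤ dd * dd := by exact_mod_cast (kp_Tri (.inr i)).2
    simp only [Num.base, PP, NN, kp, Sum.elim_inr]
    have : (0 : ℝ) ≤ Tri dd (2 * i.val + 2) := by positivity
    nlinarith [ee_bd.1, ee_bd.2]
  cell := cell_id
  eps_le := ee_le
  Lam_ge := by simp only [PP]; push_cast; linarith
  tiling := fun σ τ B t h => tiling σ τ B t h

lemma kk_pos (z : Tile ⊕ Fin 3) : 1 ≤ PP.k z := by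
  rcases z with t | i
  · have := Qi_bd t; simp only [PP, kk, Sum.elim_inl]; omega
  · simp only [PP, kk, Sum.elim_inr]; omega

end Pool.Agent.Work.MP_e0d07f_co
end

-- merged part: Pool.Agent.Work.MP_e0d07f_co.Main
section
namespace Pool.Agent.Work.MP_e0d07f_co

open Filter Topology

lemma tendsto_of_bounds {f : ℕ → ℝ} {w c : ℝ} {m : ℕ} (hl : ∀ n ≥ m, w * n ≤ f n)
    (hu : ∀ B : ℕ, 1 ≤ B → ∃ (c' : ℝ) (n0 : ℕ), ∀ n ≥ n0, f n ≤ w * n + c' + c * (n / B)) :
    Tendsto (fun n : ℕ => f n / n) atTop (𝓝 w) := by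
  rw [tendsto_order]
  constructor
  · intro a ha
    filter_upwards [eventually_ge_atTop m, eventually_gt_atTop 0] with n h1 h2
    have h3 : (0 : ℝ) < n := by exact_mod_cast h2
    exact ha.trans_le ((le_div_iff₀ h3).mpr (hl n h1))
  · intro a ha
    have h0 : (0 : ℝ) < (a - w) / 2 := by linarith
    obtain ⟨B, hB1, hB2⟩ := ((eventually_ge_atTop 1).and
      ((tendsto_const_div_atTop_nhds_zero_nat c).eventually (gt_mem_nhds h0))).exists
    obtain ⟨c', n0, h⟩ := hu B hB1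
    filter_upwards [eventually_ge_atTop n0, eventually_gt_atTop 0,
      (tendsto_const_div_atTop_nhds_zero_nat c').eventually (gt_mem_nhds h0)] with n h1 h2 h4
    have h3 : (0 : ℝ) < n := by exact_mod_cast h2
    have h5 : f n / n ≤ w + c' / n + c / B := by
      rw [div_le_iff₀ h3]
      refine (h n h1).trans (le_of_eq ?_)
      field_simp
    linarith only [hB2, h4, h5]

theorem limit_eq : Tendsto (fun n : ℕ => (wsat (graph (rules TT)) n : ℝ) / n) atTop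
    (𝓝 ((dd : ℝ) - ee)) := by
  obtain ⟨c, hc⟩ := upper_bound TT lab kk_pos lab_hor lab_ver lab_row
  refine tendsto_of_bounds (m := PP.m) (fun n hn => ?_) hc
  obtain ⟨G, hG, h⟩ := exists_wsat (graph (rules TT)) n
  have := lower_bound (lowOK TT) hG (by simpa using hn)
  rw [h, Fintype.card_fin] at this
  exact this

theorem main : ∃ (k : ℕ) (F : SimpleGraph (Fin k)), F.Connected ∧
    ∃ w : ℝ, Irrational w ∧ Tendsto (fun n : ℕ => (wsat F n : ℝ) / n) atTop (𝓝 w) := by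
  obtain ⟨k, ⟨e⟩⟩ := Finite.exists_equiv_fin (Vx (rules TT))
  let i : graph (rules TT) ≃g (graph (rules TT)).map e.toEmbedding := SimpleGraph.Iso.map e _
  refine ⟨k, _, (rules_connected TT kk_pos).map i.toHom i.surjective, _, w_irr, ?_⟩
  simp only [← wsat_iso i]
  exact limit_eq

end Pool.Agent.Work.MP_e0d07f_co
end

-- merged part: Pool.Agent.Work.MP_e0d07f_co.Hedge.Numbers
section
namespace Pool.Agent.Work.MP_e0d07f_co.Hedge

open Finset Filter Topology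

/-- A labelled tile system: the weight of a tile is `θ x - y + z`. -/
structure Sys (T : Type) where
  cls : T → ZMod 5
  Hor : T → T → Prop
  Ver : T → T → Prop
  hor_cls : ∀ a b, Hor a b → cls b = cls a + 1
  ver_cls : ∀ a b, Ver a b → cls b = cls a + 2
  x : T → ℕ
  y : T → ℕ
  z : T → ℕ
  θ : ℝ
  s : ℕ
  x_pos : ∀ t, 1 ≤ x t
  x_le : ∀ t, x t ≤ s
  y_le : ∀ t, y t ≤ s
  z_le : ∀ t, z t ≤ s
  θ_nonneg : 0 ≤ θ
  θ_le : θ ≤ s
  tiling : ∀ {X : Type} [Fintype X] [DecidableEq X] (σ τ : Equiv.Perm X) (B : Finset X)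
    (t : X → T), (∀ x ∉ B, Hor (t x) (t (σ x)) ∧ Ver (t x) (t (τ x)) ∧ τ (σ x) = σ (τ x)) →
    -(s * (B.card : ℝ)) ≤ ∑ p, (θ * x (t p) - y (t p) + z (t p))
  lab : ℕ → ℕ → T
  lab_hor : ∀ i j, Hor (lab i j) (lab (i + 1) j)
  lab_ver : ∀ i j, Ver (lab i j) (lab i (j + 1))
  lab_row : ∀ j n, ∑ i ∈ range n, (θ * x (lab i j) - y (lab i j) + z (lab i j)) ≤ s

/-- A labelled system with a numbering of the tiles. -/
structure Sy (T : Type) extends Sys T where
  Q : T → ℕ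
  sc : ℕ
  LL : ℕ
  dd : ℕ
  Q_inj : Function.Injective Q
  Q_lo : ∀ t, s + 2 ≤ Q t
  Q_hi : ∀ t, Q t ≤ sc
  LL_eq : LL = 2 * (sc * sc)
  dd_eq : dd = 300000 * (sc * sc * sc)

namespace Sy

variable {T : Type} (S : Sy T)

def kk : T ⊕ Fin 3 → ℕ := Sum.elim (fun t => 4 * S.Q t) fun i => 2 * i.val + 1
def kp : T ⊕ Fin 3 → ℕ := Sum.elim (fun t => 4 * S.Q t + 2) fun i => 2 * i.val + 2
def NN : T ⊕ Fin 3 → ℕ :=
  Sum.elim (fun t => Tri S.dd (4 * S.Q t + 2) + 4 * S.z t -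
    (4 * S.Q t + 6 * (S.LL * S.x t) + 4 * S.y t)) fun i => Tri S.dd (2 * i.val + 2)
def gg : ℕ := S.LL * ((S.dd - 2) * (S.dd - 5))
noncomputable def ee : ℝ := 1 + 4 * S.θ / S.gg
def n1 (t : T) : ℕ := S.LL * S.x t + 4 * S.Q t + S.y t - (2 * (S.Q t * S.Q t) + 1 + S.z t)
def n3 (t : T) : ℕ := 4 * (S.Q t * S.Q t) + 2 * S.z t - (6 * S.Q t + 2 * S.y t)
def n5 (t : T) : ℕ := S.LL * S.x t + 2 * S.Q t + S.y t - (2 * (S.Q t * S.Q t) + S.z t)
def npd (t : T) : ℕ := S.n1 t + S.n3 t + S.n5 t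
def pkd (t : T) (i : ℕ) : Fin 3 := if i < S.n1 t then 0 else if i < S.n1 t + S.n3 t then 1 else 2
noncomputable def xi (t : T) : ℝ := 4 * (S.θ * S.x t - S.y t + S.z t) / S.ee

lemma sc_bd : 2 ≤ S.sc ∧ S.s ≤ S.sc ∧ 2 * S.sc ≤ S.sc * S.sc ∧
    2 * (S.sc * S.sc) ≤ S.sc * S.sc * S.sc := by
  have h1 := S.Q_lo (S.lab 0 0)
  have h2 := S.Q_hi (S.lab 0 0)
  have h3 : 2 ≤ S.sc := by omega
  refine ⟨h3, by omega, Nat.mul_le_mul_right _ h3, ?_⟩
  rw [mul_comm 2]
  exact Nat.mul_le_mul_left _ h3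

lemma Q_sq (t : T) : 2 * S.Q t ≤ S.Q t * S.Q t ∧ S.Q t * S.Q t ≤ S.sc * S.sc :=
  ⟨Nat.mul_le_mul_right _ (by have := S.Q_lo t; omega), Nat.mul_le_mul (S.Q_hi t) (S.Q_hi t)⟩

lemma Lx_bd (t : T) : S.LL ≤ S.LL * S.x t ∧ S.LL * S.x t ≤ 2 * (S.sc * S.sc * S.sc) := by
  refine ⟨Nat.le_mul_of_pos_right _ (S.x_pos t), ?_⟩
  rw [S.LL_eq, mul_assoc 2]
  exact Nat.mul_le_mul_left _ (Nat.mul_le_mul_left _ ((S.x_le t).trans S.sc_bd.2.1))

lemma kp_bd (z : T ⊕ Fin 3) : 2 ≤ S.kp z ∧ S.kp z ≤ 4 * S.sc + 6 := by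
  rcases z with t | i
  · have := S.Q_hi t; simp only [kp, Sum.elim_inl]; omega
  · have := i.2; simp only [kp, Sum.elim_inr]; omega

lemma dd_sq : 300000 * S.dd ≤ S.dd * S.dd := by
  apply Nat.mul_le_mul_right
  have := S.sc_bd
  have := S.dd_eq; omega

lemma NN_bd (z : T ⊕ Fin 3) :
    Tri S.dd (S.kp z) ≤ S.NN z + 20 * (S.sc * S.sc * S.sc) ∧
      S.NN z ≤ Tri S.dd (S.kp z) + 4 * S.sc := by
  rcases z with t | i
  · have h1 := S.Q_hi t
    have h2 := S.Lx_bd t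
    have h3 := S.y_le t
    have h4 := S.z_le t
    have h5 := S.sc_bd
    simp only [NN, kp, Sum.elim_inl]
    (clear * - h1 h2 h3 h4 h5; omega)
  · simp only [NN, kp, Sum.elim_inr]; omega

lemma kp_Tri (z : T ⊕ Fin 3) :
    81 * (S.dd * S.dd) ≤ 200 * Tri S.dd (S.kp z) ∧ 2 * Tri S.dd (S.kp z) ≤ S.dd * S.dd := by
  have h1 := S.kp_bd z
  have := S.sc_bd
  exact Tri_bd _ _ h1.1 (by have := S.dd_eq; omega)

lemma gg_real : (S.gg : ℝ) = S.LL * ((S.dd - 2) * (S.dd - 5)) := by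
  have := S.sc_bd
  unfold gg
  push_cast [Nat.cast_sub (show 2 ≤ S.dd by have := S.dd_eq; omega),
    Nat.cast_sub (show 5 ≤ S.dd by have := S.dd_eq; omega)]
  ring

lemma gg_ge : 2 * S.θ * ((S.dd : ℝ) * S.dd) ≤ S.gg ∧ 0 < (S.gg : ℝ) ∧ (300000 : ℝ) ≤ S.dd := by
  have h1 := S.sc_bd
  have h3 : (300000 : ℝ) ≤ S.dd := by
    exact_mod_cast (by have := S.dd_eq; omega : 300000 ≤ S.dd)
  have h4 : 4 * (S.s : ℝ) ≤ S.LL := by
    exact_mod_cast (by have := S.LL_eq; omega : 4 * S.s ≤ S.LL)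
  have h5 : (1 : ℝ) ≤ S.LL := by exact_mod_cast (by have := S.LL_eq; omega : 1 ≤ S.LL)
  have h6 : (S.dd : ℝ) * S.dd ≤ 2 * ((S.dd - 2) * (S.dd - 5)) := by nlinarith only [h3]
  have h7 := S.θ_le
  have h8 := S.θ_nonneg
  have h9 : 0 < ((S.dd : ℝ) - 2) * (S.dd - 5) := mul_pos (by linarith) (by linarith)
  rw [gg_real]
  refine ⟨?_, by positivity, h3⟩
  calc 2 * S.θ * ((S.dd : ℝ) * S.dd) ≤ 2 * S.θ * (2 * ((S.dd - 2) * (S.dd - 5))) :=
        mul_le_mul_of_nonneg_left h6 (by positivity)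
    _ = 4 * S.θ * ((S.dd - 2) * (S.dd - 5)) := by ring
    _ ≤ _ := mul_le_mul_of_nonneg_right (by linarith) h9.le

lemma ee_mul : (S.ee - 1) * S.gg = 4 * S.θ := by
  have := S.gg_ge.2.1
  unfold ee
  field_simp
  ring

lemma ee_bd : 1 ≤ S.ee ∧ (S.ee - 1) * (S.dd * S.dd) ≤ 2 := by
  obtain ⟨h1, h2, h3⟩ := S.gg_ge
  have h4 := S.ee_mul
  have h5 := S.θ_nonneg
  have h6 : 1 ≤ S.ee := by
    unfold ee
    have : 0 ≤ 4 * S.θ / S.gg := by positivity
    linarith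
  refine ⟨h6, le_of_mul_le_mul_right ?_ h2⟩
  calc (S.ee - 1) * (S.dd * S.dd) * S.gg = (S.ee - 1) * S.gg * (S.dd * S.dd) := by ring
    _ ≤ _ := by rw [h4]; linarith

lemma ee_le : S.ee ≤ 2 := by
  have h1 := S.ee_bd
  have h2 := S.gg_ge.2.2
  nlinarith only [h1, h2]

noncomputable def PP : Num (T ⊕ Fin 3) where
  d := S.dd
  k := S.kk
  kap := S.kp
  N := S.NN
  eps := S.ee
  Lam := ((240 * S.sc : ℕ) : ℝ)
  b0 := ((20 * (S.sc * S.sc * S.sc) : ℕ) : ℝ)
  m := S.dd * S.dd + 2 * S.dd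
  one_le_eps := S.ee_bd.1
  Lam_nonneg := by positivity
  b0_nonneg := by positivity
  kap_inj := by
    rintro (t | i) (t' | i') h <;> simp only [kp, Sum.elim_inl, Sum.elim_inr] at h
    · rw [S.Q_inj (a₁ := t) (a₂ := t') (by omega)]
    · have := S.Q_lo t; have := i'.2; omega
    · have := S.Q_lo t'; have := i.2; omega
    · rw [Fin.ext (show i.val = i'.val by omega)]
  kap_gap := by
    rintro (t | i) (t' | i') h <;> simp only [kp, kk, Sum.elim_inl, Sum.elim_inr] at h ⊢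
    · omega
    · have := S.Q_lo t; have := i'.2; omega
    · have := S.Q_lo t'; have := i.2; omega
    · omega
  size_gap := by
    intro z z' h
    have h1 := S.kp_bd z'
    have h2 := S.NN_bd z
    have h3 := S.NN_bd z'
    have := S.sc_bd
    have h4 := Tri_gap S.dd h (by have := S.dd_eq; omega)
    have := S.dd_eq
    omega
  size_lo := by
    intro z
    have h1 := S.NN_bd z
    have h2 := S.kp_Tri z
    have h3 := S.dd_sq
    have := S.sc_bd
    have h4 := S.dd_eq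
    omega
  size_hi := by
    intro z
    have h1 := S.NN_bd z
    have h2 := S.kp_Tri z
    have h3 := S.dd_sq
    have := S.sc_bd
    have h4 := S.dd_eq
    omega
  base_lo := by
    intro z
    have h1 : (Tri S.dd (S.kp z) : ℝ) ≤ S.NN z + ((20 * (S.sc * S.sc * S.sc) : ℕ) : ℝ) := by
      exact_mod_cast (S.NN_bd z).1
    have h2 : (S.NN z : ℝ) ≤ S.ee * S.NN z := le_mul_of_one_le_left (by positivity) S.ee_bd.1
    linarith
  big := by
    intro z
    have h1 := (S.kp_bd z).2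
    have h2 := S.sc_bd
    have h3 : S.sc * (2 * S.kp z + 5) ≤ S.sc * (25 * S.sc) := Nat.mul_le_mul_left _ (by omega)
    have h4 : S.sc * (25 * S.sc) = 25 * (S.sc * S.sc) := by ring
    have h5 : 240 * S.sc * (2 * S.kp z + 5) = 240 * (S.sc * (2 * S.kp z + 5)) := by ring
    have h6 : 4 * (20 * (S.sc * S.sc * S.sc) + 240 * S.sc * (2 * S.kp z + 5)) ≤ S.dd := by
      have := S.dd_eq; omega
    exact_mod_cast h6
  Lam_small := by
    have h2 := S.sc_bd
    have h6 : 6 * (240 * S.sc) ≤ S.dd := by have := S.dd_eq; omega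
    exact_mod_cast h6
  kap_small := by
    intro z
    have h1 := (S.kp_bd z).2
    have := S.sc_bd
    have h4 : 2 * S.kp z + 8 ≤ S.dd := by have := S.dd_eq; omega
    have h5 : 2 * (S.kp z : ℝ) + 8 ≤ S.dd := by exact_mod_cast h4
    linarith [S.ee_le]
  m_big := le_rfl
  d_big := by
    have := S.sc_bd
    have := S.dd_eq; omega

lemma sum_pkd (t : T) (f : Fin 3 → ℝ) :
    ∑ i ∈ range (S.npd t), f (S.pkd t i) = S.n1 t * f 0 + S.n3 t * f 1 + S.n5 t * f 2 := by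
  unfold npd
  rw [sum_range_add, sum_range_add]
  rw [sum_congr rfl (g := fun _ => f 0), sum_congr (s₁ := range (S.n3 t)) rfl (g := fun _ => f 1),
    sum_congr (s₁ := range (S.n5 t)) rfl (g := fun _ => f 2)]
  · simp
  · intro i _
    simp only [pkd]
    rw [if_neg (by omega), if_neg (by omega)]
  · intro i hi
    have := mem_range.mp hi
    simp only [pkd]
    rw [if_neg (by omega), if_pos (by omega)]
  · intro i hi
    simp only [pkd]
    rw [if_pos (mem_range.mp hi)]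

lemma cell_id (t : T) : S.PP.base (.inl t) + (2 * S.PP.k (.inl t) + 1) +
    ∑ i ∈ range (S.npd t), (S.PP.base (.inr (S.pkd t i)) + S.PP.k (.inr (S.pkd t i)))
      = S.PP.eps * S.xi t := by
  rw [S.sum_pkd t fun j => S.PP.base (.inr j) + S.PP.k (.inr j)]
  have h0 := S.Q_lo t
  have h1 := S.Q_hi t
  have h2 := S.Lx_bd t
  have h3 := S.Q_sq t
  have h4 := S.kp_Tri (.inl t)
  have h5 := S.dd_sq
  have h6 := S.sc_bd
  have hd := S.dd_eq
  have hL := S.LL_eq
  have hy := S.y_le t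
  have hz := S.z_le t
  simp only [kp, Sum.elim_inl] at h4
  have e1 : (S.n1 t : ℝ) =
      S.LL * S.x t + 4 * S.Q t + S.y t - (2 * (S.Q t * S.Q t) + 1 + S.z t) := by
    unfold n1; rw [Nat.cast_sub (by omega)]; push_cast; ring
  have e3 : (S.n3 t : ℝ) = 4 * (S.Q t * S.Q t) + 2 * S.z t - (6 * S.Q t + 2 * S.y t) := by
    unfold n3; rw [Nat.cast_sub (by omega)]; push_cast; ring
  have e5 : (S.n5 t : ℝ) = S.LL * S.x t + 2 * S.Q t + S.y t - (2 * (S.Q t * S.Q t) + S.z t) := by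
    unfold n5; rw [Nat.cast_sub (by omega)]; push_cast; ring
  have eN : (S.NN (.inl t) : ℝ) = Tri S.dd (4 * S.Q t + 2) + 4 * S.z t -
      (4 * S.Q t + 6 * (S.LL * S.x t) + 4 * S.y t) := by
    simp only [NN, Sum.elim_inl]; rw [Nat.cast_sub (by (clear * - h0 h2 h3 h4 h5 h6 hd hL hy; omega))]; push_cast; ring
  have t0 := two_mul_Tri S.dd (4 * S.Q t + 2) (by omega)
  have t2 := two_mul_Tri S.dd 2 (by omega)
  have t4 := two_mul_Tri S.dd 4 (by omega)
  have t6 := two_mul_Tri S.dd 6 (by omega)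
  have hg := S.gg_real
  have he := S.ee_mul
  have hx : S.ee * S.xi t = 4 * (S.θ * S.x t - S.y t + S.z t) := by
    have := S.ee_bd.1
    unfold xi
    field_simp
  simp only [Num.base, PP, eN, e1, e3, e5, hx]
  simp only [NN, kp, kk, Sum.elim_inl, Sum.elim_inr, Fin.val_zero, Fin.val_one, Fin.val_two,
    mul_zero, zero_add, mul_one, Nat.reduceAdd, Nat.reduceMul]
  push_cast at t0 t2 t4 t6 ⊢
  have key : (Tri S.dd (4 * S.Q t + 2) : ℝ)
      + (S.LL * S.x t + 4 * S.Q t + S.y t - (2 * (S.Q t * S.Q t) + 1 + S.z t)) * Tri S.dd 2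
      + (4 * (S.Q t * S.Q t) + 2 * S.z t - (6 * S.Q t + 2 * S.y t)) * Tri S.dd 4
      + (S.LL * S.x t + 2 * S.Q t + S.y t - (2 * (S.Q t * S.Q t) + S.z t)) * Tri S.dd 6
      - 4 * S.Q t - 6 * (S.LL * S.x t) - 4 * S.y t + 4 * S.z t = S.gg * S.x t := by
    rw [hg]
    linear_combination (1 / 2) * t0
      + ((S.LL * S.x t + 4 * S.Q t + S.y t - (2 * (S.Q t * S.Q t) + 1 + S.z t)) / 2 : ℝ) * t2
      + ((4 * (S.Q t * S.Q t) + 2 * S.z t - (6 * S.Q t + 2 * S.y t)) / 2 : ℝ) * t4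
      + ((S.LL * S.x t + 2 * S.Q t + S.y t - (2 * (S.Q t * S.Q t) + S.z t)) / 2 : ℝ) * t6
  linear_combination (S.ee - 1) * key + (S.x t : ℝ) * he

lemma sum_xi {ι : Type} (I : Finset ι) (t : ι → T) :
    ∑ p ∈ I, S.xi (t p) = 4 * (∑ p ∈ I, (S.θ * S.x (t p) - S.y (t p) + S.z (t p))) / S.ee := by
  simp only [xi]
  rw [← sum_div, ← mul_sum]

noncomputable def TT : TSys S.PP where
  cls := S.cls
  Hor := S.Hor
  Ver := S.Ver
  hor_cls := S.hor_cls
  ver_cls := S.ver_cls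
  np := S.npd
  pk := S.pkd
  xi := S.xi
  Cst := 4 * S.s
  Cst_nonneg := by positivity
  kmax := 4 * S.sc + 5
  kap_main := fun _ => rfl
  kap_pend := fun _ => rfl
  k_le := by
    rintro (t | i)
    · have := S.Q_hi t; simp only [PP, kk, Sum.elim_inl]; omega
    · have := i.2; simp only [PP, kk, Sum.elim_inr]; omega
  room := by
    intro t
    have h0 := S.Q_lo t
    have h1 := S.Q_hi t
    have h2 := S.Lx_bd t
    have h3 := S.Q_sq t
    have h6 := S.sc_bd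
    have hL := S.LL_eq
    have hd := S.dd_eq
    have hy := S.y_le t
    have hz := S.z_le t
    simp only [PP, kp, Sum.elim_inl, npd, n1, n3, n5]
    omega
  pend_nonneg := by
    intro i
    simp only [Num.base, PP, NN, kp, Sum.elim_inr]
    have : (0 : ℝ) ≤ Tri S.dd (2 * i.val + 2) := by positivity
    nlinarith [S.ee_bd.1]
  pend_le := by
    intro i
    have h1 : 2 * (Tri S.dd (2 * i.val + 2) : ℝ) ≤ S.dd * S.dd := by
      exact_mod_cast (S.kp_Tri (.inr i)).2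
    simp only [Num.base, PP, NN, kp, Sum.elim_inr]
    have : (0 : ℝ) ≤ Tri S.dd (2 * i.val + 2) := by positivity
    nlinarith [S.ee_bd.1, S.ee_bd.2]
  cell := S.cell_id
  eps_le := S.ee_le
  Lam_ge := by
    have h1 := S.sc_bd
    have h2 : (S.s : ℝ) ≤ S.sc := by exact_mod_cast h1.2.1
    have h3 : (2 : ℝ) ≤ S.sc := by exact_mod_cast h1.1
    simp only [PP]; push_cast; linarith
  tiling := fun σ τ B t h => by
    have h1 := S.tiling σ τ B t h
    have h2 := S.ee_bd.1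
    have h3 : (0 : ℝ) ≤ S.s * B.card := by positivity
    rw [S.sum_xi, le_div_iff₀ (by linarith)]
    nlinarith

lemma kk_pos (z : T ⊕ Fin 3) : 1 ≤ S.PP.k z := by
  rcases z with t | i
  · have := S.Q_lo t; simp only [PP, kk, Sum.elim_inl]; omega
  · simp only [PP, kk, Sum.elim_inr]; omega

lemma row (j n : ℕ) : ∑ i ∈ range n, S.TT.xi (S.lab i j) ≤ S.TT.Cst := by
  have h1 := S.lab_row j n
  have h2 := S.ee_bd.1
  have h3 : (0 : ℝ) ≤ S.s := by positivity
  change ∑ i ∈ range n, S.xi (S.lab i j) ≤ 4 * S.s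
  rw [S.sum_xi, div_le_iff₀ (by linarith)]
  nlinarith only [h1, h2]

theorem limit_eq [Finite T] : Tendsto (fun n : ℕ => (wsat (graph (rules S.TT)) n : ℝ) / n) atTop
    (𝓝 ((S.dd : ℝ) - S.ee)) := by
  obtain ⟨c, hc⟩ := upper_bound S.TT S.lab S.kk_pos S.lab_hor S.lab_ver S.row
  refine tendsto_of_bounds (m := S.PP.m) (fun n hn => ?_) hc
  obtain ⟨G, hG, h⟩ := exists_wsat (graph (rules S.TT)) n
  have := lower_bound (lowOK S.TT) hG (by simpa using hn)
  rw [h, Fintype.card_fin] at this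
  exact this

end Sy

/-- A finite labelled system gives a graph whose limit is a rational affine image of `θ`. -/
theorem Sys.main {T : Type} [Finite T] (S : Sys T) :
    ∃ (k : ℕ) (F : SimpleGraph (Fin k)), F.Connected ∧ ∃ r s : ℚ, r ≠ 0 ∧
      Tendsto (fun n : ℕ => (wsat F n : ℝ) / (n : ℝ)) atTop (𝓝 (r * S.θ + s)) := by
  obtain ⟨n, ⟨e⟩⟩ := Finite.exists_equiv_fin T
  let S' : Sy T :=
    { S with
      Q := fun t => (e t).val + S.s + 2
      sc := n + S.s + 2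
      LL := _
      dd := _
      Q_inj := fun t t' h => e.injective (Fin.ext (by simpa using h))
      Q_lo := fun t => by omega
      Q_hi := fun t => by have := (e t).2; omega
      LL_eq := rfl
      dd_eq := rfl }
  obtain ⟨k, ⟨e'⟩⟩ := Finite.exists_equiv_fin (Vx (rules S'.TT))
  let i : graph (rules S'.TT) ≃g (graph (rules S'.TT)).map e'.toEmbedding :=
    SimpleGraph.Iso.map e' _
  have hg : (S'.gg : ℚ) ≠ 0 := by
    have := S'.gg_ge.2.1
    exact_mod_cast this.ne'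
  refine ⟨k, _, (rules_connected S'.TT S'.kk_pos).map i.toHom i.surjective, -4 / S'.gg,
    S'.dd - 1, div_ne_zero (by norm_num) hg, ?_⟩
  simp only [← wsat_iso i]
  have h := S'.limit_eq
  have h2 : (S'.dd : ℝ) - S'.ee = ((-4 / S'.gg : ℚ) : ℝ) * S.θ + ((S'.dd - 1 : ℚ) : ℝ) := by
    have : S'.θ = S.θ := rfl
    rw [Sy.ee, this]
    push_cast
    ring
  rwa [h2] at h

end Pool.Agent.Work.MP_e0d07f_co.Hedge
end

-- merged part: Pool.Agent.Work.MP_e0d07f_co.Hedge.Contract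
section
namespace Pool.Agent.Work.MP_e0d07f_co.Hedge

open Finset

/-- The contraction lemma for complex quantities. -/
lemma contraction {X : Type} [Fintype X] [DecidableEq X] (σ τ : Equiv.Perm X) (B : Finset X)
    (xb xt ψ cl cr : X → ℂ) (K : ℝ) (hK : 0 ≤ K)
    (hrel : ∀ x, xt x = ψ x * xb x + cl x - cr x)
    (hψ : ∀ x, ‖ψ x‖ ≤ 2 / 3) (hb : ∀ x, ‖xb x‖ ≤ K) (ht : ∀ x, ‖xt x‖ ≤ K)
    (hcl : ∀ x, ‖cl x‖ ≤ K) (hcr : ∀ x, ‖cr x‖ ≤ K)
    (h1 : ∀ x ∉ B, ψ (σ x) = ψ x) (h2 : ∀ x ∉ B, cl (σ x) = cr x)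
    (h3 : ∀ x ∉ B, xb (τ x) = xt x) (h4 : ∀ x ∉ B, τ (σ x) = σ (τ x)) :
    ‖∑ x, xb x‖ ≤ 24 * K * B.card := by
  have hB : ∀ c : ℝ, ∑ x, (if x ∈ B then c else 0) = c * B.card := by
    intro c
    rw [Finset.sum_ite_mem, univ_inter, sum_const, nsmul_eq_mul, mul_comm]
  have hm : ∀ {a b : ℂ}, ‖a‖ ≤ 1 → ‖b‖ ≤ K → ‖a * b‖ ≤ K := fun ha hb' => by
    rw [norm_mul]
    exact (mul_le_mul ha hb' (norm_nonneg _) zero_le_one).trans (one_mul _).le
  have key : ∀ J : ℕ, ∀ f : X → ℂ, (∀ x, ‖f x‖ ≤ 1) →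
      ‖∑ x, f x * xb x‖ ≤ 3 * K * ∑ x, ‖f x - f (σ x)‖ + 24 * K * B.card
        + (2 / 3) ^ J * (K * Fintype.card X) := by
    intro J
    induction J with
    | zero =>
      intro f hf
      have h5 : ‖∑ x, f x * xb x‖ ≤ ∑ _x : X, K :=
        (norm_sum_le _ _).trans (sum_le_sum fun x _ => hm (hf x) (hb x))
      have h6 : 0 ≤ ∑ x, ‖f x - f (σ x)‖ := sum_nonneg fun x _ => norm_nonneg _
      simp only [sum_const, card_univ, nsmul_eq_mul] at h5
      have : (0 : ℝ) ≤ 24 * K * B.card := by (clear * - hK; positivity)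
      have : (0 : ℝ) ≤ 3 * K * ∑ x, ‖f x - f (σ x)‖ := by positivity
      simp only [pow_zero]
      linarith
    | succ J ih =>
      intro f hf
      set TV := ∑ x, ‖f x - f (σ x)‖ with hTV
      let g : X → ℂ := fun x => 3 / 2 * ψ x * f (τ x)
      have h32 : ∀ x, ‖3 / 2 * ψ x‖ ≤ 1 := fun x => by
        rw [norm_mul]
        have : ‖(3 / 2 : ℂ)‖ = 3 / 2 := by simp
        rw [this]
        linarith only [hψ x]
      have hg : ∀ x, ‖g x‖ ≤ 1 := by
        intro x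
        simp only [g]
        rw [norm_mul]
        exact mul_le_one₀ (h32 x) (norm_nonneg _) (hf _)
      have hTVτ : ∑ x, ‖f (τ x) - f (σ (τ x))‖ = TV :=
        Equiv.sum_comp τ (fun x => ‖f x - f (σ x)‖)
      have hTVg : ∑ x, ‖g x - g (σ x)‖ ≤ TV + 2 * B.card := by
        rw [← hTVτ, ← hB 2, ← sum_add_distrib]
        refine sum_le_sum fun x _ => ?_
        split_ifs with hx
        · have := norm_sub_le (g x) (g (σ x))
          have := norm_nonneg (f (τ x) - f (σ (τ x)))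
          linarith [hg x, hg (σ x)]
        · simp only [g, h1 x hx, h4 x hx, add_zero]
          rw [← mul_sub, norm_mul]
          exact mul_le_of_le_one_left (norm_nonneg _) (h32 x)
      have e1 : ∑ x, f x * xb x = ∑ x, f (τ x) * xb (τ x) :=
        (Equiv.sum_comp τ (fun x => f x * xb x)).symm
      have e2 : ∑ x, f (τ x) * cl x = ∑ x, f (τ (σ x)) * cl (σ x) :=
        (Equiv.sum_comp σ (fun x => f (τ x) * cl x)).symm
      have e3 : ‖∑ x, (f (τ x) * xb (τ x) - f (τ x) * xt x)‖ ≤ 2 * K * B.card := by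
        rw [← hB (2 * K)]
        refine (norm_sum_le _ _).trans (sum_le_sum fun x _ => ?_)
        split_ifs with hx
        · have := norm_sub_le (f (τ x) * xb (τ x)) (f (τ x) * xt x)
          linarith [hm (hf (τ x)) (hb (τ x)), hm (hf (τ x)) (ht x)]
        · rw [h3 x hx, sub_self, norm_zero]
      have e5 : ‖∑ x, (f (τ (σ x)) * cl (σ x) - f (τ x) * cr x)‖ ≤ K * TV + 2 * K * B.card := by
        rw [← hTVτ, ← hB (2 * K), mul_sum, ← sum_add_distrib]
        refine (norm_sum_le _ _).trans (sum_le_sum fun x _ => ?_)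
        split_ifs with hx
        · have := norm_sub_le (f (τ (σ x)) * cl (σ x)) (f (τ x) * cr x)
          have := mul_nonneg hK (norm_nonneg (f (τ x) - f (σ (τ x))))
          linarith [hm (hf (τ (σ x))) (hcl (σ x)), hm (hf (τ x)) (hcr x)]
        · rw [h2 x hx, h4 x hx, add_zero, ← sub_mul, norm_mul, norm_sub_rev, mul_comm]
          exact mul_le_mul_of_nonneg_right (hcr x) (norm_nonneg _)
      have e4 : ∑ x, f x * xb x = ∑ x, (f (τ x) * xb (τ x) - f (τ x) * xt x) +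
          (2 / 3 * ∑ x, g x * xb x + ∑ x, (f (τ (σ x)) * cl (σ x) - f (τ x) * cr x)) := by
        rw [e1, sum_sub_distrib (f := fun x => f (τ (σ x)) * cl (σ x)), ← e2, mul_sum,
          ← sum_sub_distrib, ← sum_add_distrib, ← sum_add_distrib]
        refine sum_congr rfl fun x _ => ?_
        simp only [g, hrel x]; ring
      have e6 : ‖(2 / 3 : ℂ) * ∑ x, g x * xb x‖ = 2 / 3 * ‖∑ x, g x * xb x‖ := by
        rw [norm_mul]; simp
      have e7 := ih g hg
      have e8 := mul_le_mul_of_nonneg_left hTVg hK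
      rw [e4, pow_succ]
      refine (norm_add_le _ _).trans ((add_le_add_right (norm_add_le _ _) _).trans ?_)
      rw [e6]
      linarith only [e3, e5, e7, e8]
  have hfin : ∀ J : ℕ,
      ‖∑ x, xb x‖ - 24 * K * B.card ≤ (2 / 3) ^ J * (K * Fintype.card X) := by
    intro J
    have := key J (fun _ => 1) (fun _ => by simp)
    simp only [one_mul, sub_self, norm_zero, sum_const_zero, mul_zero, zero_add] at this
    linarith only [this]
  have hlim : Filter.Tendsto (fun J : ℕ => (2 / 3 : ℝ) ^ J * (K * Fintype.card X))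
      Filter.atTop (nhds 0) := by
    simpa using (tendsto_pow_atTop_nhds_zero_of_lt_one (r := (2 / 3 : ℝ)) (by norm_num)
      (by norm_num)).mul_const (K * Fintype.card X : ℝ)
  have := ge_of_tendsto' hlim hfin
  linarith

end Pool.Agent.Work.MP_e0d07f_co.Hedge
end

-- merged part: Pool.Agent.Work.MP_e0d07f_co.Hedge.Tiles
section
namespace Pool.Agent.Work.MP_e0d07f_co.Hedge

open Finset

/-- Linear data: an integer matrix with one expanding direction `u` and contracting left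
eigenvectors `c z`. -/
structure AD (ι κ : Type) [Fintype ι] [Fintype κ] [DecidableEq ι] where
  i0 : ι
  A : ι → ι → ℤ
  b : ℕ
  q : ℕ
  Y : ι → ℤ
  u : ι → ℝ
  Λ : ℝ
  θ : ℝ
  c : κ → ι → ℂ
  μ : κ → ℂ
  γ : κ → ℂ
  b_pos : 1 ≤ b
  q_pos : 1 ≤ q
  u0 : u i0 = 1
  Λ_lo : 1 ≤ Λ
  Λ_hi : Λ ≤ 3
  θ_nonneg : 0 ≤ θ
  hA : ∀ k, Λ * ∑ l, A k l * u l = b * u k
  hc : ∀ z l, ∑ k, c z k * A k l = μ z * c z l
  hμ : ∀ z, γ z = 0 ∨ 3 * (b : ℝ) ≤ 2 * ‖μ z‖
  hγ : ∀ l, (θ : ℂ) * q * (if l = i0 then 1 else 0) - Y l = ∑ z, γ z * c z l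
  hY : ∑ l, Y l * u l = θ * q

structure Raw (ι : Type) where
  op : Bool
  v : ι → ℤ
  w : ι → ℤ
  l : ι → ℤ
  r : ι → ℤ
  c : ZMod 5

lemma floor_sub_le (x : ℝ) : |(⌊x⌋ : ℝ) - x| ≤ 1 := by
  have := Int.floor_le x
  have := Int.lt_floor_add_one x
  rw [abs_le]; constructor <;> linarith

namespace AD

variable {ι κ : Type} [Fintype ι] [Fintype κ] [DecidableEq ι] (D : AD ι κ)

def Valid (K : ℕ) (t : Raw ι) : Prop :=
  (∀ k, |t.v k| ≤ K ∧ |t.w k| ≤ K ∧ |t.l k| ≤ K ∧ |t.r k| ≤ K) ∧ 1 ≤ t.v D.i0 ∧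
    (t.op = true → ∀ k, ∑ l, D.A k l * t.w l + t.r k = D.b * t.v k + t.l k) ∧
    (t.op = false → ∀ k, 2 * t.w k + t.r k = t.v k + t.l k)

def Tile (K : ℕ) : Type := {t : Raw ι // D.Valid K t}

instance (K : ℕ) : Finite (D.Tile K) := by
  let I := Set.Icc (-(K : ℤ)) K
  have : Finite I := (Set.finite_Icc _ _).to_subtype
  let f : D.Tile K → Bool × (ι → I) × (ι → I) × (ι → I) × (ι → I) × ZMod 5 := fun t =>
    (t.1.op, fun k => ⟨t.1.v k, abs_le.1 (t.2.1 k).1⟩, fun k => ⟨t.1.w k, abs_le.1 (t.2.1 k).2.1⟩,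
      fun k => ⟨t.1.l k, abs_le.1 (t.2.1 k).2.2.1⟩, fun k => ⟨t.1.r k, abs_le.1 (t.2.1 k).2.2.2⟩,
      t.1.c)
  refine Finite.of_injective f ?_
  rintro ⟨⟨a1, a2, a3, a4, a5, a6⟩, ha⟩ ⟨⟨b1, b2, b3, b4, b5, b6⟩, hb⟩ h
  simp only [f, Prod.mk.injEq, funext_iff, Subtype.mk.injEq] at h
  apply Subtype.ext
  simp only [Raw.mk.injEq, funext_iff]
  exact h

/-- The weight of an integer vector. -/
noncomputable def wt (v : ι → ℤ) : ℝ := D.θ * (D.q * v D.i0) - ∑ l, D.Y l * v l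

/-- The `z`-th coordinate. -/
noncomputable def co (z : κ) (v : ι → ℤ) : ℂ := ∑ k, D.c z k * v k

lemma wt_eq (v : ι → ℤ) : (D.wt v : ℂ) = ∑ z, D.γ z * D.co z v := by
  have h1 : ∑ z, D.γ z * D.co z v = ∑ l, (∑ z, D.γ z * D.c z l) * v l := by
    simp only [co, mul_sum, sum_mul, mul_assoc]
    exact sum_comm
  rw [h1]
  simp only [← D.hγ, sub_mul, sum_sub_distrib, mul_ite, ite_mul, mul_one, mul_zero, zero_mul,
    sum_ite_eq', mem_univ, if_true, wt]
  push_cast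
  ring

lemma co_le (z : κ) {K : ℕ} {v : ι → ℤ} (h : ∀ k, |v k| ≤ K) :
    ‖D.co z v‖ ≤ (∑ k, ‖D.c z k‖) * K := by
  rw [co, sum_mul]
  refine (norm_sum_le _ _).trans (sum_le_sum fun k _ => ?_)
  rw [norm_mul, Complex.norm_intCast]
  refine mul_le_mul_of_nonneg_left ?_ (norm_nonneg _)
  exact_mod_cast h k

lemma co_op (z : κ) {K : ℕ} {t : Raw ι} (h : D.Valid K t) (ho : t.op = true) :
    D.μ z * D.co z t.w + D.co z t.r = D.b * D.co z t.v + D.co z t.l := by
  have h1 : ∀ k, ∑ l, (D.A k l : ℂ) * t.w l + t.r k = D.b * t.v k + t.l k := fun k => by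
    exact_mod_cast h.2.2.1 ho k
  have h2 : D.μ z * D.co z t.w = ∑ k, D.c z k * ∑ l, (D.A k l : ℂ) * t.w l := by
    simp only [co, mul_sum, ← mul_assoc, ← D.hc, sum_mul]
    exact sum_comm
  rw [h2]
  simp only [co, mul_sum _ _ (D.b : ℂ), ← sum_add_distrib, ← mul_add]
  refine sum_congr rfl fun k _ => ?_
  rw [h1 k]; ring

lemma co_half (z : κ) {K : ℕ} {t : Raw ι} (h : D.Valid K t) (ho : t.op = false) :
    2 * D.co z t.w + D.co z t.r = D.co z t.v + D.co z t.l := by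
  have h1 : ∀ k, 2 * (t.w k : ℂ) + t.r k = t.v k + t.l k := fun k => by
    exact_mod_cast h.2.2.2 ho k
  simp only [co, mul_sum, ← sum_add_distrib]
  refine sum_congr rfl fun k _ => ?_
  linear_combination D.c z k * h1 k

def THor {K : ℕ} (a b : D.Tile K) : Prop := a.1.op = b.1.op ∧ a.1.r = b.1.l ∧ b.1.c = a.1.c + 1

def TVer {K : ℕ} (a b : D.Tile K) : Prop := a.1.w = b.1.v ∧ b.1.c = a.1.c + 2

lemma tiling (K : ℕ) : ∃ C : ℝ, ∀ {X : Type} [Fintype X] [DecidableEq X] (σ τ : Equiv.Perm X)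
    (B : Finset X) (t : X → D.Tile K),
    (∀ x ∉ B, D.THor (t x) (t (σ x)) ∧ D.TVer (t x) (t (τ x)) ∧ τ (σ x) = σ (τ x)) →
    -(C * (B.card : ℝ)) ≤ ∑ x, D.wt (t x).1.v := by
  refine ⟨∑ z, ‖D.γ z‖ * (24 * ((∑ k, ‖D.c z k‖) * K)), fun σ τ B t h => ?_⟩
  have hz : ∀ z, ‖D.γ z * ∑ x, D.co z (t x).1.v‖ ≤
      ‖D.γ z‖ * (24 * ((∑ k, ‖D.c z k‖) * K)) * B.card := by
    intro z
    rcases D.hμ z with h0 | h0
    · simp [h0]
    have hb : (1 : ℝ) ≤ D.b := by exact_mod_cast D.b_pos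
    have hμ1 : 1 ≤ ‖D.μ z‖ := by linarith
    have hμ0 : D.μ z ≠ 0 := fun h => by rw [h, norm_zero] at hμ1; linarith
    have hdiv : ∀ (o : Bool) {a : ℂ} {M : ℝ}, ‖a‖ ≤ M → ‖a / if o then D.μ z else 2‖ ≤ M := by
      intro o a M ha
      rw [norm_div]
      refine (div_le_self (norm_nonneg _) ?_).trans ha
      cases o
      · simp
      · simpa using hμ1
    rw [norm_mul, mul_assoc]
    refine mul_le_mul_of_nonneg_left ?_ (norm_nonneg _)
    refine contraction σ τ B (fun x => D.co z (t x).1.v) (fun x => D.co z (t x).1.w)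
      (fun x => if (t x).1.op then D.b / D.μ z else 1 / 2)
      (fun x => D.co z (t x).1.l / if (t x).1.op then D.μ z else 2)
      (fun x => D.co z (t x).1.r / if (t x).1.op then D.μ z else 2) _ (by positivity)
      (fun x => ?_) (fun x => ?_) (fun x => D.co_le z fun k => ((t x).2.1 k).1)
      (fun x => D.co_le z fun k => ((t x).2.1 k).2.1)
      (fun x => hdiv _ (D.co_le z fun k => ((t x).2.1 k).2.2.1))
      (fun x => hdiv _ (D.co_le z fun k => ((t x).2.1 k).2.2.2))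
      (fun x hx => ?_) (fun x hx => ?_) (fun x hx => ?_) (fun x hx => (h x hx).2.2)
    · cases ho : (t x).1.op
      · have := D.co_half z (t x).2 ho
        simp only [Bool.false_eq_true, if_false]
        linear_combination (1 / 2) * this
      · have := D.co_op z (t x).2 ho
        simp only [if_true]
        field_simp
        linear_combination this
    · cases (t x).1.op
      · simp only [Bool.false_eq_true, if_false]
        norm_num
      · simp only [if_true, norm_div, Complex.norm_natCast]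
        rw [div_le_iff₀ (by linarith)]
        linarith only [h0]
    · simp only [(h x hx).1.1]
    · simp only [(h x hx).1.1, (h x hx).1.2.1]
    · simp only [(h x hx).2.1.1]
  have h1 : ((∑ x, D.wt (t x).1.v : ℝ) : ℂ) = ∑ z, D.γ z * ∑ x, D.co z (t x).1.v := by
    push_cast
    simp only [wt_eq, mul_sum]
    exact sum_comm
  have h2 : |∑ x, D.wt (t x).1.v| ≤
      (∑ z, ‖D.γ z‖ * (24 * ((∑ k, ‖D.c z k‖) * K))) * B.card := by
    rw [← Real.norm_eq_abs, ← Complex.norm_real, h1, sum_mul]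
    exact (norm_sum_le _ _).trans (sum_le_sum fun z _ => hz z)
  exact (abs_le.1 h2).1

/-! ### A tiling of the quarter plane -/

noncomputable def al : ℕ → ℝ
  | 0 => 2
  | j + 1 => if al j ≤ 2 then D.Λ * al j else al j / 2

lemma al_bd (j : ℕ) : 1 < D.al j ∧ D.al j ≤ 6 := by
  induction j with
  | zero => simp only [al]; constructor <;> norm_num
  | succ j ih =>
    have h1 := D.Λ_lo
    have h2 := D.Λ_hi
    simp only [al]
    split_ifs with h
    · constructor <;> nlinarith only [ih, h1, h2, h]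
    · constructor <;> linarith

noncomputable def fl (j i : ℕ) (k : ι) : ℤ := ⌊i * D.al j * D.u k⌋

open Classical in
noncomputable def car (j i : ℕ) (k : ι) : ℤ :=
  if D.al j ≤ 2 then D.b * D.fl j i k - ∑ l, D.A k l * D.fl (j + 1) i l
  else D.fl j i k - 2 * D.fl (j + 1) i k

open Classical in
noncomputable def rawLab (i j : ℕ) : Raw ι where
  op := decide (D.al j ≤ 2)
  v := fun k => D.fl j (i + 1) k - D.fl j i k
  w := fun k => D.fl (j + 1) (i + 1) k - D.fl (j + 1) i k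
  l := D.car j i
  r := D.car j (i + 1)
  c := (i : ZMod 5) + 2 * (j : ZMod 5)

lemma fl_step (j i : ℕ) (k : ι) :
    |((D.fl j (i + 1) k - D.fl j i k : ℤ) : ℝ)| ≤ 6 * |D.u k| + 2 := by
  have h1 := abs_le.1 (floor_sub_le (((i + 1 : ℕ) : ℝ) * D.al j * D.u k))
  have h2 := abs_le.1 (floor_sub_le ((i : ℝ) * D.al j * D.u k))
  have h3 := D.al_bd j
  have h4 : |D.al j * D.u k| ≤ 6 * |D.u k| := by
    rw [abs_mul, abs_of_pos (by linarith)]
    exact mul_le_mul_of_nonneg_right h3.2 (abs_nonneg _)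
  have h5 := abs_le.1 h4
  simp only [fl]
  push_cast at h1 h2 ⊢
  rw [abs_le]
  constructor <;> nlinarith only [h2, h5, h1]

lemma car_le (j i : ℕ) (k : ι) : |(D.car j i k : ℝ)| ≤ D.b + ∑ l, |(D.A k l : ℝ)| + 3 := by
  have hb : (0 : ℝ) ≤ D.b := by positivity
  have hs : 0 ≤ ∑ l, |(D.A k l : ℝ)| := sum_nonneg fun _ _ => abs_nonneg _
  have h1 := floor_sub_le ((i : ℝ) * D.al j * D.u k)
  unfold car
  split_ifs with h
  · have e : D.al (j + 1) = D.Λ * D.al j := by simp only [al, if_pos h]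
    have h2 : ((D.b * D.fl j i k - ∑ l, D.A k l * D.fl (j + 1) i l : ℤ) : ℝ) =
        D.b * (D.fl j i k - i * D.al j * D.u k) -
          ∑ l, D.A k l * (D.fl (j + 1) i l - i * D.al (j + 1) * D.u l) := by
      have h3 : ∑ l, D.A k l * (i * D.al (j + 1) * D.u l) = i * D.al j * (D.b * D.u k) := by
        rw [← D.hA k, e, mul_sum, mul_sum]
        exact sum_congr rfl fun l _ => by ring
      simp only [mul_sub, sum_sub_distrib, h3]
      push_cast
      ring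
    rw [h2]
    refine (abs_sub _ _).trans ?_
    have h4 : |D.b * ((D.fl j i k : ℝ) - i * D.al j * D.u k)| ≤ D.b := by
      rw [abs_mul, abs_of_nonneg hb]
      exact mul_le_of_le_one_right hb h1
    have h5 : |∑ l, D.A k l * ((D.fl (j + 1) i l : ℝ) - i * D.al (j + 1) * D.u l)|
        ≤ ∑ l, |(D.A k l : ℝ)| := by
      refine (abs_sum_le_sum_abs _ _).trans (sum_le_sum fun l _ => ?_)
      rw [abs_mul]
      exact mul_le_of_le_one_right (abs_nonneg _) (floor_sub_le _)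
    linarith
  · have e : D.al (j + 1) = D.al j / 2 := by simp only [al, if_neg h]
    have h2 := abs_le.1 (floor_sub_le ((i : ℝ) * D.al (j + 1) * D.u k))
    have h3 := abs_le.1 h1
    simp only [fl]
    push_cast
    rw [e] at h2 ⊢
    rw [abs_le]
    constructor <;> linarith only [hs, h2, h3]

lemma exists_K : ∃ K : ℕ, ∀ i j, D.Valid K (D.rawLab i j) := by
  obtain ⟨K, hK⟩ := exists_nat_ge
    (∑ k, (6 * |D.u k| + 2) + ∑ k, (D.b + ∑ l, |(D.A k l : ℝ)| + 3))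
  have p1 : ∀ k, 0 ≤ 6 * |D.u k| + 2 := fun k => by positivity
  have p2 : ∀ k, 0 ≤ D.b + ∑ l, |(D.A k l : ℝ)| + 3 := fun k => by positivity
  have h1 : ∀ j i k, |D.fl j (i + 1) k - D.fl j i k| ≤ K := fun j i k => by
    have a1 := D.fl_step j i k
    have a2 := single_le_sum (fun k _ => p1 k) (mem_univ k)
    have a3 := sum_nonneg (s := univ) fun k _ => p2 k
    have : |((D.fl j (i + 1) k - D.fl j i k : ℤ) : ℝ)| ≤ K := by linarith
    exact_mod_cast this
  have h2 : ∀ j i k, |D.car j i k| ≤ K := fun j i k => by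
    have a1 := D.car_le j i k
    have a2 := single_le_sum (fun k _ => p2 k) (mem_univ k)
    have a3 := sum_nonneg (s := univ) fun k _ => p1 k
    have : |(D.car j i k : ℝ)| ≤ K := by linarith
    exact_mod_cast this
  refine ⟨K, fun i j => ⟨fun k => ⟨h1 _ _ _, h1 _ _ _, h2 _ _ _, h2 _ _ _⟩, ?_, ?_, ?_⟩⟩
  · simp only [rawLab, fl, D.u0, mul_one]
    have a1 := (D.al_bd j).1
    have : ⌊(i : ℝ) * D.al j⌋ + 1 ≤ ⌊((i + 1 : ℕ) : ℝ) * D.al j⌋ := by
      rw [← Int.floor_add_one]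
      refine Int.floor_le_floor ?_
      push_cast
      linarith
    omega
  · intro ho k
    have h : D.al j ≤ 2 := by simpa [rawLab] using ho
    simp only [rawLab, car, if_pos h, mul_sub, sum_sub_distrib]
    ring
  · intro ho k
    have h : ¬ D.al j ≤ 2 := by simpa [rawLab] using ho
    simp only [rawLab, car, if_neg h]
    ring

lemma row_le (j n : ℕ) :
    ∑ i ∈ range n, D.wt (D.rawLab i j).v ≤ D.θ * D.q + ∑ l, |(D.Y l : ℝ)| := by
  have h1 : ∀ i, D.wt (D.rawLab i j).v = D.wt (D.fl j (i + 1)) - D.wt (D.fl j i) := fun i => by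
    simp only [wt, rawLab]
    push_cast
    simp only [mul_sub, sum_sub_distrib]
    ring
  simp only [h1]
  rw [sum_range_sub (fun i => D.wt (D.fl j i))]
  have h2 : D.wt (D.fl j 0) = 0 := by simp [wt, fl]
  have h3 : D.wt (D.fl j n) = D.θ * D.q * (D.fl j n D.i0 - n * D.al j * D.u D.i0) -
      ∑ l, D.Y l * (D.fl j n l - n * D.al j * D.u l) := by
    have h4 : ∑ l, D.Y l * (n * D.al j * D.u l) = n * D.al j * (D.θ * D.q) := by
      rw [← D.hY, mul_sum]
      exact sum_congr rfl fun l _ => by ring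
    simp only [wt, mul_sub, sum_sub_distrib, h4, D.u0]
    push_cast
    ring
  have h5 : |∑ l, D.Y l * ((D.fl j n l : ℝ) - n * D.al j * D.u l)| ≤ ∑ l, |(D.Y l : ℝ)| := by
    refine (abs_sum_le_sum_abs _ _).trans (sum_le_sum fun l _ => ?_)
    rw [abs_mul]
    exact mul_le_of_le_one_right (abs_nonneg _) (floor_sub_le _)
  have h6 : 0 ≤ D.θ * D.q := mul_nonneg D.θ_nonneg (by positivity)
  have h7 := mul_le_of_le_one_right h6
    ((le_abs_self _).trans (floor_sub_le ((n : ℝ) * D.al j * D.u D.i0)))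
  have h8 := (abs_le.1 h5).1
  rw [h2, h3]
  simp only [fl] at h8 ⊢
  linarith

theorem exists_sys : ∃ (T : Type) (_ : Finite T) (S : Sys T), S.θ = D.θ := by
  obtain ⟨K, hK⟩ := D.exists_K
  obtain ⟨C, hC⟩ := D.tiling K
  let yy : D.Tile K → ℤ := fun t => ∑ l, D.Y l * t.1.v l
  let xx : D.Tile K → ℕ := fun t => D.q * (t.1.v D.i0).toNat
  obtain ⟨s1, hs1⟩ := (Finite.bddAbove_range
    (fun t : D.Tile K => xx t + (yy t).toNat + (-yy t).toNat))
  obtain ⟨s2, hs2⟩ := exists_nat_ge (|C| + D.θ + (D.θ * D.q + ∑ l, |(D.Y l : ℝ)|))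
  have hs : ∀ t, xx t + (yy t).toNat + (-yy t).toNat ≤ s1 := fun t => hs1 ⟨t, rfl⟩
  have hw : ∀ t : D.Tile K,
      D.θ * xx t - ((yy t).toNat : ℕ) + ((-yy t).toNat : ℕ) = D.wt t.1.v := fun t => by
    have h1 : (((t.1.v D.i0).toNat : ℤ) : ℝ) = t.1.v D.i0 := by
      rw [Int.toNat_of_nonneg (by have := t.2.2.1; omega)]
    have h2 : ((((yy t).toNat : ℤ) - ((-yy t).toNat : ℤ) : ℤ) : ℝ) = yy t := by
      rw [Int.toNat_sub_toNat_neg]
    simp only [wt, xx, yy] at h1 h2 ⊢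
    push_cast at h1 h2 ⊢
    rw [h1]
    linarith only [h2]
  have p0 := D.θ_nonneg
  have p1 : 0 ≤ D.θ * D.q + ∑ l, |(D.Y l : ℝ)| := by positivity
  have p2 := abs_nonneg C
  have p3 : (0 : ℝ) ≤ s1 := by positivity
  refine ⟨D.Tile K, inferInstance,
    { cls := fun t => t.1.c
      Hor := D.THor
      Ver := D.TVer
      hor_cls := fun _ _ h => h.2.2
      ver_cls := fun _ _ h => h.2
      x := xx
      y := fun t => (yy t).toNat
      z := fun t => (-yy t).toNat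
      θ := D.θ
      s := s1 + s2
      x_pos := fun t => Nat.mul_pos D.q_pos (by have := t.2.2.1; omega)
      x_le := fun t => by have := hs t; omega
      y_le := fun t => by have := hs t; omega
      z_le := fun t => by have := hs t; omega
      θ_nonneg := p0
      θ_le := by push_cast; linarith
      tiling := fun σ τ B t h => ?_
      lab := fun i j => ⟨D.rawLab i j, hK i j⟩
      lab_hor := fun i j => ⟨rfl, rfl, ?_⟩
      lab_ver := fun i j => ⟨rfl, ?_⟩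
      lab_row := fun j n => ?_ }, rfl⟩
  · simp only [hw]
    refine le_trans (neg_le_neg (mul_le_mul_of_nonneg_right ?_ (by (clear * - ; positivity)))) (hC σ τ B t h)
    push_cast
    linarith [le_abs_self C]
  · simp only [rawLab]; push_cast; ring
  · simp only [rawLab]; push_cast; ring
  · simp only [hw]
    have := D.row_le j n
    push_cast
    linarith

end AD

end Pool.Agent.Work.MP_e0d07f_co.Hedge
end

-- merged part: Pool.Agent.Work.MP_e0d07f_co.Hedge.Alg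
section
namespace Pool.Agent.Work.MP_e0d07f_co.Hedge

open Finset Polynomial Filter Topology Pool.Agent.Work.MP_e0d07f_co

lemma exists_den {ι : Type} [Fintype ι] (f : ι → ℚ) :
    ∃ q : ℕ, 1 ≤ q ∧ ∃ g : ι → ℤ, ∀ i, (g i : ℚ) = q * f i := by
  classical
  refine ⟨∏ i, (f i).den, Nat.succ_le_of_lt (prod_pos fun i _ => (f i).den_pos),
    fun i => (f i).num * ∏ j ∈ univ.erase i, ((f j).den : ℤ), fun i => ?_⟩
  rw [← mul_prod_erase univ _ (mem_univ i)]
  push_cast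
  rw [← Rat.mul_den_eq_num]
  ring

/-- The companion matrix. -/
lemma exists_comp (P : ℚ[X]) (hP : P.Monic) (h1 : P ≠ 1) :
    ∃ C : Fin P.natDegree → Fin P.natDegree → ℚ,
      ∀ {K : Type} [Field K] [CharZero K] (x : K), aeval x P = 0 →
        ∀ k : Fin P.natDegree, ∑ l, (C k l : K) * x ^ (l : ℕ) = x ^ ((k : ℕ) + 1) := by
  refine ⟨fun k l => (X ^ ((k : ℕ) + 1) %ₘ P).coeff l, fun x hx k => ?_⟩
  have h2 := aeval_modByMonic_eq_self_of_root (p := X ^ ((k : ℕ) + 1)) hx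
  rw [aeval_eq_sum_range' (natDegree_modByMonic_lt _ hP h1)] at h2
  rw [Fin.sum_univ_eq_sum_range (fun l => (((X ^ ((k : ℕ) + 1) %ₘ P).coeff l : ℚ) : _) * x ^ l)]
  simpa [Algebra.smul_def] using h2

/-- Left eigenvectors from the Vandermonde matrix. -/
lemma exists_left {m : ℕ} (i0 : Fin m) (h0 : (i0 : ℕ) = 0) (z : Fin m → ℂ)
    (hz : Function.Injective z) (C : Fin m → Fin m → ℂ)
    (hC : ∀ i k, ∑ l, C k l * z i ^ (l : ℕ) = z i ^ ((k : ℕ) + 1)) :
    ∃ c : Fin m → Fin m → ℂ, (∀ i l, ∑ k, c i k * C k l = z i * c i l) ∧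
      ∀ l, ∑ i, c i l = if l = i0 then 1 else 0 := by
  let V : Matrix (Fin m) (Fin m) ℂ := (Matrix.vandermonde z).transpose
  have hV : IsUnit V.det := by
    rw [Matrix.det_transpose, isUnit_iff_ne_zero]
    exact Matrix.det_vandermonde_ne_zero_iff.2 hz
  have h1 : Matrix.of C * V = V * Matrix.diagonal z := by
    ext k i
    rw [Matrix.mul_diagonal, Matrix.mul_apply]
    simpa [V, pow_succ] using hC i k
  have h2 : V⁻¹ * Matrix.of C = Matrix.diagonal z * V⁻¹ := by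
    calc V⁻¹ * Matrix.of C = V⁻¹ * (Matrix.of C * V) * V⁻¹ := by
          rw [Matrix.mul_assoc, Matrix.mul_assoc, Matrix.mul_nonsing_inv _ hV, Matrix.mul_one]
      _ = Matrix.diagonal z * V⁻¹ := by
          rw [h1, ← Matrix.mul_assoc, Matrix.nonsing_inv_mul _ hV, Matrix.one_mul]
  refine ⟨fun i l => V⁻¹ i l, fun i l => ?_, fun l => ?_⟩
  · have := congrFun (congrFun h2 i) l
    rw [Matrix.diagonal_mul, Matrix.mul_apply] at this
    simpa using this
  · have := congrFun (congrFun (Matrix.mul_nonsing_inv _ hV) i0) l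
    rw [Matrix.mul_apply, Matrix.one_apply] at this
    simpa [V, h0, eq_comm] using this

lemma exists_far {κ : Type} [Fintype κ] (z : κ → ℂ) (α : ℂ) :
    ∃ n : ℕ, ∀ i, z i = α ∨ 13 / 2 ≤ n * ‖z i - α‖ := by
  obtain ⟨n, hn⟩ := exists_nat_ge (∑ i, 13 / 2 / ‖z i - α‖)
  refine ⟨n, fun i => ?_⟩
  by_cases h : z i = α
  · exact Or.inl h
  have h1 : 0 < ‖z i - α‖ := norm_pos_iff.2 (sub_ne_zero.2 h)
  have h2 := single_le_sum (f := fun i => 13 / 2 / ‖z i - α‖) (fun i _ => by positivity)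
    (mem_univ i)
  exact Or.inr ((div_le_iff₀ h1).1 (h2.trans hn))

theorem exists_AD (α : ℝ) (hα : IsAlgebraic ℚ α) (h0 : 0 ≤ α) :
    ∃ (m : ℕ) (D : AD (Fin m) (Fin m)), D.θ = α := by
  classical
  have hi : IsIntegral ℚ α := hα.isIntegral
  let P := minpoly ℚ α
  have hP : P.Monic := minpoly.monic hi
  have hm : 0 < P.natDegree := minpoly.natDegree_pos hi
  have hsep : P.Separable := (minpoly.irreducible hi).separable
  obtain ⟨C, hC⟩ := exists_comp P hP (minpoly.ne_one ℚ α)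
  have hcard : Fintype.card (P.rootSet ℂ) = P.natDegree :=
    card_rootSet_eq_natDegree hsep (IsAlgClosed.splits _)
  let e := (Fintype.equivFinOfCardEq hcard).symm
  let z : Fin P.natDegree → ℂ := fun i => e i
  have hz : Function.Injective z := Subtype.val_injective.comp e.injective
  have hroot : ∀ i, aeval (z i) P = 0 := fun i => aeval_eq_zero_of_mem_rootSet (e i).2
  let i0 : Fin P.natDegree := ⟨0, hm⟩
  obtain ⟨c, hc, hs⟩ := exists_left i0 rfl z hz (fun k l => C k l) fun i k => hC (z i) (hroot i) k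
  obtain ⟨q, hq, g, hg⟩ := exists_den (fun p : Fin P.natDegree × Fin P.natDegree => C p.1 p.2)
  have hgR : ∀ k l, (g (k, l) : ℝ) = q * C k l := fun k l => by exact_mod_cast hg (k, l)
  have hgC : ∀ k l, (g (k, l) : ℂ) = q * C k l := fun k l => by exact_mod_cast hg (k, l)
  obtain ⟨n, hn⟩ := exists_far z α
  have hu := hC α (minpoly.aeval ℚ α)
  let a : ℤ := ⌊n * α⌋ - 1
  have a1 : 1 ≤ n * α - a := by
    have := Int.floor_le (n * α)
    simp only [a]; push_cast; linarith only [this]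
  have a2 : n * α - a ≤ 2 := by
    have := Int.lt_floor_add_one (n * α)
    simp only [a]; push_cast; linarith
  have hqR : (1 : ℝ) ≤ q := by exact_mod_cast hq
  refine ⟨P.natDegree,
    { i0 := i0
      A := fun k l => n * g (k, l) - if k = l then q * a else 0
      b := 3 * q
      q := q
      Y := fun l => g (i0, l)
      u := fun k => α ^ (k : ℕ)
      Λ := 3 / (n * α - a)
      θ := α
      c := c
      μ := fun i => q * (n * z i - a)
      γ := fun i => q * (α - z i)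
      b_pos := by omega
      q_pos := hq
      u0 := pow_zero _
      Λ_lo := by rw [le_div_iff₀ (by linarith only [a1])]; linarith
      Λ_hi := by rw [div_le_iff₀ (by linarith)]; linarith
      θ_nonneg := h0
      hA := fun k => ?_
      hc := fun i l => ?_
      hμ := fun i => ?_
      hγ := fun l => ?_
      hY := ?_ }, rfl⟩
  · push_cast
    simp only [hgR, sub_mul, sum_sub_distrib, ite_mul, zero_mul, sum_ite_eq, mem_univ, if_true,
      mul_assoc, ← mul_sum, hu k]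
    have : n * α - a ≠ 0 := by linarith
    field_simp
    ring
  · push_cast
    simp only [hgC, mul_sub, sum_sub_distrib, mul_ite, mul_zero, sum_ite_eq', mem_univ, if_true]
    have : ∑ k, c i k * (n * (q * (C k l : ℂ))) = n * q * (z i * c i l) := by
      rw [← hc, mul_sum]
      exact sum_congr rfl fun k _ => by ring
    rw [this]
    ring
  · rcases hn i with h | h
    · left
      rw [h, sub_self, mul_zero]
    · right
      have h1 : ‖(n : ℂ) * (z i - α)‖ ≤ ‖n * z i - a‖ + ‖((n * α - a : ℝ) : ℂ)‖ := by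
        refine le_trans (le_of_eq ?_) (norm_sub_le _ _)
        congr 1
        push_cast
        ring
      rw [norm_mul, Complex.norm_natCast, Complex.norm_real, Real.norm_eq_abs,
        abs_of_nonneg (by linarith only [a1])] at h1
      rw [norm_mul, Complex.norm_natCast]
      push_cast
      nlinarith only [a2, h, h1]
  · have h1 : (C i0 l : ℂ) = ∑ i, z i * c i l := by
      simp only [← hc]
      rw [sum_comm]
      simp only [← sum_mul, hs, ite_mul, one_mul, zero_mul, sum_ite_eq', mem_univ, if_true]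
    rw [hgC, h1, ← hs, mul_sum, mul_sum, ← sum_sub_distrib]
    exact sum_congr rfl fun i _ => by ring
  · simp only [hgR, mul_assoc, ← mul_sum, hu i0]
    simp only [i0]
    ring

theorem alg_main (α : ℝ) (hα : IsAlgebraic ℚ α) :
    ∃ (k : ℕ) (F : SimpleGraph (Fin k)), F.Connected ∧ ∃ r s : ℚ, r ≠ 0 ∧
      Tendsto (fun n : ℕ => (wsat F n : ℝ) / (n : ℝ)) atTop (𝓝 (r * α + s)) := by
  have key : ∀ β : ℝ, IsAlgebraic ℚ β → 0 ≤ β →
      ∃ (k : ℕ) (F : SimpleGraph (Fin k)), F.Connected ∧ ∃ r s : ℚ, r ≠ 0 ∧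
        Tendsto (fun n : ℕ => (wsat F n : ℝ) / (n : ℝ)) atTop (𝓝 (r * β + s)) := by
    intro β hβ h0
    obtain ⟨m, D, hD⟩ := exists_AD β hβ h0
    obtain ⟨T, hT, S, hS⟩ := D.exists_sys
    rw [← hD, ← hS]
    exact S.main
  rcases le_total 0 α with h | h
  · exact key α hα h
  · obtain ⟨k, F, hF, r, s, hr, ht⟩ := key (-α) hα.neg (by linarith)
    refine ⟨k, F, hF, -r, s, neg_ne_zero.2 hr, ?_⟩
    simpa using ht

end Pool.Agent.Work.MP_e0d07f_co.Hedge
end
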