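import Pool.Agent.Results.MP_e0d07f_co.Algebraic

namespace Pool.Agent.Work.MP_e0d07f_co.Hedge

open Filter Topology Polynomial Pool.Agent.Work.MP_e0d07f_co

lemma sqrt_two_alg : IsAlgebraic ℚ (Real.sqrt 2) :=
  ⟨X ^ 2 - C 2, X_pow_sub_C_ne_zero (by norm_num) _, by simp⟩

/-- The negation of Q1, word for word the earlier hand-in, as the instance `α = √2`. -/
theorem old_statement : ∃ (k : ℕ) (F : SimpleGraph (Fin k)), F.Connected ∧
    ∃ w : ℝ, Irrational w ∧
      Tendsto (fun n : ℕ => (wsat F n : ℝ) / (n : ℝ)) atTop (nhds w) := by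
  obtain ⟨k, F, hF, w, hw, -, ht⟩ :=
    Pool.Agent.Results.MP_e0d07f_co.Algebraic.result _ sqrt_two_alg irrational_sqrt_two
  exact ⟨k, F, hF, w, hw, ht⟩

end Pool.Agent.Work.MP_e0d07f_co.Hedge
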